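import Pool.Agent.Helper985.BM.N1

set_option autoImplicit false

open MeasureTheory Filter Topology Set
open scoped ContDiff

namespace Pool.Agent.Helper985.BM

open VR

variable {n : ℕ}

/-- weighted number of neighbours -/
noncomputable def nn (y : Cf n) (j : Fin n) : ℝ := ∑ k ∈ Finset.univ.erase j, ek 2 (y j - y k)

open Classical in
/-- indicator of the particles with few neighbours -/
noncomputable def gd (M : ℝ) (y : Cf n) (j : Fin n) : ℝ := if nn y j ≤ M then 1 else 0

theorem nn_nonneg (y : Cf n) (j : Fin n) : 0 ≤ nn y j :=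
  Finset.sum_nonneg fun _ _ => (ek_pos _ _).le

theorem nn_cont (j : Fin n) : Continuous fun y : Cf n => nn y j := by
  unfold nn
  refine continuous_finsetSum _ fun k _ => (ek_cont_x 2).comp ?_
  exact (continuous_apply j).sub (continuous_apply k)

theorem gd_meas (M : ℝ) (j : Fin n) : Measurable fun y : Cf n => gd M y j := by
  classical
  unfold gd
  exact Measurable.ite (measurableSet_le (nn_cont j).measurable measurable_const)
    measurable_const measurable_const

theorem gd_bd (M : ℝ) (y : Cf n) (j : Fin n) : 0 ≤ gd M y j ∧ gd M y j ≤ 1 := by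
  unfold gd; split_ifs <;> norm_num

theorem good_sum {M : ℝ} (hM : 0 ≤ M) (x : E3) (y : Cf n) :
    ∑ j, gd M y j * ek 4 (x - y j) ≤ 1 + M := by
  classical
  set S : Finset (Fin n) := Finset.univ.filter fun j => nn y j ≤ M with hS
  have e1 : ∑ j, gd M y j * ek 4 (x - y j) = ∑ j ∈ S, ek 4 (x - y j) := by
    rw [hS, Finset.sum_filter]
    refine Finset.sum_congr rfl fun j _ => ?_
    unfold gd
    split_ifs <;> simp
  rw [e1]
  rcases S.eq_empty_or_nonempty with h | h
  · rw [h, Finset.sum_empty]; linarith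
  obtain ⟨j0, hj0, hmin⟩ := Finset.exists_min_image S (fun j => ‖x - y j‖) h
  rw [← Finset.add_sum_erase S _ hj0]
  have h1 : ek 4 (x - y j0) ≤ 1 := ek_le_one (by norm_num) _
  have h2 : ∑ j ∈ S.erase j0, ek 4 (x - y j) ≤ ∑ j ∈ S.erase j0, ek 2 (y j0 - y j) := by
    refine Finset.sum_le_sum fun j hj => ?_
    have hm := hmin j (Finset.mem_of_mem_erase hj)
    have h3 : ‖y j0 - y j‖ ≤ ‖x - y j0‖ + ‖x - y j‖ := by
      have : y j0 - y j = -(x - y j0) + (x - y j) := by abel
      rw [this]
      refine (norm_add_le _ _).trans ?_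
      rw [norm_neg]
    unfold ek
    apply Real.exp_le_exp.2
    linarith
  have h3 : ∑ j ∈ S.erase j0, ek 2 (y j0 - y j) ≤ nn y j0 := by
    unfold nn
    refine Finset.sum_le_sum_of_subset_of_nonneg (Finset.erase_subset_erase _ (Finset.subset_univ _))
      fun _ _ _ => (ek_pos _ _).le
  have h4 : nn y j0 ≤ M := (Finset.mem_filter.1 hj0).2
  linarith

theorem Yv_int {v : E3 → ℝ} (hv : Continuous v) (hc : HasCompactSupport v) (a : E3) :
    Integrable fun x => Yk (x - a) * v x := by
  obtain ⟨C, hC⟩ := hc.exists_bound_of_continuous hv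
  exact (Yk_int.comp_sub_right a).mul_bdd (c := C) hv.aestronglyMeasurable (Eventually.of_forall hC)

theorem Vv_int {v : E3 → ℝ} (hv : Continuous v) (hc : HasCompactSupport v) (a : E3) :
    Integrable fun x => Vk (x - a) * v x := by
  obtain ⟨C, hC⟩ := hc.exists_bound_of_continuous hv
  exact (Vk_int.comp_sub_right a).mul_bdd (c := C) hv.aestronglyMeasurable (Eventually.of_forall hC)

theorem ev_int {t : ℝ} (ht : 0 < t) {v : E3 → ℝ} (hv : Continuous v) (hc : HasCompactSupport v) (a : E3) :
    Integrable fun x => ek t (x - a) * v x := by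
  obtain ⟨C, hC⟩ := hc.exists_bound_of_continuous hv
  exact ((ek_radial ht).1.comp_sub_right a).mul_bdd (c := C) hv.aestronglyMeasurable
    (Eventually.of_forall hC)

theorem sq_cc {X : Type*} [NormedAddCommGroup X] {v : X → ℝ} (hc : HasCompactSupport v) :
    HasCompactSupport fun x => v x ^ 2 := hc.comp_left (g := fun t : ℝ => t ^ 2) (by norm_num)

theorem abs_cc {X : Type*} [NormedAddCommGroup X] {v : X → ℝ} (hc : HasCompactSupport v) :
    HasCompactSupport fun x => |v x| := hc.comp_left (g := fun t : ℝ => |t|) (by simp)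

theorem slice_ineq {v : E3 → ℝ} (hv : SC v) (y : Cf n) {M : ℝ} (hM : 0 ≤ M) :
    (∑ j, gd M y j * ∫ a, Vk (a - y j) * v a ^ 2) - (1 + M) * ∫ a, |v a| * gn v a ≤
      ∑ j, ∫ a, Yk (a - y j) * v a ^ 2 := by
  have hv2 : Continuous fun x => v x ^ 2 := hv.sm.continuous.pow 2
  have hc2 := sq_cc hv.cc
  have hg : Continuous fun x => |v x| * gn v x := hv.sm.continuous.abs.mul (gn_cont hv.sm)
  have hgc : HasCompactSupport fun x => |v x| * gn v x := (abs_cc hv.cc).mul_right
  have h1 : ∀ j, ∫ a, Yk (a - y j) * v a ^ 2 = (∫ a, Vk (a - y j) * v a ^ 2) +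
      ∫ a, (Yk (a - y j) - Vk (a - y j)) * v a ^ 2 := by
    intro j
    rw [← integral_add (Vv_int hv2 hc2 _)]
    · congr 1; ext a; ring
    · refine ((Yv_int hv2 hc2 (y j)).sub (Vv_int hv2 hc2 (y j))).congr
        (Eventually.of_forall fun a => ?_)
      simp only [Pi.sub_apply]; ring
  have h2 : ∀ j, 0 ≤ ∫ a, Yk (a - y j) * v a ^ 2 := fun j =>
    integral_nonneg fun a => mul_nonneg (Yk_nonneg _) (sq_nonneg _)
  have h3 : ∑ j, gd M y j * ∫ a, Yk (a - y j) * v a ^ 2 ≤ ∑ j, ∫ a, Yk (a - y j) * v a ^ 2 := by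
    refine Finset.sum_le_sum fun j _ => ?_
    have := gd_bd M y j
    nlinarith [h2 j]
  refine le_trans ?_ h3
  have h4 : ∑ j, gd M y j * ∫ a, Yk (a - y j) * v a ^ 2 =
      (∑ j, gd M y j * ∫ a, Vk (a - y j) * v a ^ 2) +
      ∑ j, gd M y j * ∫ a, (Yk (a - y j) - Vk (a - y j)) * v a ^ 2 := by
    rw [← Finset.sum_add_distrib]
    refine Finset.sum_congr rfl fun j _ => ?_
    rw [h1 j]; ring
  rw [h4]
  have h5 : - ((1 + M) * ∫ a, |v a| * gn v a) ≤
      ∑ j, gd M y j * ∫ a, (Yk (a - y j) - Vk (a - y j)) * v a ^ 2 := by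
    have h6 : ∑ j, gd M y j * ∫ a, ek 4 (a - y j) * (|v a| * gn v a) ≤
        (1 + M) * ∫ a, |v a| * gn v a := by
      have e : ∑ j, gd M y j * ∫ a, ek 4 (a - y j) * (|v a| * gn v a) =
          ∫ a, (∑ j, gd M y j * ek 4 (a - y j)) * (|v a| * gn v a) := by
        simp_rw [Finset.sum_mul]
        rw [integral_finsetSum]
        · refine Finset.sum_congr rfl fun j _ => ?_
          rw [← integral_const_mul]
          congr 1; ext a; ring
        · intro j _
          refine ((ev_int (show (0:ℝ) < 4 by norm_num) hg hgc (y j)).const_mul (gd M y j)).congr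
            (Eventually.of_forall fun a => ?_)
          simp only; ring
      rw [e, ← integral_const_mul]
      refine integral_mono_of_nonneg (Eventually.of_forall fun a => ?_)
        ((hg.integrable_of_hasCompactSupport hgc).const_mul _) (Eventually.of_forall fun a => ?_)
      · refine mul_nonneg (Finset.sum_nonneg fun j _ => mul_nonneg (gd_bd M y j).1 (ek_pos _ _).le) ?_
        exact mul_nonneg (abs_nonneg _) (gn_nonneg _ _)
      · exact mul_le_mul_of_nonneg_right (good_sum hM a y) (mul_nonneg (abs_nonneg _) (gn_nonneg _ _))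
    have h7 : -(∑ j, gd M y j * ∫ a, ek 4 (a - y j) * (|v a| * gn v a)) ≤
        ∑ j, gd M y j * ∫ a, (Yk (a - y j) - Vk (a - y j)) * v a ^ 2 := by
      rw [← Finset.sum_neg_distrib]
      refine Finset.sum_le_sum fun j _ => ?_
      have := sing_bd hv.sm hv.cc (y j)
      have h8 := (abs_le.1 this).1
      have h9 := (gd_bd M y j).1
      nlinarith
    linarith
  linarith

/-- the other particles -/
def rst (i : Fin (n + 1)) (x : Cf (n + 1)) : Cf n := fun j => x (i.succAbove j)

theorem rst_ins (i : Fin (n + 1)) (a : E3) (y : Cf n) : rst i (ins i a y) = y := by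
  ext1 j; exact ins_succ i a y j

theorem rst_meas (i : Fin (n + 1)) : Measurable (rst i) :=
  measurable_pi_lambda _ fun j => measurable_pi_apply _

theorem FY_int {u : Cf (n + 1) → ℝ} (hu : SC u) (i : Fin (n + 1)) :
    Integrable fun x => (∑ j : Fin n, Yk (x i - x (i.succAbove j))) * u x ^ 2 := by
  simp_rw [Finset.sum_mul]
  exact integrable_finsetSum _ fun j _ => pair_int Yk_meas Yk_int (Fin.succAbove_ne i j).symm
    (hu.sm.continuous.pow 2) (sq_cc hu.cc)

theorem gV_int {u : Cf (n + 1) → ℝ} (hu : SC u) (i : Fin (n + 1)) (j : Fin n) (M : ℝ) :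
    Integrable fun x => gd M (rst i x) j * Vk (x i - x (i.succAbove j)) * u x ^ 2 := by
  have h := pair_int Vk_cont.measurable Vk_int (Fin.succAbove_ne i j).symm
    (f := fun x => u x ^ 2) (hu.sm.continuous.pow 2) (sq_cc hu.cc)
  have h2 := h.bdd_mul (c := 1) ((gd_meas M j).comp (rst_meas i)).aestronglyMeasurable
    (Eventually.of_forall fun x => by
      rw [Function.comp_apply, Real.norm_eq_abs, abs_of_nonneg (gd_bd _ _ _).1]
      exact (gd_bd _ _ _).2)
  refine h2.congr (Eventually.of_forall fun x => ?_)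
  simp only [Function.comp_apply]; ring

theorem stepA1 {u : Cf (n + 1) → ℝ} (hu : SC u) (i : Fin (n + 1)) {M : ℝ} (hM : 0 ≤ M) :
    (∫ x, (∑ j : Fin n, gd M (rst i x) j * Vk (x i - x (i.succAbove j))) * u x ^ 2) -
      (1 + M) * (√(N2 u) * √(Ti i u)) ≤
      ∫ x, (∑ j : Fin n, Yk (x i - x (i.succAbove j))) * u x ^ 2 := by
  have hV : Integrable fun x => (∑ j : Fin n, gd M (rst i x) j * Vk (x i - x (i.succAbove j))) * u x ^ 2 := by
    simp_rw [Finset.sum_mul]
    exact integrable_finsetSum _ fun j _ => gV_int hu i j M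
  have hY := FY_int hu i
  have hG : Integrable fun x => |u x| * gni i u x :=
    (hu.sm.continuous.abs.mul (gni_cont hu i)).integrable_of_hasCompactSupport (abs_cc hu.cc).mul_right
  have hcs : ∫ x, |u x| * gni i u x ≤ √(N2 u) * √(Ti i u) := by
    have h := (le_abs_self _).trans (cs hu.L2.abs (gni_L2 hu i))
    rwa [N2_abs, gni_N2 hu i] at h
  have key : (∫ x, (∑ j : Fin n, gd M (rst i x) j * Vk (x i - x (i.succAbove j))) * u x ^ 2) -
      (1 + M) * ∫ x, |u x| * gni i u x ≤
      ∫ x, (∑ j : Fin n, Yk (x i - x (i.succAbove j))) * u x ^ 2 := by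
    rw [integral_sl i hV, integral_sl i hY, integral_sl i hG, ← integral_const_mul,
      ← integral_sub (sl_int_y hV) ((sl_int_y hG).const_mul _)]
    refine integral_mono ((sl_int_y hV).sub ((sl_int_y hG).const_mul _)) (sl_int_y hY) fun y => ?_
    simp only
    have hs := slice_ineq (hu.slice i y) y hM
    have hv2 : Continuous fun a => u (ins i a y) ^ 2 := (hu.slice i y).sm.continuous.pow 2
    have hc2 := sq_cc (hu.slice i y).cc
    have e1 : ∫ a, (∑ j : Fin n, gd M (rst i (ins i a y)) j *
        Vk (ins i a y i - ins i a y (i.succAbove j))) * u (ins i a y) ^ 2 =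
        ∑ j, gd M y j * ∫ a, Vk (a - y j) * u (ins i a y) ^ 2 := by
      simp_rw [rst_ins, ins_same, ins_succ, Finset.sum_mul]
      rw [integral_finsetSum]
      · refine Finset.sum_congr rfl fun j _ => ?_
        rw [← integral_const_mul]
        congr 1; ext a; ring
      · intro j _
        refine ((Vv_int hv2 hc2 (y j)).const_mul (gd M y j)).congr (Eventually.of_forall fun a => ?_)
        simp only; ring
    have e2 : ∫ a, (∑ j : Fin n, Yk (ins i a y i - ins i a y (i.succAbove j))) * u (ins i a y) ^ 2 =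
        ∑ j, ∫ a, Yk (a - y j) * u (ins i a y) ^ 2 := by
      simp_rw [ins_same, ins_succ, Finset.sum_mul]
      rw [integral_finsetSum]
      intro j _
      exact Yv_int hv2 hc2 (y j)
    have e3 : ∫ a, |u (ins i a y)| * gni i u (ins i a y) =
        ∫ a, |u (ins i a y)| * gn (fun a => u (ins i a y)) a := by
      simp_rw [gni_slice hu]
    rw [e1, e2, e3]
    exact hs
  have : (1 + M) * ∫ x, |u x| * gni i u x ≤ (1 + M) * (√(N2 u) * √(Ti i u)) := by gcongr
  linarith

end Pool.Agent.Helper985.BM
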