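import Pool.Agent.Helper985.BM.K1

set_option autoImplicit false

open MeasureTheory Filter Topology Set
open scoped ProbabilityTheory

namespace Pool.Agent.Helper985.BM

open VR

/-! ### positive definite kernels -/

/-- pairing of two measures through a kernel -/
noncomputable def pr (k : E3 × E3 → ℝ) (σ₁ σ₂ : Measure E3) : ℝ := ∫ p, k p ∂(σ₁.prod σ₂)

/-- bounded measurable kernels -/
def BK (k : E3 × E3 → ℝ) : Prop := Measurable k ∧ ∃ C : ℝ, ∀ p, |k p| ≤ C

def PD (k : E3 × E3 → ℝ) : Prop := ∀ σ₁ σ₂ : Measure E3, IsFiniteMeasure σ₁ → IsFiniteMeasure σ₂ →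
  2 * pr k σ₁ σ₂ ≤ pr k σ₁ σ₁ + pr k σ₂ σ₂

theorem BK.int {k : E3 × E3 → ℝ} (hk : BK k) (σ₁ σ₂ : Measure E3) [IsFiniteMeasure σ₁]
    [IsFiniteMeasure σ₂] : Integrable k (σ₁.prod σ₂) := by
  obtain ⟨h1, C, h2⟩ := hk
  exact Integrable.of_bound h1.aestronglyMeasurable C (Eventually.of_forall h2)

theorem pr_mono {k k' : E3 × E3 → ℝ} {σ₁ σ₂ : Measure E3} (h1 : Integrable k (σ₁.prod σ₂))
    (h2 : Integrable k' (σ₁.prod σ₂)) (h : ∀ p, k p ≤ k' p) : pr k σ₁ σ₂ ≤ pr k' σ₁ σ₂ :=
  integral_mono h1 h2 h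

theorem PD.add {k k' : E3 × E3 → ℝ} (hk : BK k) (hk' : BK k') (h : PD k) (h' : PD k') :
    PD (fun p => k p + k' p) := by
  intro σ₁ σ₂ i1 i2
  have e : ∀ (σ τ : Measure E3) (_ : IsFiniteMeasure σ) (_ : IsFiniteMeasure τ),
      pr (fun p => k p + k' p) σ τ = pr k σ τ + pr k' σ τ := fun σ τ _ _ =>
    integral_add (hk.int σ τ) (hk'.int σ τ)
  rw [e _ _ i1 i2, e _ _ i1 i1, e _ _ i2 i2]
  have := h σ₁ σ₂ i1 i2
  have := h' σ₁ σ₂ i1 i2
  linarith

theorem PD.const_mul {k : E3 × E3 → ℝ} (h : PD k) {c : ℝ} (hc : 0 ≤ c) :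
    PD (fun p => c * k p) := by
  intro σ₁ σ₂ i1 i2
  unfold pr
  rw [integral_const_mul, integral_const_mul, integral_const_mul]
  have := h σ₁ σ₂ i1 i2
  unfold pr at this
  nlinarith

theorem PD.limit {k : ℕ → E3 × E3 → ℝ} {k' : E3 × E3 → ℝ} (hk : ∀ n, Measurable (k n)) (C : ℝ)
    (hC : ∀ n p, |k n p| ≤ C) (h : ∀ n, PD (k n)) (hl : ∀ p, Tendsto (fun n => k n p) atTop (𝓝 (k' p))) :
    PD k' := by
  intro σ₁ σ₂ i1 i2
  have e : ∀ (σ τ : Measure E3) (_ : IsFiniteMeasure σ) (_ : IsFiniteMeasure τ),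
      Tendsto (fun n => pr (k n) σ τ) atTop (𝓝 (pr k' σ τ)) := fun σ τ _ _ => by
    unfold pr
    refine tendsto_integral_of_dominated_convergence (fun _ => C)
      (fun n => (hk n).aestronglyMeasurable) (integrable_const _) (fun n => ?_) ?_
    · exact Eventually.of_forall fun p => hC n p
    · exact Eventually.of_forall hl
  exact le_of_tendsto_of_tendsto' ((e _ _ i1 i2).const_mul 2) ((e _ _ i1 i1).add (e _ _ i2 i2))
    fun n => h n σ₁ σ₂ i1 i2

/-- mixtures of positive definite kernels -/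
theorem PD.mix {Ω : Type*} [MeasurableSpace Ω] {P : Measure Ω} [IsFiniteMeasure P]
    {k : Ω → E3 × E3 → ℝ} (hm : Measurable (Function.uncurry k)) (C : ℝ) (hC : ∀ ω p, |k ω p| ≤ C)
    (h : ∀ᵐ ω ∂P, PD (k ω)) : PD (fun p => ∫ ω, k ω p ∂P) := by
  intro σ₁ σ₂ i1 i2
  have e : ∀ (σ τ : Measure E3) (_ : IsFiniteMeasure σ) (_ : IsFiniteMeasure τ),
      pr (fun p => ∫ ω, k ω p ∂P) σ τ = ∫ ω, pr (k ω) σ τ ∂P ∧
        Integrable (fun ω => pr (k ω) σ τ) P := fun σ τ _ _ => by
    have hi : Integrable (Function.uncurry k) (P.prod (σ.prod τ)) :=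
      Integrable.of_bound hm.aestronglyMeasurable C (Eventually.of_forall fun q => hC q.1 q.2)
    refine ⟨?_, hi.integral_prod_left⟩
    unfold pr
    exact (integral_integral_swap hi).symm
  rw [(e _ _ i1 i2).1, (e _ _ i1 i1).1, (e _ _ i2 i2).1, ← integral_const_mul,
    ← integral_add (e _ _ i1 i1).2 (e _ _ i2 i2).2]
  refine integral_mono_ae ((e _ _ i1 i2).2.const_mul 2)
    ((e _ _ i1 i1).2.add (e _ _ i2 i2).2) ?_
  filter_upwards [h] with ω hω
  exact hω σ₁ σ₂ i1 i2

/-! ### planes -/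

/-- planes, given by a normal vector and an offset -/
abbrev Pl := E3 × ℝ

noncomputable def ip (g x : E3) : ℝ := inner ℝ g x

theorem ip_cont : Continuous fun p : E3 × E3 => ip p.1 p.2 := by unfold ip; fun_prop

open Classical in
/-- the side of the point with respect to finitely many planes -/
noncomputable def lab {M : ℕ} (ω : Fin M → Pl) (x : E3) : Fin M → Bool :=
  fun m => decide ((ω m).2 < ip (ω m).1 x)

open Classical in
/-- one plane: `1` if it does not separate -/
noncomputable def sm (ω : Pl) (x y : E3) : ℝ := if (ω.2 < ip ω.1 x ↔ ω.2 < ip ω.1 y) then 1 else 0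

/-- `1` if none of the planes separates -/
noncomputable def SM {M : ℕ} (ω : Fin M → Pl) (x y : E3) : ℝ := if lab ω x = lab ω y then 1 else 0

theorem SM_eq {M : ℕ} (ω : Fin M → Pl) (x y : E3) : SM ω x y = ∏ m, sm (ω m) x y := by
  classical
  unfold SM
  split_ifs with h
  · symm
    refine Finset.prod_eq_one fun m _ => ?_
    have := congrFun h m
    unfold lab at this
    unfold sm
    rw [if_pos]
    simpa using this
  · symm
    have : ∃ m, lab ω x m ≠ lab ω y m := by
      by_contra hc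
      push Not at hc
      exact h (funext hc)
    obtain ⟨m, hm⟩ := this
    refine Finset.prod_eq_zero (Finset.mem_univ m) ?_
    unfold sm
    rw [if_neg]
    unfold lab at hm
    simpa using hm

theorem side_meas : MeasurableSet {q : Pl × E3 | q.1.2 < ip q.1.1 q.2} := by
  refine measurableSet_lt (measurable_snd.comp measurable_fst) ?_
  exact ip_cont.measurable.comp ((measurable_fst.comp measurable_fst).prodMk measurable_snd)

theorem sm_meas : Measurable fun q : Pl × (E3 × E3) => sm q.1 q.2.1 q.2.2 := by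
  classical
  unfold sm
  refine Measurable.ite ?_ measurable_const measurable_const
  have h1 : MeasurableSet {q : Pl × (E3 × E3) | q.1.2 < ip q.1.1 q.2.1} :=
    side_meas.preimage (measurable_fst.prodMk (measurable_fst.comp measurable_snd))
  have h2 : MeasurableSet {q : Pl × (E3 × E3) | q.1.2 < ip q.1.1 q.2.2} :=
    side_meas.preimage (measurable_fst.prodMk (measurable_snd.comp measurable_snd))
  have e : {q : Pl × (E3 × E3) | (q.1.2 < ip q.1.1 q.2.1 ↔ q.1.2 < ip q.1.1 q.2.2)} =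
      ({q : Pl × (E3 × E3) | q.1.2 < ip q.1.1 q.2.1} ∩ {q : Pl × (E3 × E3) | q.1.2 < ip q.1.1 q.2.2})
      ∪ ({q : Pl × (E3 × E3) | q.1.2 < ip q.1.1 q.2.1}ᶜ ∩
        {q : Pl × (E3 × E3) | q.1.2 < ip q.1.1 q.2.2}ᶜ) := by
    ext q
    simp only [Set.mem_union, Set.mem_inter_iff, Set.mem_compl_iff, Set.mem_ofPred_eq]
    tauto
  rw [e]
  exact (h1.inter h2).union (h1.compl.inter h2.compl)

theorem SM_meas {M : ℕ} : Measurable fun q : (Fin M → Pl) × (E3 × E3) => SM q.1 q.2.1 q.2.2 := by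
  simp_rw [SM_eq]
  refine Finset.measurable_prod _ fun m _ => ?_
  have h : Measurable fun q : (Fin M → Pl) × (E3 × E3) => (q.1 m, q.2) :=
    ((measurable_pi_apply m).comp measurable_fst).prodMk measurable_snd
  exact sm_meas.comp h

theorem SM_bd {M : ℕ} (ω : Fin M → Pl) (x y : E3) : 0 ≤ SM ω x y ∧ SM ω x y ≤ 1 := by
  unfold SM; split_ifs <;> norm_num

/-- the cell of a label -/
def cell {M : ℕ} (ω : Fin M → Pl) (l : Fin M → Bool) : Set E3 := {x | lab ω x = l}

theorem cell_meas {M : ℕ} (ω : Fin M → Pl) (l : Fin M → Bool) : MeasurableSet (cell ω l) := by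
  classical
  have h : Measurable (lab ω) := by
    refine measurable_pi_lambda _ fun m => ?_
    refine measurable_to_bool ?_
    have : (fun x => lab ω x m) ⁻¹' {true} = {x | (ω m).2 < ip (ω m).1 x} := by
      ext x
      simp [lab]
    rw [this]
    exact measurableSet_lt measurable_const
      (ip_cont.measurable.comp (measurable_const.prodMk measurable_id))
  exact h (measurableSet_singleton l)

theorem SM_sum {M : ℕ} (ω : Fin M → Pl) (x y : E3) : SM ω x y =
    ∑ l : Fin M → Bool, (cell ω l).indicator (fun _ => (1:ℝ)) x * (cell ω l).indicator (fun _ => (1:ℝ)) y := by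
  classical
  unfold SM
  rw [Finset.sum_eq_single (lab ω x)]
  · have hx : x ∈ cell ω (lab ω x) := rfl
    rw [Set.indicator_of_mem hx]
    split_ifs with h
    · have hy : y ∈ cell ω (lab ω x) := h.symm
      rw [Set.indicator_of_mem hy, one_mul]
    · have hy : y ∉ cell ω (lab ω x) := fun hc => h (Eq.symm hc)
      rw [Set.indicator_of_notMem hy, mul_zero]
  · intro l _ hl
    have hx : x ∉ cell ω l := fun hc => hl (Eq.symm hc)
    rw [Set.indicator_of_notMem hx, zero_mul]
  · intro h; exact absurd (Finset.mem_univ _) h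

theorem SM_pr {M : ℕ} (ω : Fin M → Pl) (σ τ : Measure E3) [IsFiniteMeasure σ] [IsFiniteMeasure τ] :
    pr (fun p => SM ω p.1 p.2) σ τ = ∑ l : Fin M → Bool, σ.real (cell ω l) * τ.real (cell ω l) := by
  unfold pr
  simp_rw [SM_sum]
  rw [integral_finsetSum]
  · refine Finset.sum_congr rfl fun l _ => ?_
    rw [integral_prod_mul (fun x => (cell ω l).indicator (fun _ => (1:ℝ)) x)
      (fun y => (cell ω l).indicator (fun _ => (1:ℝ)) y)]
    rw [integral_indicator_const _ (cell_meas ω l), integral_indicator_const _ (cell_meas ω l)]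
    simp
  · intro l _
    refine Integrable.mul_prod (f := fun x => (cell ω l).indicator (fun _ => (1:ℝ)) x)
      (g := fun y => (cell ω l).indicator (fun _ => (1:ℝ)) y) ?_ ?_
    · exact (integrable_const (1:ℝ)).indicator (cell_meas ω l)
    · exact (integrable_const (1:ℝ)).indicator (cell_meas ω l)

theorem SM_PD {M : ℕ} (ω : Fin M → Pl) : PD (fun p => SM ω p.1 p.2) := by
  intro σ₁ σ₂ i1 i2
  rw [SM_pr, SM_pr, SM_pr, Finset.mul_sum, ← Finset.sum_add_distrib]
  refine Finset.sum_le_sum fun l _ => ?_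
  nlinarith [sq_nonneg (σ₁.real (cell ω l) - σ₂.real (cell ω l))]

/-- offsets and normals, uniformly distributed -/
noncomputable def PM (R : ℝ) : Measure Pl :=
  ProbabilityTheory.cond (volume : Measure Pl) (Metric.closedBall (0:E3) 1 ×ˢ Icc (-R) R)

noncomputable def vB : ℝ := (volume : Measure E3).real (Metric.closedBall 0 1)
noncomputable def c1 : ℝ := ∫ g in Metric.closedBall (0:E3) 1, |g 0|

theorem vB_pos : 0 < vB := by
  unfold vB
  refine ENNReal.toReal_pos (Metric.measure_closedBall_pos _ _ one_pos).ne' ?_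
  exact (measure_closedBall_lt_top).ne

theorem box_vol (R : ℝ) (hR : 0 < R) :
    (volume : Measure Pl) (Metric.closedBall (0:E3) 1 ×ˢ Icc (-R) R) = ENNReal.ofReal (vB * (2 * R)) := by
  have : (volume : Measure Pl) = (volume : Measure E3).prod (volume : Measure ℝ) := rfl
  rw [this, Measure.prod_prod, Real.volume_Icc, ENNReal.ofReal_mul vB_pos.le]
  congr 1
  · unfold vB
    rw [measureReal_def, ENNReal.ofReal_toReal (measure_closedBall_lt_top).ne]
  · congr 1; ring

theorem PM_prob {R : ℝ} (hR : 0 < R) : IsProbabilityMeasure (PM R) := by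
  unfold PM
  refine ProbabilityTheory.cond_isProbabilityMeasure_of_finite ?_ ?_
  · rw [box_vol R hR]
    have := vB_pos
    simp only [ne_eq, ENNReal.ofReal_eq_zero, not_le]
    positivity
  · rw [box_vol R hR]; exact ENNReal.ofReal_ne_top

theorem lin_avg (u : E3) : ∫ g in Metric.closedBall (0:E3) 1, |ip g u| = c1 * ‖u‖ := by
  set e0 : E3 := EuclideanSpace.single 0 1 with he0
  set w : E3 := ‖u‖ • e0 with hw
  have hn : ‖u‖ = ‖w‖ := by rw [hw, norm_smul, he0]; simp
  set L := Submodule.reflection (ℝ ∙ (u - w))ᗮ with hL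
  have hLu : L u = w := Submodule.reflection_sub hn
  have h1 := L.measurePreserving.setIntegral_preimage_emb L.toHomeomorph.measurableEmbedding
    (fun g => |ip g w|) (Metric.closedBall 0 1)
  have h2 : L ⁻¹' (Metric.closedBall (0:E3) 1) = Metric.closedBall 0 1 := by
    ext x; simp
  rw [h2] at h1
  have h3 : ∀ g, |ip (L g) w| = |ip g u| := by
    intro g
    unfold ip
    rw [← hLu, L.inner_map_map]
  simp_rw [h3] at h1
  rw [h1]
  unfold c1
  rw [mul_comm, ← integral_const_mul]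
  refine integral_congr_ae (Eventually.of_forall fun g => ?_)
  simp only
  unfold ip
  rw [hw, inner_smul_right, he0, EuclideanSpace.inner_single_right, abs_mul, abs_of_nonneg (norm_nonneg u)]
  simp

theorem c1_pos : 0 < c1 := by
  have h0 : 0 ≤ c1 := integral_nonneg fun g => abs_nonneg _
  refine lt_of_le_of_ne h0 fun h => ?_
  have h1 : ∀ᵐ g ∂((volume : Measure E3).restrict (Metric.closedBall 0 1)), |g 0| = 0 := by
    have hi : Integrable (fun g : E3 => |g 0|) ((volume : Measure E3).restrict (Metric.closedBall 0 1)) := by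
      have hc : Continuous fun g : E3 => |g 0| := by fun_prop
      exact hc.continuousOn.integrableOn_compact (isCompact_closedBall _ _)
    have := (integral_eq_zero_iff_of_nonneg (fun g : E3 => abs_nonneg (g 0)) hi).1 h.symm
    filter_upwards [this] with g hg using hg
  have h2 : ∀ᵐ g : E3, g ∈ Metric.ball (0:E3) 1 → g 0 = 0 := by
    rw [ae_restrict_iff' measurableSet_closedBall] at h1
    filter_upwards [h1] with g hg hb
    exact abs_eq_zero.1 (hg (Metric.ball_subset_closedBall hb))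
  -- an open set where `g 0 ≠ 0`
  have h3 : IsOpen {g : E3 | g ∈ Metric.ball (0:E3) 1 ∧ g 0 ≠ 0} := by
    have hc : Continuous fun g : E3 => g 0 := by fun_prop
    exact Metric.isOpen_ball.inter (isOpen_ne.preimage hc)
  have h4 : (volume : Measure E3) {g : E3 | g ∈ Metric.ball (0:E3) 1 ∧ g 0 ≠ 0} = 0 := by
    have h5 : {g : E3 | g ∈ Metric.ball (0:E3) 1 ∧ g 0 ≠ 0} ⊆
        {g : E3 | ¬ (g ∈ Metric.ball (0:E3) 1 → g 0 = 0)} := by
      intro g hg
      simp only [Set.mem_ofPred_eq] at hg ⊢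
      tauto
    exact measure_mono_null h5 h2
  rw [h3.measure_eq_zero_iff (volume : Measure E3)] at h4
  have h6 : (EuclideanSpace.single 0 (1/2:ℝ) : E3) ∈ {g : E3 | g ∈ Metric.ball (0:E3) 1 ∧ g 0 ≠ 0} := by
    refine ⟨?_, by simp⟩
    rw [mem_ball_zero_iff]
    simp
    norm_num
  rw [h4] at h6
  exact h6

theorem sm_one_sub (g : E3) (p : ℝ) (x y : E3) : 1 - sm (g, p) x y =
    (Ico (min (ip g x) (ip g y)) (max (ip g x) (ip g y))).indicator (fun _ => (1:ℝ)) p := by
  classical
  unfold sm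
  by_cases h : (p < ip g x ↔ p < ip g y)
  · rw [if_pos h, Set.indicator_of_notMem, sub_self]
    rw [Set.mem_Ico, min_le_iff, lt_max_iff]
    intro hc
    rcases lt_or_ge p (ip g x) with h1 | h1
    · have h2 := h.1 h1
      rcases hc.1 with h3 | h3 <;> linarith
    · rcases lt_or_ge p (ip g y) with h2 | h2
      · have := h.2 h2; linarith
      · rcases hc.2 with h3 | h3 <;> linarith
  · rw [if_neg h, Set.indicator_of_mem, sub_zero]
    rw [Set.mem_Ico, min_le_iff, lt_max_iff]
    rcases lt_or_ge p (ip g x) with h1 | h1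
    · rcases lt_or_ge p (ip g y) with h2 | h2
      · exact absurd ⟨fun _ => h2, fun _ => h1⟩ h
      · exact ⟨Or.inr h2, Or.inl h1⟩
    · rcases lt_or_ge p (ip g y) with h2 | h2
      · exact ⟨Or.inl h1, Or.inr h2⟩
      · exact absurd ⟨fun h3 => absurd h3 (not_lt.2 h1), fun h3 => absurd h3 (not_lt.2 h2)⟩ h

theorem abs_ip_le {g x : E3} {R : ℝ} (hg : ‖g‖ ≤ 1) (hx : ‖x‖ ≤ R) : |ip g x| ≤ R := by
  unfold ip
  have h := abs_real_inner_le_norm g x
  have : ‖g‖ * ‖x‖ ≤ 1 * R := by gcongr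
  linarith

theorem sm_slice {g x y : E3} {R : ℝ} (hg : ‖g‖ ≤ 1) (hx : ‖x‖ ≤ R) (hy : ‖y‖ ≤ R) :
    ∫ p in Icc (-R) R, (1 - sm (g, p) x y) = |ip g (x - y)| := by
  simp_rw [sm_one_sub]
  rw [integral_indicator_const _ measurableSet_Ico]
  have h1 := abs_le.1 (abs_ip_le hg hx)
  have h2 := abs_le.1 (abs_ip_le hg hy)
  have h3 : Ico (min (ip g x) (ip g y)) (max (ip g x) (ip g y)) ∩ Icc (-R) R =
      Ico (min (ip g x) (ip g y)) (max (ip g x) (ip g y)) := by
    refine Set.inter_eq_left.2 fun p hp => ⟨?_, ?_⟩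
    · exact (le_min h1.1 h2.1).trans hp.1
    · exact hp.2.le.trans (max_le h1.2 h2.2)
  rw [measureReal_def, Measure.restrict_apply measurableSet_Ico, h3, Real.volume_Ico,
    ENNReal.toReal_ofReal (by simp), smul_eq_mul, mul_one, max_sub_min_eq_abs']
  unfold ip
  rw [inner_sub_right, abs_sub_comm]

theorem sm_bd (ω : Pl) (x y : E3) : 0 ≤ sm ω x y ∧ sm ω x y ≤ 1 := by
  unfold sm; split_ifs <;> norm_num

theorem sm_meas' (x y : E3) : Measurable fun ω : Pl => sm ω x y := by
  have h : Measurable fun ω : Pl => (ω, (x, y)) := measurable_id.prodMk measurable_const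
  exact sm_meas.comp h

theorem q_eq {R : ℝ} (hR : 0 < R) {x y : E3} (hx : ‖x‖ ≤ R) (hy : ‖y‖ ≤ R) :
    ∫ ω, sm ω x y ∂(PM R) = 1 - c1 * ‖x - y‖ / (vB * (2 * R)) := by
  haveI := PM_prob hR
  have hi : Integrable (fun ω : Pl => sm ω x y) (PM R) :=
    Integrable.of_bound (sm_meas' x y).aestronglyMeasurable 1
      (Eventually.of_forall fun ω => by
        rw [Real.norm_eq_abs, abs_of_nonneg (sm_bd ω x y).1]; exact (sm_bd ω x y).2)
  have h1 : ∫ ω, (1 - sm ω x y) ∂(PM R) = 1 - ∫ ω, sm ω x y ∂(PM R) := by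
    rw [integral_sub (integrable_const _) hi]; simp
  have h2 : ∫ ω, (1 - sm ω x y) ∂(PM R) = c1 * ‖x - y‖ / (vB * (2 * R)) := by
    unfold PM
    rw [ProbabilityTheory.cond, integral_smul_measure, box_vol R hR]
    have hv : (0:ℝ) < vB * (2 * R) := by have := vB_pos; positivity
    rw [ENNReal.toReal_inv, ENNReal.toReal_ofReal hv.le, smul_eq_mul]
    have h3 : ((volume : Measure Pl).restrict (Metric.closedBall (0:E3) 1 ×ˢ Icc (-R) R)) =
        ((volume : Measure E3).restrict (Metric.closedBall (0:E3) 1)).prod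
          ((volume : Measure ℝ).restrict (Icc (-R) R)) := by
      rw [Measure.prod_restrict]; rfl
    have hfin : IsFiniteMeasure ((volume : Measure E3).restrict (Metric.closedBall (0:E3) 1)) :=
      ⟨by rw [Measure.restrict_apply_univ]; exact measure_closedBall_lt_top⟩
    have hfin2 : IsFiniteMeasure ((volume : Measure ℝ).restrict (Icc (-R) R)) :=
      ⟨by rw [Measure.restrict_apply_univ]; exact measure_Icc_lt_top⟩
    rw [h3, integral_prod]
    · have h4 : ∫ g in Metric.closedBall (0:E3) 1, ∫ p in Icc (-R) R, (1 - sm (g, p) x y) =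
          ∫ g in Metric.closedBall (0:E3) 1, |ip g (x - y)| := by
        refine setIntegral_congr_fun measurableSet_closedBall fun g hg => ?_
        exact sm_slice (by simpa using hg) hx hy
      rw [h4, lin_avg]
      field_simp
    · refine Integrable.of_bound ?_ 1 (Eventually.of_forall fun ω => ?_)
      · exact (measurable_const.sub (sm_meas' x y)).aestronglyMeasurable
      · have := sm_bd ω x y
        rw [Real.norm_eq_abs, abs_le]; constructor <;> linarith
  linarith

/-- law of `M` independent planes -/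
noncomputable def PMM (M : ℕ) (R : ℝ) : Measure (Fin M → Pl) := Measure.pi fun _ => PM R

theorem PMM_prob {M : ℕ} {R : ℝ} (hR : 0 < R) : IsProbabilityMeasure (PMM M R) := by
  haveI := PM_prob hR
  unfold PMM; infer_instance

theorem SM_avg {M : ℕ} {R : ℝ} (hR : 0 < R) (x y : E3) :
    ∫ ω, SM ω x y ∂(PMM M R) = (∫ ω, sm ω x y ∂(PM R)) ^ M := by
  haveI := PM_prob hR
  unfold PMM
  simp_rw [SM_eq]
  rw [integral_fintype_prod_eq_pow (fun ω : Pl => sm ω x y)]
  simp

/-- the radius for which `M` planes give approximately `exp (-t |x - y|)` -/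
noncomputable def RM (t : ℝ) (M : ℕ) : ℝ := c1 * M / (2 * vB * t)

theorem RM_pos {t : ℝ} (ht : 0 < t) {M : ℕ} (hM : 0 < M) : 0 < RM t M := by
  unfold RM
  have := c1_pos
  have := vB_pos
  positivity

theorem SM_avg_eq {t : ℝ} (ht : 0 < t) {M : ℕ} (hM : 0 < M) {x y : E3} (hx : ‖x‖ ≤ RM t M)
    (hy : ‖y‖ ≤ RM t M) :
    ∫ ω, SM ω x y ∂(PMM M (RM t M)) = (1 - t * ‖x - y‖ / M) ^ M := by
  rw [SM_avg (RM_pos ht hM), q_eq (RM_pos ht hM) hx hy]
  have := c1_pos
  have := vB_pos
  have h : (0:ℝ) < M := by exact_mod_cast hM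
  congr 2
  unfold RM
  field_simp

theorem RM_tendsto {t : ℝ} (ht : 0 < t) : Tendsto (fun M => RM t M) atTop atTop := by
  unfold RM
  have h : (fun M : ℕ => c1 * (M:ℝ) / (2 * vB * t)) = fun M : ℕ => (c1 / (2 * vB * t)) * (M:ℝ) := by
    ext M; ring
  rw [h]
  have : 0 < c1 / (2 * vB * t) := by
    have := c1_pos
    have := vB_pos
    positivity
  exact tendsto_natCast_atTop_atTop.const_mul_atTop this

theorem SM_avg_tendsto {t : ℝ} (ht : 0 < t) (x y : E3) :
    Tendsto (fun M : ℕ => ∫ ω, SM ω x y ∂(PMM (M + 1) (RM t (M + 1)))) atTop (𝓝 (ek t (x - y))) := by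
  have h1 : Tendsto (fun M : ℕ => (1 + (-(t * ‖x - y‖)) / (M:ℝ)) ^ M) atTop
      (𝓝 (Real.exp (-(t * ‖x - y‖)))) := Real.tendsto_one_add_div_pow_exp _
  have h2 := h1.comp (tendsto_add_atTop_nat 1)
  refine h2.congr' ?_
  have h3 := (RM_tendsto ht).comp (tendsto_add_atTop_nat 1)
  filter_upwards [h3.eventually_ge_atTop ‖x‖, h3.eventually_ge_atTop ‖y‖] with M hx hy
  simp only [Function.comp_apply] at hx hy ⊢
  rw [SM_avg_eq ht (Nat.succ_pos M) hx hy]
  congr 1
  ring

theorem ek_BK {t : ℝ} (ht : 0 ≤ t) : BK (fun p => ek t (p.1 - p.2)) := by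
  refine ⟨(ek_cont_x t).measurable.comp (measurable_fst.sub measurable_snd), 1, fun p => ?_⟩
  rw [abs_of_nonneg (ek_pos _ _).le]
  exact ek_le_one ht _

theorem ek_PD {t : ℝ} (ht : 0 < t) : PD (fun p => ek t (p.1 - p.2)) := by
  have hP : ∀ M : ℕ, IsProbabilityMeasure (PMM (M + 1) (RM t (M + 1))) := fun M =>
    PMM_prob (RM_pos ht (Nat.succ_pos M))
  refine PD.limit (k := fun M p => ∫ ω, SM ω p.1 p.2 ∂(PMM (M + 1) (RM t (M + 1)))) (fun M => ?_) 1
    (fun M p => ?_) (fun M => ?_) (fun p => SM_avg_tendsto ht p.1 p.2)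
  · haveI := hP M
    have hs : StronglyMeasurable fun q : (E3 × E3) × (Fin (M + 1) → Pl) => SM q.2 q.1.1 q.1.2 :=
      (SM_meas.comp measurable_swap).stronglyMeasurable
    exact hs.integral_prod_right.measurable
  · haveI := hP M
    have h0 : 0 ≤ ∫ ω, SM ω p.1 p.2 ∂(PMM (M + 1) (RM t (M + 1))) :=
      integral_nonneg fun ω => (SM_bd ω _ _).1
    have h1 : ∫ ω, SM ω p.1 p.2 ∂(PMM (M + 1) (RM t (M + 1))) ≤
        ∫ _ω, (1:ℝ) ∂(PMM (M + 1) (RM t (M + 1))) := by
      refine integral_mono_of_nonneg (Eventually.of_forall fun ω => (SM_bd ω _ _).1)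
        (integrable_const _) (Eventually.of_forall fun ω => (SM_bd ω _ _).2)
    rw [abs_of_nonneg h0]
    simpa using h1
  · haveI := hP M
    refine PD.mix (k := fun ω p => SM ω p.1 p.2) SM_meas 1 (fun ω p => ?_)
      (Eventually.of_forall fun ω => SM_PD ω)
    rw [abs_of_nonneg (SM_bd ω _ _).1]
    exact (SM_bd ω _ _).2

theorem ekint_PD {a b : ℝ} (ha : 0 ≤ a) (hab : a ≤ b) :
    PD (fun p => ∫ t in a..b, ek t (p.1 - p.2)) := by
  have e : (fun p : E3 × E3 => ∫ t in a..b, ek t (p.1 - p.2)) =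
      fun p => ∫ t, (Ioc a b).indicator (fun t => ek t (p.1 - p.2)) t ∂(volume.restrict (Ioc a b)) := by
    ext p
    rw [intervalIntegral.integral_of_le hab]
    refine setIntegral_congr_fun measurableSet_Ioc fun t ht => ?_
    rw [Set.indicator_of_mem ht]
  rw [e]
  refine PD.mix (k := fun t p => (Ioc a b).indicator (fun t => ek t (p.1 - p.2)) t) ?_ 1 ?_ ?_
  · have h1 : Measurable fun q : ℝ × (E3 × E3) => ek q.1 (q.2.1 - q.2.2) := by
      have hc : Continuous fun q : ℝ × (E3 × E3) => ek q.1 (q.2.1 - q.2.2) :=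
        ek_cont.comp (continuous_fst.prodMk ((continuous_fst.comp continuous_snd).sub
          (continuous_snd.comp continuous_snd)))
      exact hc.measurable
    have h2 : (Function.uncurry fun t (p : E3 × E3) => (Ioc a b).indicator (fun t => ek t (p.1 - p.2)) t) =
        (Prod.fst ⁻¹' (Ioc a b)).indicator (fun q : ℝ × (E3 × E3) => ek q.1 (q.2.1 - q.2.2)) := by
      ext q
      simp only [Function.uncurry, Set.indicator, Set.mem_preimage]
    rw [h2]
    exact h1.indicator (measurable_fst measurableSet_Ioc)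
  · intro t p
    by_cases ht : t ∈ Ioc a b
    · rw [Set.indicator_of_mem ht, abs_of_nonneg (ek_pos _ _).le]
      exact ek_le_one (ha.trans ht.1.le) _
    · rw [Set.indicator_of_notMem ht]; simp
  · filter_upwards [ae_restrict_mem measurableSet_Ioc] with t ht
    have : (fun p : E3 × E3 => (Ioc a b).indicator (fun t => ek t (p.1 - p.2)) t) =
        fun p => ek t (p.1 - p.2) := by
      ext p; rw [Set.indicator_of_mem ht]
    rw [this]
    exact ek_PD (lt_of_le_of_lt ha ht.1)

theorem Vk_BK : BK (fun p => Vk (p.1 - p.2)) :=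
  ⟨Vk_cont.measurable.comp (measurable_fst.sub measurable_snd), 5, fun p => by
    rw [abs_of_nonneg (Vk_nonneg _)]; exact Vk_le5 _⟩

theorem Wk_BK : BK (fun p => Wk (p.1 - p.2)) :=
  ⟨Wk_cont.measurable.comp (measurable_fst.sub measurable_snd), 1, fun p => by
    rw [abs_of_nonneg (Wk_nonneg _)]; exact Wk_le_one _⟩

theorem Wk_PD : PD (fun p => Wk (p.1 - p.2)) := ekint_PD le_rfl zero_le_one

theorem Vk_PD : PD (fun p => Vk (p.1 - p.2)) := by
  unfold Vk
  refine PD.add (k := fun p => ∫ t in (1:ℝ)..4, ek t (p.1 - p.2)) (k' := fun p => 2 * ek 4 (p.1 - p.2))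
    ?_ ?_ (ekint_PD (by norm_num) (by norm_num)) ((ek_PD (by norm_num)).const_mul (by norm_num))
  · have h : (fun p : E3 × E3 => ∫ t in (1:ℝ)..4, ek t (p.1 - p.2)) =
        fun p => Vk (p.1 - p.2) - 2 * ek 4 (p.1 - p.2) := by
      ext p; unfold Vk; ring
    rw [h]
    refine ⟨Vk_BK.1.sub ((ek_BK (by norm_num)).1.const_mul 2), 7, fun p => ?_⟩
    have h1 := Vk_nonneg (p.1 - p.2)
    have h2 := Vk_le5 (p.1 - p.2)
    have h3 := (ek_pos 4 (p.1 - p.2)).le
    have h4 := ek_le_one (show (0:ℝ) ≤ 4 by norm_num) (p.1 - p.2)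
    rw [abs_le]; constructor <;> linarith
  · refine ⟨(ek_BK (by norm_num)).1.const_mul 2, 2, fun p => ?_⟩
    have h3 := (ek_pos 4 (p.1 - p.2)).le
    have h4 := ek_le_one (show (0:ℝ) ≤ 4 by norm_num) (p.1 - p.2)
    rw [abs_le]; constructor <;> linarith

end Pool.Agent.Helper985.BM
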