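import Pool.Agent.Helper985.BM.R1

set_option autoImplicit false

open MeasureTheory Filter Topology Set
open scoped ContDiff

namespace Pool.Agent.Helper985.BM

open VR

variable {n : ℕ}

/-- potential of the density -/
noncomputable def pot (k : E3 → ℝ) (u : Cf (n + 1) → ℝ) (a : E3) : ℝ := ∫ b, k (a - b) * rho u b

theorem pot_meas {k : E3 → ℝ} (hk : Measurable k) {u : Cf (n + 1) → ℝ} (hu : SC u) :
    Measurable (pot k u) := by
  have h : Measurable fun p : E3 × E3 => k (p.1 - p.2) * rho u p.2 :=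
    (hk.comp (measurable_fst.sub measurable_snd)).mul ((rho_meas hu).comp measurable_snd)
  exact h.stronglyMeasurable.integral_prod_right.measurable

theorem kr_int {k : E3 → ℝ} (hk : Measurable k) {C : ℝ} (hC : ∀ x, |k x| ≤ C)
    {r : E3 → ℝ} (hr : Integrable r) (a : E3) : Integrable fun b => k (a - b) * r b :=
  hr.bdd_mul (c := C) (hk.comp (measurable_const.sub measurable_id)).aestronglyMeasurable
    (Eventually.of_forall fun x => hC _)

theorem Vk_abs (x : E3) : |Vk x| ≤ 5 := by rw [abs_of_nonneg (Vk_nonneg x)]; exact Vk_le5 x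

theorem potV_nonneg (u : Cf (n + 1) → ℝ) (a : E3) : 0 ≤ pot Vk u a :=
  integral_nonneg fun b => mul_nonneg (Vk_nonneg _) (rho_nonneg _ _)

theorem potV_bd {u : Cf (n + 1) → ℝ} (hu : SC u) (a : E3) : pot Vk u a ≤ 5 * ∫ b, rho u b := by
  unfold pot
  rw [← integral_const_mul]
  refine integral_mono (kr_int Vk_cont.measurable Vk_abs (rho_int hu) a) ((rho_int hu).const_mul 5) fun b => ?_
  exact mul_le_mul_of_nonneg_right (Vk_le5 _) (rho_nonneg _ _)

theorem int_sub_left' (k : E3 → ℝ) (a : E3) : ∫ b, k (a - b) = ∫ b, k b :=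
  integral_sub_left_eq_self k volume a

theorem conv_L1 {k r : E3 → ℝ} (hkm : Measurable k) (hk : Integrable k) (hrm : Measurable r)
    (hr : Integrable r) : Integrable (fun a => ∫ b, k (a - b) * r b) ∧
      ∫ a, ∫ b, k (a - b) * r b = (∫ x, k x) * ∫ b, r b := by
  have hm : Measurable fun p : E3 × E3 => k (p.1 - p.2) * r p.2 :=
    (hkm.comp (measurable_fst.sub measurable_snd)).mul (hrm.comp measurable_snd)
  have hi : Integrable (fun p : E3 × E3 => k (p.1 - p.2) * r p.2)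
      ((volume : Measure E3).prod (volume : Measure E3)) := by
    rw [integrable_prod_iff' hm.aestronglyMeasurable]
    refine ⟨Eventually.of_forall fun b => (hk.comp_sub_right b).mul_const (r b), ?_⟩
    have e : (fun b => ∫ a, ‖k (a - b) * r b‖) = fun b => (∫ a, |k a|) * |r b| := by
      ext b
      simp_rw [norm_mul, Real.norm_eq_abs]
      rw [integral_mul_const, integral_sub_right_eq_self (fun a => |k a|) b]
    simp only
    rw [e]
    exact hr.abs.const_mul _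
  refine ⟨hi.integral_prod_left, ?_⟩
  rw [integral_integral_swap hi]
  simp_rw [integral_mul_const]
  have : ∀ b, ∫ a, k (a - b) = ∫ a, k a := fun b => integral_sub_right_eq_self k b
  simp_rw [this]
  rw [integral_const_mul]

theorem rpow_third_mul {x : ℝ} (hx : 0 ≤ x) :
    x ^ (1/3:ℝ) * x ^ (1/3:ℝ) * x ^ (1/3:ℝ) = x := by
  rw [← Real.rpow_add_of_nonneg hx (by norm_num) (by norm_num),
    ← Real.rpow_add_of_nonneg hx (by norm_num) (by norm_num)]
  norm_num

theorem potV_cube {u : Cf (n + 1) → ℝ} (hu : SC u) (h3 : Integrable fun a => rho u a ^ 3) :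
    Integrable (fun a => pot Vk u a ^ 3) ∧ ∫ a, pot Vk u a ^ 3 ≤ c3 ^ 3 * ∫ a, rho u a ^ 3 := by
  have hrm := (rho_meas hu).pow_const 3
  have hr0 : ∀ b, 0 ≤ rho u b ^ 3 := fun b => pow_nonneg (rho_nonneg u b) 3
  have hb : ∀ a, pot Vk u a ^ 3 ≤ c3 ^ 2 * ∫ b, Vk (a - b) * rho u b ^ 3 := by
    intro a
    have hVm : Measurable fun b => Vk (a - b) := Vk_cont.measurable.comp (measurable_const.sub measurable_id)
    have hVi : Integrable fun b => Vk (a - b) := Vk_int.comp_sub_left a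
    have h := (holder3 hVm hVm (hVm.mul hrm) (fun b => Vk_nonneg _) (fun b => Vk_nonneg _)
      (fun b => mul_nonneg (Vk_nonneg _) (hr0 b)) hVi hVi
      (kr_int Vk_cont.measurable Vk_abs h3 a)).2
    have e : ∀ b, Vk (a - b) ^ (1/3:ℝ) * Vk (a - b) ^ (1/3:ℝ) *
        ((fun b => Vk (a - b)) * fun b => rho u b ^ 3) b ^ (1/3:ℝ) = Vk (a - b) * rho u b := by
      intro b
      simp only [Pi.mul_apply]
      rw [Real.mul_rpow (Vk_nonneg _) (hr0 b), cube_root (rho_nonneg u b), ← mul_assoc,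
        rpow_third_mul (Vk_nonneg _)]
    simp_rw [e] at h
    rw [int_sub_left', Vk_integral] at h
    have hI : 0 ≤ ∫ b, Vk (a - b) * rho u b ^ 3 :=
      integral_nonneg fun b => mul_nonneg (Vk_nonneg _) (hr0 b)
    have h' : pot Vk u a ≤ c3 ^ (1/3:ℝ) * c3 ^ (1/3:ℝ) * (∫ b, Vk (a - b) * rho u b ^ 3) ^ (1/3:ℝ) := h
    have h2 := pow_le_pow_left₀ (potV_nonneg u a) h' 3
    refine h2.trans (le_of_eq ?_)
    have c := c3_pos.le
    have e1 : (c3 ^ (1/3:ℝ)) ^ 3 = c3 := by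
      rw [← Real.rpow_natCast, ← Real.rpow_mul c]; norm_num
    have e2 : ((∫ b, Vk (a - b) * rho u b ^ 3) ^ (1/3:ℝ)) ^ 3 = ∫ b, Vk (a - b) * rho u b ^ 3 := by
      rw [← Real.rpow_natCast, ← Real.rpow_mul hI]; norm_num
    rw [mul_pow, mul_pow, e1, e2]; ring
  have hc := conv_L1 Vk_cont.measurable Vk_int hrm h3
  have hdom : Integrable fun a => c3 ^ 2 * ∫ b, Vk (a - b) * rho u b ^ 3 := hc.1.const_mul _
  have hi : Integrable fun a => pot Vk u a ^ 3 := by
    refine hdom.mono' ((pot_meas Vk_cont.measurable hu).pow_const 3).aestronglyMeasurable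
      (Eventually.of_forall fun a => ?_)
    rw [Real.norm_eq_abs, abs_of_nonneg (pow_nonneg (potV_nonneg u a) 3)]
    exact hb a
  refine ⟨hi, ?_⟩
  refine (integral_mono hi hdom hb).trans (le_of_eq ?_)
  rw [integral_const_mul, hc.2, Vk_integral]; ring

theorem Y32_int : Integrable fun x => Yk x ^ (3/2:ℝ) := by
  have h1 := Real.integral_rpow_mul_exp_neg_mul_Ioi (a := (3/2:ℝ)) (r := 3/2) (by norm_num) (by norm_num)
  have h2 : IntegrableOn (fun t : ℝ => t ^ ((3/2:ℝ) - 1) * Real.exp (-(3/2 * t))) (Ioi 0) := by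
    by_contra hcon
    rw [integral_undef hcon] at h1
    have h3 : 0 < ((1:ℝ) / (3/2)) ^ (3/2:ℝ) * Real.Gamma (3/2) := by
      have := Real.Gamma_pos_of_pos (show (0:ℝ) < 3/2 by norm_num)
      positivity
    linarith
  have h3 : IntegrableOn (fun r : ℝ => r ^ 2 * (Real.exp (-r) / r) ^ (3/2:ℝ)) (Ioi 0) := by
    refine h2.congr_fun (fun r hr => ?_) measurableSet_Ioi
    have hr' : (0:ℝ) < r := hr
    simp only
    rw [Real.div_rpow (Real.exp_pos _).le hr'.le, ← Real.exp_mul]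
    have e1 : -r * (3/2) = -(3/2 * r) := by ring
    have e2 : r ^ 2 = r ^ ((3/2:ℝ) - 1) * r ^ (3/2:ℝ) := by
      rw [← Real.rpow_add hr', ← Real.rpow_natCast]; norm_num
    have e3 : r ^ (3/2:ℝ) ≠ 0 := (Real.rpow_pos_of_pos hr' _).ne'
    rw [e1, e2]
    field_simp
  exact radial_int.2 h3

/-- pointwise bound for the Yukawa potential of the density -/
theorem potY_le : ∃ C : ℝ, 0 < C ∧ ∀ (n : ℕ) (u : Cf (n + 1) → ℝ), SC u → ∀ a : E3,
    Integrable (fun b => Yk (a - b) * rho u b) ∧ pot Yk u a ≤ C * TT u := by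
  obtain ⟨S, hS0, hS⟩ := rho_cube
  set J : ℝ := ∫ x, Yk x ^ (3/2:ℝ) with hJ
  have hJ0 : 0 ≤ J := integral_nonneg fun x => Real.rpow_nonneg (Yk_nonneg x) _
  refine ⟨J ^ (1/3:ℝ) * J ^ (1/3:ℝ) * S + 1, by positivity, fun n u hu a => ?_⟩
  have h3 := hS n u hu
  have hYm : Measurable fun b => Yk (a - b) ^ (3/2:ℝ) :=
    (Yk_meas.comp (measurable_const.sub measurable_id)).pow_const _
  have hYi : Integrable fun b => Yk (a - b) ^ (3/2:ℝ) := Y32_int.comp_sub_left a
  have hY0 : ∀ b, 0 ≤ Yk (a - b) ^ (3/2:ℝ) := fun b => Real.rpow_nonneg (Yk_nonneg _) _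
  have h := holder3 hYm hYm ((rho_meas hu).pow_const 3) hY0 hY0
    (fun b => pow_nonneg (rho_nonneg u b) 3) hYi hYi h3.1
  have e : ∀ b, (Yk (a - b) ^ (3/2:ℝ)) ^ (1/3:ℝ) * (Yk (a - b) ^ (3/2:ℝ)) ^ (1/3:ℝ) *
      (rho u b ^ 3) ^ (1/3:ℝ) = Yk (a - b) * rho u b := by
    intro b
    have hy := Yk_nonneg (a - b)
    rw [cube_root (rho_nonneg u b), ← Real.rpow_mul hy,
      ← Real.rpow_add_of_nonneg hy (by norm_num) (by norm_num)]
    norm_num
  simp_rw [e] at h
  have e3 : ∫ b, Yk (a - b) ^ (3/2:ℝ) = J := int_sub_left' (fun x => Yk x ^ (3/2:ℝ)) a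
  rw [e3] at h
  refine ⟨h.1, h.2.trans ?_⟩
  have hT := TT_nonneg u
  have h4 : (∫ b, rho u b ^ 3) ^ (1/3:ℝ) ≤ S * TT u := by
    have := Real.rpow_le_rpow (integral_nonneg fun b => pow_nonneg (rho_nonneg u b) 3) h3.2
      (show (0:ℝ) ≤ 1/3 by norm_num)
    rwa [cube_root (by positivity)] at this
  have : J ^ (1/3:ℝ) * J ^ (1/3:ℝ) * (∫ b, rho u b ^ 3) ^ (1/3:ℝ) ≤
      J ^ (1/3:ℝ) * J ^ (1/3:ℝ) * (S * TT u) := by gcongr
  nlinarith

end Pool.Agent.Helper985.BM
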