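import Pool.Agent.Helper985.BM.A1
import Pool.Agent.Helper985.BM.P1
import Pool.Agent.Helper985.BM.R3

set_option autoImplicit false

open MeasureTheory Filter Topology Set
open scoped ContDiff

namespace Pool.Agent.Helper985.BM

open VR

variable {n : ℕ}

theorem nn_succ (x : Cf (n + 1)) (i : Fin (n + 1)) :
    nn x i = ∑ j : Fin n, ek 2 (x i - x (i.succAbove j)) := by
  unfold nn
  have h := Fin.sum_univ_succAbove (fun k => ek 2 (x i - x k)) i
  have h2 := Finset.add_sum_erase Finset.univ (fun k => ek 2 (x i - x k)) (Finset.mem_univ i)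
  linarith

theorem nn_rst (x : Cf (n + 1)) (i : Fin (n + 1)) (j : Fin n) :
    nn (rst i x) j ≤ nn x (i.succAbove j) := by
  unfold nn rst
  have h : ∑ k ∈ Finset.univ.erase j, ek 2 (x (i.succAbove j) - x (i.succAbove k)) =
      ∑ k ∈ (Finset.univ.erase j).image i.succAbove, ek 2 (x (i.succAbove j) - x k) := by
    rw [Finset.sum_image]
    intro a _ b _ hab
    exact Fin.succAbove_right_injective hab
  rw [h]
  refine Finset.sum_le_sum_of_subset_of_nonneg ?_ fun _ _ _ => (ek_pos _ _).le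
  intro k hk
  obtain ⟨l, hl, rfl⟩ := Finset.mem_image.1 hk
  refine Finset.mem_erase.2 ⟨fun h => ?_, Finset.mem_univ _⟩
  exact (Finset.mem_erase.1 hl).1 (Fin.succAbove_right_injective h)

theorem gd_rst (M : ℝ) (x : Cf (n + 1)) (i : Fin (n + 1)) (j : Fin n) :
    gd M x (i.succAbove j) ≤ gd M (rst i x) j := by
  unfold gd
  have h := nn_rst x i j
  split_ifs with h1 h2 <;> try norm_num
  exact h2 (h.trans h1)

/-- the double sum over good particles without the diagonal -/
theorem good_double (M : ℝ) (x : Cf (n + 1)) :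
    ∑ i, ∑ k, gd M x i * gd M x k * Vk (x i - x k) ≤
      (∑ i, ∑ j : Fin n, gd M (rst i x) j * Vk (x i - x (i.succAbove j))) + 5 * (n + 1) := by
  have h : ∀ i, ∑ k, gd M x i * gd M x k * Vk (x i - x k) ≤
      (∑ j : Fin n, gd M (rst i x) j * Vk (x i - x (i.succAbove j))) + 5 := by
    intro i
    rw [Fin.sum_univ_succAbove _ i, sub_self, Vk_zero]
    have g1 := gd_bd M x i
    have h1 : gd M x i * gd M x i * 5 ≤ 5 := by nlinarith [g1.1, g1.2]
    have h2 : ∑ j : Fin n, gd M x i * gd M x (i.succAbove j) * Vk (x i - x (i.succAbove j)) ≤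
        ∑ j : Fin n, gd M (rst i x) j * Vk (x i - x (i.succAbove j)) := by
      refine Finset.sum_le_sum fun j _ => mul_le_mul_of_nonneg_right ?_ (Vk_nonneg _)
      have g2 := gd_bd M x (i.succAbove j)
      have g3 := gd_rst M x i j
      nlinarith [g1.1, g1.2]
    linarith
  refine (Finset.sum_le_sum fun i _ => h i).trans ?_
  rw [Finset.sum_add_distrib]
  simp
  linarith

/-- weights between `0` and `1` -/
structure Wt (w : Fin (n + 1) → Cf (n + 1) → ℝ) : Prop where
  meas : ∀ i, Measurable (w i)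
  bd : ∀ i x, 0 ≤ w i x ∧ w i x ≤ 1

/-- measure of the weighted density -/
noncomputable def mw (u : Cf (n + 1) → ℝ) (w : Fin (n + 1) → Cf (n + 1) → ℝ) : Measure E3 :=
  ∑ i, ((volume : Measure (Cf (n + 1))).withDensity fun x => ENNReal.ofReal (w i x * u x ^ 2)).map
    fun x => x i

variable {u : Cf (n + 1) → ℝ}

theorem wu_int (hu : SC u) {w : Fin (n + 1) → Cf (n + 1) → ℝ} (hw : Wt w) (i : Fin (n + 1)) :
    Integrable fun x => w i x * u x ^ 2 :=
  hu.sq_int.bdd_mul (c := 1) (hw.meas i).aestronglyMeasurable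
    (Eventually.of_forall fun x => by
      rw [Real.norm_eq_abs, abs_of_nonneg (hw.bd i x).1]; exact (hw.bd i x).2)

theorem wd_fin (hu : SC u) {w : Fin (n + 1) → Cf (n + 1) → ℝ} (hw : Wt w) (i : Fin (n + 1)) :
    IsFiniteMeasure ((volume : Measure (Cf (n + 1))).withDensity fun x =>
      ENNReal.ofReal (w i x * u x ^ 2)) :=
  isFiniteMeasure_withDensity_ofReal (wu_int hu hw i).2

theorem mw_fin (hu : SC u) {w : Fin (n + 1) → Cf (n + 1) → ℝ} (hw : Wt w) :
    IsFiniteMeasure (mw u w) := by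
  have h : ∀ i : Fin (n + 1), IsFiniteMeasure (((volume : Measure (Cf (n + 1))).withDensity fun x =>
      ENNReal.ofReal (w i x * u x ^ 2)).map fun x => x i) := fun i => by
    have := wd_fin hu hw i
    infer_instance
  unfold mw
  infer_instance

theorem mw_integral (hu : SC u) {w : Fin (n + 1) → Cf (n + 1) → ℝ} (hw : Wt w) {f : E3 → ℝ}
    (hf : Measurable f) {C : ℝ} (hC : ∀ x, |f x| ≤ C) :
    ∫ a, f a ∂(mw u w) = ∑ i, ∫ x, f (x i) * (w i x * u x ^ 2) := by
  unfold mw
  rw [integral_finsetSum_measure]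
  · refine Finset.sum_congr rfl fun i _ => ?_
    rw [integral_map (measurable_pi_apply i).aemeasurable hf.aestronglyMeasurable]
    have hm : Measurable fun x : Cf (n + 1) => (w i x * u x ^ 2).toNNReal :=
      ((hw.meas i).mul (hu.sm.continuous.measurable.pow_const 2)).real_toNNReal
    have e := integral_withDensity_eq_integral_smul (μ := (volume : Measure (Cf (n + 1)))) hm
      (fun x => f (x i))
    have e2 : ((volume : Measure (Cf (n + 1))).withDensity fun x => ENNReal.ofReal (w i x * u x ^ 2)) =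
        (volume : Measure (Cf (n + 1))).withDensity fun x => ((w i x * u x ^ 2).toNNReal : ENNReal) := rfl
    rw [e2, e]
    congr 1; ext x
    rw [NNReal.smul_def, smul_eq_mul, Real.coe_toNNReal _ (mul_nonneg (hw.bd i x).1 (sq_nonneg _))]
    ring
  · intro i _
    have := wd_fin hu hw i
    exact Integrable.of_bound hf.aestronglyMeasurable C (Eventually.of_forall hC)

/-- potential of the weighted density -/
noncomputable def pw (u : Cf (n + 1) → ℝ) (w : Fin (n + 1) → Cf (n + 1) → ℝ) (a : E3) : ℝ :=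
  ∫ b, Vk (a - b) ∂(mw u w)

theorem pw_eq (hu : SC u) {w : Fin (n + 1) → Cf (n + 1) → ℝ} (hw : Wt w) (a : E3) :
    pw u w a = ∑ i, ∫ x, Vk (a - x i) * (w i x * u x ^ 2) :=
  mw_integral hu hw (Vk_cont.measurable.comp (measurable_const.sub measurable_id))
    (fun x => Vk_abs _)

theorem pw_nonneg (a : E3) (w : Fin (n + 1) → Cf (n + 1) → ℝ) : 0 ≤ pw u w a :=
  integral_nonneg fun _ => Vk_nonneg _

theorem Vwu_int (hu : SC u) {w : Fin (n + 1) → Cf (n + 1) → ℝ} (hw : Wt w) (a : E3)
    (i : Fin (n + 1)) : Integrable fun x => Vk (a - x i) * (w i x * u x ^ 2) :=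
  (wu_int hu hw i).bdd_mul (c := 5)
    (Vk_cont.measurable.comp (measurable_const.sub (measurable_pi_apply i))).aestronglyMeasurable
    (Eventually.of_forall fun x => Vk_abs _)

theorem pw_mono (hu : SC u) {w w' : Fin (n + 1) → Cf (n + 1) → ℝ} (hw : Wt w) (hw' : Wt w')
    (h : ∀ i x, w i x ≤ w' i x) (a : E3) : pw u w a ≤ pw u w' a := by
  rw [pw_eq hu hw, pw_eq hu hw']
  refine Finset.sum_le_sum fun i _ => integral_mono (Vwu_int hu hw a i) (Vwu_int hu hw' a i) fun x => ?_
  exact mul_le_mul_of_nonneg_left (mul_le_mul_of_nonneg_right (h i x) (sq_nonneg _)) (Vk_nonneg _)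

def w1 : Fin (n + 1) → Cf (n + 1) → ℝ := fun _ _ => 1
noncomputable def wg (M : ℝ) : Fin (n + 1) → Cf (n + 1) → ℝ := fun i x => gd M x i

theorem w1_wt : Wt (w1 : Fin (n + 1) → Cf (n + 1) → ℝ) :=
  ⟨fun _ => measurable_const, fun _ _ => by unfold w1; norm_num⟩
theorem wg_wt (M : ℝ) : Wt (wg M : Fin (n + 1) → Cf (n + 1) → ℝ) :=
  ⟨fun i => gd_meas M i, fun i x => gd_bd M x i⟩

theorem pw_w1 (hu : SC u) (a : E3) : pw u w1 a = pot Vk u a := by
  rw [pw_eq hu w1_wt]
  unfold pot w1
  simp_rw [one_mul]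
  refine (rho_avg (u := u) (f := fun b => Vk (a - b)) fun i => ?_).2
  exact bdd_one_int hu (Vk_cont.measurable.comp (measurable_const.sub measurable_id)) (fun x => Vk_abs _) i

theorem pw_bd (hu : SC u) {w : Fin (n + 1) → Cf (n + 1) → ℝ} (hw : Wt w) (a : E3) :
    |pw u w a| ≤ 5 * ∫ b, rho u b := by
  rw [abs_of_nonneg (pw_nonneg a w)]
  refine (pw_mono hu hw w1_wt (fun i x => (hw.bd i x).2) a).trans ?_
  rw [pw_w1 hu]
  exact potV_bd hu a

theorem pw_meas (hu : SC u) {w : Fin (n + 1) → Cf (n + 1) → ℝ} (hw : Wt w) : Measurable (pw u w) := by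
  have := mw_fin hu hw
  have h : Measurable fun p : E3 × E3 => Vk (p.1 - p.2) :=
    Vk_cont.measurable.comp (measurable_fst.sub measurable_snd)
  exact h.stronglyMeasurable.integral_prod_right.measurable

theorem pr_mw (hu : SC u) {w w' : Fin (n + 1) → Cf (n + 1) → ℝ} (hw : Wt w) (hw' : Wt w') :
    pr (fun p => Vk (p.1 - p.2)) (mw u w) (mw u w') = ∑ i, ∫ x, pw u w' (x i) * (w i x * u x ^ 2) := by
  have := mw_fin hu hw
  have := mw_fin hu hw'
  unfold pr
  rw [integral_prod _ (Vk_BK.int _ _)]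
  exact mw_integral hu hw (pw_meas hu hw') (pw_bd hu hw')

theorem pr_symm (σ τ : Measure E3) [IsFiniteMeasure σ] [IsFiniteMeasure τ] :
    pr (fun p => Vk (p.1 - p.2)) σ τ = pr (fun p => Vk (p.1 - p.2)) τ σ := by
  unfold pr
  rw [← integral_prod_swap]
  congr 1; ext p
  show Vk (p.2 - p.1) = Vk (p.1 - p.2)
  rw [← Vk_neg, neg_sub]

theorem pwu_int (hu : SC u) {w w' : Fin (n + 1) → Cf (n + 1) → ℝ} (hw : Wt w) (hw' : Wt w')
    (i : Fin (n + 1)) : Integrable fun x => pw u w' (x i) * (w i x * u x ^ 2) :=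
  (wu_int hu hw i).bdd_mul ((pw_meas hu hw').comp (measurable_pi_apply i)).aestronglyMeasurable
    (Eventually.of_forall fun x => pw_bd hu hw' _)

/-- comparison of the mean fields of all and of the good particles -/
theorem mf_compare (hu : SC u) (M : ℝ) :
    pr (fun p => Vk (p.1 - p.2)) (mw u w1) (mw u w1) ≤
      pr (fun p => Vk (p.1 - p.2)) (mw u (wg M)) (mw u (wg M)) +
        2 * ∑ i, ∫ x, pot Vk u (x i) * ((1 - gd M x i) * u x ^ 2) := by
  have f1 := mw_fin hu (w1_wt (n := n))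
  have f2 := mw_fin hu (wg_wt (n := n) M)
  have h1 : pr (fun p => Vk (p.1 - p.2)) (mw u w1) (mw u w1) -
      pr (fun p => Vk (p.1 - p.2)) (mw u (wg M)) (mw u w1) =
      ∑ i, ∫ x, pot Vk u (x i) * ((1 - gd M x i) * u x ^ 2) := by
    rw [pr_mw hu w1_wt w1_wt, pr_mw hu (wg_wt M) w1_wt, ← Finset.sum_sub_distrib]
    refine Finset.sum_congr rfl fun i _ => ?_
    rw [← integral_sub (pwu_int hu w1_wt w1_wt i) (pwu_int hu (wg_wt M) w1_wt i)]
    congr 1; ext x
    rw [pw_w1 hu]; unfold w1 wg; ring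
  have h2 : pr (fun p => Vk (p.1 - p.2)) (mw u w1) (mw u (wg M)) -
      pr (fun p => Vk (p.1 - p.2)) (mw u (wg M)) (mw u (wg M)) ≤
      ∑ i, ∫ x, pot Vk u (x i) * ((1 - gd M x i) * u x ^ 2) := by
    rw [pr_mw hu w1_wt (wg_wt M), pr_mw hu (wg_wt M) (wg_wt M), ← Finset.sum_sub_distrib]
    refine Finset.sum_le_sum fun i _ => ?_
    rw [← integral_sub (pwu_int hu w1_wt (wg_wt M) i) (pwu_int hu (wg_wt M) (wg_wt M) i)]
    refine integral_mono ((pwu_int hu w1_wt (wg_wt M) i).sub (pwu_int hu (wg_wt M) (wg_wt M) i)) ?_ fun x => ?_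
    · have := (pwu_int hu w1_wt w1_wt i).sub (pwu_int hu (wg_wt M) w1_wt i)
      refine this.congr (Eventually.of_forall fun x => ?_)
      simp only [Pi.sub_apply]
      rw [pw_w1 hu]; unfold w1 wg; ring
    · have h3 := pw_mono hu (wg_wt M) w1_wt (fun i x => ((wg_wt M).bd i x).2) (x i)
      rw [pw_w1 hu] at h3
      have h4 : 0 ≤ (1 - gd M x i) * u x ^ 2 :=
        mul_nonneg (by linarith [(gd_bd M x i).2]) (sq_nonneg _)
      simp only
      have e : pw u (wg M) (x i) * (w1 i x * u x ^ 2) - pw u (wg M) (x i) * (wg M i x * u x ^ 2) =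
          pw u (wg M) (x i) * ((1 - gd M x i) * u x ^ 2) := by unfold w1 wg; ring
      rw [e]
      exact mul_le_mul_of_nonneg_right h3 h4
  have h3 := pr_symm (mw u (wg M)) (mw u w1)
  linarith

/-- the point measure of the good particles of a configuration -/
noncomputable def pm (M : ℝ) (x : Cf (n + 1)) : Measure E3 :=
  ∑ i, ENNReal.ofReal (gd M x i) • Measure.dirac (x i)

theorem pm_fin (M : ℝ) (x : Cf (n + 1)) : IsFiniteMeasure (pm M x) := by
  unfold pm
  have h : ∀ i : Fin (n + 1), IsFiniteMeasure (ENNReal.ofReal (gd M x i) • Measure.dirac (x i)) :=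
    fun i => ⟨by simp⟩
  infer_instance

theorem pm_integral (M : ℝ) (x : Cf (n + 1)) {f : E3 → ℝ} (hf : Measurable f) {C : ℝ}
    (hC : ∀ x, |f x| ≤ C) : ∫ a, f a ∂(pm M x) = ∑ i, gd M x i * f (x i) := by
  unfold pm
  have h : ∀ i : Fin (n + 1), IsFiniteMeasure (ENNReal.ofReal (gd M x i) • Measure.dirac (x i)) :=
    fun i => ⟨by simp⟩
  rw [integral_finsetSum_measure]
  · refine Finset.sum_congr rfl fun i _ => ?_
    rw [integral_smul_measure, integral_dirac, ENNReal.toReal_ofReal (gd_bd M x i).1, smul_eq_mul]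
  · intro i _
    exact Integrable.of_bound hf.aestronglyMeasurable C (Eventually.of_forall hC)

theorem jensen (hu : SC u) (hN : N2 u = 1) (M : ℝ) :
    pr (fun p => Vk (p.1 - p.2)) (mw u (wg M)) (mw u (wg M)) ≤
      ∫ x, (∑ i, ∑ k, gd M x i * gd M x k * Vk (x i - x k)) * u x ^ 2 := by
  have f2 := mw_fin hu (wg_wt (n := n) M)
  set D := pr (fun p => Vk (p.1 - p.2)) (mw u (wg M)) (mw u (wg M)) with hD
  have hpt : ∀ x : Cf (n + 1), 2 * ∑ i, gd M x i * pw u (wg M) (x i) ≤
      (∑ i, ∑ k, gd M x i * gd M x k * Vk (x i - x k)) + D := by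
    intro x
    have f1 := pm_fin M x
    have h := Vk_PD (pm M x) (mw u (wg M)) f1 f2
    have e1 : pr (fun p => Vk (p.1 - p.2)) (pm M x) (mw u (wg M)) =
        ∑ i, gd M x i * pw u (wg M) (x i) := by
      unfold pr
      rw [integral_prod _ (Vk_BK.int _ _)]
      exact pm_integral M x (pw_meas hu (wg_wt M)) (pw_bd hu (wg_wt M))
    have e2 : pr (fun p => Vk (p.1 - p.2)) (pm M x) (pm M x) =
        ∑ i, ∑ k, gd M x i * gd M x k * Vk (x i - x k) := by
      unfold pr
      rw [integral_prod _ (Vk_BK.int _ _)]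
      have hi : ∀ a : E3, ∫ b, Vk (a - b) ∂(pm M x) = ∑ k, gd M x k * Vk (a - x k) := fun a =>
        pm_integral M x (Vk_cont.measurable.comp (measurable_const.sub measurable_id)) (fun _ => Vk_abs _)
      simp_rw [hi]
      have hm : Measurable fun a : E3 => ∑ k, gd M x k * Vk (a - x k) :=
        Finset.measurable_sum _ fun k _ =>
          (Vk_cont.measurable.comp (measurable_id.sub measurable_const)).const_mul _
      rw [pm_integral M x hm (C := ∑ k : Fin (n + 1), 5) (fun a => ?_)]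
      · refine Finset.sum_congr rfl fun i _ => ?_
        rw [Finset.mul_sum]
        refine Finset.sum_congr rfl fun k _ => by ring
      · refine (Finset.abs_sum_le_sum_abs _ _).trans (Finset.sum_le_sum fun k _ => ?_)
        rw [abs_mul, abs_of_nonneg (gd_bd M x k).1]
        have := Vk_abs (a - x k)
        have := gd_bd M x k
        have := abs_nonneg (Vk (a - x k))
        nlinarith
    rw [e1, e2] at h
    exact h
  have hi1 : Integrable fun x : Cf (n + 1) => (∑ i, gd M x i * pw u (wg M) (x i)) * u x ^ 2 := by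
    simp_rw [Finset.sum_mul]
    refine integrable_finsetSum _ fun i _ => ?_
    refine (pwu_int hu (wg_wt M) (wg_wt M) i).congr (Eventually.of_forall fun x => ?_)
    simp only [wg]; ring
  have hi2 : Integrable fun x : Cf (n + 1) => (∑ i, ∑ k, gd M x i * gd M x k * Vk (x i - x k)) * u x ^ 2 := by
    have hm : Measurable fun x : Cf (n + 1) => ∑ i, ∑ k, gd M x i * gd M x k * Vk (x i - x k) :=
      Finset.measurable_sum _ fun i _ => Finset.measurable_sum _ fun k _ =>
        ((gd_meas M i).mul (gd_meas M k)).mul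
          (Vk_cont.measurable.comp ((measurable_pi_apply i).sub (measurable_pi_apply k)))
    refine hu.sq_int.bdd_mul (c := ∑ i : Fin (n + 1), ∑ k : Fin (n + 1), (5:ℝ)) hm.aestronglyMeasurable
      (Eventually.of_forall fun x => ?_)
    rw [Real.norm_eq_abs]
    refine (Finset.abs_sum_le_sum_abs _ _).trans (Finset.sum_le_sum fun i _ => ?_)
    refine (Finset.abs_sum_le_sum_abs _ _).trans (Finset.sum_le_sum fun k _ => ?_)
    rw [abs_mul, abs_mul, abs_of_nonneg (gd_bd M x i).1, abs_of_nonneg (gd_bd M x k).1]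
    have h5 := Vk_abs (x i - x k)
    have g1 := gd_bd M x i
    have g2 := gd_bd M x k
    have h6 := abs_nonneg (Vk (x i - x k))
    have : gd M x i * gd M x k ≤ 1 := by nlinarith
    have : 0 ≤ gd M x i * gd M x k := mul_nonneg g1.1 g2.1
    nlinarith
  have hint : 2 * ∫ x, (∑ i, gd M x i * pw u (wg M) (x i)) * u x ^ 2 ≤
      (∫ x, (∑ i, ∑ k, gd M x i * gd M x k * Vk (x i - x k)) * u x ^ 2) + D * N2 u := by
    unfold N2
    rw [← integral_const_mul, ← integral_const_mul, ← integral_add hi2 (hu.sq_int.const_mul _)]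
    refine integral_mono (hi1.const_mul 2) (hi2.add (hu.sq_int.const_mul _)) fun x => ?_
    have := mul_le_mul_of_nonneg_right (hpt x) (sq_nonneg (u x))
    simp only
    linarith
  have e3 : ∫ x, (∑ i, gd M x i * pw u (wg M) (x i)) * u x ^ 2 = D := by
    rw [hD, pr_mw hu (wg_wt M) (wg_wt M)]
    simp_rw [Finset.sum_mul]
    rw [integral_finsetSum]
    · refine Finset.sum_congr rfl fun i _ => ?_
      congr 1; ext x
      unfold wg; ring
    · intro i _
      refine (pwu_int hu (wg_wt M) (wg_wt M) i).congr (Eventually.of_forall fun x => ?_)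
      simp only [wg]; ring
  rw [e3, hN] at hint
  linarith

/-- the number of bad particles, weighted with the potential -/
theorem bad_bd : ∃ C : ℝ, 0 < C ∧ ∀ (n : ℕ) (u : Cf (n + 1) → ℝ), SC u → ∀ M : ℝ, 0 < M →
    ∑ i, ∫ x, pot Vk u (x i) * ((1 - gd M x i) * u x ^ 2) ≤
      C * M⁻¹ ^ (1/3:ℝ) * (n:ℝ) ^ (1/3:ℝ) * TT u ^ 2 := by
  obtain ⟨S, hS0, hS⟩ := sob
  obtain ⟨S', hS0', hS'⟩ := rho_cube
  set c2 : ℝ := ∫ x, ek 2 x with hc2
  have hc20 : 0 ≤ c2 := integral_nonneg fun x => (ek_pos 2 x).le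
  refine ⟨c2 ^ (1/3:ℝ) * (c3 * S') * S + 1, by have := c3_pos; positivity, fun n u hu M hM => ?_⟩
  have hT := TT_nonneg u
  have h3 := hS' n u hu
  have hW := potV_cube hu h3.1
  have hc3 := c3_pos
  have hW3 : (∫ a, pot Vk u a ^ 3) ^ (1/3:ℝ) ≤ c3 * S' * TT u := by
    have h1 : ∫ a, pot Vk u a ^ 3 ≤ (c3 * S' * TT u) ^ 3 := by
      refine hW.2.trans ?_
      calc c3 ^ 3 * ∫ a, rho u a ^ 3 ≤ c3 ^ 3 * (S' * TT u) ^ 3 := by gcongr; exact h3.2
        _ = _ := by ring
    have := Real.rpow_le_rpow (integral_nonneg fun b => pow_nonneg (potV_nonneg u b) 3) h1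
      (show (0:ℝ) ≤ 1/3 by norm_num)
    rwa [cube_root (by positivity)] at this
  have hi : ∀ i : Fin (n + 1), ∫ x, pot Vk u (x i) * ((1 - gd M x i) * u x ^ 2) ≤
      M⁻¹ ^ (1/3:ℝ) * (((n:ℝ) * c2) ^ (1/3:ℝ) * (c3 * S' * TT u) * (S * Ti i u)) := by
    intro i
    have hF : Integrable fun x => pot Vk u (x i) * ((1 - gd M x i) * u x ^ 2) := by
      have hwt : Wt (fun (i : Fin (n + 1)) (x : Cf (n + 1)) => 1 - gd M x i) :=
        ⟨fun i => measurable_const.sub (gd_meas M i), fun i x => by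
          have := gd_bd M x i; constructor <;> linarith⟩
      have := pwu_int hu hwt w1_wt i
      simpa only [pw_w1 hu] using this
    have hG : ∀ k, Integrable fun x => fderiv ℝ u x (dir (i, k)) ^ 2 := fun k =>
      (L2_of_cc (fderiv_cc_continuous hu.sm _) (fderiv_cc_support hu.cc _)).2
    have hGs : Integrable fun x => ∑ k, fderiv ℝ u x (dir (i, k)) ^ 2 :=
      integrable_finsetSum _ fun k _ => hG k
    have hTi : Ti i u = ∫ y : Cf n, ∫ a : E3, ∑ k, fderiv ℝ u (ins i a y) (dir (i, k)) ^ 2 := by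
      rw [← integral_sl i hGs, integral_finsetSum _ fun k _ => hG k]
      rfl
    set K : ℝ := M⁻¹ ^ (1/3:ℝ) * (((n:ℝ) * c2) ^ (1/3:ℝ) * (c3 * S' * TT u) * S) with hK
    have hK0 : 0 ≤ K := by positivity
    have goal : ∫ x, pot Vk u (x i) * ((1 - gd M x i) * u x ^ 2) ≤ K * Ti i u := by
      rw [integral_sl i hF, hTi, ← integral_const_mul]
      refine integral_mono (sl_int_y hF) ((sl_int_y hGs).const_mul K) fun y => ?_
      simp only
      have hv := hu.slice i y
      have hH := H1.of_smooth (b := (b3 : Fin 3 → E3)) hv.sm hv.cc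
      have hs := hS _ _ hH
      have hKn : Kn (fun k a => fderiv ℝ (fun a => u (ins i a y)) a (b3 k)) =
          ∫ a : E3, ∑ k, fderiv ℝ u (ins i a y) (dir (i, k)) ^ 2 := by
        rw [← int_sum_sq hH.2.1]
        simp_rw [slice_fderiv hu.sm]
      rw [hKn] at hs
      set Ky := ∫ a : E3, ∑ k, fderiv ℝ u (ins i a y) (dir (i, k)) ^ 2 with hKy
      have hKy0 : 0 ≤ Ky := integral_nonneg fun a => Finset.sum_nonneg fun k _ => sq_nonneg _
      -- neighbours
      have hnm : Measurable fun a : E3 => ∑ j : Fin n, ek 2 (a - y j) :=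
        Finset.measurable_sum _ fun j _ => (ek_cont_x 2).measurable.comp (measurable_id.sub measurable_const)
      have hni : Integrable fun a : E3 => ∑ j : Fin n, ek 2 (a - y j) :=
        integrable_finsetSum _ fun j _ => (ek_radial (by norm_num)).1.comp_sub_right (y j)
      have hnI : ∫ a : E3, ∑ j : Fin n, ek 2 (a - y j) = n * c2 := by
        rw [integral_finsetSum _ fun j _ => (ek_radial (by norm_num)).1.comp_sub_right (y j)]
        have : ∀ j : Fin n, ∫ a : E3, ek 2 (a - y j) = c2 := fun j => integral_sub_right_eq_self (ek 2) (y j)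
        simp_rw [this]
        simp
      have hh := holder3 (f := fun a => ∑ j : Fin n, ek 2 (a - y j)) (g := fun a => pot Vk u a ^ 3)
        (h := fun a => u (ins i a y) ^ 6) hnm ((pot_meas Vk_cont.measurable hu).pow_const 3)
        (hv.sm.continuous.measurable.pow_const 6) (fun a => Finset.sum_nonneg fun j _ => (ek_pos _ _).le)
        (fun a => pow_nonneg (potV_nonneg u a) 3) (fun a => by positivity) hni hW.1 hs.1
      simp_rw [cube_root (potV_nonneg u _), six_root] at hh
      rw [hnI] at hh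
      have hs6 : (∫ a, u (ins i a y) ^ 6) ^ (1/3:ℝ) ≤ S * Ky := by
        have := Real.rpow_le_rpow (integral_nonneg fun a => by positivity) hs.2
          (show (0:ℝ) ≤ 1/3 by norm_num)
        rwa [cube_root (by positivity)] at this
      have hpt : ∀ a, pot Vk u (ins i a y i) * ((1 - gd M (ins i a y) i) * u (ins i a y) ^ 2) ≤
          M⁻¹ ^ (1/3:ℝ) * ((∑ j : Fin n, ek 2 (a - y j)) ^ (1/3:ℝ) * pot Vk u a * u (ins i a y) ^ 2) := by
        intro a
        have hnn : nn (ins i a y) i = ∑ j : Fin n, ek 2 (a - y j) := by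
          rw [nn_succ]; simp_rw [ins_same, ins_succ]
        have h1 : 1 - gd M (ins i a y) i ≤ M⁻¹ ^ (1/3:ℝ) * (∑ j : Fin n, ek 2 (a - y j)) ^ (1/3:ℝ) := by
          unfold gd
          rw [hnn]
          split_ifs with hc
          · rw [sub_self]
            have : 0 ≤ ∑ j : Fin n, ek 2 (a - y j) := Finset.sum_nonneg fun j _ => (ek_pos _ _).le
            positivity
          · push Not at hc
            rw [sub_zero, ← Real.mul_rpow (by positivity) (hM.le.trans hc.le)]
            apply Real.one_le_rpow _ (by norm_num)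
            rw [inv_mul_eq_div, one_le_div hM]
            exact hc.le
        rw [ins_same]
        have h2 := potV_nonneg u a
        have h3 := sq_nonneg (u (ins i a y))
        calc pot Vk u a * ((1 - gd M (ins i a y) i) * u (ins i a y) ^ 2)
            ≤ pot Vk u a * ((M⁻¹ ^ (1/3:ℝ) * (∑ j : Fin n, ek 2 (a - y j)) ^ (1/3:ℝ)) *
              u (ins i a y) ^ 2) := by gcongr
          _ = _ := by ring
      have h0 : ∀ a, 0 ≤ pot Vk u (ins i a y i) * ((1 - gd M (ins i a y) i) * u (ins i a y) ^ 2) := by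
        intro a
        refine mul_nonneg (potV_nonneg _ _) (mul_nonneg ?_ (sq_nonneg _))
        linarith [(gd_bd M (ins i a y) i).2]
      refine (integral_mono_of_nonneg (Eventually.of_forall h0) (hh.1.const_mul _)
        (Eventually.of_forall hpt)).trans ?_
      rw [integral_const_mul]
      calc M⁻¹ ^ (1/3:ℝ) * ∫ a, (∑ j : Fin n, ek 2 (a - y j)) ^ (1/3:ℝ) * pot Vk u a * u (ins i a y) ^ 2
          ≤ M⁻¹ ^ (1/3:ℝ) * (((n:ℝ) * c2) ^ (1/3:ℝ) * (∫ a, pot Vk u a ^ 3) ^ (1/3:ℝ) *
            (∫ a, u (ins i a y) ^ 6) ^ (1/3:ℝ)) := by gcongr; exact hh.2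
        _ ≤ M⁻¹ ^ (1/3:ℝ) * (((n:ℝ) * c2) ^ (1/3:ℝ) * (c3 * S' * TT u) * (S * Ky)) := by
            gcongr
        _ = K * Ky := by rw [hK]; ring
    refine goal.trans (le_of_eq ?_)
    rw [hK]; ring
  refine (Finset.sum_le_sum fun i _ => hi i).trans ?_
  rw [← Finset.mul_sum, ← Finset.mul_sum, ← Finset.mul_sum]
  have e : ∑ i, Ti i u = TT u := rfl
  rw [e, Real.mul_rpow (by positivity) hc20]
  have hMn : 0 ≤ M⁻¹ ^ (1/3:ℝ) * (n:ℝ) ^ (1/3:ℝ) * TT u ^ 2 := by positivity
  nlinarith

end Pool.Agent.Helper985.BM
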