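import Pool.Agent.Helper985.BM.R1

set_option autoImplicit false

open MeasureTheory Filter Topology Set
open scoped ContDiff

namespace Pool.Agent.Helper985.BM

open VR

variable {n : ℕ}

theorem add_six {p q : ℝ} (hp : 0 ≤ p) (hq : 0 ≤ q) : (p + q) ^ 6 ≤ 32 * (p ^ 6 + q ^ 6) := by
  have h1 : (p + q) ^ 2 ≤ 2 * (p ^ 2 + q ^ 2) := by nlinarith [sq_nonneg (p - q)]
  have h2 : ((p + q) ^ 2) ^ 3 ≤ (2 * (p ^ 2 + q ^ 2)) ^ 3 := pow_le_pow_left₀ (sq_nonneg _) h1 3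
  have h3 : (p ^ 2 + q ^ 2) ^ 3 ≤ 4 * ((p ^ 2) ^ 3 + (q ^ 2) ^ 3) := by
    nlinarith [mul_nonneg (add_nonneg (sq_nonneg p) (sq_nonneg q)) (sq_nonneg (p ^ 2 - q ^ 2))]
  calc (p + q) ^ 6 = ((p + q) ^ 2) ^ 3 := by ring
    _ ≤ (2 * (p ^ 2 + q ^ 2)) ^ 3 := h2
    _ = 8 * (p ^ 2 + q ^ 2) ^ 3 := by ring
    _ ≤ 8 * (4 * ((p ^ 2) ^ 3 + (q ^ 2) ^ 3)) := by linarith
    _ = _ := by ring

theorem rho_sq_int {u : Cf (n + 1) → ℝ} (hu : SC u) : VR.L2 (rho u) := by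
  refine ⟨rho_meas hu, ?_⟩
  obtain ⟨S, _, hS⟩ := rho_cube
  refine ((rho_int hu).add (hS n u hu).1).mono' ((rho_meas hu).pow_const 2).aestronglyMeasurable
    (Eventually.of_forall fun a => ?_)
  have h := rho_nonneg u a
  rw [Real.norm_eq_abs, abs_of_nonneg (sq_nonneg _)]
  simp only [Pi.add_apply]
  nlinarith [mul_nonneg h (sq_nonneg (rho u a - 1))]

/-- constants: `S` Sobolev -/
theorem rho_sq_le : ∃ S : ℝ, 0 < S ∧ ∀ (n : ℕ) (u : Cf (n + 1) → ℝ), SC u →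
    ∫ a, rho u a ^ 2 ≤ √((n + 1) * N2 u) * √((S * TT u) ^ 3) := by
  obtain ⟨S, hS0, hS⟩ := rho_cube
  refine ⟨S, hS0, fun n u hu => ?_⟩
  have hL := sqrt_rho_L2 hu
  have h3 := hS n u hu
  have hg : L2 fun a => rho u a * √(rho u a) := by
    refine ⟨(rho_meas hu).mul (rho_meas hu).sqrt, h3.1.congr (Eventually.of_forall fun a => ?_)⟩
    simp only
    rw [mul_pow, Real.sq_sqrt (rho_nonneg u a)]; ring
  have h1 := (le_abs_self _).trans (cs hL hg)
  have e1 : ∫ a, √(rho u a) * (rho u a * √(rho u a)) = ∫ a, rho u a ^ 2 := by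
    congr 1; ext a
    have := Real.mul_self_sqrt (rho_nonneg u a)
    calc √(rho u a) * (rho u a * √(rho u a)) = rho u a * (√(rho u a) * √(rho u a)) := by ring
      _ = _ := by rw [this]; ring
  have e2 : N2 (fun a => √(rho u a)) = (n + 1) * N2 u := by
    rw [← rho_mass hu]
    unfold N2
    congr 1; ext a; exact Real.sq_sqrt (rho_nonneg u a)
  have e3 : N2 (fun a => rho u a * √(rho u a)) = ∫ a, rho u a ^ 3 := by
    unfold N2
    congr 1; ext a
    rw [mul_pow, Real.sq_sqrt (rho_nonneg u a)]; ring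
  rw [e1, e2, e3] at h1
  refine h1.trans ?_
  gcongr
  exact h3.2

theorem b3_repr_sq (h : E3) : ∑ i, b3.repr h i ^ 2 = ‖h‖ ^ 2 := by
  rw [EuclideanSpace.norm_sq_eq]
  refine Finset.sum_congr rfl fun i _ => ?_
  rw [b3_repr, Real.norm_eq_abs, sq_abs]

theorem rho_trans : ∃ C : ℝ, 0 < C ∧ ∀ (n : ℕ) (u : Cf (n + 1) → ℝ), SC u → ∀ h : E3,
    N2 (fun a => rho u (a + h) - rho u a) ≤ C * ‖h‖ * TT u ^ 2 := by
  obtain ⟨S, hS0, hS⟩ := rho_cube
  refine ⟨8 * √(S ^ 3), by positivity, fun n u hu h => ?_⟩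
  obtain ⟨g, hg, hgN⟩ := sqrt_rho_H1 hu
  have hT := TT_nonneg u
  set φ : E3 → ℝ := fun a => √(rho u a) with hφ
  have hφm : Measurable φ := (rho_meas hu).sqrt
  have h6 : ∀ a, φ a ^ 6 = rho u a ^ 3 := fun a => by
    have := Real.sq_sqrt (rho_nonneg u a)
    calc √(rho u a) ^ 6 = (√(rho u a) ^ 2) ^ 3 := by ring
      _ = _ := by rw [this]
  have h6i : Integrable fun a => φ a ^ 6 := (hS n u hu).1.congr (Eventually.of_forall fun a => (h6 a).symm)
  have h6I : ∫ a, φ a ^ 6 ≤ (S * TT u) ^ 3 := by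
    simp_rw [h6]; exact (hS n u hu).2
  have hA : L2 fun a => φ (a + h) - φ a := (hg.1.translate h).sub hg.1
  have hAN : N2 (fun a => φ (a + h) - φ a) ≤ ‖h‖ ^ 2 * TT u := by
    have := hg.trans_le h
    rw [b3_repr_sq] at this
    refine this.trans ?_
    gcongr
  have hBb : ∀ a, (|φ (a + h) - φ a| * (φ (a + h) + φ a) ^ 2) ^ 2 ≤ 32 * (φ (a + h) ^ 6 + φ a ^ 6) := by
    intro a
    have p : 0 ≤ φ (a + h) := Real.sqrt_nonneg _
    have q : 0 ≤ φ a := Real.sqrt_nonneg _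
    have h1 : |φ (a + h) - φ a| ≤ φ (a + h) + φ a := by
      rw [abs_le]; constructor <;> linarith
    have h2 : |φ (a + h) - φ a| * (φ (a + h) + φ a) ^ 2 ≤ (φ (a + h) + φ a) ^ 3 := by
      have := mul_le_mul_of_nonneg_right h1 (sq_nonneg (φ (a + h) + φ a))
      linarith [this, (show (φ (a + h) + φ a) * (φ (a + h) + φ a) ^ 2 = (φ (a + h) + φ a) ^ 3 by ring)]
    have h3 := pow_le_pow_left₀ (by positivity) h2 2
    refine h3.trans ?_
    have h4 := add_six p q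
    calc ((φ (a + h) + φ a) ^ 3) ^ 2 = (φ (a + h) + φ a) ^ 6 := by ring
      _ ≤ _ := h4
  have hB : L2 fun a => |φ (a + h) - φ a| * (φ (a + h) + φ a) ^ 2 := by
    have hm1 : Measurable fun a => φ (a + h) := hφm.comp (measurable_add_const h)
    have hm : Measurable fun a => |φ (a + h) - φ a| * (φ (a + h) + φ a) ^ 2 :=
      (hm1.sub hφm).abs.mul ((hm1.add hφm).pow_const 2)
    refine ⟨hm, ((h6i.comp_add_right h).add h6i |>.const_mul 32).mono' (hm.pow_const 2).aestronglyMeasurable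
      (Eventually.of_forall fun a => ?_)⟩
    rw [Real.norm_eq_abs, abs_of_nonneg (sq_nonneg _)]
    exact hBb a
  have hBN : N2 (fun a => |φ (a + h) - φ a| * (φ (a + h) + φ a) ^ 2) ≤ 64 * (S * TT u) ^ 3 := by
    have h1 : N2 (fun a => |φ (a + h) - φ a| * (φ (a + h) + φ a) ^ 2) ≤
        ∫ a, 32 * (φ (a + h) ^ 6 + φ a ^ 6) := by
      unfold N2
      exact integral_mono hB.2 (((h6i.comp_add_right h).add h6i).const_mul 32) hBb
    rw [integral_const_mul, integral_add (h6i.comp_add_right h) h6i,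
      integral_add_right_eq_self (fun a => φ a ^ 6) h] at h1
    linarith
  have hcs := (le_abs_self _).trans (cs hA.abs hB)
  rw [N2_abs] at hcs
  have e1 : N2 (fun a => rho u (a + h) - rho u a) =
      ∫ a, |φ (a + h) - φ a| * (|φ (a + h) - φ a| * (φ (a + h) + φ a) ^ 2) := by
    unfold N2
    congr 1; ext a
    have p := Real.sq_sqrt (rho_nonneg u (a + h))
    have q := Real.sq_sqrt (rho_nonneg u a)
    have e : rho u (a + h) - rho u a = (φ (a + h) - φ a) * (φ (a + h) + φ a) := by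
      show _ = (√(rho u (a + h)) - √(rho u a)) * (√(rho u (a + h)) + √(rho u a))
      nlinarith
    show (rho u (a + h) - rho u a) ^ 2 = _
    rw [e, mul_pow, ← mul_assoc, ← sq, sq_abs]
  rw [e1]
  refine hcs.trans ?_
  calc √(N2 fun a => φ (a + h) - φ a) * √(N2 fun a => |φ (a + h) - φ a| * (φ (a + h) + φ a) ^ 2)
      ≤ √(‖h‖ ^ 2 * TT u) * √(64 * (S * TT u) ^ 3) := by gcongr
    _ = √((8 * √(S ^ 3) * ‖h‖ * TT u ^ 2) ^ 2) := by
        rw [← Real.sqrt_mul (by positivity)]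
        congr 1
        have : √(S ^ 3) ^ 2 = S ^ 3 := Real.sq_sqrt (by positivity)
        calc ‖h‖ ^ 2 * TT u * (64 * (S * TT u) ^ 3) = 64 * S ^ 3 * ‖h‖ ^ 2 * TT u ^ 4 := by ring
          _ = 64 * (√(S ^ 3) ^ 2) * ‖h‖ ^ 2 * TT u ^ 4 := by rw [this]
          _ = _ := by ring
    _ = 8 * √(S ^ 3) * ‖h‖ * TT u ^ 2 := Real.sqrt_sq (by positivity)

end Pool.Agent.Helper985.BM
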