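import Pool.Agent.Helper985.BM.A2
import Pool.Agent.Helper985.BM.R2

set_option autoImplicit false

open MeasureTheory Filter Topology Set
open scoped ContDiff

namespace Pool.Agent.Helper985.BM

open VR

variable {n : ℕ}

theorem sum_sqrt_Ti (u : Cf (n + 1) → ℝ) : ∑ i, √(Ti i u) ≤ √((n:ℝ) + 1) * √(TT u) := by
  have h := Finset.sum_mul_sq_le_sq_mul_sq Finset.univ (fun _ : Fin (n + 1) => (1:ℝ)) (fun i => √(Ti i u))
  have e1 : ∑ i : Fin (n + 1), √(Ti i u) ^ 2 = TT u := by
    unfold TT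
    exact Finset.sum_congr rfl fun i _ => Real.sq_sqrt (Ti_nonneg i u)
  rw [e1] at h
  simp at h
  rw [← Real.sqrt_mul (by positivity)]
  exact Real.le_sqrt_of_sq_le h

/-- the repulsion of the electrons is bounded below by the mean field energy -/
theorem stepA : ∃ C : ℝ, 0 < C ∧ ∀ (n : ℕ) (u : Cf (n + 1) → ℝ), SC u → N2 u = 1 → ∀ M : ℝ, 0 < M →
    (1/2) * (∫ a, pot Vk u a * rho u a) - ((1/2) * (1 + M) * (√((n:ℝ) + 1) * √(TT u)) +
      (5/2) * ((n:ℝ) + 1) + C * M⁻¹ ^ (1/3:ℝ) * (n:ℝ) ^ (1/3:ℝ) * TT u ^ 2) ≤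
    (1/2) * ∑ i, ∫ x, (∑ j : Fin n, Yk (x i - x (i.succAbove j))) * u x ^ 2 := by
  obtain ⟨C, hC0, hC⟩ := bad_bd
  refine ⟨C, hC0, fun n u hu hN M hM => ?_⟩
  have hB := hC n u hu M hM
  have hmf := mf_compare hu M
  have hj := jensen hu hN M
  have h1 : pr (fun p => Vk (p.1 - p.2)) (mw u w1) (mw u w1) = ∫ a, pot Vk u a * rho u a := by
    rw [pr_mw hu w1_wt w1_wt]
    rw [← (rho_avg (u := u) (f := pot Vk u) fun i => ?_).2]
    · refine Finset.sum_congr rfl fun i _ => ?_
      congr 1; ext x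
      rw [pw_w1 hu]; unfold w1; ring
    · refine bdd_one_int hu (pot_meas Vk_cont.measurable hu) (C := 5 * ∫ b, rho u b) (fun a => ?_) i
      rw [abs_of_nonneg (potV_nonneg u a)]; exact potV_bd hu a
  rw [h1] at hmf
  have hgi : ∀ i : Fin (n + 1), Integrable fun x : Cf (n + 1) =>
      (∑ j : Fin n, gd M (rst i x) j * Vk (x i - x (i.succAbove j))) * u x ^ 2 := by
    intro i
    simp_rw [Finset.sum_mul]
    exact integrable_finsetSum _ fun j _ => gV_int hu i j M
  have h2 : ∫ x, (∑ i, ∑ k, gd M x i * gd M x k * Vk (x i - x k)) * u x ^ 2 ≤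
      (∑ i, ∫ x, (∑ j : Fin n, gd M (rst i x) j * Vk (x i - x (i.succAbove j))) * u x ^ 2) +
        5 * (n + 1) := by
    have e : (∑ i, ∫ x, (∑ j : Fin n, gd M (rst i x) j * Vk (x i - x (i.succAbove j))) * u x ^ 2) +
        5 * (n + 1) = ∫ x, (((∑ i, ∑ j : Fin n, gd M (rst i x) j * Vk (x i - x (i.succAbove j))) +
          5 * (n + 1)) * u x ^ 2) := by
      simp_rw [add_mul, Finset.sum_mul (s := (Finset.univ : Finset (Fin (n + 1))))]
      rw [integral_add (integrable_finsetSum _ fun i _ => hgi i) (hu.sq_int.const_mul _),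
        integral_finsetSum _ fun i _ => hgi i, integral_const_mul]
      have : ∫ x, u x ^ 2 = 1 := hN
      rw [this]; ring
    rw [e]
    refine integral_mono_of_nonneg (Eventually.of_forall fun x => ?_) ?_ (Eventually.of_forall fun x => ?_)
    · refine mul_nonneg (Finset.sum_nonneg fun i _ => Finset.sum_nonneg fun k _ => ?_) (sq_nonneg _)
      exact mul_nonneg (mul_nonneg (gd_bd M x i).1 (gd_bd M x k).1) (Vk_nonneg _)
    · simp_rw [add_mul, Finset.sum_mul (s := (Finset.univ : Finset (Fin (n + 1))))]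
      exact (integrable_finsetSum _ fun i _ => hgi i).add (hu.sq_int.const_mul _)
    · exact mul_le_mul_of_nonneg_right (good_double M x) (sq_nonneg _)
  have h3 : (∑ i, ∫ x, (∑ j : Fin n, gd M (rst i x) j * Vk (x i - x (i.succAbove j))) * u x ^ 2) -
      (1 + M) * (√((n:ℝ) + 1) * √(TT u)) ≤
      ∑ i, ∫ x, (∑ j : Fin n, Yk (x i - x (i.succAbove j))) * u x ^ 2 := by
    have h4 : ∑ i, ((∫ x, (∑ j : Fin n, gd M (rst i x) j * Vk (x i - x (i.succAbove j))) * u x ^ 2) -
      (1 + M) * (√(N2 u) * √(Ti i u))) ≤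
      ∑ i, ∫ x, (∑ j : Fin n, Yk (x i - x (i.succAbove j))) * u x ^ 2 :=
      Finset.sum_le_sum fun i _ => stepA1 hu i hM.le
    rw [Finset.sum_sub_distrib] at h4
    simp only [hN, Real.sqrt_one, one_mul] at h4
    rw [← Finset.mul_sum] at h4
    have h5 := sum_sqrt_Ti u
    have h6 : (1 + M) * ∑ i, √(Ti i u) ≤ (1 + M) * (√((n:ℝ) + 1) * √(TT u)) := by gcongr
    linarith
  linarith

/-- mean field energy with a local density -/
theorem mf_local : ∃ C : ℝ, 0 < C ∧ ∀ (n : ℕ) (u : Cf (n + 1) → ℝ), SC u →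
    c3 * (∫ a, rho u a ^ 2) - C * TT u ^ 2 ≤ ∫ a, pot Vk u a * rho u a := by
  obtain ⟨C, hC0, hC⟩ := rho_trans
  refine ⟨15 * c3 * C, by have := c3_pos; positivity, fun n u hu => ?_⟩
  have hL := rho_sq_int hu
  have hT := TT_nonneg u
  -- potential as an average over translations
  have hpot : ∀ a, pot Vk u a = ∫ h, Vk h * rho u (a + h) := by
    intro a
    unfold pot
    rw [← integral_add_left_eq_self (fun b => Vk (a - b) * rho u b) a]
    congr 1; ext h
    rw [show a - (a + h) = -h by abel, Vk_neg]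
  have hprod : Integrable (fun p : E3 × E3 => Vk p.2 * (rho u (p.1 + p.2) * rho u p.1))
      ((volume : Measure E3).prod (volume : Measure E3)) := by
    have hm : Measurable fun p : E3 × E3 => Vk p.2 * (rho u (p.1 + p.2) * rho u p.1) :=
      (Vk_cont.measurable.comp measurable_snd).mul
        (((rho_meas hu).comp (measurable_fst.add measurable_snd)).mul ((rho_meas hu).comp measurable_fst))
    rw [integrable_prod_iff' hm.aestronglyMeasurable]
    refine ⟨Eventually.of_forall fun h => ((hL.translate h).mul hL).const_mul (Vk h), ?_⟩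
    refine (Vk_int.mul_const (∫ a, rho u a ^ 2)).mono' ?_ (Eventually.of_forall fun h => ?_)
    · exact (hm.norm.stronglyMeasurable.integral_prod_left (μ := (volume : Measure E3))).aestronglyMeasurable
    · have e : ∀ a, ‖Vk h * (rho u (a + h) * rho u a)‖ = Vk h * (rho u (a + h) * rho u a) := by
        intro a
        rw [Real.norm_eq_abs, abs_of_nonneg]
        exact mul_nonneg (Vk_nonneg _) (mul_nonneg (rho_nonneg _ _) (rho_nonneg _ _))
      simp_rw [e]
      rw [integral_const_mul, Real.norm_eq_abs, abs_of_nonneg (mul_nonneg (Vk_nonneg _)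
        (integral_nonneg fun a => mul_nonneg (rho_nonneg _ _) (rho_nonneg _ _)))]
      refine mul_le_mul_of_nonneg_left ?_ (Vk_nonneg h)
      have h1 := (le_abs_self _).trans (cs (hL.translate h) hL)
      rw [N2_translate] at h1
      have h2 := Real.mul_self_sqrt (N2_nonneg (rho u))
      have h3 : N2 (rho u) = ∫ a, rho u a ^ 2 := rfl
      linarith
  have e1 : ∫ a, pot Vk u a * rho u a = ∫ h, Vk h * ∫ a, rho u (a + h) * rho u a := by
    have e2 : ∀ a, pot Vk u a * rho u a = ∫ h, Vk h * (rho u (a + h) * rho u a) := by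
      intro a
      rw [hpot, ← integral_mul_const]
      congr 1; ext h; ring
    simp_rw [e2]
    rw [integral_integral_swap hprod]
    simp_rw [integral_const_mul]
  rw [e1]
  have h1 : ∀ h : E3, Vk h * ((∫ a, rho u a ^ 2) - (1/2) * (C * ‖h‖ * TT u ^ 2)) ≤
      Vk h * ∫ a, rho u (a + h) * rho u a := by
    intro h
    refine mul_le_mul_of_nonneg_left ?_ (Vk_nonneg h)
    have h2 := N2_sub (hL.translate h) hL
    rw [N2_translate] at h2
    have h3 : N2 (rho u) = ∫ a, rho u a ^ 2 := rfl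
    have h4 := hC n u hu h
    linarith
  have hi1 : Integrable fun h : E3 => Vk h * ((∫ a, rho u a ^ 2) - (1/2) * (C * ‖h‖ * TT u ^ 2)) := by
    have e : (fun h : E3 => Vk h * ((∫ a, rho u a ^ 2) - (1/2) * (C * ‖h‖ * TT u ^ 2))) =
        fun h => Vk h * (∫ a, rho u a ^ 2) - (1/2) * (C * TT u ^ 2) * (‖h‖ * Vk h) := by
      ext h; ring
    rw [e]
    exact (Vk_int.mul_const _).sub (nVk_int.const_mul _)
  have hi2 : Integrable fun h : E3 => Vk h * ∫ a, rho u (a + h) * rho u a := by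
    have := hprod.integral_prod_right
    simpa only [integral_const_mul] using this
  refine le_trans ?_ (integral_mono hi1 hi2 h1)
  have e : ∫ h : E3, Vk h * ((∫ a, rho u a ^ 2) - (1/2) * (C * ‖h‖ * TT u ^ 2)) =
      c3 * (∫ a, rho u a ^ 2) - (1/2) * (C * TT u ^ 2) * ∫ h : E3, ‖h‖ * Vk h := by
    have e' : (fun h : E3 => Vk h * ((∫ a, rho u a ^ 2) - (1/2) * (C * ‖h‖ * TT u ^ 2))) =
        fun h => Vk h * (∫ a, rho u a ^ 2) - (1/2) * (C * TT u ^ 2) * (‖h‖ * Vk h) := by
      ext h; ring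
    rw [e', integral_sub (Vk_int.mul_const _) (nVk_int.const_mul _), integral_mul_const,
      integral_const_mul, Vk_integral]
  rw [e]
  have h5 := nVk_integral_le
  have h6 : (1/2) * (C * TT u ^ 2) * ∫ h : E3, ‖h‖ * Vk h ≤ (1/2) * (C * TT u ^ 2) * (30 * c3) := by
    gcongr
  linarith

end Pool.Agent.Helper985.BM
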