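import Pool.Agent.Helper985.BM.A1
import Pool.Agent.Helper985.BM.P1
import Pool.Agent.Helper985.BM.R3

set_option autoImplicit false

open MeasureTheory Filter Topology Set
open scoped ContDiff

namespace Pool.Agent.Helper985.BM

open VR

variable {n : ℕ}

/-- finite weighted sums of point masses -/
noncomputable def pmw {ι : Type*} [Fintype ι] (c : ι → ℝ) (p : ι → E3) : Measure E3 :=
  ∑ i, ENNReal.ofReal (c i) • Measure.dirac (p i)

theorem pmw_fin {ι : Type*} [Fintype ι] (c : ι → ℝ) (p : ι → E3) : IsFiniteMeasure (pmw c p) := by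
  unfold pmw
  have h : ∀ i : ι, IsFiniteMeasure (ENNReal.ofReal (c i) • Measure.dirac (p i)) :=
    fun i => ⟨by simp⟩
  infer_instance

theorem pmw_integral {ι : Type*} [Fintype ι] {c : ι → ℝ} (hc : ∀ i, 0 ≤ c i) (p : ι → E3)
    {f : E3 → ℝ} (hf : Measurable f) {C : ℝ} (hC : ∀ x, |f x| ≤ C) :
    ∫ a, f a ∂(pmw c p) = ∑ i, c i * f (p i) := by
  unfold pmw
  have h : ∀ i : ι, IsFiniteMeasure (ENNReal.ofReal (c i) • Measure.dirac (p i)) :=
    fun i => ⟨by simp⟩
  rw [integral_finsetSum_measure]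
  · refine Finset.sum_congr rfl fun i _ => ?_
    rw [integral_smul_measure, integral_dirac, ENNReal.toReal_ofReal (hc i), smul_eq_mul]
  · intro i _
    exact Integrable.of_bound hf.aestronglyMeasurable C (Eventually.of_forall hC)

/-- pairing of point measures -/
theorem pr_pmw {ι κ : Type*} [Fintype ι] [Fintype κ] {c : ι → ℝ} (hc : ∀ i, 0 ≤ c i) (p : ι → E3)
    {d : κ → ℝ} (hd : ∀ i, 0 ≤ d i) (q : κ → E3) {k : E3 → ℝ} (hk : Measurable k) {C : ℝ}
    (hC : ∀ x, |k x| ≤ C) :
    pr (fun s => k (s.1 - s.2)) (pmw c p) (pmw d q) = ∑ i, ∑ j, c i * d j * k (p i - q j) := by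
  have f1 := pmw_fin c p
  have f2 := pmw_fin d q
  have hbk : BK (fun s : E3 × E3 => k (s.1 - s.2)) :=
    ⟨hk.comp (measurable_fst.sub measurable_snd), C, fun s => hC _⟩
  unfold pr
  rw [integral_prod _ (hbk.int _ _)]
  have hi : ∀ a : E3, ∫ b, k (a - b) ∂(pmw d q) = ∑ j, d j * k (a - q j) := fun a =>
    pmw_integral hd q (hk.comp (measurable_const.sub measurable_id)) (fun _ => hC _)
  simp_rw [hi]
  have hm : Measurable fun a : E3 => ∑ j, d j * k (a - q j) :=
    Finset.measurable_sum _ fun k _ => (hk.comp (measurable_id.sub measurable_const)).const_mul _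
  rw [pmw_integral hc p hm (C := ∑ j : κ, d j * C) (fun a => ?_)]
  · refine Finset.sum_congr rfl fun i _ => ?_
    rw [Finset.mul_sum]
    refine Finset.sum_congr rfl fun k _ => by ring
  · refine (Finset.abs_sum_le_sum_abs _ _).trans (Finset.sum_le_sum fun j _ => ?_)
    rw [abs_mul, abs_of_nonneg (hd j)]
    exact mul_le_mul_of_nonneg_left (hC _) (hd j)

/-- repulsion of a configuration for the kernel `k` -/
noncomputable def rep {ι : Type*} [Fintype ι] (k : E3 → ℝ) (x : ι → E3) : ℝ :=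
  (1/2) * ∑ i, ∑ j, k (x i - x j)

/-- mixed energy -/
noncomputable def mix {ι κ : Type*} [Fintype ι] [Fintype κ] (k : E3 → ℝ) (x : ι → E3) (R : κ → E3) : ℝ :=
  ∑ i, ∑ j, k (x i - R j)

/-- Coulomb kernel -/
noncomputable def Ck (x : E3) : ℝ := 1 / ‖x‖

theorem Yk_zero : Yk 0 = 0 := by unfold Yk; simp
theorem Ck_zero : Ck 0 = 0 := by unfold Ck; simp

theorem Ck_smul {c : ℝ} (hc : 0 < c) (x : E3) : Ck x = c * Ck (c • x) := by
  unfold Ck
  rw [norm_smul, Real.norm_eq_abs, abs_of_pos hc]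
  by_cases h : ‖x‖ = 0
  · rw [h]; simp
  · field_simp


theorem Ck_eq {x : E3} (hx : x ≠ 0) : Ck x = Yk x + Wk x := inv_eq hx

theorem rep_split {ι : Type*} [Fintype ι] {x : ι → E3} (hx : Function.Injective x) :
    rep Ck x = rep Yk x + rep Wk x - (1/2) * Fintype.card ι := by
  classical
  have h : ∀ i j, Ck (x i - x j) = Yk (x i - x j) + Wk (x i - x j) - if i = j then 1 else 0 := by
    intro i j
    by_cases hij : i = j
    · subst hij
      rw [if_pos rfl, sub_self, Ck_zero, Yk_zero, Wk_zero]; ring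
    · rw [if_neg hij, Ck_eq (sub_ne_zero.2 fun h => hij (hx h))]; ring
  unfold rep
  simp_rw [h, Finset.sum_sub_distrib, Finset.sum_add_distrib]
  simp
  ring

theorem onsager {ι κ : Type*} [Fintype ι] [Fintype κ] {x : ι → E3} (hx : Function.Injective x)
    {R : κ → E3} (hR : Function.Injective R) (hxR : ∀ i j, x i ≠ R j) {z : ℝ} (hz : 0 ≤ z) :
    rep Yk x - z * mix Yk x R + z ^ 2 * rep Yk R - (1/2) * (Fintype.card ι + z ^ 2 * Fintype.card κ) ≤
      rep Ck x - z * mix Ck x R + z ^ 2 * rep Ck R := by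
  have hPD := Wk_PD (pmw (fun _ : ι => (1:ℝ)) x) (pmw (fun _ : κ => z) R) (pmw_fin _ _) (pmw_fin _ _)
  have hW : ∀ x : E3, |Wk x| ≤ 1 := fun x => by
    rw [abs_of_nonneg (Wk_nonneg x)]; exact Wk_le_one x
  rw [pr_pmw (fun _ => zero_le_one) x (fun _ => hz) R Wk_cont.measurable hW,
    pr_pmw (fun _ => zero_le_one) x (fun _ => zero_le_one) x Wk_cont.measurable hW,
    pr_pmw (fun _ => hz) R (fun _ => hz) R Wk_cont.measurable hW] at hPD
  simp only [one_mul] at hPD
  simp_rw [← Finset.mul_sum] at hPD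
  have e : mix Ck x R = mix Yk x R + mix Wk x R := by
    unfold mix
    rw [← Finset.sum_add_distrib]
    refine Finset.sum_congr rfl fun i _ => ?_
    rw [← Finset.sum_add_distrib]
    exact Finset.sum_congr rfl fun j _ => Ck_eq (sub_ne_zero.2 (hxR i j))
  rw [rep_split hx, rep_split hR, e]
  unfold rep mix at *
  linarith

/-! ### almost everywhere distinct -/

theorem ae_ne (i : Fin (n + 1)) {c : Cf n → E3} (hc : Measurable c) :
    ∀ᵐ x : Cf (n + 1), x i ≠ c (rst i x) := by
  have h : ∀ᵐ p ∂((volume : Measure E3).prod (volume : Measure (Cf n))), p.1 ≠ c p.2 := by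
    have hm : MeasurableSet {p : E3 × Cf n | p.1 = c p.2} :=
      measurableSet_eq_fun measurable_fst (hc.comp measurable_snd)
    have : ((volume : Measure E3).prod (volume : Measure (Cf n))) {p : E3 × Cf n | p.1 = c p.2} = 0 := by
      rw [Measure.prod_apply_symm hm]
      have : ∀ y : Cf n, (volume : Measure E3) ((fun x : E3 => (x, y)) ⁻¹' {p | p.1 = c p.2}) = 0 := by
        intro y
        have : (fun x : E3 => (x, y)) ⁻¹' {p | p.1 = c p.2} = {c y} := by ext a; simp
        rw [this]; simp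
      simp [this]
    exact compl_mem_ae_iff.2 this
  have h2 := ((volume_preserving_piFinSuccAbove (fun _ : Fin (n + 1) => E3) i).quasiMeasurePreserving).ae h
  filter_upwards [h2] with x hx
  exact hx

theorem ae_distinct {κ : Type*} [Fintype κ] (R : κ → E3) :
    ∀ᵐ x : Cf (n + 1), Function.Injective x ∧ ∀ i j, x i ≠ R j := by
  have h1 : ∀ᵐ x : Cf (n + 1), ∀ i, ∀ j : Fin n, x i ≠ x (i.succAbove j) := by
    refine ae_all_iff.2 fun i => ae_all_iff.2 fun j => ?_
    exact ae_ne i (c := fun y => y j) (measurable_pi_apply j)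
  have h2 : ∀ᵐ x : Cf (n + 1), ∀ i j, x i ≠ R j := by
    refine ae_all_iff.2 fun i => ae_all_iff.2 fun j => ?_
    exact ae_ne i (c := fun _ => R j) measurable_const
  filter_upwards [h1, h2] with x hx hy
  refine ⟨fun i k hik => ?_, hy⟩
  by_contra hne
  obtain ⟨j, rfl⟩ := Fin.exists_succAbove_eq (Ne.symm hne)
  exact hx i j hik

/-- integrability of the Coulomb terms -/
theorem Ck_pair_int {u : Cf (n + 1) → ℝ} (hu : SC u) (i k : Fin (n + 1)) :
    Integrable fun x => Ck (x i - x k) * u x ^ 2 := by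
  by_cases h : i = k
  · subst h; simp [Ck_zero]
  · have h1 := pair_int Yk_meas Yk_int h (f := fun x => u x ^ 2) (hu.sm.continuous.pow 2) (sq_cc hu.cc)
    have h2 : Integrable fun x : Cf (n + 1) => Wk (x i - x k) * u x ^ 2 :=
      hu.sq_int.bdd_mul (c := 1) (Wk_cont.measurable.comp ((measurable_pi_apply i).sub
        (measurable_pi_apply k))).aestronglyMeasurable (Eventually.of_forall fun x => by
        rw [Real.norm_eq_abs, abs_of_nonneg (Wk_nonneg _)]; exact Wk_le_one _)
    refine (h1.add h2).congr ?_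
    filter_upwards [ae_distinct (n := n) (fun _ : Fin 0 => (0:E3))] with x hx
    simp only [Pi.add_apply]
    rw [Ck_eq (sub_ne_zero.2 fun h3 => h (hx.1 h3))]; ring

theorem Ck_one_int {u : Cf (n + 1) → ℝ} (hu : SC u) (i : Fin (n + 1)) (a : E3) :
    Integrable fun x => Ck (x i - a) * u x ^ 2 := by
  have h1 := one_int Yk_meas Yk_int i a (f := fun x => u x ^ 2) (hu.sm.continuous.pow 2) (sq_cc hu.cc)
  have h2 : Integrable fun x : Cf (n + 1) => Wk (x i - a) * u x ^ 2 :=
    hu.sq_int.bdd_mul (c := 1) (Wk_cont.measurable.comp ((measurable_pi_apply i).sub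
      measurable_const)).aestronglyMeasurable (Eventually.of_forall fun x => by
      rw [Real.norm_eq_abs, abs_of_nonneg (Wk_nonneg _)]; exact Wk_le_one _)
  refine (h1.add h2).congr ?_
  filter_upwards [ae_distinct (n := n) (fun _ : Fin 1 => a)] with x hx
  simp only [Pi.add_apply]
  rw [Ck_eq (sub_ne_zero.2 (hx.2 i 0))]; ring

theorem Yk_pair_int {u : Cf (n + 1) → ℝ} (hu : SC u) (i k : Fin (n + 1)) :
    Integrable fun x => Yk (x i - x k) * u x ^ 2 := by
  by_cases h : i = k
  · subst h; simp [Yk_zero]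
  · exact pair_int Yk_meas Yk_int h (f := fun x => u x ^ 2) (hu.sm.continuous.pow 2) (sq_cc hu.cc)

theorem Yk_one_int {u : Cf (n + 1) → ℝ} (hu : SC u) (i : Fin (n + 1)) (a : E3) :
    Integrable fun x => Yk (x i - a) * u x ^ 2 :=
  one_int Yk_meas Yk_int i a (f := fun x => u x ^ 2) (hu.sm.continuous.pow 2) (sq_cc hu.cc)

theorem rep_int {u : Cf (n + 1) → ℝ} {k : E3 → ℝ}
    (h : ∀ i j : Fin (n + 1), Integrable fun x => k (x i - x j) * u x ^ 2) :
    Integrable (fun x => rep k x * u x ^ 2) ∧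
    ∫ x, rep k x * u x ^ 2 = (1/2) * ∑ i, ∑ j, ∫ x, k (x i - x j) * u x ^ 2 := by
  have e : (fun x : Cf (n + 1) => rep k x * u x ^ 2) =
      fun x => (1/2) * ∑ i, ∑ j, k (x i - x j) * u x ^ 2 := by
    ext x; unfold rep; rw [mul_assoc, Finset.sum_mul]; simp_rw [Finset.sum_mul]
  rw [e]
  refine ⟨(integrable_finsetSum _ fun i _ => integrable_finsetSum _ fun j _ => h i j).const_mul _, ?_⟩
  rw [integral_const_mul, integral_finsetSum _ fun i _ => integrable_finsetSum _ fun j _ => h i j]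
  congr 1
  exact Finset.sum_congr rfl fun i _ => integral_finsetSum _ fun j _ => h i j

theorem mix_int {κ : Type*} [Fintype κ] {R : κ → E3} {u : Cf (n + 1) → ℝ} {k : E3 → ℝ}
    (h : ∀ (i : Fin (n + 1)) (j : κ), Integrable fun x => k (x i - R j) * u x ^ 2) :
    Integrable (fun x => mix k x R * u x ^ 2) ∧
    ∫ x, mix k x R * u x ^ 2 = ∑ j, ∑ i, ∫ x, k (x i - R j) * u x ^ 2 := by
  have e : (fun x : Cf (n + 1) => mix k x R * u x ^ 2) =
      fun x => ∑ i, ∑ j, k (x i - R j) * u x ^ 2 := by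
    ext x; unfold mix; rw [Finset.sum_mul]; simp_rw [Finset.sum_mul]
  rw [e]
  refine ⟨integrable_finsetSum _ fun i _ => integrable_finsetSum _ fun j _ => h i j, ?_⟩
  rw [integral_finsetSum _ fun i _ => integrable_finsetSum _ fun j _ => h i j, Finset.sum_comm]
  exact Finset.sum_congr rfl fun i _ => integral_finsetSum _ fun j _ => h i j

/-- Coulomb energy of a smooth wave function and a configuration of nuclei -/
noncomputable def cen {κ : Type*} [Fintype κ] (z : ℝ) (u : Cf n → ℝ) (R : κ → E3) : ℝ :=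
  (∫ x, (rep Ck x - z * mix Ck x R) * u x ^ 2) + z ^ 2 * rep Ck R * N2 u

theorem potY_eq {u : Cf (n + 1) → ℝ} (hu : SC u) (a : E3) :
    ∑ i, ∫ x, Yk (x i - a) * u x ^ 2 = pot Yk u a := by
  rw [(rho_avg (u := u) (f := fun b => Yk (b - a)) fun i => Yk_one_int hu i a).2]
  unfold pot
  congr 1; ext b
  rw [← Yk_neg, neg_sub]

/-- Onsager's bound after averaging -/
theorem onsager_avg {κ : Type*} [Fintype κ] {u : Cf (n + 1) → ℝ} (hu : SC u) (hN : N2 u = 1)
    {R : κ → E3} (hR : Function.Injective R) {z : ℝ} (hz : 0 ≤ z) :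
    (1/2) * (∑ i, ∫ x, (∑ j : Fin n, Yk (x i - x (i.succAbove j))) * u x ^ 2) -
      z * (∑ j, pot Yk u (R j)) + z ^ 2 * rep Yk R - (1/2) * ((n + 1) + z ^ 2 * Fintype.card κ) ≤
      cen z u R := by
  have hC1 := rep_int (u := u) (k := Ck) fun i j => Ck_pair_int hu i j
  have hC2 := mix_int (u := u) (k := Ck) (R := R) fun i j => Ck_one_int hu i (R j)
  have hY1 := rep_int (u := u) (k := Yk) fun i j => Yk_pair_int hu i j
  have hY2 := mix_int (u := u) (k := Yk) (R := R) fun i j => Yk_one_int hu i (R j)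
  have e1 : ∫ x, rep Yk x * u x ^ 2 =
      (1/2) * ∑ i, ∫ x, (∑ j : Fin n, Yk (x i - x (i.succAbove j))) * u x ^ 2 := by
    rw [hY1.2]
    congr 1
    refine Finset.sum_congr rfl fun i _ => ?_
    rw [Fin.sum_univ_succAbove _ i]
    simp only [sub_self, Yk_zero, zero_mul, integral_zero, zero_add]
    simp_rw [Finset.sum_mul]
    rw [integral_finsetSum _ fun j _ => Yk_pair_int hu i _]
  have e2 : ∫ x, mix Yk x R * u x ^ 2 = ∑ j, pot Yk u (R j) := by
    rw [hY2.2]
    exact Finset.sum_congr rfl fun j _ => potY_eq hu (R j)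
  have hN' : ∫ x, u x ^ 2 = 1 := hN
  have hL : ∫ x, (rep Yk x - z * mix Yk x R + z ^ 2 * rep Yk R -
      (1/2) * ((n + 1) + z ^ 2 * Fintype.card κ)) * u x ^ 2 =
      (∫ x, rep Yk x * u x ^ 2) - z * (∫ x, mix Yk x R * u x ^ 2) + z ^ 2 * rep Yk R -
      (1/2) * ((n + 1) + z ^ 2 * Fintype.card κ) := by
    have e : ∀ x : Cf (n + 1), (rep Yk x - z * mix Yk x R + z ^ 2 * rep Yk R -
      (1/2) * ((n + 1) + z ^ 2 * Fintype.card κ)) * u x ^ 2 =
      (rep Yk x * u x ^ 2 - z * (mix Yk x R * u x ^ 2)) + (z ^ 2 * rep Yk R -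
      (1/2) * ((n + 1) + z ^ 2 * Fintype.card κ)) * u x ^ 2 := fun x => by ring
    simp_rw [e]
    have hs : Integrable fun x : Cf (n + 1) => rep Yk x * u x ^ 2 - z * (mix Yk x R * u x ^ 2) :=
      hY1.1.sub (hY2.1.const_mul z)
    rw [integral_add hs (hu.sq_int.const_mul _), integral_sub hY1.1 (hY2.1.const_mul z), integral_const_mul, integral_const_mul, hN']
    ring
  have hRt : ∫ x, (rep Ck x - z * mix Ck x R + z ^ 2 * rep Ck R) * u x ^ 2 = cen z u R := by
    have e : ∀ x : Cf (n + 1), (rep Ck x - z * mix Ck x R + z ^ 2 * rep Ck R) * u x ^ 2 =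
      (rep Ck x - z * mix Ck x R) * u x ^ 2 + (z ^ 2 * rep Ck R) * u x ^ 2 := fun x => by ring
    have hi : Integrable fun x => (rep Ck x - z * mix Ck x R) * u x ^ 2 := by
      refine (hC1.1.sub (hC2.1.const_mul z)).congr (Eventually.of_forall fun x => ?_)
      simp only [Pi.sub_apply]; ring
    simp_rw [e]
    rw [integral_add hi (hu.sq_int.const_mul _), integral_const_mul]
    rfl
  have hmono : ∫ x, (rep Yk x - z * mix Yk x R + z ^ 2 * rep Yk R -
      (1/2) * ((n + 1) + z ^ 2 * Fintype.card κ)) * u x ^ 2 ≤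
      ∫ x, (rep Ck x - z * mix Ck x R + z ^ 2 * rep Ck R) * u x ^ 2 := by
    refine integral_mono_ae ?_ ?_ ?_
    · have := (hY1.1.sub (hY2.1.const_mul z)).add (hu.sq_int.const_mul (z ^ 2 * rep Yk R -
        (1/2) * ((n + 1) + z ^ 2 * Fintype.card κ)))
      refine this.congr (Eventually.of_forall fun x => ?_)
      simp only [Pi.add_apply, Pi.sub_apply]; ring
    · have := (hC1.1.sub (hC2.1.const_mul z)).add (hu.sq_int.const_mul (z ^ 2 * rep Ck R))
      refine this.congr (Eventually.of_forall fun x => ?_)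
      simp only [Pi.add_apply, Pi.sub_apply]; ring
    · filter_upwards [ae_distinct (n := n) R] with x hx
      have h := onsager hx.1 hR hx.2 hz
      rw [Fintype.card_fin] at h
      push_cast at h
      exact mul_le_mul_of_nonneg_right h (sq_nonneg _)
  rw [hL, hRt, e1, e2] at hmono
  exact hmono

end Pool.Agent.Helper985.BM
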