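import Pool.Agent.Helper985.BM.C1

set_option autoImplicit false

open MeasureTheory Filter Topology Set
open scoped ContDiff

namespace Pool.Agent.Helper985.BM

open VR

variable {n : ℕ} {κ : Type*} [Fintype κ] [DecidableEq κ]

/-- classical energy of the nuclei in `S` in the potential `A` -/
noncomputable def JJ (z : ℝ) (R : κ → E3) (A : κ → ℝ) (S : Finset κ) : ℝ :=
  z ^ 2 * ((1/2) * ∑ j ∈ S, ∑ k ∈ S, Yk (R j - R k)) - z * ∑ j ∈ S, A j

theorem Yk_comm (a b : E3) : Yk (a - b) = Yk (b - a) := by rw [← Yk_neg, neg_sub]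

theorem JJ_erase (z : ℝ) (R : κ → E3) (A : κ → ℝ) (S : Finset κ) {j : κ} (hj : j ∈ S) :
    JJ z R A (S.erase j) = JJ z R A S - z ^ 2 * (∑ k ∈ S, Yk (R j - R k)) + z * A j := by
  unfold JJ
  have h1 : ∑ i ∈ S, ∑ k ∈ S, Yk (R i - R k) =
      (∑ i ∈ S.erase j, ∑ k ∈ S.erase j, Yk (R i - R k)) + 2 * ∑ k ∈ S, Yk (R j - R k) := by
    have e1 : ∑ i ∈ S, ∑ k ∈ S, Yk (R i - R k) =
        (∑ k ∈ S, Yk (R j - R k)) + ∑ i ∈ S.erase j, ∑ k ∈ S, Yk (R i - R k) :=
      (Finset.add_sum_erase S _ hj).symm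
    have e2 : ∀ i, ∑ k ∈ S, Yk (R i - R k) = Yk (R i - R j) + ∑ k ∈ S.erase j, Yk (R i - R k) :=
      fun i => (Finset.add_sum_erase S _ hj).symm
    have e3 : ∑ i ∈ S.erase j, ∑ k ∈ S, Yk (R i - R k) =
        (∑ i ∈ S.erase j, Yk (R i - R j)) + ∑ i ∈ S.erase j, ∑ k ∈ S.erase j, Yk (R i - R k) := by
      rw [← Finset.sum_add_distrib]
      exact Finset.sum_congr rfl fun i _ => e2 i
    have e4 : ∑ i ∈ S.erase j, Yk (R i - R j) = ∑ k ∈ S, Yk (R j - R k) := by
      rw [← Finset.add_sum_erase S _ hj, sub_self, Yk_zero, zero_add]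
      exact Finset.sum_congr rfl fun i _ => Yk_comm _ _
    rw [e1, e3, e4]; ring
  have h2 : ∑ j ∈ S, A j = A j + ∑ i ∈ S.erase j, A i := (Finset.add_sum_erase S _ hj).symm
  rw [h1, h2]; ring

/-- optimal choice of nuclei -/
theorem opt {z : ℝ} (hz : 0 < z) (R : κ → E3) (A : κ → ℝ) :
    ∃ S : Finset κ, JJ z R A S ≤ JJ z R A Finset.univ ∧
      ∀ j ∈ S, z * ∑ k ∈ S, Yk (R j - R k) ≤ A j := by
  obtain ⟨S, hS, hmin⟩ := Finset.exists_min_image (Finset.univ : Finset κ).powerset (JJ z R A)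
    ⟨∅, by simp⟩
  refine ⟨S, hmin _ (by simp), fun j hj => ?_⟩
  have h := hmin (S.erase j) (by simp)
  rw [JJ_erase z R A S hj] at h
  have h2 : z * (z * ∑ k ∈ S, Yk (R j - R k)) ≤ z * A j := by nlinarith
  exact le_of_mul_le_mul_left h2 hz

/-- weighted number of nuclei near a point -/
noncomputable def n4 (R : κ → E3) (S : Finset κ) (y : E3) : ℝ := ∑ j ∈ S, ek 4 (y - R j)

theorem n4_nonneg (R : κ → E3) (S : Finset κ) (y : E3) : 0 ≤ n4 R S y :=
  Finset.sum_nonneg fun _ _ => (ek_pos _ _).le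

theorem n4_cont (R : κ → E3) (S : Finset κ) : Continuous (n4 R S) := by
  unfold n4
  exact continuous_finsetSum _ fun j _ => (ek_cont_x 4).comp (continuous_id.sub continuous_const)

theorem n4_sup {R : κ → E3} (hR : Function.Injective R) {S : Finset κ} {B : ℝ} (hB0 : 0 ≤ B)
    (hB : ∀ j ∈ S, ∑ k ∈ S, Yk (R j - R k) ≤ B) (y : E3) : n4 R S y ≤ 1 + B := by
  unfold n4
  rcases S.eq_empty_or_nonempty with h | h
  · rw [h, Finset.sum_empty]; linarith
  obtain ⟨j0, hj0, hmin⟩ := Finset.exists_min_image S (fun j => ‖y - R j‖) h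
  rw [← Finset.add_sum_erase S _ hj0]
  have h1 : ek 4 (y - R j0) ≤ 1 := ek_le_one (by norm_num) _
  have h2 : ∑ j ∈ S.erase j0, ek 4 (y - R j) ≤ ∑ j ∈ S.erase j0, Yk (R j0 - R j) := by
    refine Finset.sum_le_sum fun j hj => ?_
    have hm := hmin j (Finset.mem_of_mem_erase hj)
    have hne : R j0 - R j ≠ 0 := sub_ne_zero.2 fun h => (Finset.ne_of_mem_erase hj) (hR h).symm
    refine le_trans ?_ (ek2_le_Yk hne)
    have h3 : ‖R j0 - R j‖ ≤ ‖y - R j0‖ + ‖y - R j‖ := by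
      have : R j0 - R j = -(y - R j0) + (y - R j) := by abel
      rw [this]
      refine (norm_add_le _ _).trans ?_
      rw [norm_neg]
    unfold ek
    apply Real.exp_le_exp.2
    linarith
  have h3 : ∑ j ∈ S.erase j0, Yk (R j0 - R j) ≤ ∑ j ∈ S, Yk (R j0 - R j) :=
    Finset.sum_le_sum_of_subset_of_nonneg (Finset.erase_subset _ _) fun _ _ _ => Yk_nonneg _
  have := hB j0 hj0
  linarith

noncomputable def c2 : ℝ := ∫ x, ek 2 x
theorem c2_nonneg : 0 ≤ c2 := integral_nonneg fun x => (ek_pos 2 x).le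

theorem ek4_pair (a b : E3) : Integrable (fun y => ek 4 (y - a) * ek 4 (y - b)) ∧
    ∫ y, ek 4 (y - a) * ek 4 (y - b) ≤ c2 * ek 2 (a - b) := by
  have h4 := (ek_radial (show (0:ℝ) < 4 by norm_num)).1
  have h2 := (ek_radial (show (0:ℝ) < 2 by norm_num)).1
  have hi : Integrable (fun y => ek 4 (y - a) * ek 4 (y - b)) :=
    (h4.comp_sub_right a).mul_bdd (c := 1)
      ((ek_cont_x 4).comp (continuous_id.sub continuous_const)).aestronglyMeasurable
      (Eventually.of_forall fun x => by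
        show ‖ek 4 (x - b)‖ ≤ 1
        rw [Real.norm_eq_abs, abs_of_pos (ek_pos _ _)]; exact ek_le_one (by norm_num) _)
  refine ⟨hi, ?_⟩
  have hpt : ∀ y, ek 4 (y - a) * ek 4 (y - b) ≤ ek 2 (y - a) * ek 2 (a - b) := by
    intro y
    unfold ek
    rw [← Real.exp_add, ← Real.exp_add]
    apply Real.exp_le_exp.2
    have h3 : ‖a - b‖ ≤ ‖y - a‖ + ‖y - b‖ := by
      have : a - b = -(y - a) + (y - b) := by abel
      rw [this]
      refine (norm_add_le _ _).trans ?_
      rw [norm_neg]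
    nlinarith [norm_nonneg (y - b)]
  refine (integral_mono hi ((h2.comp_sub_right a).mul_const _) hpt).trans ?_
  rw [integral_mul_const, integral_sub_right_eq_self (ek 2) a]
  exact le_rfl

theorem n4_sq {R : κ → E3} (hR : Function.Injective R) (S : Finset κ) :
    Integrable (fun y => n4 R S y ^ 2) ∧
    ∫ y, n4 R S y ^ 2 ≤ c2 * (S.card + ∑ j ∈ S, ∑ k ∈ S, Yk (R j - R k)) := by
  have e : ∀ y, n4 R S y ^ 2 = ∑ j ∈ S, ∑ k ∈ S, ek 4 (y - R j) * ek 4 (y - R k) := by
    intro y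
    rw [sq]; unfold n4
    rw [Finset.sum_mul_sum]
  have hi : ∀ j k, Integrable fun y => ek 4 (y - R j) * ek 4 (y - R k) := fun j k => (ek4_pair _ _).1
  simp_rw [e]
  refine ⟨integrable_finsetSum _ fun j _ => integrable_finsetSum _ fun k _ => hi j k, ?_⟩
  rw [integral_finsetSum _ fun j _ => integrable_finsetSum _ fun k _ => hi j k]
  have h1 : ∑ j ∈ S, ∫ y, ∑ k ∈ S, ek 4 (y - R j) * ek 4 (y - R k) ≤
      ∑ j ∈ S, ∑ k ∈ S, c2 * ((if j = k then 1 else 0) + Yk (R j - R k)) := by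
    refine Finset.sum_le_sum fun j _ => ?_
    rw [integral_finsetSum _ fun k _ => hi j k]
    refine Finset.sum_le_sum fun k _ => ?_
    refine (ek4_pair _ _).2.trans ?_
    refine mul_le_mul_of_nonneg_left ?_ c2_nonneg
    by_cases h : j = k
    · subst h
      rw [if_pos rfl, sub_self, Yk_zero, add_zero]
      exact ek_le_one (by norm_num) _
    · rw [if_neg h, zero_add]
      exact ek2_le_Yk (sub_ne_zero.2 fun h' => h (hR h'))
  refine h1.trans (le_of_eq ?_)
  simp_rw [← Finset.mul_sum, Finset.sum_add_distrib]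
  congr 2
  have : ∀ j ∈ S, ∑ k ∈ S, (if j = k then (1:ℝ) else 0) = 1 := by
    intro j hj
    rw [Finset.sum_ite_eq, if_pos hj]
  rw [Finset.sum_congr rfl this]
  simp

theorem n4_bd (R : κ → E3) (S : Finset κ) (y : E3) : |n4 R S y| ≤ S.card := by
  rw [abs_of_nonneg (n4_nonneg R S y)]
  unfold n4
  have := Finset.sum_le_sum (s := S) (f := fun j => ek 4 (y - R j)) (g := fun _ => (1:ℝ))
    (fun j _ => ek_le_one (by norm_num) _)
  simpa using this

/-- the singular part of the attraction -/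
theorem sing_sum {u : Cf (n + 1) → ℝ} (hu : SC u) (R : κ → E3) (S : Finset κ) :
    ∑ j ∈ S, (pot Yk u (R j) - pot Vk u (R j)) ≤ √(∫ a, n4 R S a ^ 2 * rho u a) * √(TT u) := by
  have hV1 : ∀ (i : Fin (n + 1)) (j : κ), Integrable fun x => Vk (x i - R j) * u x ^ 2 := fun i j =>
    hu.sq_int.bdd_mul (c := 5) (Vk_cont.measurable.comp ((measurable_pi_apply i).sub
      measurable_const)).aestronglyMeasurable (Eventually.of_forall fun x => Vk_abs _)
  have hV : ∀ j, ∑ i, ∫ x, Vk (x i - R j) * u x ^ 2 = pot Vk u (R j) := by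
    intro j
    rw [(rho_avg (u := u) (f := fun b => Vk (b - R j)) fun i => hV1 i j).2]
    unfold pot
    congr 1; ext b
    rw [← Vk_neg, neg_sub]
  have hn4m : Measurable (n4 R S) := (n4_cont R S).measurable
  have e1 : ∑ j ∈ S, (pot Yk u (R j) - pot Vk u (R j)) =
      ∑ i, ∑ j ∈ S, ∫ x, (Yk (x i - R j) - Vk (x i - R j)) * u x ^ 2 := by
    rw [Finset.sum_comm]
    refine Finset.sum_congr rfl fun j _ => ?_
    rw [← potY_eq hu, ← hV j, ← Finset.sum_sub_distrib]
    refine Finset.sum_congr rfl fun i _ => ?_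
    rw [← integral_sub (Yk_one_int hu i (R j)) (hV1 i j)]
    congr 1; ext x; ring
  rw [e1]
  have hn2 : ∀ i : Fin (n + 1), L2 fun x : Cf (n + 1) => n4 R S (x i) * u x := fun i =>
    hu.L2.bdd_mul (hn4m.comp (measurable_pi_apply i)) _ fun x => n4_bd R S _
  have hi : ∀ i, ∑ j ∈ S, ∫ x, (Yk (x i - R j) - Vk (x i - R j)) * u x ^ 2 ≤
      √(∫ x, n4 R S (x i) ^ 2 * u x ^ 2) * √(Ti i u) := by
    intro i
    have hD : ∀ j, Integrable fun x => (Yk (x i - R j) - Vk (x i - R j)) * u x ^ 2 := fun j => by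
      refine ((Yk_one_int hu i (R j)).sub (hV1 i j)).congr (Eventually.of_forall fun x => ?_)
      simp only [Pi.sub_apply]; ring
    have hG : Integrable fun x => n4 R S (x i) * (|u x| * gni i u x) := by
      have h1 : Integrable fun x => |u x| * gni i u x :=
        (hu.sm.continuous.abs.mul (gni_cont hu i)).integrable_of_hasCompactSupport (abs_cc hu.cc).mul_right
      exact h1.bdd_mul (hn4m.comp (measurable_pi_apply i)).aestronglyMeasurable
        (Eventually.of_forall fun x => n4_bd R S _)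
    have h1 : ∑ j ∈ S, ∫ x, (Yk (x i - R j) - Vk (x i - R j)) * u x ^ 2 ≤
        ∫ x, n4 R S (x i) * (|u x| * gni i u x) := by
      have e2 : ∑ j ∈ S, ∫ x, (Yk (x i - R j) - Vk (x i - R j)) * u x ^ 2 =
          ∫ y : Cf n, ∑ j ∈ S, ∫ a, (Yk (a - R j) - Vk (a - R j)) * u (ins i a y) ^ 2 := by
        rw [integral_finsetSum]
        · refine Finset.sum_congr rfl fun j _ => ?_
          rw [integral_sl i (hD j)]
          simp_rw [ins_same]
        · intro j _
          have := sl_int_y (i := i) (hD j)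
          simpa only [ins_same] using this
      rw [e2, integral_sl i hG]
      refine integral_mono ?_ (sl_int_y hG) fun y => ?_
      · refine integrable_finsetSum _ fun j _ => ?_
        have := sl_int_y (i := i) (hD j)
        simpa only [ins_same] using this
      · simp only [ins_same]
        have hv := hu.slice i y
        have hg : Continuous fun x => |u (ins i x y)| * gn (fun a => u (ins i a y)) x :=
          hv.sm.continuous.abs.mul (gn_cont hv.sm)
        have hgc : HasCompactSupport fun x => |u (ins i x y)| * gn (fun a => u (ins i a y)) x :=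
          (abs_cc hv.cc).mul_right
        have h3 : ∑ j ∈ S, ∫ a, (Yk (a - R j) - Vk (a - R j)) * u (ins i a y) ^ 2 ≤
            ∑ j ∈ S, ∫ a, ek 4 (a - R j) * (|u (ins i a y)| * gn (fun a => u (ins i a y)) a) :=
          Finset.sum_le_sum fun j _ => (le_abs_self _).trans (sing_bd hv.sm hv.cc (R j))
        refine h3.trans (le_of_eq ?_)
        rw [← integral_finsetSum _ fun j _ => ev_int (by norm_num) hg hgc (R j)]
        congr 1; ext a
        rw [gni_slice hu]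
        unfold n4
        rw [Finset.sum_mul]
    refine h1.trans ?_
    have h2 := (le_abs_self _).trans (cs (hn2 i).abs (gni_L2 hu i))
    rw [N2_abs, gni_N2 hu i] at h2
    have e3 : ∫ x, n4 R S (x i) * (|u x| * gni i u x) = ∫ x, |n4 R S (x i) * u x| * gni i u x := by
      congr 1; ext x
      rw [abs_mul, abs_of_nonneg (n4_nonneg R S _)]; ring
    have e4 : N2 (fun x => n4 R S (x i) * u x) = ∫ x, n4 R S (x i) ^ 2 * u x ^ 2 := by
      unfold N2; congr 1; ext x; ring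
    rw [e3]
    rw [e4] at h2
    exact h2
  refine (Finset.sum_le_sum fun i _ => hi i).trans ?_
  have hnn : ∀ i : Fin (n + 1), 0 ≤ ∫ x, n4 R S (x i) ^ 2 * u x ^ 2 := fun i =>
    integral_nonneg fun x => mul_nonneg (sq_nonneg _) (sq_nonneg _)
  have hCS := Finset.sum_mul_sq_le_sq_mul_sq Finset.univ
    (fun i : Fin (n + 1) => √(∫ x, n4 R S (x i) ^ 2 * u x ^ 2)) (fun i => √(Ti i u))
  have e5 : ∑ i : Fin (n + 1), √(∫ x, n4 R S (x i) ^ 2 * u x ^ 2) ^ 2 = ∫ a, n4 R S a ^ 2 * rho u a := by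
    have h := (rho_avg (u := u) (f := fun a => n4 R S a ^ 2) fun i => ?_).2
    · rw [← h]
      exact Finset.sum_congr rfl fun i _ => Real.sq_sqrt (hnn i)
    · refine bdd_one_int hu (hn4m.pow_const 2) (C := (S.card:ℝ) ^ 2) (fun a => ?_) i
      rw [abs_pow]
      exact pow_le_pow_left₀ (abs_nonneg _) (n4_bd R S a) 2
  have e6 : ∑ i : Fin (n + 1), √(Ti i u) ^ 2 = TT u := by
    unfold TT
    exact Finset.sum_congr rfl fun i _ => Real.sq_sqrt (Ti_nonneg i u)
  rw [e5, e6] at hCS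
  rw [← Real.sqrt_mul (by rw [← e5]; exact Finset.sum_nonneg fun i _ => sq_nonneg _)]
  exact Real.le_sqrt_of_sq_le hCS

/-- Hölder: `∫ n4² ρ` -/
theorem n4_rho {S₀ : ℝ} {u : Cf (n + 1) → ℝ} (hu : SC u)
    (h3 : Integrable (fun a => rho u a ^ 3) ∧ ∫ a, rho u a ^ 3 ≤ (S₀ * TT u) ^ 3)
    (R : κ → E3) (S : Finset κ) {P : ℝ} (hn4 : ∀ y, n4 R S y ≤ P)
    (hi2 : Integrable (fun y => n4 R S y ^ 2)) :
      (∫ a, n4 R S a ^ 2 * rho u a) ^ 3 ≤ (P * ∫ y, n4 R S y ^ 2) ^ 2 * (S₀ * TT u) ^ 3 := by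
  have hT := TT_nonneg u
  have hm := (n4_cont R S).measurable
  have h0 := n4_nonneg R S
  have hi3 : Integrable fun y => n4 R S y ^ 3 := by
    refine (hi2.const_mul P).mono' (hm.pow_const 3).aestronglyMeasurable (Eventually.of_forall fun y => ?_)
    rw [Real.norm_eq_abs, abs_of_nonneg (pow_nonneg (h0 y) 3)]
    have := hn4 y
    have := h0 y
    nlinarith [sq_nonneg (n4 R S y)]
  have hI3 : ∫ y, n4 R S y ^ 3 ≤ P * ∫ y, n4 R S y ^ 2 := by
    rw [← integral_const_mul]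
    refine integral_mono hi3 (hi2.const_mul P) fun y => ?_
    have := hn4 y
    have := h0 y
    simp only
    nlinarith [sq_nonneg (n4 R S y)]
  have hh := (holder3 (hm.pow_const 3) (hm.pow_const 3) ((rho_meas hu).pow_const 3)
    (fun y => pow_nonneg (h0 y) 3) (fun y => pow_nonneg (h0 y) 3)
    (fun y => pow_nonneg (rho_nonneg u y) 3) hi3 hi3 h3.1).2
  simp_rw [cube_root (h0 _), cube_root (rho_nonneg u _), ← sq] at hh
  have hA : 0 ≤ ∫ y, n4 R S y ^ 3 := integral_nonneg fun y => pow_nonneg (h0 y) 3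
  have hB : 0 ≤ ∫ y, rho u y ^ 3 := integral_nonneg fun y => pow_nonneg (rho_nonneg u y) 3
  have hL : 0 ≤ ∫ a, n4 R S a ^ 2 * rho u a := integral_nonneg fun y =>
    mul_nonneg (sq_nonneg _) (rho_nonneg u y)
  have h4 := pow_le_pow_left₀ hL hh 3
  refine h4.trans ?_
  have e1 : ((∫ y, n4 R S y ^ 3) ^ (1/3:ℝ)) ^ 3 = ∫ y, n4 R S y ^ 3 := by
    rw [← Real.rpow_natCast, ← Real.rpow_mul hA]; norm_num
  have e2 : ((∫ y, rho u y ^ 3) ^ (1/3:ℝ)) ^ 3 = ∫ y, rho u y ^ 3 := by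
    rw [← Real.rpow_natCast, ← Real.rpow_mul hB]; norm_num
  have e3 : (((∫ y, n4 R S y ^ 3) ^ (1/3:ℝ)) ^ 2 * (∫ y, rho u y ^ 3) ^ (1/3:ℝ)) ^ 3 =
      (((∫ y, n4 R S y ^ 3) ^ (1/3:ℝ)) ^ 3) ^ 2 * ((∫ y, rho u y ^ 3) ^ (1/3:ℝ)) ^ 3 := by ring
  rw [e3, e1, e2]
  have h5 := h3.2
  gcongr

end Pool.Agent.Helper985.BM
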