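import Pool.Agent.Helper985.BM.A2
import Pool.Agent.Helper985.BM.C2
import Pool.Agent.Helper985.BM.R2

set_option autoImplicit false

open MeasureTheory Filter Topology Set
open scoped ContDiff

namespace Pool.Agent.Helper985.BM

open VR

variable {n : ℕ} {κ : Type*} [Fintype κ] [DecidableEq κ]

/-- the mean field energy is at most the local one -/
theorem mf_upper {u : Cf (n + 1) → ℝ} (hu : SC u) :
    ∫ a, pot Vk u a * rho u a ≤ c3 * ∫ a, rho u a ^ 2 := by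
  have hL := rho_sq_int hu
  have hsq : Integrable fun a => rho u a ^ 2 := hL.2
  have h1 := conv_L1 Vk_cont.measurable Vk_int ((rho_meas hu).pow_const 2) hsq
  have hl : ∀ a, pot Vk u a * rho u a ≤ (1/2) * ((∫ b, Vk (a - b) * rho u b ^ 2) + c3 * rho u a ^ 2) := by
    intro a
    have hi1 := kr_int Vk_cont.measurable Vk_abs (rho_int hu) a
    have hi2 := kr_int Vk_cont.measurable Vk_abs hsq a
    have hi3 : Integrable fun b => Vk (a - b) := by
      have := Vk_int.comp_sub_left a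
      exact this
    unfold pot
    have e : c3 * rho u a ^ 2 = ∫ b, Vk (a - b) * rho u a ^ 2 := by
      rw [integral_mul_const, int_sub_left', Vk_integral]
    rw [e, ← integral_add hi2 (hi3.mul_const _), ← integral_mul_const, ← integral_const_mul]
    refine integral_mono (hi1.mul_const _) ((hi2.add (hi3.mul_const _)).const_mul _) fun b => ?_
    simp only
    have h0 := Vk_nonneg (a - b)
    nlinarith [mul_nonneg h0 (sq_nonneg (rho u b - rho u a))]
  have hI : Integrable fun a => (1/2) * ((∫ b, Vk (a - b) * rho u b ^ 2) + c3 * rho u a ^ 2) :=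
    (h1.1.add (hsq.const_mul c3)).const_mul _
  have hI0 : Integrable fun a => pot Vk u a * rho u a := by
    refine (rho_int hu).bdd_mul (c := 5 * ∫ b, rho u b) (pot_meas Vk_cont.measurable hu).aestronglyMeasurable
      (Eventually.of_forall fun a => ?_)
    rw [Real.norm_eq_abs, abs_of_nonneg (potV_nonneg u a)]
    exact potV_bd hu a
  refine (integral_mono hI0 hI hl).trans ?_
  rw [integral_const_mul, integral_add h1.1 (hsq.const_mul c3), integral_const_mul, h1.2, Vk_integral]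
  linarith

/-- positive definiteness: attraction in terms of the self energies -/
theorem attr_le {u : Cf (n + 1) → ℝ} (hu : SC u) (R : κ → E3) (S : Finset κ) {s : ℝ} (hs : 0 ≤ s) :
    2 * (s * ∑ j ∈ S, pot Vk u (R j)) ≤
      (∫ a, pot Vk u a * rho u a) + s ^ 2 * ∑ j ∈ S, ∑ k ∈ S, Vk (R j - R k) := by
  have hf1 := mw_fin hu w1_wt
  have hf2 := pmw_fin (fun j : S => s) (fun j : S => R j)
  have h := Vk_PD (mw u w1) (pmw (fun j : S => s) (fun j : S => R j)) hf1 hf2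
  have e1 : pr (fun p => Vk (p.1 - p.2)) (mw u w1) (mw u w1) = ∫ a, pot Vk u a * rho u a := by
    rw [pr_mw hu w1_wt w1_wt]
    have hb : ∀ i : Fin (n + 1), Integrable fun x : Cf (n + 1) => pot Vk u (x i) * u x ^ 2 := fun i =>
      bdd_one_int hu (pot_meas Vk_cont.measurable hu) (C := 5 * ∫ b, rho u b) (fun a => by
        rw [abs_of_nonneg (potV_nonneg u a)]; exact potV_bd hu a) i
    rw [← (rho_avg hb).2]
    refine Finset.sum_congr rfl fun i _ => ?_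
    congr 1; ext x
    rw [pw_w1 hu]
    simp [w1]
  have e2 : pr (fun p => Vk (p.1 - p.2)) (pmw (fun j : S => s) (fun j : S => R j))
      (pmw (fun j : S => s) (fun j : S => R j)) = s ^ 2 * ∑ j ∈ S, ∑ k ∈ S, Vk (R j - R k) := by
    rw [pr_pmw (fun _ => hs) _ (fun _ => hs) _ Vk_cont.measurable Vk_abs]
    rw [Finset.mul_sum, ← Finset.sum_coe_sort S]
    refine Finset.sum_congr rfl fun j _ => ?_
    rw [Finset.mul_sum, ← Finset.sum_coe_sort S]
    refine Finset.sum_congr rfl fun k _ => ?_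
    ring
  have e3 : pr (fun p => Vk (p.1 - p.2)) (mw u w1) (pmw (fun j : S => s) (fun j : S => R j)) =
      s * ∑ j ∈ S, pot Vk u (R j) := by
    unfold pr
    have hi : Integrable (fun p : E3 × E3 => Vk (p.1 - p.2))
        ((mw u w1).prod (pmw (fun j : S => s) (fun j : S => R j))) := Vk_BK.int _ _
    rw [integral_prod_symm _ hi]
    have e4 : ∀ y, ∫ x, Vk (x - y) ∂(mw u w1) = pot Vk u y := by
      intro y
      rw [← pw_w1 hu]
      unfold pw
      congr 1; ext x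
      rw [← Vk_neg, neg_sub]
    simp only [e4]
    rw [pmw_integral (fun _ => hs) _ (pot_meas Vk_cont.measurable hu) (C := 5 * ∫ b, rho u b) (fun a => by
        rw [abs_of_nonneg (potV_nonneg u a)]; exact potV_bd hu a)]
    rw [Finset.mul_sum, ← Finset.sum_coe_sort S]
  rw [e1, e2, e3] at h
  linarith

theorem VV_le {R : κ → E3} (hR : Function.Injective R) (S : Finset κ) :
    ∑ j ∈ S, ∑ k ∈ S, Vk (R j - R k) ≤ 5 * S.card + 2 * ∑ j ∈ S, ∑ k ∈ S, Yk (R j - R k) := by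
  have h1 : ∑ j ∈ S, ∑ k ∈ S, Vk (R j - R k) ≤
      ∑ j ∈ S, ∑ k ∈ S, (5 * (if j = k then (1:ℝ) else 0) + 2 * Yk (R j - R k)) := by
    refine Finset.sum_le_sum fun j _ => Finset.sum_le_sum fun k _ => ?_
    by_cases h : j = k
    · subst h
      rw [if_pos rfl, sub_self, Yk_zero, Vk_zero]; norm_num
    · rw [if_neg h]
      have := Vk_le_Yk (x := R j - R k) (sub_ne_zero.2 fun h' => h (hR h'))
      linarith
  refine h1.trans (le_of_eq ?_)
  simp_rw [Finset.sum_add_distrib, ← Finset.mul_sum]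
  congr 2
  have : ∀ j ∈ S, ∑ k ∈ S, (if j = k then (1:ℝ) else 0) = 1 := by
    intro j hj
    rw [Finset.sum_ite_eq, if_pos hj]
  rw [Finset.sum_congr rfl this]
  simp

/-- bound for the total attraction -/
theorem A_lemma {z : ℝ} (hz : 0 < z) {B : ℝ} (hB : 0 < B) : ∃ C : ℝ, 0 < C ∧
    ∀ (n : ℕ) (u : Cf (n + 1) → ℝ), SC u → N2 u = 1 → ∀ q : ℝ, 1 ≤ q → q ^ 3 = (n:ℝ) + 1 →
    TT u ≤ B * q → ∀ (K : ℕ) (R : Fin K → E3), Function.Injective R → z * K = (n:ℝ) + 1 →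
    ∀ S : Finset (Fin K), (∀ j ∈ S, z * ∑ k ∈ S, Yk (R j - R k) ≤ pot Yk u (R j)) →
      ∑ j ∈ S, pot Yk u (R j) ≤ C * q ^ 3 ∧
      (∑ j ∈ S, (pot Yk u (R j) - pot Vk u (R j))) ^ 3 ≤ C * q ^ 7 ∧
      ∫ y, n4 R S y ^ 2 ≤ C * q ^ 3 ∧ ∑ j ∈ S, pot Vk u (R j) ≤ C * q ^ 3 := by
  obtain ⟨S₀, hS0, hS⟩ := rho_cube
  obtain ⟨S₁, hS1, hS'⟩ := rho_sq_le
  obtain ⟨CY, hCY0, hCY⟩ := potY_le
  have hc3 := c3_pos
  have hc2 := c2_nonneg
  obtain ⟨G, hG⟩ : ∃ G : ℝ, G = c2 * (1 + CY * B / z) * (√(S₀ ^ 3) * B ^ 3) := ⟨_, rfl⟩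
  have hG0 : 0 ≤ G := by rw [hG]; positivity
  obtain ⟨A1, hA1⟩ : ∃ A1 : ℝ, A1 = 4 * ((2/z) * (c3 * (√(S₁ ^ 3) * √(B ^ 3))) + 1) := ⟨_, rfl⟩
  have hA10 : 0 ≤ A1 := by rw [hA1]; positivity
  obtain ⟨CA, hCA⟩ : ∃ CA : ℝ, CA = A1 + 1 + 128 * (G * (2 / z)) := ⟨_, rfl⟩
  have hCA0 : 0 < CA := by rw [hCA]; positivity
  refine ⟨2 * CA + (G * ((1 + CA) / z)) + c2 * ((1 + CA) / z), by positivity, ?_⟩
  intro n u hu hN q hq hqN hTq K R hR hzK S hopt
  have hT := TT_nonneg u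
  have hq0 : 0 < q := by linarith
  set 𝒜 := ∑ j ∈ S, pot Yk u (R j) with h𝒜
  have hpY : ∀ a, 0 ≤ pot Yk u a := fun a => integral_nonneg fun b => mul_nonneg (Yk_nonneg _) (rho_nonneg _ _)
  have h𝒜0 : 0 ≤ 𝒜 := Finset.sum_nonneg fun j _ => hpY _
  set D := ∑ j ∈ S, (pot Yk u (R j) - pot Vk u (R j)) with hD
  set 𝒱 := ∑ j ∈ S, pot Vk u (R j) with h𝒱
  have hDe : D = 𝒜 - 𝒱 := by rw [hD, Finset.sum_sub_distrib]
  have hcard : (S.card : ℝ) ≤ q ^ 3 / z := by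
    rw [hqN, ← hzK, mul_div_assoc, mul_div_cancel₀ _ hz.ne']
    have := Finset.card_le_univ S
    rw [Fintype.card_fin] at this
    exact_mod_cast this
  have hcard0 : (0:ℝ) ≤ S.card := Nat.cast_nonneg _
  have hYY : ∑ j ∈ S, ∑ k ∈ S, Yk (R j - R k) ≤ 𝒜 / z := by
    rw [le_div_iff₀ hz, mul_comm, Finset.mul_sum]
    exact Finset.sum_le_sum hopt
  have hYY0 : 0 ≤ ∑ j ∈ S, ∑ k ∈ S, Yk (R j - R k) :=
    Finset.sum_nonneg fun _ _ => Finset.sum_nonneg fun _ _ => Yk_nonneg _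
  -- L2 bound of n4
  have hn4 := n4_sq hR S
  have hn4b : ∫ y, n4 R S y ^ 2 ≤ c2 * (S.card + 𝒜 / z) := by
    refine hn4.2.trans ?_
    gcongr
  have hn40 : 0 ≤ ∫ y, n4 R S y ^ 2 := integral_nonneg fun _ => sq_nonneg _
  -- sup bound
  have hsup : ∀ y, n4 R S y ≤ 1 + CY * TT u / z := by
    refine n4_sup hR (by positivity) fun j hj => ?_
    rw [le_div_iff₀ hz, mul_comm]
    exact (hopt j hj).trans ((hCY n u hu (R j)).2)
  have hsup' : 1 + CY * TT u / z ≤ (1 + CY * B / z) * q := by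
    have : CY * TT u / z ≤ CY * (B * q) / z := by gcongr
    have e : (1 + CY * B / z) * q = q + CY * (B * q) / z := by ring
    rw [e]; linarith
  -- cube of D
  have hD3 : D ^ 3 ≤ G * q ^ 4 * (S.card + 𝒜 / z) := by
    by_cases hDneg : D ≤ 0
    · have h1 : D ^ 3 ≤ 0 := by
        have : D ^ 3 = D * D ^ 2 := by ring
        rw [this]; exact mul_nonpos_of_nonpos_of_nonneg hDneg (sq_nonneg _)
      have : 0 ≤ G * q ^ 4 * (S.card + 𝒜 / z) := by positivity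
      linarith
    push Not at hDneg
    have h1 : D ≤ √(∫ a, n4 R S a ^ 2 * rho u a) * √(TT u) := sing_sum hu R S
    have h2 := n4_rho hu (hS n u hu) R S hsup hn4.1
    set X := ∫ a, n4 R S a ^ 2 * rho u a with hX
    have hX0 : 0 ≤ X := integral_nonneg fun a => mul_nonneg (sq_nonneg _) (rho_nonneg _ _)
    have h3 : D ^ 2 ≤ X * TT u := by
      have := pow_le_pow_left₀ hDneg.le h1 2
      rwa [mul_pow, Real.sq_sqrt hX0, Real.sq_sqrt hT] at this
    have h4 : D ^ 6 ≤ ((1 + CY * TT u / z) * ∫ y, n4 R S y ^ 2) ^ 2 * (S₀ * TT u) ^ 3 * TT u ^ 3 := by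
      calc D ^ 6 = (D ^ 2) ^ 3 := by ring
        _ ≤ (X * TT u) ^ 3 := pow_le_pow_left₀ (sq_nonneg _) h3 3
        _ = X ^ 3 * TT u ^ 3 := by ring
        _ ≤ _ := mul_le_mul_of_nonneg_right h2 (by positivity)
    have h5 : ((1 + CY * TT u / z) * ∫ y, n4 R S y ^ 2) ^ 2 * (S₀ * TT u) ^ 3 * TT u ^ 3 ≤
        (G * q ^ 4 * (S.card + 𝒜 / z)) ^ 2 := by
      have e1 : (G * q ^ 4 * (S.card + 𝒜 / z)) ^ 2 =
          (((1 + CY * B / z) * q) * (c2 * (S.card + 𝒜 / z))) ^ 2 * (S₀ * (B * q)) ^ 3 * (B * q) ^ 3 := by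
        rw [hG]
        have : √(S₀ ^ 3) ^ 2 = S₀ ^ 3 := Real.sq_sqrt (by positivity)
        calc (c2 * (1 + CY * B / z) * (√(S₀ ^ 3) * B ^ 3) * q ^ 4 * (S.card + 𝒜 / z)) ^ 2 =
            (c2 * (1 + CY * B / z) * B ^ 3 * q ^ 4 * (S.card + 𝒜 / z)) ^ 2 * √(S₀ ^ 3) ^ 2 := by ring
          _ = _ := by rw [this]; ring
      rw [e1]
      gcongr
    have h6 : (D ^ 3) ^ 2 ≤ (G * q ^ 4 * (S.card + 𝒜 / z)) ^ 2 := by
      calc (D ^ 3) ^ 2 = D ^ 6 := by ring
        _ ≤ _ := h4.trans h5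
    exact le_of_sq_le_sq h6 (by positivity)
  -- bound of ∫ ρ²
  have hrho2 : ∫ a, rho u a ^ 2 ≤ √(S₁ ^ 3) * √(B ^ 3) * q ^ 3 := by
    refine (hS' n u hu).trans ?_
    rw [hN, mul_one, ← hqN]
    have h1 : √((S₁ * TT u) ^ 3) ≤ √((S₁ * (B * q)) ^ 3) := Real.sqrt_le_sqrt (by gcongr)
    have h2 : √((S₁ * (B * q)) ^ 3) = √(S₁ ^ 3) * √(B ^ 3) * √(q ^ 3) := by
      rw [← Real.sqrt_mul (by positivity), ← Real.sqrt_mul (by positivity)]
      congr 1; ring
    have h3 : √(q ^ 3) * √(q ^ 3) = q ^ 3 := Real.mul_self_sqrt (by positivity)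
    calc √(q ^ 3) * √((S₁ * TT u) ^ 3) ≤ √(q ^ 3) * (√(S₁ ^ 3) * √(B ^ 3) * √(q ^ 3)) := by
          rw [← h2]; gcongr
      _ = √(S₁ ^ 3) * √(B ^ 3) * (√(q ^ 3) * √(q ^ 3)) := by ring
      _ = _ := by rw [h3]
  -- 𝒱
  have hV1 := attr_le hu R S (s := z / 4) (by positivity)
  have hV2 := VV_le hR S
  have hV3 := mf_upper hu
  have hV : 𝒱 ≤ (2/z) * (c3 * ∫ a, rho u a ^ 2) + 5 * z * S.card / 8 + 𝒜 / 4 := by
    have h1 : 2 * (z / 4 * 𝒱) ≤ c3 * (∫ a, rho u a ^ 2) + (z / 4) ^ 2 * (5 * S.card + 2 * (𝒜 / z)) := by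
      refine hV1.trans (add_le_add hV3 ?_)
      refine mul_le_mul_of_nonneg_left (hV2.trans ?_) (by positivity)
      linarith
    have h2 : (2 / z) * (2 * (z / 4 * 𝒱)) = 𝒱 := by field_simp; ring
    have h3 : (2 / z) * (c3 * (∫ a, rho u a ^ 2) + (z / 4) ^ 2 * (5 * S.card + 2 * (𝒜 / z))) =
        (2/z) * (c3 * ∫ a, rho u a ^ 2) + 5 * z * S.card / 8 + 𝒜 / 4 := by field_simp; ring
    rw [← h3, ← h2]
    exact mul_le_mul_of_nonneg_left h1 (by positivity)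
  have hzS : z * S.card ≤ q ^ 3 := by
    rw [le_div_iff₀ hz] at hcard; linarith
  -- bound of 𝒜
  have hA : 𝒜 ≤ CA * q ^ 3 := by
    by_cases h1 : D ≤ 𝒜 / 4
    · have h2 : 𝒜 ≤ 𝒜 / 4 + ((2/z) * (c3 * ∫ a, rho u a ^ 2) + 5 * z * S.card / 8 + 𝒜 / 4) := by
        have : 𝒜 = D + 𝒱 := by rw [hDe]; ring
        linarith
      have h3 : (2/z) * (c3 * ∫ a, rho u a ^ 2) ≤ (2/z) * (c3 * (√(S₁ ^ 3) * √(B ^ 3) * q ^ 3)) := by
        gcongr
      have h4 : 𝒜 ≤ A1 * q ^ 3 := by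
        rw [hA1]
        have : 4 * ((2/z) * (c3 * (√(S₁ ^ 3) * √(B ^ 3))) + 1) * q ^ 3 =
          4 * ((2/z) * (c3 * (√(S₁ ^ 3) * √(B ^ 3) * q ^ 3))) + 4 * q ^ 3 := by ring
        rw [this]
        have : 0 ≤ (2/z) * (c3 * (√(S₁ ^ 3) * √(B ^ 3) * q ^ 3)) := by positivity
        have hq3 : 0 < q ^ 3 := by positivity
        linarith
      refine h4.trans ?_
      have : A1 ≤ CA := by
        rw [hCA]
        have : 0 ≤ 128 * (G * (2 / z)) := by positivity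
        linarith
      gcongr
    · push Not at h1
      by_cases h2 : 𝒜 ≤ q ^ 3
      · refine h2.trans ?_
        have : 1 ≤ CA := by
          rw [hCA]
          have : 0 ≤ 128 * (G * (2 / z)) := by positivity
          linarith
        have hq3 : 0 < q ^ 3 := by positivity
        exact le_mul_of_one_le_left hq3.le this
      · push Not at h2
        have hA0 : 0 < 𝒜 := lt_trans (by positivity) h2
        have h3 : S.card + 𝒜 / z ≤ (2 / z) * 𝒜 := by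
          have : q ^ 3 / z ≤ 𝒜 / z := by gcongr
          have e : (2 / z) * 𝒜 = 𝒜 / z + 𝒜 / z := by ring
          rw [e]; linarith
        have h4 : 𝒜 ^ 3 ≤ 64 * (G * q ^ 4 * ((2 / z) * 𝒜)) := by
          have h5 : 𝒜 ^ 3 ≤ (4 * D) ^ 3 := pow_le_pow_left₀ h𝒜0 (by linarith) 3
          have h6 : (4 * D) ^ 3 = 64 * D ^ 3 := by ring
          rw [h6] at h5
          refine h5.trans ?_
          refine mul_le_mul_of_nonneg_left (hD3.trans ?_) (by norm_num)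
          gcongr
        have h5 : 𝒜 ^ 2 ≤ 64 * (G * (2 / z)) * q ^ 4 := by
          have : 𝒜 * 𝒜 ^ 2 ≤ 𝒜 * (64 * (G * (2 / z)) * q ^ 4) := by
            calc 𝒜 * 𝒜 ^ 2 = 𝒜 ^ 3 := by ring
              _ ≤ _ := h4
              _ = _ := by ring
          exact le_of_mul_le_mul_left this hA0
        have h6 : q ^ 4 ≤ (q ^ 3) ^ 2 := by
          rw [← pow_mul]; exact pow_le_pow_right₀ hq (by norm_num)
        obtain ⟨X, hX⟩ : ∃ X : ℝ, X = 64 * (G * (2 / z)) := ⟨_, rfl⟩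
        have hX0 : 0 ≤ X := by rw [hX]; positivity
        have h7 : 𝒜 ^ 2 ≤ ((1 + X) * q ^ 3) ^ 2 := by
          calc 𝒜 ^ 2 ≤ X * q ^ 4 := by rw [hX]; exact h5
            _ ≤ X * (q ^ 3) ^ 2 := by gcongr
            _ ≤ (1 + X) ^ 2 * (q ^ 3) ^ 2 := by
                have e : (1 + X) ^ 2 = 1 + 2 * X + X ^ 2 := by ring
                have e2 := sq_nonneg X
                have : X ≤ (1 + X) ^ 2 := by rw [e]; linarith
                gcongr
            _ = _ := by ring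
        have h8 : 𝒜 ≤ (1 + X) * q ^ 3 := le_of_sq_le_sq h7 (by positivity)
        refine h8.trans ?_
        have : 1 + X ≤ CA := by rw [hCA, hX]; linarith
        gcongr
  have hSA : S.card + 𝒜 / z ≤ (1 + CA) / z * q ^ 3 := by
    have : 𝒜 / z ≤ CA * q ^ 3 / z := by gcongr
    have e : (1 + CA) / z * q ^ 3 = q ^ 3 / z + CA * q ^ 3 / z := by ring
    rw [e]; linarith
  refine ⟨?_, ?_, ?_, ?_⟩
  · refine hA.trans ?_
    have : 0 ≤ (G * ((1 + CA) / z)) + c2 * ((1 + CA) / z) := by positivity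
    gcongr
    linarith
  · refine hD3.trans ?_
    calc G * q ^ 4 * (S.card + 𝒜 / z) ≤ G * q ^ 4 * ((1 + CA) / z * q ^ 3) := by gcongr
      _ = G * ((1 + CA) / z) * q ^ 7 := by ring
      _ ≤ _ := by
        have : 0 ≤ c2 * ((1 + CA) / z) := by positivity
        gcongr
        linarith
  · refine hn4b.trans ?_
    calc c2 * (S.card + 𝒜 / z) ≤ c2 * ((1 + CA) / z * q ^ 3) := by gcongr
      _ = c2 * ((1 + CA) / z) * q ^ 3 := by ring
      _ ≤ _ := by
        have : 0 ≤ G * ((1 + CA) / z) := by positivity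
        gcongr
        linarith
  · have h3 : (2/z) * (c3 * ∫ a, rho u a ^ 2) ≤ (2/z) * (c3 * (√(S₁ ^ 3) * √(B ^ 3) * q ^ 3)) := by
      gcongr
    have h4 : 𝒱 ≤ (A1 + CA) * q ^ 3 := by
      have e : (A1 + CA) * q ^ 3 =
        4 * ((2/z) * (c3 * (√(S₁ ^ 3) * √(B ^ 3) * q ^ 3))) + 4 * q ^ 3 + CA * q ^ 3 := by
        rw [hA1]; ring
      rw [e]
      have : 0 ≤ (2/z) * (c3 * (√(S₁ ^ 3) * √(B ^ 3) * q ^ 3)) := by positivity
      have hq3 : 0 < q ^ 3 := by positivity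
      have hq4 := mul_pos hCA0 hq3
      linarith
    refine h4.trans ?_
    have h5 : A1 ≤ CA := by
      rw [hCA]
      have : 0 ≤ 128 * (G * (2 / z)) := by positivity
      linarith
    have h6 : 0 ≤ G * ((1 + CA) / z) + c2 * ((1 + CA) / z) := by positivity
    have hq3 : 0 < q ^ 3 := by positivity
    exact mul_le_mul_of_nonneg_right (by linarith) hq3.le

end Pool.Agent.Helper985.BM
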