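import Pool.Agent.Helper985.BM.K1

set_option autoImplicit false

open MeasureTheory Filter Topology Set
open scoped ContDiff

namespace Pool.Agent.Helper985.BM

open VR

/-- length of the gradient -/
noncomputable def gn (v : E3 → ℝ) (x : E3) : ℝ := √(∑ k, (fderiv ℝ v x (b3 k)) ^ 2)

theorem gn_nonneg (v : E3 → ℝ) (x : E3) : 0 ≤ gn v x := Real.sqrt_nonneg _

theorem gn_sq (v : E3 → ℝ) (x : E3) : gn v x ^ 2 = ∑ k, (fderiv ℝ v x (b3 k)) ^ 2 :=
  Real.sq_sqrt (by positivity)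

theorem gn_cont {v : E3 → ℝ} (hv : ContDiff ℝ ∞ v) : Continuous (gn v) := by
  unfold gn
  exact (continuous_finsetSum _ fun k _ => (fderiv_cc_continuous hv _).pow 2).sqrt

theorem gn_L2 {v : E3 → ℝ} (hv : ContDiff ℝ ∞ v) (hc : HasCompactSupport v) : L2 (gn v) := by
  refine ⟨(gn_cont hv).measurable, ?_⟩
  simp_rw [gn_sq]
  refine integrable_finsetSum _ fun k _ => ?_
  exact (L2_of_cc (fderiv_cc_continuous hv _) (fderiv_cc_support hc _)).2

theorem gn_N2 {v : E3 → ℝ} (hv : ContDiff ℝ ∞ v) (hc : HasCompactSupport v) :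
    N2 (gn v) = ∑ k, ∫ x, (fderiv ℝ v x (b3 k)) ^ 2 := by
  unfold N2
  simp_rw [gn_sq]
  rw [integral_finsetSum]
  intro k _
  exact (L2_of_cc (fderiv_cc_continuous hv _) (fderiv_cc_support hc _)).2

/-- regularised length -/
noncomputable def sl (ε : ℝ) (x : E3) : ℝ := √(‖x‖ ^ 2 + ε ^ 2)

theorem sl_pos {ε : ℝ} (hε : 0 < ε) (x : E3) : 0 < sl ε x := by
  unfold sl; positivity

theorem sl_sq (ε : ℝ) (x : E3) : sl ε x ^ 2 = ‖x‖ ^ 2 + ε ^ 2 := Real.sq_sqrt (by positivity)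

theorem sl_ge (ε : ℝ) (x : E3) : ‖x‖ ≤ sl ε x := by
  unfold sl
  apply Real.le_sqrt_of_sq_le
  nlinarith [sq_nonneg ε]

theorem sl_cont (ε : ℝ) : Continuous (sl ε) := by unfold sl; fun_prop

theorem sl_tendsto (x : E3) : Tendsto (fun n : ℕ => sl (1 / ((n:ℝ) + 1)) x) atTop (𝓝 ‖x‖) := by
  have h1 := tendsto_one_div_add_atTop_nhds_zero_nat (𝕜 := ℝ)
  have h2 : Tendsto (fun n : ℕ => ‖x‖ ^ 2 + (1 / ((n:ℝ) + 1)) ^ 2) atTop (𝓝 (‖x‖ ^ 2 + 0 ^ 2)) :=
    tendsto_const_nhds.add (h1.pow 2)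
  have h3 := (Real.continuous_sqrt.tendsto _).comp h2
  have h4 : √(‖x‖ ^ 2 + 0 ^ 2) = ‖x‖ := by
    rw [zero_pow two_ne_zero, add_zero, Real.sqrt_sq (norm_nonneg x)]
  rw [h4] at h3
  exact h3

theorem sl_hasFDerivAt {ε : ℝ} (hε : 0 < ε) (x : E3) :
    HasFDerivAt (sl ε) ((sl ε x)⁻¹ • (innerSL ℝ x)) x := by
  have h1 : HasFDerivAt (fun x : E3 => ‖x‖ ^ 2) (2 • (innerSL ℝ x)) x := hasStrictFDerivAt_norm_sq x |>.hasFDerivAt
  have h2 : HasFDerivAt (fun x : E3 => ‖x‖ ^ 2 + ε ^ 2) (2 • (innerSL ℝ x)) x := h1.add_const _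
  have h3 := h2.sqrt (show ‖x‖ ^ 2 + ε ^ 2 ≠ 0 by positivity)
  unfold sl
  refine h3.congr_fderiv ?_
  ext y
  simp only [smul_apply, nsmul_eq_mul, smul_eq_mul]
  push_cast
  have : √(‖x‖ ^ 2 + ε ^ 2) ≠ 0 := (sl_pos hε x).ne'
  field_simp

/-- the components of the regularised field -/
noncomputable def Fe (ε : ℝ) (k : Fin 3) (x : E3) : ℝ :=
  (1/2) * (x k * ((sl ε x)⁻¹ * Real.exp (-(4 * sl ε x))))

noncomputable def Fk (k : Fin 3) (x : E3) : ℝ := (1/2) * (x k * (‖x‖⁻¹ * Real.exp (-(4 * ‖x‖))))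

theorem b3_inner (x : E3) (k : Fin 3) : inner ℝ x (b3 k) = x k := by
  rw [b3_apply, EuclideanSpace.inner_single_right]; simp

theorem b3_coord (k : Fin 3) : (b3 k : E3) k = 1 := by rw [b3_apply]; simp

theorem Fe_fderiv {ε : ℝ} (hε : 0 < ε) (k : Fin 3) (x : E3) :
    DifferentiableAt ℝ (Fe ε k) x ∧ fderiv ℝ (Fe ε k) x (b3 k) =
      (1/2) * Real.exp (-(4 * sl ε x)) * (1 / sl ε x - x k ^ 2 / sl ε x ^ 3 - 4 * x k ^ 2 / sl ε x ^ 2) := by
  have hs := sl_hasFDerivAt hε x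
  have hpos := sl_pos hε x
  have h1 : HasFDerivAt (fun x : E3 => x k) (EuclideanSpace.proj k : E3 →L[ℝ] ℝ) x :=
    (EuclideanSpace.proj k : E3 →L[ℝ] ℝ).hasFDerivAt
  have h2 : HasFDerivAt (fun x : E3 => (sl ε x)⁻¹) _ x := (hasDerivAt_inv hpos.ne').comp_hasFDerivAt x hs
  have h3 : HasFDerivAt (fun x : E3 => Real.exp (-(4 * sl ε x))) _ x :=
    ((hs.const_mul 4).neg).exp
  have h4 := (h1.mul (h2.mul h3)).const_mul (1/2)
  have h5 : HasFDerivAt (Fe ε k) _ x := h4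
  refine ⟨h5.differentiableAt, ?_⟩
  rw [h5.fderiv]
  have hp : (EuclideanSpace.proj k : E3 →L[ℝ] ℝ) (b3 k) = 1 := b3_coord k
  simp only [smul_apply, add_apply, neg_apply, smul_eq_mul, innerSL_apply_apply, b3_inner,
    Pi.neg_apply, Pi.mul_apply, hp]
  field_simp
  ring

theorem div_sum {ε : ℝ} (hε : 0 < ε) (x : E3) :
    ∑ k, fderiv ℝ (Fe ε k) x (b3 k) =
      (1/2) * Real.exp (-(4 * sl ε x)) * (3 / sl ε x - ‖x‖ ^ 2 / sl ε x ^ 3 - 4 * ‖x‖ ^ 2 / sl ε x ^ 2) := by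
  simp_rw [(Fe_fderiv hε _ x).2]
  have h : ‖x‖ ^ 2 = ∑ k, x k ^ 2 := by
    rw [EuclideanSpace.norm_sq_eq]
    simp
  rw [h, Fin.sum_univ_three, Fin.sum_univ_three]
  ring

theorem Fe_diff {ε : ℝ} (hε : 0 < ε) (k : Fin 3) : Differentiable ℝ (Fe ε k) :=
  fun x => (Fe_fderiv hε k x).1

theorem Fe_cont {ε : ℝ} (hε : 0 < ε) (k : Fin 3) : Continuous (Fe ε k) := (Fe_diff hε k).continuous

theorem coord_le (x : E3) (k : Fin 3) : |x k| ≤ ‖x‖ := by
  have := EuclideanSpace.norm_eq x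
  rw [this]
  apply Real.le_sqrt_of_sq_le
  simp only [Real.norm_eq_abs]
  exact Finset.single_le_sum (f := fun i => |x i| ^ 2) (fun i _ => sq_nonneg _) (Finset.mem_univ k)

theorem Fe_bd {ε : ℝ} (hε : 0 < ε) (k : Fin 3) (x : E3) : |Fe ε k x| ≤ 1/2 := by
  unfold Fe
  have h1 := sl_pos hε x
  have h2 := sl_ge ε x
  have h3 := coord_le x k
  have h4 : Real.exp (-(4 * sl ε x)) ≤ 1 := by rw [Real.exp_le_one_iff]; linarith
  rw [abs_mul, abs_mul, abs_mul, abs_of_nonneg (Real.exp_pos _).le, abs_of_pos (inv_pos.2 h1)]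
  have h5 : |x k| * (sl ε x)⁻¹ ≤ 1 := by
    rw [← div_eq_mul_inv, div_le_one h1]; linarith
  have h6 : |x k| * ((sl ε x)⁻¹ * Real.exp (-(4 * sl ε x))) ≤ 1 * 1 := by
    rw [← mul_assoc]
    exact mul_le_mul h5 h4 (Real.exp_pos _).le zero_le_one
  have h7 : |(1:ℝ)/2| = 1/2 := by norm_num
  rw [h7]
  linarith

theorem div_expr_bd {ε : ℝ} (hε : 0 < ε) {x : E3} (hx : x ≠ 0) :
    |(1/2) * Real.exp (-(4 * sl ε x)) * (3 / sl ε x - ‖x‖ ^ 2 / sl ε x ^ 3 - 4 * ‖x‖ ^ 2 / sl ε x ^ 2)|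
      ≤ 2 / ‖x‖ + 2 := by
  have h1 := sl_pos hε x
  have h2 := sl_ge ε x
  have h0 : 0 < ‖x‖ := norm_pos_iff.2 hx
  have h4 : Real.exp (-(4 * sl ε x)) ≤ 1 := by rw [Real.exp_le_one_iff]; linarith
  have h5 : 3 / sl ε x ≤ 3 / ‖x‖ := div_le_div_of_nonneg_left (by norm_num) h0 h2
  have h5' : 0 ≤ 3 / sl ε x := by positivity
  have h6 : ‖x‖ ^ 2 / sl ε x ^ 3 ≤ 1 / ‖x‖ := by
    rw [div_le_div_iff₀ (by positivity) h0]
    have : ‖x‖ ^ 3 ≤ sl ε x ^ 3 := pow_le_pow_left₀ h0.le h2 3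
    nlinarith
  have h6' : 0 ≤ ‖x‖ ^ 2 / sl ε x ^ 3 := by positivity
  have h7 : 4 * ‖x‖ ^ 2 / sl ε x ^ 2 ≤ 4 := by
    rw [div_le_iff₀ (by positivity)]
    have : ‖x‖ ^ 2 ≤ sl ε x ^ 2 := pow_le_pow_left₀ h0.le h2 2
    linarith
  have h7' : 0 ≤ 4 * ‖x‖ ^ 2 / sl ε x ^ 2 := by positivity
  rw [abs_mul, abs_mul, abs_of_nonneg (Real.exp_pos _).le]
  have h8 : |3 / sl ε x - ‖x‖ ^ 2 / sl ε x ^ 3 - 4 * ‖x‖ ^ 2 / sl ε x ^ 2| ≤ 4 / ‖x‖ + 4 := by
    have e1 : 4 / ‖x‖ = 3 / ‖x‖ + 1 / ‖x‖ := by ring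
    have e2 : 0 ≤ 1 / ‖x‖ := by positivity
    rw [abs_le]; constructor <;> linarith
  have h9 : |(1:ℝ)/2| = 1/2 := by norm_num
  rw [h9]
  have h10 : 0 ≤ 4 / ‖x‖ + 4 := by positivity
  calc 1/2 * Real.exp (-(4 * sl ε x)) * |3 / sl ε x - ‖x‖ ^ 2 / sl ε x ^ 3 - 4 * ‖x‖ ^ 2 / sl ε x ^ 2|
      ≤ 1/2 * 1 * (4 / ‖x‖ + 4) := by gcongr
    _ = 2 / ‖x‖ + 2 := by ring

theorem cc_le_ek {f : E3 → ℝ} (hf : Continuous f) (hc : HasCompactSupport f) :
    ∃ C : ℝ, 0 ≤ C ∧ ∀ x, |f x| ≤ C * ek 1 x := by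
  have h1 : Continuous fun x => f x / ek 1 x := hf.div (ek_cont_x 1) fun x => (ek_pos 1 x).ne'
  have h2 : HasCompactSupport fun x => f x / ek 1 x := by
    have : (fun x => f x / ek 1 x) = fun x => f x * (ek 1 x)⁻¹ := by ext x; rw [div_eq_mul_inv]
    rw [this]
    exact hc.mul_right
  obtain ⟨C, hC⟩ := h2.exists_bound_of_continuous h1
  refine ⟨C, (norm_nonneg _).trans (hC 0), fun x => ?_⟩
  have := hC x
  rw [Real.norm_eq_abs, abs_div, abs_of_pos (ek_pos 1 x), div_le_iff₀ (ek_pos 1 x)] at this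
  exact this

theorem cc_div_norm {f : E3 → ℝ} (hf : Continuous f) (hc : HasCompactSupport f) :
    Integrable fun x => |f x| / ‖x‖ := by
  obtain ⟨C, hC0, hC⟩ := cc_le_ek hf hc
  refine ((yuk_radial one_pos).1.const_mul C).mono' ?_ (Eventually.of_forall fun x => ?_)
  · exact (hf.abs.measurable.div continuous_norm.measurable).aestronglyMeasurable
  · rw [Real.norm_eq_abs, abs_of_nonneg (by positivity), ← mul_div_assoc]
    gcongr
    exact hC x

theorem div_id0 {f : E3 → ℝ} (hf : ContDiff ℝ ∞ f) (hc : HasCompactSupport f) :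
    ∫ x, (Yk x - Vk x) * f x = - ∑ k, ∫ x, Fk k x * fderiv ℝ f x (b3 k) := by
  have hεp : ∀ n : ℕ, (0:ℝ) < 1 / ((n:ℝ) + 1) := fun n => Nat.one_div_pos_of_nat
  -- identity for the regularised field
  have key : ∀ n : ℕ, ∫ x, ((1/2) * Real.exp (-(4 * sl (1 / ((n:ℝ) + 1)) x)) *
      (3 / sl (1 / ((n:ℝ) + 1)) x - ‖x‖ ^ 2 / sl (1 / ((n:ℝ) + 1)) x ^ 3 -
        4 * ‖x‖ ^ 2 / sl (1 / ((n:ℝ) + 1)) x ^ 2)) * f x =
      - ∑ k, ∫ x, Fe (1 / ((n:ℝ) + 1)) k x * fderiv ℝ f x (b3 k) := by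
    intro n
    simp_rw [← div_sum (hεp n), Finset.sum_mul]
    have hint : ∀ k : Fin 3, Integrable fun x => fderiv ℝ (Fe (1 / ((n:ℝ) + 1)) k) x (b3 k) * f x := by
      intro k
      have hcont : Continuous fun x => fderiv ℝ (Fe (1 / ((n:ℝ) + 1)) k) x (b3 k) := by
        simp_rw [(Fe_fderiv (hεp n) k _).2]
        have h1 := sl_cont (1 / ((n:ℝ) + 1))
        have h2 : ∀ x, sl (1 / ((n:ℝ) + 1)) x ≠ 0 := fun x => (sl_pos (hεp n) x).ne'
        have h3 : Continuous fun x : E3 => x k := by fun_prop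
        have h4 : ∀ x, sl (1 / ((n:ℝ) + 1)) x ^ 3 ≠ 0 := fun x => pow_ne_zero _ (h2 x)
        have h5 : ∀ x, sl (1 / ((n:ℝ) + 1)) x ^ 2 ≠ 0 := fun x => pow_ne_zero _ (h2 x)
        refine Continuous.mul (by fun_prop) ?_
        refine ((continuous_const.div h1 h2).sub ((h3.pow 2).div (h1.pow 3) h4)).sub ?_
        exact (continuous_const.mul (h3.pow 2)).div (h1.pow 2) h5
      exact (hcont.mul hf.continuous).integrable_of_hasCompactSupport hc.mul_left
    rw [integral_finsetSum _ fun k _ => hint k, ← Finset.sum_neg_distrib]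
    refine Finset.sum_congr rfl fun k _ => ?_
    have hF := Fe_diff (hεp n) k
    have hfd : Differentiable ℝ f := hf.differentiable (by norm_num)
    have h := integral_mul_fderiv_eq_neg_fderiv_mul_of_integrable (𝕜 := ℝ) (μ := (volume : Measure E3))
      (f := Fe (1 / ((n:ℝ) + 1)) k) (g := f) (v := b3 k) (hint k)
      (((Fe_cont (hεp n) k).mul (fderiv_cc_continuous hf _)).integrable_of_hasCompactSupport
        (fderiv_cc_support hc _).mul_left)
      (((Fe_cont (hεp n) k).mul hf.continuous).integrable_of_hasCompactSupport hc.mul_left)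
      (fun x _ => hF x) (fun x _ => hfd x)
    rw [h, neg_neg]
  -- limits
  have l1 : Tendsto (fun n : ℕ => ∫ x, ((1/2) * Real.exp (-(4 * sl (1 / ((n:ℝ) + 1)) x)) *
      (3 / sl (1 / ((n:ℝ) + 1)) x - ‖x‖ ^ 2 / sl (1 / ((n:ℝ) + 1)) x ^ 3 -
        4 * ‖x‖ ^ 2 / sl (1 / ((n:ℝ) + 1)) x ^ 2)) * f x) atTop (𝓝 (∫ x, (Yk x - Vk x) * f x)) := by
    refine tendsto_integral_of_dominated_convergence (fun x => 2 * (|f x| / ‖x‖) + 2 * |f x|)
      (fun n => ?_) ?_ (fun n => ?_) ?_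
    · have h1 := (sl_cont (1 / ((n:ℝ) + 1))).measurable
      have h2 : Measurable fun x : E3 => ‖x‖ := continuous_norm.measurable
      exact (((measurable_const.mul (Real.continuous_exp.measurable.comp (h1.const_mul 4).neg)).mul
        (((measurable_const.div h1).sub ((h2.pow_const 2).div (h1.pow_const 3))).sub
        (((h2.pow_const 2).const_mul 4).div (h1.pow_const 2)))).mul
        hf.continuous.measurable).aestronglyMeasurable
    · refine ((cc_div_norm hf.continuous hc).const_mul 2).add (Integrable.const_mul ?_ 2)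
      exact (hf.continuous.integrable_of_hasCompactSupport hc).abs
    · filter_upwards [ne_ae] with x hx
      rw [Real.norm_eq_abs, abs_mul]
      have := mul_le_mul_of_nonneg_right (div_expr_bd (hεp n) hx) (abs_nonneg (f x))
      refine this.trans (le_of_eq ?_)
      ring
    · filter_upwards [ne_ae] with x hx
      have h0 : ‖x‖ ≠ 0 := norm_ne_zero_iff.2 hx
      have hs := sl_tendsto x
      have h1 : Tendsto (fun n : ℕ => Real.exp (-(4 * sl (1 / ((n:ℝ) + 1)) x))) atTop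
          (𝓝 (Real.exp (-(4 * ‖x‖)))) :=
        (Real.continuous_exp.tendsto _).comp ((hs.const_mul 4).neg)
      have h2 := ((h1.const_mul (1/2)).mul (((tendsto_const_nhds (x := (3:ℝ))).div hs h0).sub
        ((tendsto_const_nhds (x := ‖x‖ ^ 2)).div (hs.pow 3) (pow_ne_zero 3 h0)) |>.sub
        ((tendsto_const_nhds (x := 4 * ‖x‖ ^ 2)).div (hs.pow 2) (pow_ne_zero 2 h0)))).mul_const (f x)
      refine h2.congr' (Eventually.of_forall fun n => rfl) |>.trans ?_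
      rw [Yk_sub_Vk hx]
      apply le_of_eq
      congr 1
      field_simp
      ring
  have l2 : Tendsto (fun n : ℕ => - ∑ k, ∫ x, Fe (1 / ((n:ℝ) + 1)) k x * fderiv ℝ f x (b3 k)) atTop
      (𝓝 (- ∑ k, ∫ x, Fk k x * fderiv ℝ f x (b3 k))) := by
    refine (tendsto_finsetSum _ fun k _ => ?_).neg
    refine tendsto_integral_of_dominated_convergence (fun x => 1/2 * |fderiv ℝ f x (b3 k)|)
      (fun n => ?_) ?_ (fun n => ?_) ?_
    · exact ((Fe_cont (hεp n) k).mul (fderiv_cc_continuous hf _)).aestronglyMeasurable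
    · exact ((fderiv_cc_continuous hf _).integrable_of_hasCompactSupport
        (fderiv_cc_support hc _)).abs.const_mul _
    · filter_upwards with x
      rw [Real.norm_eq_abs, abs_mul]
      exact mul_le_mul_of_nonneg_right (Fe_bd (hεp n) k x) (abs_nonneg _)
    · filter_upwards [ne_ae] with x hx
      have h0 : ‖x‖ ≠ 0 := norm_ne_zero_iff.2 hx
      have hs := sl_tendsto x
      have h1 : Tendsto (fun n : ℕ => Real.exp (-(4 * sl (1 / ((n:ℝ) + 1)) x))) atTop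
          (𝓝 (Real.exp (-(4 * ‖x‖)))) :=
        (Real.continuous_exp.tendsto _).comp ((hs.const_mul 4).neg)
      exact ((((hs.inv₀ h0).mul h1).const_mul (x k)).const_mul (1/2)).mul_const _
  exact tendsto_nhds_unique l1 (l2.congr fun n => (key n).symm)

theorem div_id {f : E3 → ℝ} (hf : ContDiff ℝ ∞ f) (hc : HasCompactSupport f) (a : E3) :
    ∫ x, (Yk (x - a) - Vk (x - a)) * f x = - ∑ k, ∫ x, Fk k (x - a) * fderiv ℝ f x (b3 k) := by
  have h := div_id0 (f := fun x => f (x + a)) (hf.comp (contDiff_id.add contDiff_const))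
    (hc.comp_homeomorph (Homeomorph.addRight a))
  have e1 : ∫ x, (Yk (x - a) - Vk (x - a)) * f x = ∫ x, (Yk x - Vk x) * f (x + a) := by
    rw [← integral_add_right_eq_self (fun x => (Yk (x - a) - Vk (x - a)) * f x) a]
    simp
  have e2 : ∀ k, ∫ x, Fk k (x - a) * fderiv ℝ f x (b3 k) =
      ∫ x, Fk k x * fderiv ℝ (fun x => f (x + a)) x (b3 k) := by
    intro k
    rw [← integral_add_right_eq_self (fun x => Fk k (x - a) * fderiv ℝ f x (b3 k)) a]
    congr 1; ext x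
    rw [add_sub_cancel_right, fderiv_comp_add_right]
  rw [e1, h]
  congr 1
  exact Finset.sum_congr rfl fun k _ => (e2 k).symm

theorem Fk_dot (x : E3) (w : Fin 3 → ℝ) : |∑ k, Fk k x * w k| ≤ 1/2 * ek 4 x * √(∑ k, w k ^ 2) := by
  unfold Fk ek
  have e : ∑ k, (1/2) * (x k * (‖x‖⁻¹ * Real.exp (-(4 * ‖x‖)))) * w k =
      (1/2 * Real.exp (-(4 * ‖x‖))) * (‖x‖⁻¹ * ∑ k, x k * w k) := by
    rw [Finset.mul_sum, Finset.mul_sum]
    refine Finset.sum_congr rfl fun k _ => ?_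
    ring
  rw [e, abs_mul, abs_of_nonneg (show 0 ≤ 1/2 * Real.exp (-(4 * ‖x‖)) by positivity)]
  refine mul_le_mul_of_nonneg_left ?_ (by positivity)
  rw [abs_mul, abs_of_nonneg (inv_nonneg.2 (norm_nonneg x))]
  have h1 : |∑ k, x k * w k| ≤ ‖x‖ * √(∑ k, w k ^ 2) := by
    have h2 := Finset.sum_mul_sq_le_sq_mul_sq Finset.univ (fun k => x k) w
    rw [EuclideanSpace.norm_eq, ← Real.sqrt_mul (by positivity)]
    apply Real.le_sqrt_of_sq_le
    rw [sq_abs]
    simpa using h2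
  rcases (norm_nonneg x).eq_or_lt with h0 | h0
  · rw [← h0]; simp
  · rw [inv_mul_le_iff₀ h0]; exact h1

theorem Fk_meas (k : Fin 3) : Measurable (Fk k) := by
  unfold Fk
  have h1 : Measurable fun x : E3 => x k := by fun_prop
  have h2 : Measurable fun x : E3 => ‖x‖ := continuous_norm.measurable
  exact (h1.mul (h2.inv.mul (Real.continuous_exp.measurable.comp (h2.const_mul 4).neg))).const_mul _

theorem Fk_bd (k : Fin 3) (x : E3) : |Fk k x| ≤ 1/2 := by
  have h := Fk_dot x (Pi.single k 1)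
  have h1 : ∑ j, Fk j x * (Pi.single k 1 : Fin 3 → ℝ) j = Fk k x := by
    rw [Finset.sum_eq_single k]
    · simp
    · intro j _ hj; simp [hj]
    · simp
  have h2 : ∑ j, ((Pi.single k 1 : Fin 3 → ℝ) j) ^ 2 = 1 := by
    rw [Finset.sum_eq_single k]
    · simp
    · intro j _ hj; simp [hj]
    · simp
  rw [h1, h2, Real.sqrt_one, mul_one] at h
  have := ek_le_one (show (0:ℝ) ≤ 4 by norm_num) x
  linarith

/-- the singular part of the Yukawa kernel is controlled by the gradient -/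
theorem sing_bd {v : E3 → ℝ} (hv : ContDiff ℝ ∞ v) (hc : HasCompactSupport v) (a : E3) :
    |∫ x, (Yk (x - a) - Vk (x - a)) * v x ^ 2| ≤ ∫ x, ek 4 (x - a) * (|v x| * gn v x) := by
  have h := div_id (hv.pow 2) (hc.comp_left (g := fun t : ℝ => t ^ 2) (by norm_num)) a
  have hd : ∀ x k, fderiv ℝ (fun x => v x ^ 2) x (b3 k) = 2 * v x * fderiv ℝ v x (b3 k) := by
    intro x k
    have h1 := ((hv.differentiable (by norm_num) x).hasFDerivAt.pow 2).fderiv
    rw [h1]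
    simp
  have h' : ∫ x, (Yk (x - a) - Vk (x - a)) * v x ^ 2 =
      - ∑ k, ∫ x, Fk k (x - a) * fderiv ℝ (fun x => v x ^ 2) x (b3 k) := h
  rw [h']
  simp_rw [hd]
  have hint : ∀ k : Fin 3, Integrable fun x => Fk k (x - a) * (2 * v x * fderiv ℝ v x (b3 k)) := by
    intro k
    have h1 : Integrable fun x => 2 * v x * fderiv ℝ v x (b3 k) :=
      ((continuous_const.mul hv.continuous).mul
        (fderiv_cc_continuous hv _)).integrable_of_hasCompactSupport (fderiv_cc_support hc _).mul_left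
    refine h1.bdd_mul ((Fk_meas k).comp (measurable_id.sub_const a)).aestronglyMeasurable
      (c := 1/2) (Eventually.of_forall fun x => ?_)
    rw [Real.norm_eq_abs]; exact Fk_bd _ _
  rw [abs_neg, ← integral_finsetSum _ fun k _ => hint k]
  refine (abs_integral_le_integral_abs).trans ?_
  have hi2 : Integrable fun x => ek 4 (x - a) * (|v x| * gn v x) := by
    have h1 : Integrable fun x => |v x| * gn v x :=
      (hv.continuous.abs.mul (gn_cont hv)).integrable_of_hasCompactSupport (by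
        have : HasCompactSupport fun x => |v x| := hc.comp_left (g := fun t : ℝ => |t|) (by simp)
        exact this.mul_right)
    refine h1.bdd_mul ((ek_cont_x 4).comp (continuous_id.sub continuous_const)).aestronglyMeasurable
      (c := 1) (Eventually.of_forall fun x => ?_)
    show ‖ek 4 (x - a)‖ ≤ 1
    rw [Real.norm_eq_abs, abs_of_pos (ek_pos _ _)]
    exact ek_le_one (by norm_num) _
  refine integral_mono_of_nonneg (Eventually.of_forall fun x => abs_nonneg _) hi2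
    (Eventually.of_forall fun x => ?_)
  have h2 : ∑ k, Fk k (x - a) * (2 * v x * fderiv ℝ v x (b3 k)) =
      2 * v x * ∑ k, Fk k (x - a) * fderiv ℝ v x (b3 k) := by
    rw [Finset.mul_sum]; refine Finset.sum_congr rfl fun k _ => by ring
  simp only
  rw [h2, abs_mul, abs_mul, abs_two]
  have h3 := Fk_dot (x - a) (fun k => fderiv ℝ v x (b3 k))
  have h4 : √(∑ k, (fderiv ℝ v x (b3 k)) ^ 2) = gn v x := rfl
  rw [h4] at h3
  calc 2 * |v x| * |∑ k, Fk k (x - a) * fderiv ℝ v x (b3 k)|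
      ≤ 2 * |v x| * (1/2 * ek 4 (x - a) * gn v x) := by gcongr
    _ = ek 4 (x - a) * (|v x| * gn v x) := by ring

end Pool.Agent.Helper985.BM
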