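import Mathlib

/-!
# Bosonic Coulomb matter with static nuclei
-/

open MeasureTheory
open scoped ContDiff

namespace Pool.Agent.Helper985.BCM

/-- The physical space `ℝ³`. -/
abbrev Space : Type := EuclideanSpace ℝ (Fin 3)

/-- Configurations of `N` particles; `volume` is Lebesgue measure on `ℝ^{3N}`. -/
abbrev Config (N : ℕ) : Type := Fin N → Space

/-- The unit vector moving particle `i` along the coordinate axis `k`. -/
noncomputable def unitDir {N : ℕ} (i : Fin N) (k : Fin 3) : Config N :=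
  Pi.single i (EuclideanSpace.single k (1 : ℝ))

/-- `g` is the weak partial derivative of `ψ` in the coordinate `k` of particle `i`. -/
def IsWeakPartial {N : ℕ} (i : Fin N) (k : Fin 3) (ψ g : Config N → ℂ) : Prop :=
  ∀ φ : Config N → ℝ, ContDiff ℝ ∞ φ → HasCompactSupport φ →
    ∫ x, ((fderiv ℝ φ x (unitDir i k) : ℝ) : ℂ) * ψ x = - ∫ x, ((φ x : ℝ) : ℂ) * g x

/-- `ψ ∈ H¹(ℝ^{3N})`, with weak gradient `g`. -/
def IsH1 {N : ℕ} (ψ : Config N → ℂ) (g : Fin N → Fin 3 → Config N → ℂ) : Prop :=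
  MemLp ψ 2 volume ∧ (∀ i k, MemLp (g i k) 2 volume) ∧ ∀ i k, IsWeakPartial i k ψ (g i k)

/-- The Coulomb energy of `N` particles of charge `-1` at the points `x` and `K` nuclei of charge
`z` at the points `R`. -/
noncomputable def coulomb {N K : ℕ} (z : ℝ) (x : Config N) (R : Config K) : ℝ :=
  (∑ p ∈ Finset.univ.filter (fun p : Fin N × Fin N => p.1 < p.2), 1 / ‖x p.1 - x p.2‖)
    - z * (∑ i, ∑ j, 1 / ‖x i - R j‖)
    + z ^ 2 * (∑ p ∈ Finset.univ.filter (fun p : Fin K × Fin K => p.1 < p.2),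
        1 / ‖R p.1 - R p.2‖)

/-- The quadratic form `⟨ψ, H_{N,R} ψ⟩` of the Hamiltonian, `g` being the weak gradient of `ψ`. -/
noncomputable def energy {N K : ℕ} (z : ℝ) (R : Config K) (ψ : Config N → ℂ)
    (g : Fin N → Fin 3 → Config N → ℂ) : ℝ :=
  (∑ i, ∑ k, ∫ x, ‖g i k x‖ ^ 2) + ∫ x, coulomb z x R * ‖ψ x‖ ^ 2

/-- All values of the energy of normalised functions in `H¹(ℝ^{3N})` for neutral systems:
`N = K z`, with the `K` nuclei at distinct points (otherwise the repulsion of the nuclei is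
infinite). -/
def energies (z : ℝ) (N : ℕ) : Set ℝ :=
  {E | ∃ (K : ℕ) (R : Config K) (ψ : Config N → ℂ) (g : Fin N → Fin 3 → Config N → ℂ),
    (N : ℝ) = K * z ∧ Function.Injective R ∧ IsH1 ψ g ∧ ∫ x, ‖ψ x‖ ^ 2 = 1 ∧
      E = energy z R ψ g}

/-- The ground state energy `E₀(N)`. -/
noncomputable def groundEnergy (z : ℝ) (N : ℕ) : ℝ := sInf (energies z N)

/-- The positive integers `N` of the form `K z` with a natural number `K`. -/
def Admissible (z : ℝ) (N : ℕ) : Prop := 1 ≤ N ∧ ∃ K : ℕ, (N : ℝ) = K * z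

end Pool.Agent.Helper985.BCM
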