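import Pool.Agent.Helper985.BM.D1

set_option autoImplicit false

open MeasureTheory Filter Topology Set
open scoped ContDiff

namespace Pool.Agent.Helper985.BM

open VR

theorem half_le {x : ℝ} (hx : 0 ≤ x) : (1/2) * x ≤ x := by linarith

theorem rpow43_le {x : ℝ} (hx : 0 ≤ x) : x ^ (4/3:ℝ) ≤ x + x ^ 2 := by
  rcases le_total x 1 with h1 | h1
  · rcases hx.eq_or_lt with h0 | h0
    · rw [← h0, Real.zero_rpow (by norm_num)]; norm_num
    · have := Real.rpow_le_rpow_of_exponent_ge h0 h1 (show (1:ℝ) ≤ 4/3 by norm_num)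
      rw [Real.rpow_one] at this
      nlinarith [sq_nonneg x]
  · have := Real.rpow_le_rpow_of_exponent_le h1 (show (4/3:ℝ) ≤ 2 by norm_num)
    rw [Real.rpow_two] at this
    linarith

theorem rpow43_int {r : E3 → ℝ} (hrm : Measurable r) (h0 : ∀ x, 0 ≤ r x) (hr : Integrable r)
    (hr2 : Integrable fun x => r x ^ 2) : Integrable fun x => r x ^ (4/3:ℝ) := by
  refine (hr.add hr2).mono' (hrm.pow_const _).aestronglyMeasurable (Eventually.of_forall fun x => ?_)
  rw [Real.norm_eq_abs, abs_of_nonneg (Real.rpow_nonneg (h0 x) _)]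
  exact rpow43_le (h0 x)

/-- index of the cube of side `h` -/
noncomputable def ci (h s : ℝ) (x : E3) : Fin 3 → ℤ := fun i => ⌊(x i - s) / h⌋
/-- the cube with a given index -/
def Qc (h s : ℝ) (q : Fin 3 → ℤ) : Set E3 := {x | ci h s x = q}
/-- points with distance at least `d` to the faces -/
def gdc (d h s : ℝ) (x : E3) : Prop :=
  ∀ i, d ≤ x i - s - h * ⌊(x i - s) / h⌋ ∧ x i - s - h * ⌊(x i - s) / h⌋ ≤ h - d

theorem mem_Qc {h s : ℝ} (hh : 0 < h) {q : Fin 3 → ℤ} {x : E3} :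
    x ∈ Qc h s q ↔ ∀ i, s + h * q i ≤ x i ∧ x i < s + h * q i + h := by
  unfold Qc
  rw [Set.mem_ofPred_eq, funext_iff]
  refine forall_congr' fun i => ?_
  unfold ci
  rw [Int.floor_eq_iff, le_div_iff₀ hh, div_lt_iff₀ hh]
  constructor
  · rintro ⟨h1, h2⟩; constructor <;> nlinarith
  · rintro ⟨h1, h2⟩; constructor <;> nlinarith

theorem Qc_eq {h s : ℝ} (hh : 0 < h) (q : Fin 3 → ℤ) :
    Qc h s q = WithLp.ofLp ⁻¹' (Set.univ.pi fun i : Fin 3 => Ico (s + h * q i) (s + h * q i + h)) := by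
  ext x
  rw [mem_Qc hh]
  simp [Set.mem_pi, Set.mem_Ico]

theorem Qc_meas {h s : ℝ} (hh : 0 < h) (q : Fin 3 → ℤ) : MeasurableSet (Qc h s q) := by
  rw [Qc_eq hh]
  exact (PiLp.volume_preserving_ofLp (Fin 3)).measurable
    (MeasurableSet.univ_pi fun i => measurableSet_Ico)

theorem Qc_vol {h s : ℝ} (hh : 0 < h) (q : Fin 3 → ℤ) :
    (volume : Measure E3) (Qc h s q) = ENNReal.ofReal (h ^ 3) := by
  rw [Qc_eq hh, (PiLp.volume_preserving_ofLp (Fin 3)).measure_preimage
    (MeasurableSet.univ_pi fun i => measurableSet_Ico).nullMeasurableSet, Real.volume_pi_Ico]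
  simp only [add_sub_cancel_left]
  rw [Finset.prod_const, Finset.card_univ, Fintype.card_fin, ENNReal.ofReal_pow hh.le]

theorem Qc_real {h s : ℝ} (hh : 0 < h) (q : Fin 3 → ℤ) :
    (volume : Measure E3).real (Qc h s q) = h ^ 3 := by
  unfold Measure.real
  rw [Qc_vol hh, ENNReal.toReal_ofReal (by positivity)]

theorem Qc_disj {h s : ℝ} {q q' : Fin 3 → ℤ} (hq : q ≠ q') : Disjoint (Qc h s q) (Qc h s q') := by
  rw [Set.disjoint_left]
  intro x h1 h2
  exact hq ((show ci h s x = q from h1).symm.trans h2)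

/-- good points of the same cube -/
theorem good_diff {d h s : ℝ} {x y : E3} (hx : gdc d h s x) (hy : gdc d h s y)
    (hc : ci h s x = ci h s y) (i : Fin 3) : |x i - y i| ≤ h - 2 * d := by
  have h1 := hx i
  have h2 := hy i
  have h3 : ⌊(x i - s) / h⌋ = ⌊(y i - s) / h⌋ := congrFun hc i
  rw [h3] at h1
  rw [abs_le]; constructor <;> linarith [h1.1, h1.2, h2.1, h2.2]

/-- points close to a good point are in the same cube -/
theorem good_near {d h s : ℝ} (hh : 0 < h) {x y : E3} (hx : gdc d h s x) (hxy : ‖x - y‖ < d) :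
    y ∈ Qc h s (ci h s x) := by
  rw [mem_Qc hh]
  intro i
  have h1 := hx i
  have h2 := (coord_le (x - y) i).trans_lt hxy
  rw [PiLp.sub_apply, abs_lt] at h2
  show s + h * ((⌊(x i - s) / h⌋ : ℤ) : ℝ) ≤ y i ∧ y i < s + h * ((⌊(x i - s) / h⌋ : ℤ) : ℝ) + h
  constructor <;> linarith [h1.1, h1.2, h2.1, h2.2]

/-- a coordinate is bad for at most one shift -/
theorem bad_shift {d : ℝ} (hd : 0 < d) {L : ℕ} (hL : 0 < L) {l : ℕ} (hl : l < L) (t : ℝ)
    (hbad : ¬ (d ≤ t - 2 * d * l - (2 * d * L) * ⌊(t - 2 * d * l) / (2 * d * L)⌋ ∧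
      t - 2 * d * l - (2 * d * L) * ⌊(t - 2 * d * l) / (2 * d * L)⌋ ≤ 2 * d * L - d)) :
    (l : ℤ) = ⌊t / (2 * d) + 1/2⌋ % L := by
  have hLR : (0:ℝ) < L := by exact_mod_cast hL
  set q : ℤ := ⌊(t - 2 * d * l) / (2 * d * L)⌋ with hq
  have h1 : (q:ℝ) ≤ (t - 2 * d * l) / (2 * d * L) := Int.floor_le _
  have h2 : (t - 2 * d * l) / (2 * d * L) < q + 1 := Int.lt_floor_add_one _
  rw [le_div_iff₀ (by positivity)] at h1
  rw [div_lt_iff₀ (by positivity)] at h2
  -- everything in units of 2d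
  set y : ℝ := t / (2 * d) with hy
  have ht : t = 2 * d * y := by rw [hy]; field_simp
  rw [ht] at h1 h2 hbad
  have h3 : (q:ℝ) * L + l ≤ y := by
    have : 2 * d * ((q:ℝ) * L + l) ≤ 2 * d * y := by linarith
    exact le_of_mul_le_mul_left this (by positivity)
  have h4 : y < (q:ℝ) * L + L + l := by
    have : 2 * d * y < 2 * d * ((q:ℝ) * L + L + l) := by linarith
    exact lt_of_mul_lt_mul_left this (by positivity)
  have key : ∃ p : ℤ, ⌊y + 1/2⌋ = p * L + l := by
    rw [not_and_or, not_le, not_le] at hbad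
    rcases hbad with h5 | h5
    · refine ⟨q, ?_⟩
      have h6 : y < (q:ℝ) * L + l + 1/2 := by
        have : 2 * d * y < 2 * d * ((q:ℝ) * L + l + 1/2) := by linarith
        exact lt_of_mul_lt_mul_left this (by positivity)
      rw [Int.floor_eq_iff]
      push_cast
      constructor <;> linarith
    · refine ⟨q + 1, ?_⟩
      have h6 : (q:ℝ) * L + L + l - 1/2 < y := by
        have : 2 * d * ((q:ℝ) * L + L + l - 1/2) < 2 * d * y := by linarith
        exact lt_of_mul_lt_mul_left this (by positivity)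
      rw [Int.floor_eq_iff]
      push_cast
      constructor <;> linarith
  obtain ⟨p, hp⟩ := key
  rw [hp, Int.mul_comm, Int.add_comm, Int.add_mul_emod_self_left, Int.emod_eq_of_lt]
  · positivity
  · exact_mod_cast hl

open Classical in
theorem bad_card {d : ℝ} (hd : 0 < d) {L : ℕ} (hL : 0 < L) (x : E3) :
    ∑ l ∈ Finset.range L, (if gdc d (2 * d * L) (2 * d * l) x then (0:ℝ) else 1) ≤ 3 := by
  have h1 : ∀ l ∈ Finset.range L, (if gdc d (2 * d * L) (2 * d * l) x then (0:ℝ) else 1) ≤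
      ∑ i : Fin 3, (if (l:ℤ) = ⌊x i / (2 * d) + 1/2⌋ % L then (1:ℝ) else 0) := by
    intro l hl
    by_cases hg : gdc d (2 * d * L) (2 * d * l) x
    · rw [if_pos hg]
      exact Finset.sum_nonneg fun i _ => by split_ifs <;> norm_num
    · rw [if_neg hg]
      unfold gdc at hg
      push Not at hg
      obtain ⟨i, hi⟩ := hg
      have h2 := bad_shift hd hL (Finset.mem_range.1 hl) (x i) (fun h => absurd (hi h.1) (not_lt.2 h.2))
      have h3 := Finset.single_le_sum (f := fun i : Fin 3 =>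
        (if (l:ℤ) = ⌊x i / (2 * d) + 1/2⌋ % L then (1:ℝ) else 0))
        (fun i _ => by split_ifs <;> norm_num) (Finset.mem_univ i)
      simp only at h3
      rwa [if_pos h2] at h3
  refine (Finset.sum_le_sum h1).trans ?_
  rw [Finset.sum_comm]
  have h2 : ∀ i : Fin 3, ∑ l ∈ Finset.range L,
      (if (l:ℤ) = ⌊x i / (2 * d) + 1/2⌋ % L then (1:ℝ) else 0) ≤ 1 := by
    intro i
    rw [← Finset.sum_filter, Finset.sum_const, nsmul_eq_mul, mul_one]
    have : ((Finset.range L).filter fun l : ℕ => (l:ℤ) = ⌊x i / (2 * d) + 1/2⌋ % L).card ≤ 1 := by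
      rw [Finset.card_le_one]
      intro a ha b hb
      rw [Finset.mem_filter] at ha hb
      exact_mod_cast ha.2.trans hb.2.symm
    exact_mod_cast this
  have h3 := Finset.sum_le_sum fun i (_ : i ∈ (Finset.univ : Finset (Fin 3))) => h2 i
  simpa using h3

open Classical in
/-- a shift for which the corridors carry little weight -/
theorem exists_shift {κ : Type*} (S : Finset κ) (R : κ → E3) {w : κ → ℝ} (hw : ∀ j, 0 ≤ w j)
    {d : ℝ} (hd : 0 < d) {L : ℕ} (hL : 0 < L) :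
    ∃ l : ℕ, ∑ j ∈ S.filter (fun j => ¬ gdc d (2 * d * L) (2 * d * l) (R j)), w j ≤
      3 * (∑ j ∈ S, w j) / L := by
  have hLR : (0:ℝ) < L := by exact_mod_cast hL
  have h1 : ∑ l ∈ Finset.range L, ∑ j ∈ S.filter (fun j => ¬ gdc d (2 * d * L) (2 * d * l) (R j)), w j ≤
      ∑ _l ∈ Finset.range L, 3 * (∑ j ∈ S, w j) / L := by
    have e1 : ∀ l : ℕ, ∑ j ∈ S.filter (fun j => ¬ gdc d (2 * d * L) (2 * d * l) (R j)), w j =
        ∑ j ∈ S, w j * (if gdc d (2 * d * L) (2 * d * l) (R j) then (0:ℝ) else 1) := by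
      intro l
      rw [Finset.sum_filter]
      refine Finset.sum_congr rfl fun j _ => ?_
      by_cases h : gdc d (2 * d * L) (2 * d * l) (R j) <;> simp [h]
    simp_rw [e1]
    rw [Finset.sum_comm, Finset.sum_const, Finset.card_range, nsmul_eq_mul]
    have e2 : (L:ℝ) * (3 * (∑ j ∈ S, w j) / L) = ∑ j ∈ S, w j * 3 := by
      rw [← Finset.sum_mul]; field_simp
    rw [e2]
    refine Finset.sum_le_sum fun j _ => ?_
    rw [← Finset.mul_sum]
    exact mul_le_mul_of_nonneg_left (bad_card hd hL (R j)) (hw j)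
  obtain ⟨l, -, hl⟩ := Finset.exists_le_of_sum_le ⟨0, Finset.mem_range.2 hL⟩ h1
  exact ⟨l, hl⟩

end Pool.Agent.Helper985.BM
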