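import Pool.Agent.Helper985.BM.G1
import Pool.Agent.Helper985.BM.G2

set_option autoImplicit false

open MeasureTheory Filter Topology Set

namespace Pool.Agent.Helper985.BM

open VR

/-! ### selection of independent parameters -/

theorem select {ι Ω : Type*} [Fintype ι] [DecidableEq ι] [MeasurableSpace Ω] (P : Measure Ω)
    [IsProbabilityMeasure P] (A : ι → Ω → ℝ) (hA : ∀ i, Integrable (A i) P)
    (B : ι → ι → Ω × Ω → ℝ) (hB : ∀ i j, i ≠ j → Integrable (B i j) (P.prod P)) :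
    ∃ ω : ι → Ω, ∑ i, A i (ω i) + ∑ i, ∑ j ∈ Finset.univ.erase i, B i j (ω i, ω j) ≤
      ∑ i, ∫ x, A i x ∂P + ∑ i, ∑ j ∈ Finset.univ.erase i, ∫ p, B i j p ∂(P.prod P) := by
  set Q : Measure (ι → Ω) := Measure.pi fun _ => P with hQ
  have hmp : ∀ i, MeasurePreserving (fun ω : ι → Ω => ω i) Q P := fun i =>
    measurePreserving_eval (fun _ : ι => P) i
  have hmp2 : ∀ i j, i ≠ j → MeasurePreserving (fun ω : ι → Ω => (ω i, ω j)) Q (P.prod P) := by
    intro i j hij
    refine ⟨(measurable_pi_apply i).prodMk (measurable_pi_apply j), ?_⟩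
    have h1 := (ProbabilityTheory.iIndepFun_pi (μ := fun _ : ι => P) (X := fun _ : ι => (id : Ω → Ω))
      (fun _ => aemeasurable_id)).indepFun hij
    have h2 := h1.map_prod_eq_prod_map_map (measurable_pi_apply i).aemeasurable
      (measurable_pi_apply j).aemeasurable
    have e1 : Measure.map (fun f : ι → Ω => f i) (Measure.pi fun _ => P) = P := (hmp i).map_eq
    have e2 : Measure.map (fun f : ι → Ω => f j) (Measure.pi fun _ => P) = P := (hmp j).map_eq
    rw [e1, e2] at h2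
    exact h2
  have i1 : ∀ i, Integrable (fun ω : ι → Ω => A i (ω i)) Q := fun i => (hmp i).integrable_comp_of_integrable (hA i)
  have i2 : ∀ i j, i ≠ j → Integrable (fun ω : ι → Ω => B i j (ω i, ω j)) Q := fun i j hij =>
    (hmp2 i j hij).integrable_comp_of_integrable (hB i j hij)
  have i3 : ∀ i, Integrable (fun ω : ι → Ω => ∑ j ∈ Finset.univ.erase i, B i j (ω i, ω j)) Q := fun i =>
    integrable_finsetSum _ fun j hj => i2 i j (Finset.ne_of_mem_erase hj).symm
  have e1 : ∀ i, ∫ ω, A i (ω i) ∂Q = ∫ x, A i x ∂P := by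
    intro i
    rw [← (hmp i).map_eq, integral_map (measurable_pi_apply i).aemeasurable]
    rw [(hmp i).map_eq]; exact (hA i).aestronglyMeasurable
  have e2 : ∀ i j, i ≠ j → ∫ ω, B i j (ω i, ω j) ∂Q = ∫ p, B i j p ∂(P.prod P) := by
    intro i j hij
    rw [← (hmp2 i j hij).map_eq, integral_map ((measurable_pi_apply i).prodMk (measurable_pi_apply j)).aemeasurable]
    rw [(hmp2 i j hij).map_eq]; exact (hB i j hij).aestronglyMeasurable
  have hint : Integrable (fun ω : ι → Ω => ∑ i, A i (ω i) + ∑ i, ∑ j ∈ Finset.univ.erase i, B i j (ω i, ω j)) Q :=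
    (integrable_finsetSum _ fun i _ => i1 i).add (integrable_finsetSum _ fun i _ => i3 i)
  obtain ⟨ω, hω⟩ := exists_le_integral hint
  refine ⟨ω, hω.trans (le_of_eq ?_)⟩
  rw [integral_add (integrable_finsetSum _ fun i _ => i1 i) (integrable_finsetSum _ fun i _ => i3 i),
    integral_finsetSum _ fun i _ => i1 i, integral_finsetSum _ fun i _ => i3 i]
  congr 1
  · exact Finset.sum_congr rfl fun i _ => e1 i
  · refine Finset.sum_congr rfl fun i _ => ?_
    rw [integral_finsetSum _ fun j hj => i2 i j (Finset.ne_of_mem_erase hj).symm]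
    exact Finset.sum_congr rfl fun j hj => e2 i j (Finset.ne_of_mem_erase hj).symm

/-! ### rounding of weights -/

section rounding

variable {J : Type*} [Fintype J] [DecidableEq J]

/-- quadratic function of the weights -/
noncomputable def Gq (α : J → ℝ) (γ : J → J → ℝ) (w : J → ℝ) : ℝ :=
  ∑ a, w a * α a + (1/2) * ∑ a, ∑ b, w a * w b * γ a b

theorem Gq_update (α : J → ℝ) {γ : J → J → ℝ} (hγ : ∀ a, γ a a = 0) (w : J → ℝ) (c : J) (t : ℝ) :
    Gq α γ (fun a => w a + if a = c then t else 0) =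
      Gq α γ w + t * (α c + (1/2) * ∑ b, (γ c b + γ b c) * w b) := by
  unfold Gq
  have e1 : ∑ a, (w a + if a = c then t else 0) * α a = ∑ a, w a * α a + t * α c := by
    simp_rw [add_mul, Finset.sum_add_distrib, ite_mul, zero_mul]
    rw [Finset.sum_ite_eq' Finset.univ c, if_pos (Finset.mem_univ _)]
  have e2 : ∑ a, ∑ b, (w a + if a = c then t else 0) * (w b + if b = c then t else 0) * γ a b =
      ∑ a, ∑ b, w a * w b * γ a b + t * ∑ b, (γ c b + γ b c) * w b := by
    have e3 : ∀ a b, (w a + if a = c then t else 0) * (w b + if b = c then t else 0) * γ a b =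
        w a * w b * γ a b + (if a = c then t * (γ c b * w b) else 0) +
        (if b = c then t * (γ a c * w a) else 0) := by
      intro a b
      by_cases ha : a = c <;> by_cases hb : b = c
      · subst ha; subst hb; simp [hγ]
      · subst ha; simp [hb]; ring
      · subst hb; simp [ha]; ring
      · simp [ha, hb]
    simp_rw [e3, Finset.sum_add_distrib]
    have e4 : ∑ a, ∑ b, (if a = c then t * (γ c b * w b) else 0) = t * ∑ b, γ c b * w b := by
      rw [Finset.sum_comm]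
      simp_rw [Finset.sum_ite_eq' Finset.univ c, if_pos (Finset.mem_univ _)]
      rw [Finset.mul_sum]
    have e5 : ∑ a, ∑ b, (if b = c then t * (γ a c * w a) else 0) = t * ∑ b, γ b c * w b := by
      simp_rw [Finset.sum_ite_eq' Finset.univ c, if_pos (Finset.mem_univ _)]
      rw [Finset.mul_sum]
    rw [e4, e5]
    simp_rw [add_mul, Finset.sum_add_distrib]
    ring
  rw [e1, e2]; ring

theorem round_step (α : J → ℝ) {γ : J → J → ℝ} (hγ : ∀ a, γ a a = 0) {w : J → ℝ}
    (hw : ∀ a, 0 ≤ w a ∧ w a ≤ 1) (T : Finset J) :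
    ∃ w' : J → ℝ, (∀ a ∈ T, w' a = 0 ∨ w' a = 1) ∧ (∀ a, w a = 0 → w' a = 0) ∧
      (∀ a, 0 ≤ w' a ∧ w' a ≤ 1) ∧ Gq α γ w' ≤ Gq α γ w := by
  induction T using Finset.induction_on with
  | empty => exact ⟨w, by simp, fun _ h => h, hw, le_rfl⟩
  | insert c T hc ih =>
    obtain ⟨w', h1, h2, h3, h4⟩ := ih
    by_cases hz : w' c = 0
    · refine ⟨w', fun a ha => ?_, h2, h3, h4⟩
      rcases Finset.mem_insert.1 ha with rfl | ha
      · exact Or.inl hz
      · exact h1 a ha
    set H : ℝ := α c + (1/2) * ∑ b, (γ c b + γ b c) * w' b with hH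
    have key : ∀ t : ℝ, (t = - w' c ∨ t = 1 - w' c) → t * H ≤ 0 →
        ∃ w'' : J → ℝ, (∀ a ∈ insert c T, w'' a = 0 ∨ w'' a = 1) ∧ (∀ a, w a = 0 → w'' a = 0) ∧
        (∀ a, 0 ≤ w'' a ∧ w'' a ≤ 1) ∧ Gq α γ w'' ≤ Gq α γ w := by
      intro t ht htH
      have hval : w' c + t = 0 ∨ w' c + t = 1 := by
        rcases ht with rfl | rfl
        · left; ring
        · right; ring
      refine ⟨fun a => w' a + if a = c then t else 0, fun a ha => ?_, fun a ha => ?_, fun a => ?_, ?_⟩
      · by_cases hac : a = c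
        · subst hac; simpa using hval
        · simp only [hac, if_false, add_zero]
          exact h1 a ((Finset.mem_insert.1 ha).resolve_left hac)
      · have hac : a ≠ c := fun h => hz (h ▸ h2 a ha)
        simp only [hac, if_false, add_zero]
        exact h2 a ha
      · by_cases hac : a = c
        · subst hac
          simp only [if_true]
          rcases hval with h | h <;> rw [h] <;> norm_num
        · simp only [hac, if_false, add_zero]
          exact h3 a
      · rw [Gq_update α hγ, ← hH]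
        linarith
    rcases le_total 0 H with hs | hs
    · exact key (-w' c) (Or.inl rfl) (by nlinarith [(h3 c).1])
    · exact key (1 - w' c) (Or.inr rfl) (by nlinarith [(h3 c).2])

theorem rounding (α : J → ℝ) {γ : J → J → ℝ} (hγ : ∀ a, γ a a = 0) {w : J → ℝ}
    (hw : ∀ a, 0 ≤ w a ∧ w a ≤ 1) :
    ∃ S : Finset J, (∀ a ∈ S, w a ≠ 0) ∧
      ∑ a ∈ S, α a + (1/2) * ∑ a ∈ S, ∑ b ∈ S, γ a b ≤ Gq α γ w := by
  obtain ⟨w', h1, h2, h3, h4⟩ := round_step α hγ hw Finset.univ
  have h5 : ∀ a, w' a = if w' a = 1 then 1 else 0 := by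
    intro a
    rcases h1 a (Finset.mem_univ _) with h | h <;> simp [h]
  refine ⟨Finset.univ.filter fun a => w' a = 1, fun a ha h0 => ?_, le_trans (le_of_eq ?_) h4⟩
  · have := (Finset.mem_filter.1 ha).2
    rw [h2 a h0] at this
    norm_num at this
  · unfold Gq
    simp_rw [Finset.sum_filter]
    congr 1
    · refine Finset.sum_congr rfl fun a _ => ?_
      rcases h1 a (Finset.mem_univ _) with h | h <;> simp [h]
    · congr 1
      refine Finset.sum_congr rfl fun a _ => ?_
      rcases h1 a (Finset.mem_univ _) with h | h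
      · simp [h]
      · simp only [h, if_true]
        refine Finset.sum_congr rfl fun b _ => ?_
        rcases h1 b (Finset.mem_univ _) with h | h <;> simp [h]

end rounding

/-! ### shifted periodic configurations -/

/-- uniform distribution of the shifts -/
noncomputable def PT : Measure E3 := (volume : Measure E3).restrict (Qc 1 0 0)

theorem PT_prob : IsProbabilityMeasure PT := by
  constructor
  unfold PT
  rw [Measure.restrict_apply_univ, Qc_vol one_pos]; simp

theorem shift_mem (m : Fin 3 → ℤ) (θ : E3) : lv 1 m + θ ∈ Qc 1 0 m ↔ θ ∈ Qc 1 0 0 := by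
  rw [mem_Qc one_pos, mem_Qc one_pos]
  refine forall_congr' fun i => ?_
  simp only [PiLp.add_apply, lv_apply, one_mul, zero_add, Pi.zero_apply, Int.cast_zero]
  constructor
  · rintro ⟨h1, h2⟩; constructor <;> linarith
  · rintro ⟨h1, h2⟩; constructor <;> linarith

theorem tile_one {F : E3 → ℝ} (m : Fin 3 → ℤ) :
    ∫ θ, F (lv 1 m + θ) ∂PT = ∫ y in Qc 1 0 m, F y := by
  unfold PT
  rw [← integral_indicator (Qc_meas one_pos _), ← integral_indicator (Qc_meas one_pos _),
    ← integral_add_left_eq_self (fun y => (Qc 1 0 m).indicator F y) (lv 1 m)]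
  congr 1; ext θ
  by_cases h : θ ∈ Qc 1 0 0
  · rw [Set.indicator_of_mem h, Set.indicator_of_mem ((shift_mem m θ).2 h)]
  · rw [Set.indicator_of_notMem h, Set.indicator_of_notMem (fun h' => h ((shift_mem m θ).1 h'))]

theorem tile_int {F : E3 → ℝ} (hF : Integrable F) (m : Fin 3 → ℤ) :
    Integrable (fun θ => F (lv 1 m + θ)) PT :=
  (hF.comp_add_left (lv 1 m)).restrict

theorem tile {F : E3 → ℝ} (hF : Integrable F) {B : Finset (Fin 3 → ℤ)}
    (hB : ∀ y, F y ≠ 0 → ci 1 0 y ∈ B) : ∑ m ∈ B, ∫ θ, F (lv 1 m + θ) ∂PT = ∫ y, F y := by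
  classical
  simp_rw [tile_one]
  have e : ∀ q, ∫ x in Qc 1 0 q, F x = ∫ x, (Qc 1 0 q).indicator F x := fun q =>
    (integral_indicator (Qc_meas one_pos q)).symm
  simp_rw [e]
  rw [← integral_finsetSum _ fun q _ => hF.indicator (Qc_meas one_pos q)]
  congr 1; ext x
  have h1 : ∀ q, (Qc 1 0 q).indicator F x = if q = ci 1 0 x then F x else 0 := by
    intro q
    by_cases hq : q = ci 1 0 x
    · rw [if_pos hq, Set.indicator_of_mem]; exact hq.symm
    · rw [if_neg hq, Set.indicator_of_notMem]; exact fun h => hq h.symm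
  simp only [h1]
  rw [Finset.sum_ite_eq']
  split_ifs with h
  · rfl
  · by_contra hne
    exact h (hB x (Ne.symm hne))

/-- positions of the points -/
noncomputable def pos {ν : ℕ} (Rc : Fin ν → E3) (ℓ s : ℝ) {B : Finset (Fin 3 → ℤ)} (θ : E3)
    (a : Fin ν × B) : E3 := s • (Rc a.1 + ℓ • (lv 1 (a.2 : Fin 3 → ℤ) + θ))

theorem integral_affine {c : ℝ} (hc : 0 < c) (v : E3) (F : E3 → ℝ) :
    ∫ y, F (v + c • y) = (c ^ 3)⁻¹ * ∫ y, F y := by
  rw [Measure.integral_comp_smul volume (fun y => F (v + y)) c, integral_add_left_eq_self]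
  simp [abs_of_pos hc]

theorem affine_int {c : ℝ} (hc : 0 < c) (v : E3) {F : E3 → ℝ} (hF : Integrable F) :
    Integrable fun y => F (v + c • y) := by
  have h1 : Integrable fun y => F (v + y) := hF.comp_add_left v
  exact h1.comp_smul hc.ne'

theorem pos_eq {ν : ℕ} (Rc : Fin ν → E3) (ℓ s : ℝ) {B : Finset (Fin 3 → ℤ)} (θ : E3)
    (a : Fin ν × B) : pos Rc ℓ s θ a = s • Rc a.1 + (s * ℓ) • (lv 1 (a.2 : Fin 3 → ℤ) + θ) := by
  unfold pos
  rw [smul_add, smul_smul]

theorem pos_cont {ν : ℕ} (Rc : Fin ν → E3) (ℓ s : ℝ) {B : Finset (Fin 3 → ℤ)} (a : Fin ν × B) :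
    Continuous fun θ => pos Rc ℓ s θ a := by
  unfold pos
  exact (continuous_const.add ((continuous_const.add continuous_id).const_smul ℓ)).const_smul s

theorem mean_one {ν : ℕ} {Rc : Fin ν → E3} {ℓ s : ℝ} (hℓ : 0 < ℓ) (hs : 0 < s)
    {B : Finset (Fin 3 → ℤ)} {F : E3 → ℝ} (hF : Integrable F) (a : Fin ν × B) :
    Integrable (fun θ => F (pos Rc ℓ s θ a)) PT := by
  simp_rw [pos_eq]
  exact tile_int (F := fun y => F (s • Rc a.1 + (s * ℓ) • y)) (affine_int (mul_pos hs hℓ) _ hF) _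

/-- first moment -/
theorem mean_lin {ν : ℕ} {Rc : Fin ν → E3} {ℓ s : ℝ} (hℓ : 0 < ℓ) (hs : 0 < s)
    {B : Finset (Fin 3 → ℤ)} {F : E3 → ℝ} (hF : Integrable F)
    (hB : ∀ j y, F (s • Rc j + (s * ℓ) • y) ≠ 0 → ci 1 0 y ∈ B) :
    (∀ j, ∑ m : B, ∫ θ, F (pos Rc ℓ s θ (j, m)) ∂PT = ((s * ℓ) ^ 3)⁻¹ * ∫ y, F y) ∧
    ∑ a : Fin ν × B, ∫ θ, F (pos Rc ℓ s θ a) ∂PT = ν * (((s * ℓ) ^ 3)⁻¹ * ∫ y, F y) := by
  have h1 : ∀ j, ∑ m : B, ∫ θ, F (pos Rc ℓ s θ (j, m)) ∂PT = ((s * ℓ) ^ 3)⁻¹ * ∫ y, F y := by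
    intro j
    have e0 : ∀ m : B, ∫ θ, F (pos Rc ℓ s θ (j, m)) ∂PT =
        ∫ θ, F (s • Rc j + (s * ℓ) • (lv 1 (m : Fin 3 → ℤ) + θ)) ∂PT := by
      intro m
      congr 1; ext θ; rw [pos_eq]
    rw [Finset.sum_congr rfl fun m _ => e0 m]
    rw [Finset.sum_coe_sort B (fun m => ∫ θ, F (s • Rc j + (s * ℓ) • (lv 1 m + θ)) ∂PT)]
    have h2 := tile (F := fun y => F (s • Rc j + (s * ℓ) • y)) (B := B)
      (affine_int (mul_pos hs hℓ) _ hF) (hB j)
    rw [h2, integral_affine (mul_pos hs hℓ)]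
  refine ⟨h1, ?_⟩
  rw [Fintype.sum_prod_type]
  simp_rw [h1]
  simp

end Pool.Agent.Helper985.BM
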