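import Pool.Agent.Helper985.BM.C1
import Pool.Agent.Helper985.BM.U1

set_option autoImplicit false

open MeasureTheory Filter Topology Set

namespace Pool.Agent.Helper985.BM

open VR

theorem Ck_nonneg (x : E3) : 0 ≤ Ck x := by unfold Ck; positivity

theorem Ck_meas : Measurable Ck := by unfold Ck; exact measurable_norm.const_div 1

theorem Ck_neg (x : E3) : Ck (-x) = Ck x := by unfold Ck; rw [norm_neg]

theorem Ck_le (x : E3) : Ck x ≤ 3 * Yk x + 1 := by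
  by_cases hx : x = 0
  · subst hx; rw [Ck_zero, Yk_zero]; norm_num
  have h0 : 0 < ‖x‖ := norm_pos_iff.2 hx
  unfold Ck Yk
  rcases le_total ‖x‖ 1 with h | h
  · have h1 : 1 ≤ 3 * Real.exp (-‖x‖) := by
      have h2 : Real.exp (-1) ≤ Real.exp (-‖x‖) := Real.exp_le_exp.2 (by linarith)
      have h3 : (1:ℝ) / 3 ≤ Real.exp (-1) := by
        rw [Real.exp_neg, one_div]
        exact inv_anti₀ (Real.exp_pos 1) (by have := Real.exp_one_lt_d9; linarith)
      linarith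
    have h4 : 1 / ‖x‖ ≤ 3 * (Real.exp (-‖x‖) / ‖x‖) := by
      rw [← mul_div_assoc]
      exact div_le_div_of_nonneg_right h1 h0.le
    linarith
  · have h1 : 1 / ‖x‖ ≤ 1 := by rw [div_le_one h0]; exact h
    have h2 : 0 ≤ Real.exp (-‖x‖) / ‖x‖ := by positivity
    linarith

/-- potentials of bounded integrable functions -/
theorem Ck_conv {g : E3 → ℝ} (hg : Integrable g) (hgm : Measurable g) {M : ℝ}
    (hM : ∀ y, |g y| ≤ M) (x : E3) : Integrable (fun y => Ck (x - y) * g y) ∧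
      |∫ y, Ck (x - y) * g y| ≤ 3 * M * c3 + ∫ y, |g y| := by
  have hM0 : 0 ≤ M := (abs_nonneg _).trans (hM 0)
  have hY : Integrable fun y => Yk (x - y) := Yk_int.comp_sub_left x
  have hd : Integrable fun y => 3 * M * Yk (x - y) + |g y| := (hY.const_mul _).add hg.abs
  have hb : ∀ y, ‖Ck (x - y) * g y‖ ≤ 3 * M * Yk (x - y) + |g y| := by
    intro y
    rw [norm_mul, Real.norm_eq_abs, Real.norm_eq_abs, abs_of_nonneg (Ck_nonneg _)]
    have h1 := Ck_le (x - y)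
    have h2 := abs_nonneg (g y)
    have h3 := Yk_nonneg (x - y)
    have h4 := hM y
    calc Ck (x - y) * |g y| ≤ (3 * Yk (x - y) + 1) * |g y| := mul_le_mul_of_nonneg_right h1 h2
      _ = 3 * Yk (x - y) * |g y| + |g y| := by ring
      _ ≤ 3 * Yk (x - y) * M + |g y| := by gcongr
      _ = _ := by ring
  have hm : Measurable fun y => Ck (x - y) * g y := (Ck_meas.comp (measurable_const.sub measurable_id)).mul hgm
  refine ⟨hd.mono' hm.aestronglyMeasurable (Eventually.of_forall hb), ?_⟩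
  refine (norm_integral_le_of_norm_le hd (Eventually.of_forall hb)).trans (le_of_eq ?_)
  rw [integral_add (hY.const_mul _) hg.abs, integral_const_mul, int_sub_left', Yk_integral]

/-- Coulomb kernel with a constant added -/
noncomputable def Kη (η : ℝ) (x : E3) : ℝ := Ck x + η

theorem Kη_nonneg {η : ℝ} (hη : 0 ≤ η) (x : E3) : 0 ≤ Kη η x := add_nonneg (Ck_nonneg x) hη

theorem Kη_meas (η : ℝ) : Measurable (Kη η) := Ck_meas.add_const η

theorem Kη_conv {g : E3 → ℝ} (hg : Integrable g) (hgm : Measurable g) {M : ℝ}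
    (hM : ∀ y, |g y| ≤ M) (η : ℝ) (x : E3) : Integrable (fun y => Kη η (x - y) * g y) ∧
      ∫ y, Kη η (x - y) * g y = (∫ y, Ck (x - y) * g y) + η * ∫ y, g y := by
  have h := (Ck_conv hg hgm hM x).1
  have e : ∀ y, Kη η (x - y) * g y = Ck (x - y) * g y + η * g y := fun y => by unfold Kη; ring
  simp_rw [e]
  exact ⟨h.add (hg.const_mul η), by rw [integral_add h (hg.const_mul η), integral_const_mul]⟩

/-- potential -/
noncomputable def Up (f : E3 → ℝ) (x : E3) : ℝ := ∫ y, Ck (x - y) * f y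

theorem Up_meas {g : E3 → ℝ} (hgm : Measurable g) : Measurable (Up g) := by
  have : Measurable fun p : E3 × E3 => Ck (p.1 - p.2) * g p.2 :=
    (Ck_meas.comp (measurable_fst.sub measurable_snd)).mul (hgm.comp measurable_snd)
  exact this.stronglyMeasurable.integral_prod_right.measurable

/-- second moment for independent shifts -/
theorem mean_pair {ν : ℕ} {Rc : Fin ν → E3} {ℓ s s' : ℝ} (hℓ : 0 < ℓ) (hs : 0 < s) (hs' : 0 < s')
    {B : Finset (Fin 3 → ℤ)} {q q' : E3 → ℝ} (hqm : Measurable q) (hq : Integrable q)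
    (hq0 : ∀ x, 0 ≤ q x) (hq'm : Measurable q') (hq' : Integrable q')
    (hq'0 : ∀ x, 0 ≤ q' x) (hq'1 : ∀ x, q' x ≤ 1)
    (hB : ∀ j y, q (s • Rc j + (s * ℓ) • y) ≠ 0 → ci 1 0 y ∈ B)
    (hB' : ∀ j y, q' (s' • Rc j + (s' * ℓ) • y) ≠ 0 → ci 1 0 y ∈ B) {η : ℝ} (hη : 0 ≤ η) :
    Integrable (fun p : E3 × E3 => ∑ a : Fin ν × B, ∑ b : Fin ν × B, q (pos Rc ℓ s p.1 a) *
      q' (pos Rc ℓ s' p.2 b) * Kη η (pos Rc ℓ s p.1 a - pos Rc ℓ s' p.2 b)) (PT.prod PT) ∧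
    ∫ p, (∑ a : Fin ν × B, ∑ b : Fin ν × B, q (pos Rc ℓ s p.1 a) *
      q' (pos Rc ℓ s' p.2 b) * Kη η (pos Rc ℓ s p.1 a - pos Rc ℓ s' p.2 b)) ∂(PT.prod PT) =
      (ν * ((s * ℓ) ^ 3)⁻¹) * (ν * ((s' * ℓ) ^ 3)⁻¹) * ∫ x, q x * ∫ y, Kη η (x - y) * q' y := by
  haveI := PT_prob
  have hq'abs : ∀ y, |q' y| ≤ 1 := fun y => by rw [abs_of_nonneg (hq'0 y)]; exact hq'1 y
  set Ψ : E3 → ℝ := fun x => ∫ y, Kη η (x - y) * q' y with hΨ
  have hΨi : ∀ x, Integrable fun y => Kη η (x - y) * q' y := fun x => (Kη_conv hq' hq'm hq'abs η x).1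
  have hΨ0 : ∀ x, 0 ≤ Ψ x := fun x => integral_nonneg fun y => mul_nonneg (Kη_nonneg hη _) (hq'0 y)
  have hΨm : Measurable Ψ := by
    have : Measurable fun p : E3 × E3 => Kη η (p.1 - p.2) * q' p.2 :=
      ((Kη_meas η).comp (measurable_fst.sub measurable_snd)).mul (hq'm.comp measurable_snd)
    exact this.stronglyMeasurable.integral_prod_right.measurable
  have hΨb : ∀ x, ‖Ψ x‖ ≤ 3 * 1 * c3 + (∫ y, |q' y|) + η * ∫ y, q' y := by
    intro x
    rw [Real.norm_eq_abs, abs_of_nonneg (hΨ0 x)]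
    show ∫ y, Kη η (x - y) * q' y ≤ _
    rw [(Kη_conv hq' hq'm hq'abs η x).2]
    have := (le_abs_self _).trans (Ck_conv hq' hq'm hq'abs x).2
    linarith
  have hqΨ : Integrable fun x => q x * Ψ x := hq.mul_bdd (c := 3 * 1 * c3 + (∫ y, |q' y|) + η * ∫ y, q' y)
    hΨm.aestronglyMeasurable (Eventually.of_forall hΨb)
  have hH0 : ∀ p : E3 × E3, 0 ≤ ∑ a : Fin ν × B, ∑ b : Fin ν × B, q (pos Rc ℓ s p.1 a) *
      q' (pos Rc ℓ s' p.2 b) * Kη η (pos Rc ℓ s p.1 a - pos Rc ℓ s' p.2 b) := fun p =>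
    Finset.sum_nonneg fun a _ => Finset.sum_nonneg fun b _ =>
      mul_nonneg (mul_nonneg (hq0 _) (hq'0 _)) (Kη_nonneg hη _)
  have hHm : Measurable (fun p : E3 × E3 => ∑ a : Fin ν × B, ∑ b : Fin ν × B, q (pos Rc ℓ s p.1 a) *
      q' (pos Rc ℓ s' p.2 b) * Kη η (pos Rc ℓ s p.1 a - pos Rc ℓ s' p.2 b)) := by
    refine Finset.measurable_fun_sum _ fun a _ => Finset.measurable_fun_sum _ fun b _ => ?_
    have m1 : Measurable fun p : E3 × E3 => pos Rc ℓ s p.1 a := (pos_cont Rc ℓ s a).measurable.comp measurable_fst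
    have m2 : Measurable fun p : E3 × E3 => pos Rc ℓ s' p.2 b := (pos_cont Rc ℓ s' b).measurable.comp measurable_snd
    exact ((hqm.comp m1).mul (hq'm.comp m2)).mul ((Kη_meas η).comp (m1.sub m2))
  -- inner integral
  have hin : ∀ x, (∀ b : Fin ν × B, Integrable (fun θ' => q' (pos Rc ℓ s' θ' b) * Kη η (x - pos Rc ℓ s' θ' b)) PT) ∧
      ∑ b : Fin ν × B, ∫ θ', q' (pos Rc ℓ s' θ' b) * Kη η (x - pos Rc ℓ s' θ' b) ∂PT =
      (ν * ((s' * ℓ) ^ 3)⁻¹) * Ψ x := by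
    intro x
    have hF : Integrable fun y => q' y * Kη η (x - y) := by
      refine (hΨi x).congr (Eventually.of_forall fun y => ?_)
      exact mul_comm _ _
    refine ⟨fun b => mean_one (F := fun y => q' y * Kη η (x - y)) hℓ hs' hF b, ?_⟩
    rw [(mean_lin (F := fun y => q' y * Kη η (x - y)) hℓ hs' hF (fun j y hy => hB' j y (left_ne_zero_of_mul hy))).2]
    rw [hΨ, mul_assoc]
    congr 2
    congr 1; ext y; ring
  have hinner : ∀ θ, Integrable (fun θ' => ∑ a : Fin ν × B, ∑ b : Fin ν × B, q (pos Rc ℓ s θ a) *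
      q' (pos Rc ℓ s' θ' b) * Kη η (pos Rc ℓ s θ a - pos Rc ℓ s' θ' b)) PT ∧
      ∫ θ', (∑ a : Fin ν × B, ∑ b : Fin ν × B, q (pos Rc ℓ s θ a) *
      q' (pos Rc ℓ s' θ' b) * Kη η (pos Rc ℓ s θ a - pos Rc ℓ s' θ' b)) ∂PT =
      ∑ a : Fin ν × B, (ν * ((s' * ℓ) ^ 3)⁻¹) * (q (pos Rc ℓ s θ a) * Ψ (pos Rc ℓ s θ a)) := by
    intro θ
    have hi : ∀ a b : Fin ν × B, Integrable (fun θ' => q (pos Rc ℓ s θ a) *
      q' (pos Rc ℓ s' θ' b) * Kη η (pos Rc ℓ s θ a - pos Rc ℓ s' θ' b)) PT := by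
      intro a b
      simp_rw [mul_assoc]
      exact ((hin _).1 b).const_mul _
    refine ⟨integrable_finsetSum _ fun a _ => integrable_finsetSum _ fun b _ => hi a b, ?_⟩
    rw [integral_finsetSum _ fun a _ => integrable_finsetSum _ fun b _ => hi a b]
    refine Finset.sum_congr rfl fun a _ => ?_
    rw [integral_finsetSum _ fun b _ => hi a b]
    simp_rw [mul_assoc (q (pos Rc ℓ s θ a)), integral_const_mul]
    rw [← Finset.mul_sum, (hin _).2]; ring
  have hout : ∀ a : Fin ν × B, Integrable (fun θ => q (pos Rc ℓ s θ a) * Ψ (pos Rc ℓ s θ a)) PT := fun a =>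
    mean_one (F := fun x => q x * Ψ x) hℓ hs hqΨ a
  have hint : Integrable (fun p : E3 × E3 => ∑ a : Fin ν × B, ∑ b : Fin ν × B, q (pos Rc ℓ s p.1 a) *
      q' (pos Rc ℓ s' p.2 b) * Kη η (pos Rc ℓ s p.1 a - pos Rc ℓ s' p.2 b)) (PT.prod PT) := by
    rw [integrable_prod_iff hHm.aestronglyMeasurable]
    refine ⟨Eventually.of_forall fun θ => (hinner θ).1, ?_⟩
    have e : ∀ θ, ∫ θ', ‖∑ a : Fin ν × B, ∑ b : Fin ν × B, q (pos Rc ℓ s θ a) *
      q' (pos Rc ℓ s' θ' b) * Kη η (pos Rc ℓ s θ a - pos Rc ℓ s' θ' b)‖ ∂PT =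
        ∑ a : Fin ν × B, (ν * ((s' * ℓ) ^ 3)⁻¹) * (q (pos Rc ℓ s θ a) * Ψ (pos Rc ℓ s θ a)) := by
      intro θ
      rw [← (hinner θ).2]
      congr 1; ext θ'
      rw [Real.norm_eq_abs, abs_of_nonneg (hH0 (θ, θ'))]
    simp_rw [e]
    exact integrable_finsetSum _ fun a _ => (hout a).const_mul _
  refine ⟨hint, ?_⟩
  rw [integral_prod _ hint]
  simp_rw [fun θ => (hinner θ).2]
  rw [integral_finsetSum _ fun a _ => (hout a).const_mul _]
  simp_rw [integral_const_mul]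
  rw [← Finset.mul_sum, (mean_lin (F := fun x => q x * Ψ x) hℓ hs hqΨ
    (fun j y hy => hB j y (left_ne_zero_of_mul hy))).2]
  ring

end Pool.Agent.Helper985.BM
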