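import Pool.Agent.Helper985.BM.L2
import Pool.Agent.Helper985.BM.U2

set_option autoImplicit false

open MeasureTheory Filter Topology Set
open scoped ContDiff

namespace Pool.Agent.Helper985.BM

open VR

variable {n : ℕ}

/-- Coulomb singularities are controlled by the kinetic energy -/
theorem hardy_E3 {v : E3 → ℝ} (hv : SC v) (a : E3) : Integrable (fun x => Ck (x - a) * v x ^ 2) ∧
    ∫ x, Ck (x - a) * v x ^ 2 ≤ 7 * N2 v + N2 (gn v) := by
  have hc2 : Continuous fun x => v x ^ 2 := hv.sm.continuous.pow 2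
  have hs2 : HasCompactSupport fun x => v x ^ 2 := sq_cc hv.cc
  have hY := Yv_int hc2 hs2 a
  have hV := Vv_int hc2 hs2 a
  have hi2 : Integrable fun x => v x ^ 2 := hc2.integrable_of_hasCompactSupport hs2
  have hm : Measurable fun x => Ck (x - a) * v x ^ 2 :=
    (Ck_meas.comp (measurable_id.sub measurable_const)).mul hc2.measurable
  have hdom : Integrable fun x => 3 * (Yk (x - a) * v x ^ 2) + v x ^ 2 := (hY.const_mul 3).add hi2
  have hint : Integrable fun x => Ck (x - a) * v x ^ 2 := by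
    refine hdom.mono' hm.aestronglyMeasurable (Eventually.of_forall fun x => ?_)
    rw [Real.norm_eq_abs, abs_of_nonneg (mul_nonneg (Ck_nonneg _) (sq_nonneg _))]
    have := mul_le_mul_of_nonneg_right (Ck_le (x - a)) (sq_nonneg (v x))
    linarith
  refine ⟨hint, ?_⟩
  have h1 : ∫ x, Ck (x - a) * v x ^ 2 ≤ ∫ x, (Yk (x - a) * v x ^ 2 + v x ^ 2) := by
    refine integral_mono_ae hint (hY.add hi2) ?_
    have hne : ∀ᵐ x : E3, x ≠ a := by
      rw [ae_iff]; simp
    filter_upwards [hne] with x hx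
    rw [Ck_eq (sub_ne_zero.2 hx)]
    have := mul_le_mul_of_nonneg_right (Wk_le_one (x - a)) (sq_nonneg (v x))
    linarith
  rw [integral_add hY hi2] at h1
  have h2 : ∫ x, Yk (x - a) * v x ^ 2 = (∫ x, (Yk (x - a) - Vk (x - a)) * v x ^ 2) +
      ∫ x, Vk (x - a) * v x ^ 2 := by
    have e : ∀ x, (Yk (x - a) - Vk (x - a)) * v x ^ 2 = Yk (x - a) * v x ^ 2 - Vk (x - a) * v x ^ 2 :=
      fun x => by ring
    simp_rw [e]
    rw [integral_sub hY hV]; ring
  have h3 := (le_abs_self _).trans (sing_bd hv.sm hv.cc a)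
  have hgc := gn_cont hv.sm
  have h4 : ∫ x, ek 4 (x - a) * (|v x| * gn v x) ≤ (1/2) * (N2 v + N2 (gn v)) := by
    have hgi : Integrable fun x => |v x| * gn v x :=
      (hv.sm.continuous.abs.mul hgc).integrable_of_hasCompactSupport (abs_cc hv.cc).mul_right
    have hL := gn_L2 hv.sm hv.cc
    have e : (1/2) * (N2 v + N2 (gn v)) = ∫ x, (1/2) * (v x ^ 2 + gn v x ^ 2) := by
      rw [integral_const_mul, integral_add hi2 hL.2]; rfl
    rw [e]
    refine integral_mono_of_nonneg (Eventually.of_forall fun x => mul_nonneg (ek_pos _ _).le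
      (mul_nonneg (abs_nonneg _) (gn_nonneg _ _))) ((hi2.add hL.2).const_mul _)
      (Eventually.of_forall fun x => ?_)
    show ek 4 (x - a) * (|v x| * gn v x) ≤ (1/2) * (v x ^ 2 + gn v x ^ 2)
    have a1 : ek 4 (x - a) * (|v x| * gn v x) ≤ |v x| * gn v x :=
      mul_le_of_le_one_left (mul_nonneg (abs_nonneg _) (gn_nonneg _ _)) (ek_le_one (by norm_num) _)
    nlinarith [sq_nonneg (|v x| - gn v x), sq_abs (v x)]
  have h5 : ∫ x, Vk (x - a) * v x ^ 2 ≤ 5 * N2 v := by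
    unfold N2
    rw [← integral_const_mul]
    refine integral_mono hV (hi2.const_mul 5) fun x => ?_
    exact mul_le_mul_of_nonneg_right (Vk_le5 _) (sq_nonneg _)
  have h6 : ∫ x, v x ^ 2 = N2 v := rfl
  have h7 := N2_nonneg v
  have h8 := N2_nonneg (gn v)
  linarith

/-- the singularity `1/|x_i - c(rest)|` -/
noncomputable def Sg (i : Fin (n + 1)) (c : Cf n → E3) (x : Cf (n + 1)) : ℝ := Ck (x i - c (rst i x))

theorem Sg_nonneg (i : Fin (n + 1)) (c : Cf n → E3) (x : Cf (n + 1)) : 0 ≤ Sg i c x := Ck_nonneg _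

theorem Sg_meas (i : Fin (n + 1)) {c : Cf n → E3} (hc : Measurable c) : Measurable (Sg i c) :=
  Ck_meas.comp ((measurable_pi_apply i).sub (hc.comp (rst_meas i)))

theorem hardy_SC {u : Cf (n + 1) → ℝ} (hu : SC u) (i : Fin (n + 1)) {c : Cf n → E3}
    (hc : Measurable c) : Integrable (fun x => Sg i c x * u x ^ 2) ∧
    ∫ x, Sg i c x * u x ^ 2 ≤ 7 * N2 u + TT u := by
  have hc2 : Continuous fun x => u x ^ 2 := hu.sm.continuous.pow 2
  have hs2 : HasCompactSupport fun x => u x ^ 2 := sq_cc hu.cc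
  have hY : Integrable fun x : Cf (n + 1) => Yk (x i - c (rst i x)) * u x ^ 2 :=
    two_int Yk_meas Yk_int i hc hc2 hs2
  have hm : Measurable fun x => Sg i c x * u x ^ 2 := (Sg_meas i hc).mul hc2.measurable
  have hint : Integrable fun x => Sg i c x * u x ^ 2 := by
    refine ((hY.const_mul 3).add hu.sq_int).mono' hm.aestronglyMeasurable (Eventually.of_forall fun x => ?_)
    rw [Real.norm_eq_abs, abs_of_nonneg (mul_nonneg (Sg_nonneg _ _ _) (sq_nonneg _))]
    have := mul_le_mul_of_nonneg_right (Ck_le (x i - c (rst i x))) (sq_nonneg (u x))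
    show Ck (x i - c (rst i x)) * u x ^ 2 ≤ 3 * (Yk (x i - c (rst i x)) * u x ^ 2) + u x ^ 2
    linarith
  refine ⟨hint, ?_⟩
  rw [integral_sl i hint]
  have hL := gni_L2 hu i
  have h1 : ∫ y : Cf n, ∫ a, Sg i c (ins i a y) * u (ins i a y) ^ 2 ≤
      ∫ y : Cf n, ∫ a, (7 * u (ins i a y) ^ 2 + gni i u (ins i a y) ^ 2) := by
    have hR : Integrable fun x => 7 * u x ^ 2 + gni i u x ^ 2 := (hu.sq_int.const_mul 7).add hL.2
    refine integral_mono (sl_int_y hint) (sl_int_y hR) fun y => ?_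
    have hv := hu.slice i y
    have h2 := (hardy_E3 hv (c y)).2
    have e1 : ∫ a, Sg i c (ins i a y) * u (ins i a y) ^ 2 =
        ∫ a, Ck (a - c y) * (fun a => u (ins i a y)) a ^ 2 := by
      congr 1; ext a
      unfold Sg
      rw [rst_ins, ins_same]
    have e2 : ∫ a, (7 * u (ins i a y) ^ 2 + gni i u (ins i a y) ^ 2) =
        7 * N2 (fun a => u (ins i a y)) + N2 (gn fun a => u (ins i a y)) := by
      unfold N2
      simp_rw [gni_slice hu]
      have i1 : Integrable fun a => u (ins i a y) ^ 2 :=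
        (hv.sm.continuous.pow 2).integrable_of_hasCompactSupport (sq_cc hv.cc)
      have i2 : Integrable fun a => gni i u (ins i a y) ^ 2 := by
        have := (gn_L2 hv.sm hv.cc).2
        simpa only [gni_slice hu] using this
      rw [integral_add (i1.const_mul 7) i2, integral_const_mul]
    show ∫ a, Sg i c (ins i a y) * u (ins i a y) ^ 2 ≤ ∫ a, (7 * u (ins i a y) ^ 2 + gni i u (ins i a y) ^ 2)
    rw [e1, e2]
    exact h2
  refine h1.trans ?_
  rw [← integral_sl i (f := fun x => 7 * u x ^ 2 + gni i u x ^ 2) ((hu.sq_int.const_mul 7).add hL.2),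
    integral_add (hu.sq_int.const_mul 7) hL.2, integral_const_mul]
  have h3 : ∫ x, gni i u x ^ 2 = Ti i u := gni_N2 hu i
  have h4 : Ti i u ≤ TT u := Finset.single_le_sum (f := fun i => Ti i u) (fun i _ => Ti_nonneg i u)
    (Finset.mem_univ i)
  have h5 : ∫ x, u x ^ 2 = N2 u := rfl
  rw [h3, h5]
  linarith

theorem Kn_eq_TT (u : Cf n → ℝ) : (Kn fun (p : Fin n × Fin 3) x => fderiv ℝ u x (dir p)) = TT u := by
  unfold Kn TT Ti
  rw [Fintype.sum_prod_type]

/-- extension to `H1` -/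
theorem hardy_H1 {f : Cf (n + 1) → ℝ} {g : Fin (n + 1) × Fin 3 → Cf (n + 1) → ℝ} (hf : H1 dir f g)
    (i : Fin (n + 1)) {c : Cf n → E3} (hc : Measurable c) :
    Integrable (fun x => Sg i c x * f x ^ 2) ∧ ∫ x, Sg i c x * f x ^ 2 ≤ 7 * N2 f + Kn g := by
  choose w w1 w2 w3 w4 using fun j : ℕ => hf.cc_approx (ε := 1 / ((j:ℝ) + 1)) Nat.one_div_pos_of_nat
  have hH : ∀ j, H1 dir (w j) fun p x => fderiv ℝ (w j) x (dir p) := fun j => H1.of_smooth (w1 j) (w2 j)
  have t1 : Tendsto (fun j => N2 (fun x => w j x - f x)) atTop (𝓝 0) :=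
    squeeze_zero (fun j => N2_nonneg _) (fun j => (w3 j).le)
      (tendsto_one_div_add_atTop_nhds_zero_nat (𝕜 := ℝ))
  have t2 : ∀ p, Tendsto (fun j => N2 (fun x => fderiv ℝ (w j) x (dir p) - g p x)) atTop (𝓝 0) :=
    fun p => squeeze_zero (fun j => N2_nonneg _) (fun j => (w4 j p).le)
      (tendsto_one_div_add_atTop_nhds_zero_nat (𝕜 := ℝ))
  obtain ⟨σ, hσ, hae⟩ := exists_ae_subseq (fun j => (hH j).1) hf.1 t1
  have t3 : Tendsto (fun j => TT (w j)) atTop (𝓝 (Kn g)) := by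
    have : Tendsto (fun j => Kn fun (p : Fin (n + 1) × Fin 3) x => fderiv ℝ (w j) x (dir p)) atTop (𝓝 (Kn g)) :=
      tendsto_finsetSum _ fun p _ => tendsto_N2 (fun j => (hH j).2.1 p) (hf.2.1 p) (t2 p)
    simpa only [Kn_eq_TT] using this
  have t4 : Tendsto (fun j => N2 (w j)) atTop (𝓝 (N2 f)) := tendsto_N2 (fun j => (hH j).1) hf.1 t1
  have t5 : Tendsto (fun j => 7 * N2 (w (σ j)) + TT (w (σ j))) atTop (𝓝 (7 * N2 f + Kn g)) :=
    ((t4.comp hσ.tendsto_atTop).const_mul 7).add (t3.comp hσ.tendsto_atTop)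
  have hSC : ∀ j, SC (w j) := fun j => ⟨w1 j, w2 j⟩
  have hb0 : 0 ≤ 7 * N2 f + Kn g := add_nonneg (mul_nonneg (by norm_num) (N2_nonneg f)) (Kn_nn g)
  -- Fatou
  have hF : ∫⁻ x, ENNReal.ofReal (Sg i c x * f x ^ 2) ≤ ENNReal.ofReal (7 * N2 f + Kn g) := by
    have e3 : ∫⁻ x, ENNReal.ofReal (Sg i c x * f x ^ 2) =
        ∫⁻ x, liminf (fun j => ENNReal.ofReal (Sg i c x * w (σ j) x ^ 2)) atTop := by
      refine lintegral_congr_ae ?_
      filter_upwards [hae] with x hx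
      exact ((ENNReal.tendsto_ofReal ((hx.pow 2).const_mul _)).liminf_eq).symm
    rw [e3]
    have hm : ∀ j, Measurable fun x => ENNReal.ofReal (Sg i c x * w (σ j) x ^ 2) := fun j =>
      ENNReal.measurable_ofReal.comp ((Sg_meas i hc).mul ((hH (σ j)).1.1.pow_const 2))
    refine (lintegral_liminf_le hm).trans ?_
    rw [← (ENNReal.tendsto_ofReal t5).liminf_eq]
    refine liminf_le_liminf (Eventually.of_forall fun j => ?_)
    obtain ⟨h1, h2⟩ := hardy_SC (hSC (σ j)) i hc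
    show ∫⁻ x, ENNReal.ofReal (Sg i c x * w (σ j) x ^ 2) ≤ ENNReal.ofReal (7 * N2 (w (σ j)) + TT (w (σ j)))
    rw [← ofReal_integral_eq_lintegral_ofReal h1
      (Eventually.of_forall fun x => mul_nonneg (Sg_nonneg i c x) (sq_nonneg _))]
    exact ENNReal.ofReal_le_ofReal h2
  have hm : Measurable fun x => Sg i c x * f x ^ 2 := (Sg_meas i hc).mul (hf.1.1.pow_const 2)
  have hnn : ∀ x, 0 ≤ Sg i c x * f x ^ 2 := fun x => mul_nonneg (Sg_nonneg i c x) (sq_nonneg _)
  have hint : Integrable fun x => Sg i c x * f x ^ 2 := by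
    refine ⟨hm.aestronglyMeasurable, ?_⟩
    rw [hasFiniteIntegral_iff_ofReal (Eventually.of_forall hnn)]
    exact lt_of_le_of_lt hF ENNReal.ofReal_lt_top
  refine ⟨hint, ?_⟩
  rw [← ofReal_integral_eq_lintegral_ofReal hint (Eventually.of_forall hnn)] at hF
  exact (ENNReal.ofReal_le_ofReal_iff hb0).1 hF

/-- approximation of all terms of the energy -/
theorem approx_H1 {f : Cf (n + 1) → ℝ} {g : Fin (n + 1) × Fin 3 → Cf (n + 1) → ℝ} (hf : H1 dir f g) :
    ∃ w : ℕ → Cf (n + 1) → ℝ, (∀ j, SC (w j)) ∧ Tendsto (fun j => N2 (w j)) atTop (𝓝 (N2 f)) ∧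
      Tendsto (fun j => TT (w j)) atTop (𝓝 (Kn g)) ∧
      ∀ (i : Fin (n + 1)) (c : Cf n → E3), Measurable c →
        Tendsto (fun j => ∫ x, Sg i c x * w j x ^ 2) atTop (𝓝 (∫ x, Sg i c x * f x ^ 2)) := by
  choose w w1 w2 w3 w4 using fun j : ℕ => hf.cc_approx (ε := 1 / ((j:ℝ) + 1)) Nat.one_div_pos_of_nat
  have hH : ∀ j, H1 dir (w j) fun p x => fderiv ℝ (w j) x (dir p) := fun j => H1.of_smooth (w1 j) (w2 j)
  have t1 : Tendsto (fun j => N2 (fun x => w j x - f x)) atTop (𝓝 0) :=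
    squeeze_zero (fun j => N2_nonneg _) (fun j => (w3 j).le)
      (tendsto_one_div_add_atTop_nhds_zero_nat (𝕜 := ℝ))
  have t2 : ∀ p, Tendsto (fun j => N2 (fun x => fderiv ℝ (w j) x (dir p) - g p x)) atTop (𝓝 0) :=
    fun p => squeeze_zero (fun j => N2_nonneg _) (fun j => (w4 j p).le)
      (tendsto_one_div_add_atTop_nhds_zero_nat (𝕜 := ℝ))
  have t3 : Tendsto (fun j => TT (w j)) atTop (𝓝 (Kn g)) := by
    have : Tendsto (fun j => Kn fun (p : Fin (n + 1) × Fin 3) x => fderiv ℝ (w j) x (dir p)) atTop (𝓝 (Kn g)) :=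
      tendsto_finsetSum _ fun p _ => tendsto_N2 (fun j => (hH j).2.1 p) (hf.2.1 p) (t2 p)
    simpa only [Kn_eq_TT] using this
  have t4 : Tendsto (fun j => N2 (w j)) atTop (𝓝 (N2 f)) := tendsto_N2 (fun j => (hH j).1) hf.1 t1
  refine ⟨w, fun j => ⟨w1 j, w2 j⟩, t4, t3, fun i c hc => ?_⟩
  have hs : ∀ x, √(Sg i c x) ^ 2 = Sg i c x := fun x => Real.sq_sqrt (Sg_nonneg i c x)
  have hsm : Measurable fun x => √(Sg i c x) := (Sg_meas i hc).sqrt
  have hL : ∀ {h : Cf (n + 1) → ℝ} {G : Fin (n + 1) × Fin 3 → Cf (n + 1) → ℝ}, H1 dir h G →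
      VR.L2 (fun x => √(Sg i c x) * h x) ∧ N2 (fun x => √(Sg i c x) * h x) = ∫ x, Sg i c x * h x ^ 2 := by
    intro h G hh
    have e : ∀ x, (√(Sg i c x) * h x) ^ 2 = Sg i c x * h x ^ 2 := fun x => by rw [mul_pow, hs]
    refine ⟨⟨hsm.mul hh.1.1, ?_⟩, ?_⟩
    · simp_rw [e]; exact (hardy_H1 hh i hc).1
    · unfold N2; simp_rw [e]
  have hconv : Tendsto (fun j => N2 (fun x => √(Sg i c x) * w j x - √(Sg i c x) * f x)) atTop (𝓝 0) := by
    have hd : ∀ j, H1 dir (fun x => w j x - f x) (fun p x => fderiv ℝ (w j) x (dir p) - g p x) := fun j =>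
      (hH j).sub hf
    have hb : ∀ j, N2 (fun x => √(Sg i c x) * w j x - √(Sg i c x) * f x) ≤
        7 * N2 (fun x => w j x - f x) + Kn (fun p x => fderiv ℝ (w j) x (dir p) - g p x) := by
      intro j
      have e : (fun x => √(Sg i c x) * w j x - √(Sg i c x) * f x) =
          fun x => √(Sg i c x) * (w j x - f x) := by ext x; ring
      rw [e, (hL (hd j)).2]
      exact (hardy_H1 (hd j) i hc).2
    refine squeeze_zero (fun j => N2_nonneg _) hb ?_
    have h1 : Tendsto (fun j => Kn (fun p x => fderiv ℝ (w j) x (dir p) - g p x)) atTop (𝓝 0) := by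
      have := tendsto_finsetSum (Finset.univ : Finset (Fin (n + 1) × Fin 3)) fun p _ => t2 p
      simpa [Kn] using this
    have := (t1.const_mul 7).add h1
    simpa using this
  have h2 := tendsto_N2 (fun j => (hL (hH j)).1) (hL hf).1 hconv
  rw [(hL hf).2] at h2
  refine h2.congr fun j => (hL (hH j)).2

end Pool.Agent.Helper985.BM
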