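import Pool.Agent.Helper985.BM.Defs
import Pool.Agent.Helper985.BM.E1

set_option autoImplicit false

open MeasureTheory Filter Topology Set
open scoped ContDiff

namespace Pool.Agent.Helper985.BM

open VR

variable {n : ℕ}

theorem unitDir_eq {N : ℕ} (i : Fin N) (k : Fin 3) : BCM.unitDir i k = dir (i, k) := by
  unfold BCM.unitDir dir
  rw [VR.b3_apply]

/-! ### the real quadratic form on `H1` -/

theorem pairSg (i : Fin (n + 1)) (j' : Fin n) (x : Cf (n + 1)) :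
    Ck (x i - x (i.succAbove j')) = Sg i (fun y => y j') x := rfl

theorem oneSg (i : Fin (n + 1)) (a : E3) (x : Cf (n + 1)) : Ck (x i - a) = Sg i (fun _ => a) x := rfl

theorem pair_H1 {f : Cf (n + 1) → ℝ} {g : Fin (n + 1) × Fin 3 → Cf (n + 1) → ℝ} (hf : H1 dir f g)
    (i j : Fin (n + 1)) : Integrable fun x => Ck (x i - x j) * f x ^ 2 := by
  by_cases hij : i = j
  · subst hij
    simp only [sub_self, Ck_zero, zero_mul]
    exact integrable_zero _ _ _
  · obtain ⟨j', rfl⟩ := Fin.exists_succAbove_eq (Ne.symm hij)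
    exact (hardy_H1 hf i (measurable_pi_apply j')).1

theorem one_H1 {f : Cf (n + 1) → ℝ} {g : Fin (n + 1) × Fin 3 → Cf (n + 1) → ℝ} (hf : H1 dir f g)
    (i : Fin (n + 1)) (a : E3) : Integrable fun x => Ck (x i - a) * f x ^ 2 :=
  (hardy_H1 hf i (c := fun _ => a) measurable_const).1

theorem cen_formula {K : ℕ} {f : Cf (n + 1) → ℝ}
    (h1 : ∀ i j : Fin (n + 1), Integrable fun x => Ck (x i - x j) * f x ^ 2)
    (h2 : ∀ (i : Fin (n + 1)) (a : E3), Integrable fun x => Ck (x i - a) * f x ^ 2) (z : ℝ)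
    (R : Fin K → E3) :
    Integrable (fun x => (rep Ck x - z * mix Ck x R) * f x ^ 2) ∧
    cen z f R = (1/2) * (∑ i, ∑ j, ∫ x, Ck (x i - x j) * f x ^ 2) -
      z * (∑ j, ∑ i, ∫ x, Ck (x i - R j) * f x ^ 2) + z ^ 2 * rep Ck R * N2 f := by
  have hC1 := rep_int (u := f) (k := Ck) h1
  have hC2 := mix_int (u := f) (k := Ck) (R := R) fun i j => h2 i (R j)
  have e : ∀ x, (rep Ck x - z * mix Ck x R) * f x ^ 2 =
      rep Ck x * f x ^ 2 - z * (mix Ck x R * f x ^ 2) := fun x => by ring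
  unfold cen
  simp_rw [e]
  refine ⟨hC1.1.sub (hC2.1.const_mul z), ?_⟩
  rw [integral_sub hC1.1 (hC2.1.const_mul z), integral_const_mul, hC1.2, hC2.2]

/-- homogeneity -/
theorem homog {z E : ℝ} {K : ℕ} {R : Fin K → E3}
    (h : ∀ u : Cf (n + 1) → ℝ, SC u → N2 u = 1 → E ≤ TT u + cen z u R) (u : Cf (n + 1) → ℝ) (hu : SC u) :
    E * N2 u ≤ TT u + cen z u R := by
  have hTT : ∀ c : ℝ, TT (fun x => c * u x) = c ^ 2 * TT u := by
    intro c
    unfold TT Ti
    rw [Finset.mul_sum]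
    refine Finset.sum_congr rfl fun i _ => ?_
    rw [Finset.mul_sum]
    refine Finset.sum_congr rfl fun k _ => ?_
    unfold N2
    rw [← integral_const_mul]
    congr 1; ext x
    have : fderiv ℝ (fun x => c * u x) x = c • fderiv ℝ u x :=
      fderiv_const_mul (hu.sm.differentiable (by norm_num) x) c
    show (fderiv ℝ (fun x => c * u x) x (dir (i, k))) ^ 2 =
      c ^ 2 * (fderiv ℝ u x (dir (i, k))) ^ 2
    rw [this]
    show (c * fderiv ℝ u x (dir (i, k))) ^ 2 = _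
    ring
  have hcen : ∀ c : ℝ, cen z (fun x => c * u x) R = c ^ 2 * cen z u R := by
    intro c
    unfold cen N2
    have e1 : ∫ x, (c * u x) ^ 2 = c ^ 2 * ∫ x, u x ^ 2 := by
      rw [← integral_const_mul]; congr 1; ext x; ring
    have e2 : ∫ x, (rep Ck x - z * mix Ck x R) * (c * u x) ^ 2 =
        c ^ 2 * ∫ x, (rep Ck x - z * mix Ck x R) * u x ^ 2 := by
      rw [← integral_const_mul]; congr 1; ext x; ring
    rw [e1, e2]; ring
  rcases (N2_nonneg u).eq_or_lt with h0 | h0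
  · -- u = 0
    have hz0 : ∀ x, u x = 0 := by
      have h1 : (fun x => u x ^ 2) =ᵐ[volume] 0 :=
        (integral_eq_zero_iff_of_nonneg (fun x => sq_nonneg _) hu.sq_int).1 h0.symm
      have h2 : Continuous fun x => u x ^ 2 := hu.sm.continuous.pow 2
      have h3 := (Continuous.ae_eq_iff_eq (volume : Measure (Cf (n + 1))) h2 continuous_zero).1 h1
      intro x
      have := congrFun h3 x
      simpa using this
    have e1 : u = fun x => 0 * u x := by ext x; rw [hz0 x, mul_zero]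
    have e2 : TT u = 0 := by rw [e1, hTT]; ring
    have e3 : cen z u R = 0 := by rw [e1, hcen]; ring
    rw [← h0, e2, e3]; simp
  · set c : ℝ := (√(N2 u))⁻¹ with hc
    have hc2 : c ^ 2 * N2 u = 1 := by
      rw [hc, inv_pow, Real.sq_sqrt h0.le]; field_simp
    have hN : N2 (fun x => c * u x) = 1 := by rw [N2_const_mul, hc2]
    have hS : SC fun x => c * u x := ⟨contDiff_const.mul hu.sm, hu.cc.mul_left⟩
    have h1 := h _ hS hN
    rw [hTT, hcen] at h1
    have h2 := mul_le_mul_of_nonneg_right h1 h0.le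
    have e : (c ^ 2 * TT u + c ^ 2 * cen z u R) * N2 u = (c ^ 2 * N2 u) * (TT u + cen z u R) := by ring
    rw [e, hc2, one_mul] at h2
    exact h2

/-- extension of lower bounds -/
theorem lower_H1 {z E : ℝ} {K : ℕ} {R : Fin K → E3}
    (h : ∀ u : Cf (n + 1) → ℝ, SC u → N2 u = 1 → E ≤ TT u + cen z u R)
    {f : Cf (n + 1) → ℝ} {g : Fin (n + 1) × Fin 3 → Cf (n + 1) → ℝ} (hf : H1 dir f g) :
    E * N2 f ≤ Kn g + cen z f R := by
  obtain ⟨w, hw, t1, t2, t3⟩ := approx_H1 hf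
  have hh : ∀ j, E * N2 (w j) ≤ TT (w j) + cen z (w j) R := fun j => homog h _ (hw j)
  have hcen : Tendsto (fun j => cen z (w j) R) atTop (𝓝 (cen z f R)) := by
    have e1 : ∀ j, cen z (w j) R = (1/2) * (∑ i, ∑ k, ∫ x, Ck (x i - x k) * w j x ^ 2) -
      z * (∑ k, ∑ i, ∫ x, Ck (x i - R k) * w j x ^ 2) + z ^ 2 * rep Ck R * N2 (w j) := fun j =>
      (cen_formula (fun i k => Ck_pair_int (hw j) i k) (fun i a => Ck_one_int (hw j) i a) z R).2
    simp_rw [e1]
    rw [(cen_formula (pair_H1 hf) (one_H1 hf) z R).2]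
    refine Tendsto.add (Tendsto.sub (Tendsto.const_mul _ ?_) (Tendsto.const_mul _ ?_)) (t1.const_mul _)
    · refine tendsto_finsetSum _ fun i _ => tendsto_finsetSum _ fun k _ => ?_
      by_cases hik : i = k
      · subst hik
        simp only [sub_self, Ck_zero, zero_mul, integral_zero]
        exact tendsto_const_nhds
      · obtain ⟨j', rfl⟩ := Fin.exists_succAbove_eq (Ne.symm hik)
        exact t3 i (fun y => y j') (measurable_pi_apply j')
    · exact tendsto_finsetSum _ fun k _ => tendsto_finsetSum _ fun i _ =>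
        t3 i (fun _ => R k) measurable_const
  exact le_of_tendsto_of_tendsto' (t1.const_mul E) (t2.add hcen) hh

/-! ### complex functions -/

/-- real representative -/
theorem exists_tr' (L : ℂ →L[ℝ] ℝ) {F : Cf n → ℂ} (hF : AEStronglyMeasurable F volume) :
    ∃ u : Cf n → ℝ, Measurable u ∧ ∀ᵐ x, u x = L (F x) := by
  refine ⟨fun p => L (hF.mk F p), ?_, ?_⟩
  · exact L.continuous.measurable.comp hF.stronglyMeasurable_mk.measurable
  · filter_upwards [hF.ae_eq_mk] with x hx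
    rw [← hx]

def Nice' (L : ℂ →L[ℝ] ℝ) : Prop := ∀ z, |L z| ≤ ‖z‖

theorem nice_re' : Nice' Complex.reCLM := fun z => Complex.abs_re_le_norm z
theorem nice_im' : Nice' Complex.imCLM := fun z => Complex.abs_im_le_norm z

theorem tr_L2' {L : ℂ →L[ℝ] ℝ} (hL : Nice' L) {F : Cf n → ℂ} (hF : MemLp F 2 volume) {u : Cf n → ℝ}
    (hu : Measurable u) (he : ∀ᵐ x, u x = L (F x)) : VR.L2 u := by
  refine ⟨hu, ?_⟩
  have h2 : Integrable fun x => ‖F x‖ ^ 2 := hF.integrable_norm_pow (by norm_num)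
  refine h2.mono' (hu.pow_const 2).aestronglyMeasurable ?_
  filter_upwards [he] with x hx
  rw [Real.norm_eq_abs, abs_of_nonneg (sq_nonneg _), hx, ← sq_abs]
  exact pow_le_pow_left₀ (abs_nonneg _) (hL _) 2

theorem L_smul' (L : ℂ →L[ℝ] ℝ) (r : ℝ) (z : ℂ) : L ((r : ℂ) * z) = r * L z := by
  rw [← Complex.real_smul, map_smul, smul_eq_mul]

theorem cc_mul_int' {F : Cf n → ℂ} (hF : MemLp F 2 volume) {φ : Cf n → ℝ}
    (hφ : Continuous φ) (hc : HasCompactSupport φ) : Integrable fun x => ((φ x : ℝ) : ℂ) * F x := by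
  have h1 : MemLp (fun x => ((φ x : ℝ) : ℂ)) 2 (volume : Measure (Cf n)) := by
    refine Continuous.memLp_of_hasCompactSupport (Complex.continuous_ofReal.comp hφ) ?_
    exact hc.comp_left (g := fun r : ℝ => (r : ℂ)) Complex.ofReal_zero
  exact h1.integrable_mul hF

theorem tr_H1' {L : ℂ →L[ℝ] ℝ} (hL : Nice' L) {ψ : Cf n → ℂ} {g : Fin n → Fin 3 → Cf n → ℂ}
    (h : BCM.IsH1 ψ g) {u : Cf n → ℝ} {G : Fin n × Fin 3 → Cf n → ℝ} (hu : Measurable u)
    (hG : ∀ p, Measurable (G p)) (he : ∀ᵐ x, u x = L (ψ x))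
    (hge : ∀ p, ∀ᵐ x, G p x = L (g p.1 p.2 x)) : H1 dir u G := by
  refine ⟨tr_L2' hL h.1 hu he, fun p => tr_L2' hL (h.2.1 p.1 p.2) (hG p) (hge p), fun p φ hφ hc => ?_⟩
  have h1 := h.2.2 p.1 p.2 _ hφ hc
  rw [unitDir_eq] at h1
  have hc1 : Continuous fun x => fderiv ℝ φ x (dir p) := fderiv_cc_continuous hφ _
  have hc2 : HasCompactSupport fun x => fderiv ℝ φ x (dir p) := fderiv_cc_support hc _
  have h2 := congrArg L h1
  rw [map_neg, ← L.integral_comp_comm (cc_mul_int' h.1 hc1 hc2),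
    ← L.integral_comp_comm (cc_mul_int' (h.2.1 p.1 p.2) hφ.continuous hc)] at h2
  simp only [L_smul'] at h2
  have e1 : ∫ x, u x * fderiv ℝ φ x (dir p) = ∫ x, fderiv ℝ φ x (dir p) * L (ψ x) := by
    refine integral_congr_ae ?_
    filter_upwards [he] with x hx
    rw [hx, mul_comm]
  have e2 : ∫ x, G p x * φ x = ∫ x, φ x * L (g p.1 p.2 x) := by
    refine integral_congr_ae ?_
    filter_upwards [hge p] with x hx
    rw [hx, mul_comm]
  rw [e1, e2]
  exact h2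

/-- decomposition into real and imaginary part -/
theorem decomp {ψ : Cf n → ℂ} {g : Fin n → Fin 3 → Cf n → ℂ} (h : BCM.IsH1 ψ g) :
    ∃ (u v : Cf n → ℝ) (G H : Fin n × Fin 3 → Cf n → ℝ), H1 dir u G ∧ H1 dir v H ∧
      (∀ᵐ x, ‖ψ x‖ ^ 2 = u x ^ 2 + v x ^ 2) ∧
      ∑ i, ∑ k, ∫ x, ‖g i k x‖ ^ 2 = Kn G + Kn H := by
  obtain ⟨u, hu, hue⟩ := exists_tr' Complex.reCLM h.1.1
  obtain ⟨v, hv, hve⟩ := exists_tr' Complex.imCLM h.1.1
  choose G hG hGe using fun p : Fin n × Fin 3 => exists_tr' Complex.reCLM (h.2.1 p.1 p.2).1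
  choose H hH hHe using fun p : Fin n × Fin 3 => exists_tr' Complex.imCLM (h.2.1 p.1 p.2).1
  have h1 := tr_H1' nice_re' h hu hG hue hGe
  have h2 := tr_H1' nice_im' h hv hH hve hHe
  have hsq : ∀ w : ℂ, ‖w‖ ^ 2 = (Complex.reCLM w) ^ 2 + (Complex.imCLM w) ^ 2 := by
    intro w
    rw [← Complex.normSq_eq_norm_sq, Complex.normSq_apply]
    show w.re * w.re + w.im * w.im = w.re ^ 2 + w.im ^ 2
    ring
  refine ⟨u, v, G, H, h1, h2, ?_, ?_⟩
  · filter_upwards [hue, hve] with x a1 a2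
    rw [a1, a2, hsq]
  · unfold Kn
    rw [← Finset.sum_add_distrib, Fintype.sum_prod_type]
    refine Finset.sum_congr rfl fun i _ => Finset.sum_congr rfl fun k _ => ?_
    have e : ∫ x, ‖g i k x‖ ^ 2 = ∫ x, (G (i, k) x ^ 2 + H (i, k) x ^ 2) := by
      refine integral_congr_ae ?_
      filter_upwards [hGe (i, k), hHe (i, k)] with x a1 a2
      rw [a1, a2, hsq]
    rw [e, integral_add (h1.2.1 _).2 (h2.2.1 _).2]
    rfl

/-- sums over ordered pairs -/
theorem sum_pairs {N : ℕ} (F : Fin N → Fin N → ℝ) (hs : ∀ i j, F i j = F j i) (h0 : ∀ i, F i i = 0) :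
    ∑ p ∈ Finset.univ.filter (fun p : Fin N × Fin N => p.1 < p.2), F p.1 p.2 =
      (1/2) * ∑ i, ∑ j, F i j := by
  have h1 : ∑ i, ∑ j, F i j = ∑ p : Fin N × Fin N, F p.1 p.2 := (Fintype.sum_prod_type' _).symm
  have h2 : ∀ p : Fin N × Fin N, F p.1 p.2 = (if p.1 < p.2 then F p.1 p.2 else 0) +
      (if p.2 < p.1 then F p.1 p.2 else 0) := by
    intro p
    rcases lt_trichotomy p.1 p.2 with h | h | h
    · rw [if_pos h, if_neg (not_lt.2 h.le), add_zero]
    · rw [h]; simp [h0]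
    · rw [if_neg (not_lt.2 h.le), if_pos h, zero_add]
  have h3 : ∑ p : Fin N × Fin N, (if p.2 < p.1 then F p.1 p.2 else 0) =
      ∑ p : Fin N × Fin N, (if p.1 < p.2 then F p.1 p.2 else 0) := by
    rw [← (Equiv.prodComm (Fin N) (Fin N)).sum_comp]
    refine Finset.sum_congr rfl fun p _ => ?_
    simp only [Equiv.prodComm_apply, Prod.fst_swap, Prod.snd_swap]
    rw [hs]
  rw [Finset.sum_filter, h1, Finset.sum_congr rfl fun p _ => h2 p, Finset.sum_add_distrib, h3]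
  ring

theorem coulomb_eq {N K : ℕ} (z : ℝ) (x : Cf N) (R : Cf K) :
    BCM.coulomb z x R = rep Ck x - z * mix Ck x R + z ^ 2 * rep Ck R := by
  unfold BCM.coulomb rep mix
  have h : ∀ {M : ℕ} (y : Cf M), ∑ p ∈ Finset.univ.filter (fun p : Fin M × Fin M => p.1 < p.2),
      1 / ‖y p.1 - y p.2‖ = (1/2) * ∑ i, ∑ j, Ck (y i - y j) := fun {M} y =>
    sum_pairs (fun i j => Ck (y i - y j)) (fun i j => by rw [← Ck_neg, neg_sub]) (fun i => by
      simp only [sub_self, Ck_zero])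
  rw [h x, h R]
  rfl

theorem form_eq {K : ℕ} (z : ℝ) (R : Cf K) {ψ : Cf (n + 1) → ℂ} {u v : Cf (n + 1) → ℝ}
    {G H : Fin (n + 1) × Fin 3 → Cf (n + 1) → ℝ} (hu : H1 dir u G) (hv : H1 dir v H)
    (he : ∀ᵐ x, ‖ψ x‖ ^ 2 = u x ^ 2 + v x ^ 2) :
    Integrable (fun x => BCM.coulomb z x R * ‖ψ x‖ ^ 2) ∧
      ∫ x, BCM.coulomb z x R * ‖ψ x‖ ^ 2 = cen z u R + cen z v R := by
  have h1 := cen_formula (pair_H1 hu) (one_H1 hu) z R
  have h2 := cen_formula (pair_H1 hv) (one_H1 hv) z R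
  have hi : Integrable fun x => ((rep Ck x - z * mix Ck x R) * u x ^ 2 + z ^ 2 * rep Ck R * u x ^ 2) +
      ((rep Ck x - z * mix Ck x R) * v x ^ 2 + z ^ 2 * rep Ck R * v x ^ 2) :=
    (h1.1.add (hu.1.2.const_mul _)).add (h2.1.add (hv.1.2.const_mul _))
  have hae : (fun x => ((rep Ck x - z * mix Ck x R) * u x ^ 2 + z ^ 2 * rep Ck R * u x ^ 2) +
      ((rep Ck x - z * mix Ck x R) * v x ^ 2 + z ^ 2 * rep Ck R * v x ^ 2)) =ᵐ[volume]
      fun x => BCM.coulomb z x R * ‖ψ x‖ ^ 2 := by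
    filter_upwards [he] with x hx
    rw [hx, coulomb_eq]; ring
  refine ⟨hi.congr hae, ?_⟩
  rw [← integral_congr_ae hae]
  have i1 : Integrable fun x => (rep Ck x - z * mix Ck x R) * u x ^ 2 + z ^ 2 * rep Ck R * u x ^ 2 :=
    h1.1.add (hu.1.2.const_mul _)
  have i2 : Integrable fun x => (rep Ck x - z * mix Ck x R) * v x ^ 2 + z ^ 2 * rep Ck R * v x ^ 2 :=
    h2.1.add (hv.1.2.const_mul _)
  rw [integral_add i1 i2, integral_add h1.1 (hu.1.2.const_mul _), integral_add h2.1 (hv.1.2.const_mul _),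
    integral_const_mul, integral_const_mul]
  rfl

/-- lower bounds for the real form give lower bounds for the energy -/
theorem energy_lower {z E : ℝ} {K : ℕ} {R : Cf K}
    (h : ∀ u : Cf (n + 1) → ℝ, SC u → N2 u = 1 → E ≤ TT u + cen z u R)
    {ψ : Cf (n + 1) → ℂ} {g : Fin (n + 1) → Fin 3 → Cf (n + 1) → ℂ} (hψ : BCM.IsH1 ψ g)
    (h1 : ∫ x, ‖ψ x‖ ^ 2 = 1) : E ≤ BCM.energy z R ψ g := by
  obtain ⟨u, v, G, H, hu, hv, he, hK⟩ := decomp hψ
  unfold BCM.energy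
  rw [hK, (form_eq z R hu hv he).2]
  have a1 := lower_H1 h hu
  have a2 := lower_H1 h hv
  have e : N2 u + N2 v = 1 := by
    rw [← h1, integral_congr_ae he, integral_add hu.1.2 hv.1.2]; rfl
  have : E * N2 u + E * N2 v = E := by rw [← mul_add, e, mul_one]
  linarith

/-- smooth real functions as wave functions -/
theorem of_SC {u : Cf (n + 1) → ℝ} (hu : SC u) (h1 : N2 u = 1) {K : ℕ} (z : ℝ) (R : Cf K) :
    ∃ (ψ : Cf (n + 1) → ℂ) (g : Fin (n + 1) → Fin 3 → Cf (n + 1) → ℂ), BCM.IsH1 ψ g ∧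
      ∫ x, ‖ψ x‖ ^ 2 = 1 ∧ BCM.energy z R ψ g = TT u + cen z u R := by
  have hH : H1 dir u fun p x => fderiv ℝ u x (dir p) := H1.of_smooth hu.sm hu.cc
  have hmem : ∀ {w : Cf (n + 1) → ℝ}, VR.L2 w → MemLp (fun x => ((w x : ℝ) : ℂ)) 2 volume := fun hw =>
    ((memLp_two_iff_integrable_sq hw.1.aestronglyMeasurable).2 hw.2).ofReal
  have hnorm : ∀ (r : ℝ), ‖((r : ℝ) : ℂ)‖ ^ 2 = r ^ 2 := fun r => by
    rw [Complex.norm_real, Real.norm_eq_abs, sq_abs]
  refine ⟨fun x => ((u x : ℝ) : ℂ), fun i k x => ((fderiv ℝ u x (dir (i, k)) : ℝ) : ℂ),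
    ⟨hmem hH.1, fun i k => hmem (hH.2.1 (i, k)), fun i k φ hφ hc => ?_⟩, ?_, ?_⟩
  · have h2 := hH.2.2 (i, k) φ hφ hc
    rw [unitDir_eq]
    have e1 : ∫ x, ((fderiv ℝ φ x (dir (i, k)) : ℝ) : ℂ) * ((u x : ℝ) : ℂ) =
        ((∫ x, u x * fderiv ℝ φ x (dir (i, k)) : ℝ) : ℂ) := by
      rw [← integral_complex_ofReal]
      congr 1; ext x
      push_cast; ring
    have e2 : ∫ x, ((φ x : ℝ) : ℂ) * ((fderiv ℝ u x (dir (i, k)) : ℝ) : ℂ) =
        ((∫ x, fderiv ℝ u x (dir (i, k)) * φ x : ℝ) : ℂ) := by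
      rw [← integral_complex_ofReal]
      congr 1; ext x
      push_cast; ring
    rw [e1, e2, h2]
    push_cast
    rfl
  · simp_rw [hnorm]; exact h1
  · unfold BCM.energy
    have hz : H1 (dir : Fin (n + 1) × Fin 3 → Cf (n + 1)) (fun _ => (0:ℝ)) (fun _ _ => (0:ℝ)) := H1.zero
    have hf := (form_eq z R (ψ := fun x => ((u x : ℝ) : ℂ)) hH hz (Eventually.of_forall fun x => by
      rw [hnorm]; ring)).2
    rw [hf]
    have e0 : cen z (fun _ : Cf (n + 1) => (0:ℝ)) R = 0 := by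
      unfold cen N2; simp
    rw [e0, add_zero]
    congr 1
    simp_rw [hnorm]
    rfl

end Pool.Agent.Helper985.BM
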