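import Pool.Agent.Helper985.BM.U5

set_option autoImplicit false

open MeasureTheory Filter Topology Set

namespace Pool.Agent.Helper985.BM

open VR

/-- difference of the Coulomb and the Yukawa kernel with parameter `t` -/
noncomputable def Wt' (t : ℝ) (x : E3) : ℝ := ∫ s in (0:ℝ)..t, ek s x

theorem Wt'_cont (t : ℝ) : Continuous (Wt' t) := by
  unfold Wt'
  have h : Continuous (Function.uncurry fun (x : E3) (t : ℝ) => ek t x) :=
    ek_cont.comp (continuous_snd.prodMk continuous_fst)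
  exact intervalIntegral.continuous_parametric_intervalIntegral_of_continuous' h 0 t

theorem Wt'_zero (t : ℝ) : Wt' t 0 = t := by
  unfold Wt' ek; simp

theorem Wt'_nonneg {t : ℝ} (ht : 0 ≤ t) (x : E3) : 0 ≤ Wt' t x :=
  intervalIntegral.integral_nonneg ht fun s _ => (ek_pos s x).le

theorem Wt'_le {t : ℝ} (ht : 0 ≤ t) (x : E3) : Wt' t x ≤ t := by
  unfold Wt'
  have h := intervalIntegral.integral_mono_on (μ := volume) (a := 0) (b := t) (f := fun s => ek s x) (g := fun _ => (1:ℝ)) ht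
    ((ek_cont_t x).intervalIntegrable _ _) intervalIntegrable_const fun s hs => ek_le_one hs.1 x
  simpa using h

theorem Wt'_eq {x : E3} (hx : x ≠ 0) (t : ℝ) : Ck x = Ym t x + Wt' t x := by
  unfold Wt'
  rw [int_ek_eq hx]
  unfold Ym Ck
  have h0 : ek 0 x = 1 := by unfold ek; simp
  have : ‖x‖ ≠ 0 := norm_ne_zero_iff.2 hx
  rw [h0]; field_simp; ring

theorem Wt'_abs {t : ℝ} (ht : 0 ≤ t) (x : E3) : |Wt' t x| ≤ t := by
  rw [abs_of_nonneg (Wt'_nonneg ht x)]; exact Wt'_le ht x

theorem Wt'_BK {t : ℝ} (ht : 0 ≤ t) : BK (fun p => Wt' t (p.1 - p.2)) :=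
  ⟨(Wt'_cont t).measurable.comp (measurable_fst.sub measurable_snd), t, fun p => Wt'_abs ht _⟩

theorem Wt'_PD {t : ℝ} (ht : 0 ≤ t) : PD (fun p => Wt' t (p.1 - p.2)) := ekint_PD le_rfl ht

theorem Wt'_neg (t : ℝ) (x : E3) : Wt' t (-x) = Wt' t x := by unfold Wt'; simp_rw [ek_neg]

/-- measure with density -/
noncomputable def fm (f : E3 → ℝ) : Measure E3 := volume.withDensity fun x => ENNReal.ofReal (f x)

theorem fm_fin {f : E3 → ℝ} (h0 : ∀ x, 0 ≤ f x) (hf : Integrable f) : IsFiniteMeasure (fm f) := by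
  constructor
  unfold fm
  rw [withDensity_apply _ MeasurableSet.univ, Measure.restrict_univ,
    ← ofReal_integral_eq_lintegral_ofReal hf (Eventually.of_forall h0)]
  exact ENNReal.ofReal_lt_top

theorem fm_integral {f : E3 → ℝ} (hm : Measurable f) (h0 : ∀ x, 0 ≤ f x) (g : E3 → ℝ) :
    ∫ x, g x ∂(fm f) = ∫ x, g x * f x := by
  unfold fm
  have e := integral_withDensity_eq_integral_smul (μ := (volume : Measure E3)) hm.real_toNNReal g
  have e2 : ((volume : Measure E3).withDensity fun x => ENNReal.ofReal (f x)) =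
        (volume : Measure E3).withDensity fun x => ((f x).toNNReal : ENNReal) := rfl
  rw [e2, e]
  congr 1; ext x
  rw [NNReal.smul_def, Real.coe_toNNReal _ (h0 x), smul_eq_mul, mul_comm]

/-- lower bound for the classical energy -/
theorem Ecl_lower {z N : ℝ} (hz : 0 < z) (hN : 0 ≤ N) {f : E3 → ℝ} (hf : Dn f) {Cf : ℝ}
    (hCf : ∀ x, |f x| ≤ Cf) {k : ℕ} {R : Fin k → E3} (hR : Function.Injective R) {t : ℝ} (ht : 0 < t) :
    -((1/2) * z ^ 2 * k * t + z * N * k * (Cf * (c3 / t ^ 2))) ≤ Ecl z N f R := by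
  have hWm := (Wt'_cont t).measurable
  have hWb := Wt'_abs ht.le
  -- integrability
  have hWi : ∀ x, Integrable fun y => Wt' t (x - y) * f y := fun x => kr_int hWm hWb hf.int x
  have hYi : ∀ x, Integrable fun y => Ym t (x - y) * f y := fun x => by
    refine ((Ym_int ht).comp_sub_left x).mul_bdd (c := Cf) hf.meas.aestronglyMeasurable
      (Eventually.of_forall fun y => ?_)
    rw [Real.norm_eq_abs]; exact hCf y
  have hU : ∀ x, Up f x = (∫ y, Ym t (x - y) * f y) + ∫ y, Wt' t (x - y) * f y := by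
    intro x
    unfold Up
    rw [← integral_add (hYi x) (hWi x)]
    refine integral_congr_ae ?_
    have hne : ∀ᵐ y : E3, y ≠ x := by
      rw [ae_iff]
      simp
    filter_upwards [hne] with y hy
    rw [Wt'_eq (sub_ne_zero.2 (Ne.symm hy)) t]; ring
  have hYU : ∀ x, 0 ≤ ∫ y, Ym t (x - y) * f y := fun x =>
    integral_nonneg fun y => mul_nonneg (Ym_nonneg _ _) (hf.nn y)
  have hYU2 : ∀ x, ∫ y, Ym t (x - y) * f y ≤ Cf * (c3 / t ^ 2) := by
    intro x
    have h1 : ∫ y, Ym t (x - y) * f y ≤ ∫ y, Ym t (x - y) * Cf := by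
      refine integral_mono (hYi x) (((Ym_int ht).comp_sub_left x).mul_const _) fun y => ?_
      exact mul_le_mul_of_nonneg_left ((le_abs_self _).trans (hCf y)) (Ym_nonneg _ _)
    refine h1.trans (le_of_eq ?_)
    rw [integral_mul_const, int_sub_left', mul_comm]
    congr 1
    rw [← (yuk_radial ht).2]
    congr 1; ext x
    unfold Ym Ck; ring
  -- self energy
  obtain ⟨CU, hCU0, hCU⟩ := hf.Up_bd
  have hWU : ∀ x, |∫ y, Wt' t (x - y) * f y| ≤ t := by
    intro x
    have h1 : ∫ y, Wt' t (x - y) * f y ≤ ∫ y, t * f y := by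
      refine integral_mono (hWi x) (hf.int.const_mul _) fun y => ?_
      exact mul_le_mul_of_nonneg_right (Wt'_le ht.le _) (hf.nn y)
    rw [integral_const_mul, hf.one, mul_one] at h1
    rwa [abs_of_nonneg (integral_nonneg fun y => mul_nonneg (Wt'_nonneg ht.le _) (hf.nn y))]
  have hWUm : Measurable fun x => ∫ y, Wt' t (x - y) * f y := by
    have : Measurable fun p : E3 × E3 => Wt' t (p.1 - p.2) * f p.2 :=
      (hWm.comp (measurable_fst.sub measurable_snd)).mul (hf.meas.comp measurable_snd)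
    exact this.stronglyMeasurable.integral_prod_right.measurable
  have hDf : ∫ x, (∫ y, Wt' t (x - y) * f y) * f x ≤ Df f := by
    unfold Df
    refine integral_mono ?_ ?_ fun x => ?_
    · exact hf.int.bdd_mul (c := t) hWUm.aestronglyMeasurable (Eventually.of_forall fun x => by
        rw [Real.norm_eq_abs]; exact hWU x)
    · exact hf.int.mul_bdd (Up_meas hf.meas).aestronglyMeasurable (Eventually.of_forall fun x => by
        rw [Real.norm_eq_abs]; exact hCU x)
    · show (∫ y, Wt' t (x - y) * f y) * f x ≤ f x * Up f x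
      rw [mul_comm, hU]
      exact mul_le_mul_of_nonneg_left (by linarith [hYU x]) (hf.nn x)
  -- positive definiteness
  have hPD : 2 * (N * z * ∑ j, ∫ y, Wt' t (R j - y) * f y) ≤
      N ^ 2 * (∫ x, (∫ y, Wt' t (x - y) * f y) * f x) + z ^ 2 * ∑ i, ∑ j, Wt' t (R i - R j) := by
    haveI i1 := fm_fin (f := fun x => N * f x) (fun x => mul_nonneg hN (hf.nn x)) (hf.int.const_mul N)
    haveI i2 := pmw_fin (fun _ : Fin k => z) R
    have h := Wt'_PD ht.le (fm fun x => N * f x) (pmw (fun _ : Fin k => z) R) i1 i2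
    have hNm : Measurable fun x => N * f x := hf.meas.const_mul N
    have e1 : pr (fun p => Wt' t (p.1 - p.2)) (fm fun x => N * f x) (fm fun x => N * f x) =
        N ^ 2 * ∫ x, (∫ y, Wt' t (x - y) * f y) * f x := by
      unfold pr
      rw [integral_prod _ ((Wt'_BK ht.le).int _ _)]
      simp only [fm_integral hNm (fun x => mul_nonneg hN (hf.nn x))]
      rw [← integral_const_mul]
      congr 1; ext x
      have : ∫ y, Wt' t (x - y) * (N * f y) = N * ∫ y, Wt' t (x - y) * f y := by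
        rw [← integral_const_mul]; congr 1; ext y; ring
      rw [this]; ring
    have e2 : pr (fun p => Wt' t (p.1 - p.2)) (pmw (fun _ : Fin k => z) R) (pmw (fun _ : Fin k => z) R) =
        z ^ 2 * ∑ i, ∑ j, Wt' t (R i - R j) := by
      rw [pr_pmw (fun _ => hz.le) _ (fun _ => hz.le) _ hWm hWb, Finset.mul_sum]
      refine Finset.sum_congr rfl fun i _ => ?_
      rw [Finset.mul_sum]
      exact Finset.sum_congr rfl fun j _ => by ring
    have e3 : pr (fun p => Wt' t (p.1 - p.2)) (fm fun x => N * f x) (pmw (fun _ : Fin k => z) R) =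
        N * z * ∑ j, ∫ y, Wt' t (R j - y) * f y := by
      unfold pr
      rw [integral_prod_symm _ ((Wt'_BK ht.le).int _ _)]
      have e4 : ∀ y, ∫ x, Wt' t (x - y) ∂(fm fun x => N * f x) = N * ∫ x, Wt' t (y - x) * f x := by
        intro y
        rw [fm_integral hNm (fun x => mul_nonneg hN (hf.nn x)), ← integral_const_mul]
        congr 1; ext x
        rw [← Wt'_neg, neg_sub]; ring
      simp only [e4]
      rw [pmw_integral (fun _ => hz.le) _ (hWUm.const_mul N) (C := N * t) (fun x => by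
        rw [abs_mul, abs_of_nonneg hN]; exact mul_le_mul_of_nonneg_left (hWU x) hN)]
      rw [Finset.mul_sum]
      exact Finset.sum_congr rfl fun j _ => by ring
    rw [e1, e2, e3] at h
    linarith
  -- repulsion
  have hrep : (∑ i, ∑ j, Wt' t (R i - R j)) - k * t ≤ ∑ i, ∑ j, Ck (R i - R j) := by
    have h1 : ∀ i j, Wt' t (R i - R j) - (if i = j then t else 0) ≤ Ck (R i - R j) := by
      intro i j
      by_cases h : i = j
      · subst h
        rw [if_pos rfl, sub_self, Wt'_zero, Ck_zero, sub_self]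
      · rw [if_neg h, sub_zero, Wt'_eq (sub_ne_zero.2 fun h' => h (hR h')) t]
        linarith [Ym_nonneg t (R i - R j)]
    have h2 := Finset.sum_le_sum fun i (_ : i ∈ (Finset.univ : Finset (Fin k))) =>
      Finset.sum_le_sum fun j (_ : j ∈ (Finset.univ : Finset (Fin k))) => h1 i j
    simp_rw [Finset.sum_sub_distrib] at h2
    have h3 : ∑ i : Fin k, ∑ j : Fin k, (if i = j then t else 0) = k * t := by simp
    rw [h3] at h2
    exact h2
  have hUs : ∑ j, Up f (R j) ≤ k * (Cf * (c3 / t ^ 2)) + ∑ j, ∫ y, Wt' t (R j - y) * f y := by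
    simp_rw [hU, Finset.sum_add_distrib]
    have := Finset.sum_le_card_nsmul (Finset.univ : Finset (Fin k)) (fun j => ∫ y, Ym t (R j - y) * f y)
      (Cf * (c3 / t ^ 2)) fun j _ => hYU2 (R j)
    rw [Finset.card_univ, Fintype.card_fin, nsmul_eq_mul] at this
    linarith
  unfold Ecl rep
  have hzN : 0 ≤ z * N := by positivity
  have a1 := mul_le_mul_of_nonneg_left hUs hzN
  have a2 := mul_le_mul_of_nonneg_left hrep (show (0:ℝ) ≤ (1/2) * z ^ 2 by positivity)
  have a3 := mul_le_mul_of_nonneg_left hDf (show (0:ℝ) ≤ (1/2) * N ^ 2 by positivity)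
  nlinarith [a1, a2, a3, hPD]

/-- far away points -/
theorem exists_far (r : ℕ) {D : ℝ} (hD0 : 0 < D) : ∃ far : Fin r → E3, (∀ j, D ≤ ‖far j‖) ∧
    ∀ i j, i ≠ j → D ≤ ‖far i - far j‖ := by
  have hb : ‖b3 (0 : Fin 3)‖ = 1 := by rw [VR.b3_apply]; simp
  refine ⟨fun j => ((((j:ℕ):ℝ) + 1) * D) • b3 0, fun j => ?_, fun i j hij => ?_⟩
  · rw [norm_smul, hb, mul_one, Real.norm_eq_abs, abs_of_nonneg (by positivity)]
    have : (0:ℝ) ≤ ((j:ℕ):ℝ) := Nat.cast_nonneg _
    calc D = 1 * D := (one_mul D).symm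
      _ ≤ (((j:ℕ):ℝ) + 1) * D := by gcongr; linarith
  · rw [← sub_smul, norm_smul, hb, mul_one, Real.norm_eq_abs]
    have e : (((i:ℕ):ℝ) + 1) * D - (((j:ℕ):ℝ) + 1) * D = (((i:ℕ):ℝ) - ((j:ℕ):ℝ)) * D := by ring
    rw [e, abs_mul, abs_of_pos hD0]
    have h1 : (1:ℝ) ≤ |((i:ℕ):ℝ) - (j:ℕ)| := by
      have h2 : ((i:ℕ):ℤ) - ((j:ℕ):ℤ) ≠ 0 := by
        intro h
        apply hij
        apply Fin.ext
        omega
      have := Int.one_le_abs h2
      exact_mod_cast this
    calc D = 1 * D := (one_mul D).symm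
      _ ≤ |((i:ℕ):ℝ) - (j:ℕ)| * D := by gcongr

theorem sum_le_const {k r : ℕ} {F : Fin k → Fin r → ℝ} {c : ℝ} (h : ∀ i j, F i j ≤ c) :
    ∑ i, ∑ j, F i j ≤ k * (r * c) := by
  have h1 : ∑ i, ∑ j, F i j ≤ ∑ _i : Fin k, ∑ _j : Fin r, c :=
    Finset.sum_le_sum fun i _ => Finset.sum_le_sum fun j _ => h i j
  refine h1.trans (le_of_eq ?_)
  rw [Finset.sum_const, Finset.sum_const, Finset.card_univ, Finset.card_univ, Fintype.card_fin,
    Fintype.card_fin, nsmul_eq_mul, nsmul_eq_mul]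

theorem append_inj {k r : ℕ} {R : Fin k → E3} {far : Fin r → E3} (hR : Function.Injective R)
    (hf : Function.Injective far) (hne : ∀ i j, R i ≠ far j) : Function.Injective (Fin.append R far) := by
  intro a b
  refine Fin.addCases (fun i => ?_) (fun i => ?_) a
  · refine Fin.addCases (fun j => ?_) (fun j => ?_) b
    · intro hab
      rw [Fin.append_left, Fin.append_left] at hab
      rw [hR hab]
    · intro hab
      rw [Fin.append_left, Fin.append_right] at hab
      exact absurd hab (hne i j)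
  · refine Fin.addCases (fun j => ?_) (fun j => ?_) b
    · intro hab
      rw [Fin.append_left, Fin.append_right] at hab
      exact absurd hab.symm (hne j i)
    · intro hab
      rw [Fin.append_right, Fin.append_right] at hab
      rw [hf hab]

theorem append_rep {k r : ℕ} {R : Fin k → E3} {far : Fin r → E3} {c : ℝ} (hc : 0 ≤ c)
    (h1 : ∀ i j, Ck (R i - far j) ≤ c) (h2 : ∀ i j, Ck (far i - far j) ≤ c) :
    ∑ i, ∑ j, Ck (Fin.append R far i - Fin.append R far j) ≤
      (∑ i, ∑ j, Ck (R i - R j)) + ((k:ℝ) + r) ^ 2 * c := by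
  have h1' : ∀ (i : Fin r) (j : Fin k), Ck (far i - R j) ≤ c := fun i j => by
    rw [← Ck_neg, neg_sub]; exact h1 j i
  rw [Fin.sum_univ_add]
  have e1 : ∀ i : Fin k, ∑ j, Ck (Fin.append R far (Fin.castAdd r i) - Fin.append R far j) =
      ∑ j, Ck (R i - R j) + ∑ j, Ck (R i - far j) := by
    intro i
    rw [Fin.sum_univ_add]
    simp only [Fin.append_left, Fin.append_right]
  have e2 : ∀ i : Fin r, ∑ j, Ck (Fin.append R far (Fin.natAdd k i) - Fin.append R far j) =
      ∑ j, Ck (far i - R j) + ∑ j, Ck (far i - far j) := by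
    intro i
    rw [Fin.sum_univ_add]
    simp only [Fin.append_left, Fin.append_right]
  rw [Finset.sum_congr rfl fun i _ => e1 i, Finset.sum_congr rfl fun i _ => e2 i,
    Finset.sum_add_distrib, Finset.sum_add_distrib]
  have b1 := sum_le_const h1
  have b2 := sum_le_const h1'
  have b3 := sum_le_const h2
  have b4 : 0 ≤ (k:ℝ) ^ 2 * c := by positivity
  have e : ((k:ℝ) + r) ^ 2 * c = (k:ℝ) ^ 2 * c + k * (r * c) + r * (k * c) + r * (r * c) := by ring
  rw [e]
  linarith

/-- adding far away nuclei -/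
theorem add_far {z N : ℝ} (hz : 0 < z) (hN : 0 ≤ N) {f : E3 → ℝ} (hf : Dn f) {k K : ℕ} (hk : k ≤ K)
    {R : Fin k → E3} (hR : Function.Injective R) {δ : ℝ} (hδ : 0 < δ) :
    ∃ R' : Fin K → E3, Function.Injective R' ∧ Ecl z N f R' ≤ Ecl z N f R + δ := by
  obtain ⟨r, rfl⟩ := Nat.exists_eq_add_of_le hk
  obtain ⟨A, hA⟩ : ∃ A : ℝ, A = ∑ i, ‖R i‖ := ⟨_, rfl⟩
  have hA0 : 0 ≤ A := by rw [hA]; exact Finset.sum_nonneg fun _ _ => norm_nonneg _
  have hRA : ∀ i, ‖R i‖ ≤ A := fun i => by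
    rw [hA]
    exact Finset.single_le_sum (f := fun i => ‖R i‖) (fun _ _ => norm_nonneg _) (Finset.mem_univ i)
  obtain ⟨D, hD⟩ : ∃ D : ℝ, D = 2 * A + 1 + z ^ 2 * ((k:ℝ) + r) ^ 2 / δ := ⟨_, rfl⟩
  have hq0 : 0 ≤ z ^ 2 * ((k:ℝ) + r) ^ 2 / δ := by positivity
  have hDA : 2 * A + 1 ≤ D := by linarith
  have hD0 : 0 < D := by linarith
  obtain ⟨far, hfn, hff⟩ := exists_far r hD0
  have hfR : ∀ i j, D / 2 ≤ ‖R i - far j‖ := by
    intro i j
    have h1 : ‖far j‖ ≤ ‖R i - far j‖ + ‖R i‖ := by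
      have : far j = -(R i - far j) + R i := by abel
      calc ‖far j‖ = ‖-(R i - far j) + R i‖ := by rw [← this]
        _ ≤ _ := by refine (norm_add_le _ _).trans ?_; rw [norm_neg]
    have := hRA i
    have := hfn j
    linarith
  have hCk : ∀ x : E3, D / 2 ≤ ‖x‖ → Ck x ≤ 2 / D := by
    intro x hx
    unfold Ck
    rw [div_le_div_iff₀ (by linarith) hD0]
    linarith
  have h2D : 0 ≤ 2 / D := by positivity
  have hfar2 : ∀ i j, Ck (far i - far j) ≤ 2 / D := by
    intro i j
    by_cases h : i = j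
    · subst h; rw [sub_self, Ck_zero]; exact h2D
    · exact hCk _ (by linarith [hff i j h])
  refine ⟨Fin.append R far, append_inj hR ?_ ?_, ?_⟩
  · intro i j hij
    by_contra hne
    have := hff i j hne
    rw [hij, sub_self, norm_zero] at this
    linarith
  · intro i j h
    have := hfR i j
    rw [h, sub_self, norm_zero] at this
    linarith
  unfold Ecl
  have hU : ∑ j, Up f (R j) ≤ ∑ j, Up f (Fin.append R far j) := by
    rw [Fin.sum_univ_add]
    simp only [Fin.append_left]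
    have : 0 ≤ ∑ j : Fin r, Up f (Fin.append R far (Fin.natAdd k j)) :=
      Finset.sum_nonneg fun j _ => Up_nonneg hf.nn _
    linarith
  have hrep := append_rep h2D (fun i j => hCk _ (hfR i j)) hfar2
  have h3 : z ^ 2 * ((1/2) * (((k:ℝ) + r) ^ 2 * (2 / D))) ≤ δ := by
    have e : z ^ 2 * ((1/2) * (((k:ℝ) + r) ^ 2 * (2 / D))) = z ^ 2 * ((k:ℝ) + r) ^ 2 / D := by ring
    rw [e, div_le_iff₀ hD0]
    have h4 : z ^ 2 * ((k:ℝ) + r) ^ 2 / δ ≤ D := by linarith
    rw [div_le_iff₀ hδ] at h4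
    linarith
  have h5 := mul_le_mul_of_nonneg_left hU (show 0 ≤ z * N by positivity)
  have h6 := mul_le_mul_of_nonneg_left hrep (show 0 ≤ z ^ 2 * (1/2) by positivity)
  unfold rep
  rw [mul_add] at h6
  linarith

end Pool.Agent.Helper985.BM
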