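import Pool.Agent.Helper985.BM.U7
import Pool.Agent.Helper985.BM.U8

set_option autoImplicit false

open MeasureTheory Filter Topology Set

namespace Pool.Agent.Helper985.BM

open VR

theorem m43 {p : ℝ} (hp : 1 < p) : p ^ 80 - 2 * p ^ 56 ≤ (p ^ 60 - p ^ 36) ^ (4/3:ℝ) ∧
    (p ^ 60 - p ^ 36) ^ (4/3:ℝ) ≤ p ^ 80 := by
  have hp0 : 0 < p := by linarith
  set x : ℝ := 1 - (p ^ 24)⁻¹ with hx
  have h24 : 1 < p ^ 24 := one_lt_pow₀ hp (by norm_num)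
  have hi : 0 < (p ^ 24)⁻¹ := by positivity
  have hi1 : (p ^ 24)⁻¹ < 1 := inv_lt_one_of_one_lt₀ h24
  have hx0 : 0 < x := by linarith
  have hx1 : x ≤ 1 := by linarith
  have e : p ^ 60 - p ^ 36 = p ^ 60 * x := by rw [hx]; field_simp
  have e2 : (p ^ 60) ^ (4/3:ℝ) = p ^ 80 := by
    rw [← Real.rpow_natCast, ← Real.rpow_mul hp0.le, ← Real.rpow_natCast]; norm_num
  rw [e, Real.mul_rpow (by positivity) hx0.le, e2]
  have h1 : x ^ (2:ℕ) ≤ x ^ (4/3:ℝ) := by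
    rw [← Real.rpow_natCast]
    exact Real.rpow_le_rpow_of_exponent_ge hx0 hx1 (by norm_num)
  have h2 : x ^ (4/3:ℝ) ≤ 1 := Real.rpow_le_one hx0.le hx1 (by norm_num)
  have hp80 : 0 < p ^ 80 := by positivity
  constructor
  · have h3 : 1 - 2 * (p ^ 24)⁻¹ ≤ x ^ 2 := by
      rw [hx]; nlinarith [sq_nonneg ((p ^ 24)⁻¹)]
    have h4 : p ^ 80 - 2 * p ^ 56 = p ^ 80 * (1 - 2 * (p ^ 24)⁻¹) := by field_simp
    rw [h4]
    exact mul_le_mul_of_nonneg_left (h3.trans h1) hp80.le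
  · exact mul_le_of_le_one_right hp80.le h2

/-- numerical part of the counting argument -/
theorem count_arg {p z C₄ C₅ y m : ℝ} {k : ℝ} (hp : 1 ≤ p) (hz : 0 < z) (hC4 : 0 ≤ C₄) (hC5 : 0 ≤ C₅)
    (hp1 : 8 * C₄ / z ≤ p) (hp2 : 8 * (C₅ + C₄ / z) ≤ p) (hy : y = z * k - m) (hyp : p ^ 36 < y)
    (hm : m ≤ p ^ 60) (hk : 0 ≤ k)
    (h : (p ^ 15 / 2) * y ^ 2 ≤ C₅ * p ^ 80 + C₄ * k * p ^ 20) : False := by
  have hp0 : 0 < p := by linarith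
  have hy0 : 0 < y := lt_trans (by positivity) hyp
  have hkz : k ≤ (y + p ^ 60) / z := by
    rw [le_div_iff₀ hz]; linarith
  have h1 : C₄ * k * p ^ 20 ≤ C₄ / z * (y * p ^ 20) + C₄ / z * p ^ 80 := by
    calc C₄ * k * p ^ 20 ≤ C₄ * ((y + p ^ 60) / z) * p ^ 20 := by gcongr
      _ = _ := by field_simp
  have h2 : C₄ / z * (y * p ^ 20) ≤ p ^ 15 * y ^ 2 / 8 := by
    have a1 : 8 * (C₄ / z) ≤ p ^ 31 := by
      have : p ≤ p ^ 31 := le_self_pow₀ hp (by norm_num)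
      have e : 8 * (C₄ / z) = 8 * C₄ / z := by ring
      rw [e]; linarith
    have a2 : 8 * (C₄ / z * (y * p ^ 20)) ≤ p ^ 15 * y ^ 2 := by
      calc 8 * (C₄ / z * (y * p ^ 20)) = 8 * (C₄ / z) * (y * p ^ 20) := by ring
        _ ≤ p ^ 31 * (y * p ^ 20) := by gcongr
        _ = p ^ 15 * y * p ^ 36 := by ring
        _ ≤ p ^ 15 * y * y := by gcongr
        _ = _ := by ring
    linarith
  have h3 : (C₅ + C₄ / z) * p ^ 80 ≤ p ^ 15 * y ^ 2 / 8 := by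
    have a1 : 8 * (C₅ + C₄ / z) ≤ p ^ 7 := by
      have : p ≤ p ^ 7 := le_self_pow₀ hp (by norm_num)
      linarith
    have a2 : 8 * ((C₅ + C₄ / z) * p ^ 80) ≤ p ^ 15 * y ^ 2 := by
      calc 8 * ((C₅ + C₄ / z) * p ^ 80) = 8 * (C₅ + C₄ / z) * p ^ 80 := by ring
        _ ≤ p ^ 7 * p ^ 80 := by gcongr
        _ = p ^ 15 * (p ^ 36) ^ 2 := by ring
        _ ≤ p ^ 15 * y ^ 2 := by gcongr
    linarith
  have h4 : 0 < p ^ 15 * y ^ 2 := by positivity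
  have h5 : (C₅ + C₄ / z) * p ^ 80 = C₅ * p ^ 80 + C₄ / z * p ^ 80 := by ring
  rw [h5] at h3
  linarith

/-- construction of the nuclei with the correct number -/
theorem class_upper {z : ℝ} (hz : 0 < z) {e : ℝ} (he : e ∈ EV z) {f : E3 → ℝ} (hf : Dn f) {r : ℝ}
    (hr : 0 ≤ r) (hsupp : ∀ x, f x ≠ 0 → ‖x‖ ≤ r) {ε : ℝ} (hε : 0 < ε) :
    ∃ n₀ : ℕ, ∀ n : ℕ, n₀ ≤ n → ∀ K : ℕ, z * K = (n:ℝ) + 1 → ∀ p : ℝ, 0 < p → p ^ 60 = (n:ℝ) + 1 →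
    ∃ R : Fin K → E3, Function.Injective R ∧
      Ecl z ((n:ℝ) + 1) f R ≤ p ^ 80 * (e * (∫ x, f x ^ (4/3:ℝ)) + ε) := by
  obtain ⟨ν, ℓ, Rc, P, hν, hℓ, hAdm, rfl⟩ := he
  obtain ⟨ε', hε'⟩ : ∃ ε' : ℝ, ε' = ε / 4 := ⟨_, rfl⟩
  have hε'0 : 0 < ε' := by rw [hε']; positivity
  obtain ⟨CW, m₀, hCW, hm₀, hD⟩ := density_upper hz hν hℓ hAdm hf hr hsupp hε'0
  obtain ⟨Cf, hCf⟩ := hf.bd
  have hCf0 : 0 ≤ Cf := (abs_nonneg _).trans (hCf 0)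
  have hc3 := c3_pos
  obtain ⟨eI, heI⟩ : ∃ eI : ℝ, eI = ev z ν ℓ P * (∫ x, f x ^ (4/3:ℝ)) := ⟨_, rfl⟩
  rw [← heI] at hD ⊢
  have hDf0 : 0 ≤ Df f := integral_nonneg fun x => mul_nonneg (hf.nn x) (Up_nonneg hf.nn x)
  obtain ⟨C₄, hC₄⟩ : ∃ C₄ : ℝ, C₄ = (1/2) * z ^ 2 + z * Cf * c3 := ⟨_, rfl⟩
  have hC40 : 0 ≤ C₄ := by rw [hC₄]; positivity
  obtain ⟨C₅, hC₅⟩ : ∃ C₅ : ℝ, C₅ = |eI| + 2 * ε' := ⟨_, rfl⟩
  have hC50 : 0 ≤ C₅ := by rw [hC₅]; positivity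
  obtain ⟨C₆, hC₆⟩ : ∃ C₆ : ℝ, C₆ = Df f + z + CW + 2 * |eI + ε'| := ⟨_, rfl⟩
  have hC60 : 0 ≤ C₆ := by rw [hC₆]; positivity
  obtain ⟨P₀, hP₀⟩ : ∃ P₀ : ℝ, P₀ = 2 + C₆ / ε' + 8 * C₄ / z + 8 * (C₅ + C₄ / z) + 2 * m₀ := ⟨_, rfl⟩
  have b1 : 0 ≤ C₆ / ε' := by positivity
  have b2 : 0 ≤ 8 * C₄ / z := by positivity
  have b3 : 0 ≤ 8 * (C₅ + C₄ / z) := by positivity
  obtain ⟨n₀, hn₀⟩ := exists_nat_ge (P₀ ^ 60)
  refine ⟨n₀, fun n hn K hK p hp0 hpN => ?_⟩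
  have hP0 : 0 < P₀ := by rw [hP₀]; positivity
  have hpP : P₀ ≤ p := by
    by_contra hc
    push Not at hc
    have h1 : p ^ 60 < P₀ ^ 60 := pow_lt_pow_left₀ hc hp0.le (by norm_num)
    have h2 : (n₀:ℝ) ≤ n := by exact_mod_cast hn
    rw [hpN] at h1
    linarith
  have hp2 : 2 ≤ p := by linarith
  have hp1 : 1 ≤ p := by linarith
  obtain ⟨m, hm⟩ : ∃ m : ℝ, m = p ^ 60 - p ^ 36 := ⟨_, rfl⟩
  have hmp : m ≤ p ^ 60 := by
    have : 0 < p ^ 36 := by positivity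
    rw [hm]; linarith
  have hmm : m₀ ≤ m := by
    have h1 : p ^ 36 ≤ p ^ 59 := pow_le_pow_right₀ hp1 (by norm_num)
    have h2 : 2 * p ^ 59 ≤ p ^ 60 := by
      calc 2 * p ^ 59 ≤ p * p ^ 59 := by gcongr
        _ = p ^ 60 := by ring
    have h3 : p ≤ p ^ 59 := le_self_pow₀ hp1 (by norm_num)
    linarith
  obtain ⟨k, R, hR, hE⟩ := hD m hmm (p ^ 60) (p ^ 15) (by positivity)
  obtain ⟨q1, q2⟩ := m43 (show 1 < p by linarith)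
  rw [← hm] at q1 q2
  have hT : (1/2) * (p ^ 60 - m) ^ 2 * Df f + (p ^ 15 / 2) * z * m + CW * p ^ 15 * m +
      m ^ (4/3:ℝ) * (eI + ε') ≤ p ^ 80 * (eI + 2 * ε') := by
    have c1 : (1/2) * (p ^ 60 - m) ^ 2 * Df f ≤ Df f * p ^ 75 := by
      have e1 : p ^ 60 - m = p ^ 36 := by rw [hm]; ring
      rw [e1]
      have : p ^ 72 ≤ p ^ 75 := pow_le_pow_right₀ hp1 (by norm_num)
      calc (1/2) * (p ^ 36) ^ 2 * Df f = (1/2) * (Df f * p ^ 72) := by ring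
        _ ≤ Df f * p ^ 72 := half_le (by positivity)
        _ ≤ Df f * p ^ 75 := by gcongr
    have c2 : (p ^ 15 / 2) * z * m ≤ z * p ^ 75 := by
      calc (p ^ 15 / 2) * z * m ≤ (p ^ 15 / 2) * z * p ^ 60 := by gcongr
        _ = (1/2) * (z * p ^ 75) := by ring
        _ ≤ z * p ^ 75 := half_le (by positivity)
    have c3' : CW * p ^ 15 * m ≤ CW * p ^ 75 := by
      calc CW * p ^ 15 * m ≤ CW * p ^ 15 * p ^ 60 := by gcongr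
        _ = _ := by ring
    have c4 : m ^ (4/3:ℝ) * (eI + ε') ≤ p ^ 80 * (eI + ε') + 2 * |eI + ε'| * p ^ 75 := by
      have h1 : (p ^ 80 - m ^ (4/3:ℝ)) * (-(eI + ε')) ≤ 2 * p ^ 56 * |eI + ε'| := by
        have a1 : 0 ≤ p ^ 80 - m ^ (4/3:ℝ) := by linarith
        have a2 : p ^ 80 - m ^ (4/3:ℝ) ≤ 2 * p ^ 56 := by linarith
        calc (p ^ 80 - m ^ (4/3:ℝ)) * (-(eI + ε')) ≤ (p ^ 80 - m ^ (4/3:ℝ)) * |eI + ε'| :=
              mul_le_mul_of_nonneg_left (neg_le_abs _) a1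
          _ ≤ 2 * p ^ 56 * |eI + ε'| := mul_le_mul_of_nonneg_right a2 (abs_nonneg _)
      have h2 : 2 * p ^ 56 * |eI + ε'| ≤ 2 * |eI + ε'| * p ^ 75 := by
        have : p ^ 56 ≤ p ^ 75 := pow_le_pow_right₀ hp1 (by norm_num)
        calc 2 * p ^ 56 * |eI + ε'| = 2 * |eI + ε'| * p ^ 56 := by ring
          _ ≤ _ := by gcongr
      linarith
    have c5 : C₆ * p ^ 75 ≤ ε' * p ^ 80 := by
      have h1 : C₆ / ε' ≤ p ^ 5 := by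
        have : p ≤ p ^ 5 := le_self_pow₀ hp1 (by norm_num)
        linarith
      rw [div_le_iff₀ hε'0] at h1
      calc C₆ * p ^ 75 ≤ (p ^ 5 * ε') * p ^ 75 := by gcongr
        _ = _ := by ring
    have e6 : C₆ * p ^ 75 = Df f * p ^ 75 + z * p ^ 75 + CW * p ^ 75 + 2 * |eI + ε'| * p ^ 75 := by
      rw [hC₆]; ring
    rw [e6] at c5
    linarith
  have hEcl : Ecl z (p ^ 60) f R + (p ^ 15 / 2) * (z * k - m) ^ 2 ≤ p ^ 80 * (eI + 2 * ε') := hE.trans hT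
  have hlow := Ecl_lower hz (show 0 ≤ p ^ 60 by positivity) hf hCf hR (show 0 < p ^ 20 by positivity)
  have hlow2 : -(C₄ * k * p ^ 20) ≤ Ecl z (p ^ 60) f R := by
    refine le_trans (le_of_eq ?_) hlow
    rw [hC₄]
    field_simp
  have hkK : k ≤ K := by
    by_contra hc
    push Not at hc
    have h1 : (K:ℝ) < k := by exact_mod_cast hc
    have h2 : p ^ 60 < z * k := by rw [hpN, ← hK]; gcongr
    refine count_arg (p := p) (z := z) (C₄ := C₄) (C₅ := C₅) (y := z * k - m) (m := m) (k := k) hp1 hz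
      hC40 hC50 (by linarith) (by linarith) rfl (by rw [hm]; linarith) hmp (Nat.cast_nonneg _) ?_
    have h3 : p ^ 80 * (eI + 2 * ε') ≤ C₅ * p ^ 80 := by
      have : eI + 2 * ε' ≤ C₅ := by rw [hC₅]; linarith [le_abs_self eI]
      calc p ^ 80 * (eI + 2 * ε') ≤ p ^ 80 * C₅ := by gcongr
        _ = _ := by ring
    linarith
  obtain ⟨R', hR', hER'⟩ := add_far hz (show 0 ≤ p ^ 60 by positivity) hf hkK hR hε'0
  refine ⟨R', hR', ?_⟩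
  rw [← hpN]
  have h1 : Ecl z (p ^ 60) f R ≤ p ^ 80 * (eI + 2 * ε') := by
    have : 0 ≤ (p ^ 15 / 2) * (z * k - m) ^ 2 := by positivity
    linarith
  have h2 : ε' ≤ p ^ 80 * ε' := by
    exact le_mul_of_one_le_left hε'0.le (one_le_pow₀ hp1)
  have h3 : p ^ 80 * (eI + ε) = p ^ 80 * (eI + 2 * ε') + p ^ 80 * ε' + p ^ 80 * ε' := by
    rw [hε']; ring
  rw [h3]
  have h4 : 0 ≤ p ^ 80 * ε' := by positivity
  linarith

end Pool.Agent.Helper985.BM
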