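import Pool.Agent.Helper985.BM.L3
import Pool.Agent.Helper985.BM.U9

set_option autoImplicit false

open MeasureTheory Filter Topology Set
open scoped ContDiff

namespace Pool.Agent.Helper985.BM

open VR

variable {n : ℕ}

/-- product function -/
noncomputable def pdt (ψ : E3 → ℝ) (x : Cf n) : ℝ := ∏ i, ψ (x i)

theorem pdt_SC {ψ : E3 → ℝ} (h : SC ψ) : SC (pdt ψ : Cf (n + 1) → ℝ) := by
  refine ⟨?_, ?_⟩
  · unfold pdt
    exact contDiff_prod fun i _ => h.sm.comp (contDiff_apply ℝ E3 i)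
  · obtain ⟨r, hr, hr0⟩ := cc_ball h.cc
    refine cc_of_ball r fun x hx => ?_
    unfold pdt
    have : ∃ i, r < ‖x i‖ := by
      by_contra hc
      push Not at hc
      have := (pi_norm_le_iff_of_nonneg hr.le).2 hc
      linarith
    obtain ⟨i, hi⟩ := this
    exact Finset.prod_eq_zero (Finset.mem_univ i) (hr0 _ hi)

theorem int_one {ψ : E3 → ℝ} (h1 : ∫ a, ψ a ^ 2 = 1) (i : Fin n) (h : E3 → ℝ) :
    ∫ x : Cf n, h (x i) * pdt ψ x ^ 2 = ∫ a, h a * ψ a ^ 2 := by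
  have e : ∀ x : Cf n, h (x i) * pdt ψ x ^ 2 =
      ∏ j, (fun a => (if j = i then h a else 1) * ψ a ^ 2) (x j) := by
    intro x
    unfold pdt
    rw [← Finset.prod_pow]
    simp only
    rw [Finset.prod_mul_distrib]
    congr 1
    rw [Finset.prod_ite_eq' Finset.univ i (fun j => h (x j)), if_pos (Finset.mem_univ _)]
  simp_rw [e]
  rw [integral_fintype_prod_volume_eq_prod (fun (j : Fin n) (a : E3) => (if j = i then h a else 1) * ψ a ^ 2)]
  rw [← Finset.mul_prod_erase Finset.univ _ (Finset.mem_univ i)]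
  rw [Finset.prod_eq_one, mul_one]
  · simp
  · intro j hj
    simp only [Finset.ne_of_mem_erase hj, if_false, one_mul]
    exact h1

theorem int_zero {ψ : E3 → ℝ} (h1 : ∫ a, ψ a ^ 2 = 1) : ∫ x : Cf n, pdt ψ x ^ 2 = 1 := by
  have e : ∀ x : Cf n, pdt ψ x ^ 2 = ∏ j, (fun a => ψ a ^ 2) (x j) := by
    intro x
    unfold pdt
    rw [← Finset.prod_pow]
  simp_rw [e]
  rw [integral_fintype_prod_volume_eq_prod (fun (_ : Fin n) (a : E3) => ψ a ^ 2)]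
  simp only [h1, Finset.prod_const_one]

theorem pdt_ins (ψ : E3 → ℝ) (i : Fin (n + 1)) (a : E3) (y : Cf n) :
    pdt ψ (ins i a y) = ψ a * pdt ψ y := by
  unfold pdt
  rw [Fin.prod_univ_succAbove _ i, ins_same]
  simp_rw [ins_succ]

theorem pdt_fderiv {ψ : E3 → ℝ} (h : SC ψ) (i : Fin (n + 1)) (k : Fin 3) (a : E3) (y : Cf n) :
    fderiv ℝ (pdt ψ) (ins i a y) (dir (i, k)) = fderiv ℝ ψ a (b3 k) * pdt ψ y := by
  rw [← slice_fderiv (pdt_SC h).sm i y a k]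
  simp_rw [pdt_ins]
  rw [fderiv_mul_const ((h.sm.differentiable (by norm_num)) a)]
  simp [mul_comm]

theorem pdt_Ti {ψ : E3 → ℝ} (h : SC ψ) (h1 : ∫ a, ψ a ^ 2 = 1) (i : Fin (n + 1)) :
    Ti i (pdt ψ : Cf (n + 1) → ℝ) = K1 ψ := by
  unfold Ti K1 Kn
  refine Finset.sum_congr rfl fun k _ => ?_
  unfold N2
  have hu := pdt_SC (n := n) h
  have hi : Integrable fun x : Cf (n + 1) => fderiv ℝ (pdt ψ) x (dir (i, k)) ^ 2 := by
    have hc : Continuous fun x : Cf (n + 1) => fderiv ℝ (pdt ψ) x (dir (i, k)) :=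
      (hu.sm.continuous_fderiv (by norm_num)).clm_apply continuous_const
    have hs : HasCompactSupport fun x : Cf (n + 1) => fderiv ℝ (pdt ψ) x (dir (i, k)) :=
      hu.cc.fderiv_apply (𝕜 := ℝ) _
    exact (hc.pow 2).integrable_of_hasCompactSupport (sq_cc hs)
  rw [integral_sl i hi]
  simp_rw [pdt_fderiv h, mul_pow]
  simp_rw [integral_mul_const]
  rw [integral_const_mul]
  rw [int_zero h1, mul_one]

theorem pdt_TT {ψ : E3 → ℝ} (h : SC ψ) (h1 : ∫ a, ψ a ^ 2 = 1) :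
    TT (pdt ψ : Cf (n + 1) → ℝ) = ((n:ℝ) + 1) * K1 ψ := by
  unfold TT
  simp_rw [pdt_Ti h h1]
  simp

theorem int_pair {ψ : E3 → ℝ} (h : SC ψ) (h1 : ∫ a, ψ a ^ 2 = 1) (i j : Fin (n + 1)) (hij : i ≠ j) :
    ∫ x : Cf (n + 1), Ck (x i - x j) * pdt ψ x ^ 2 = Df fun a => ψ a ^ 2 := by
  have hu := pdt_SC (n := n) h
  rw [integral_sl i (Ck_pair_int hu i j)]
  obtain ⟨j', rfl⟩ := Fin.exists_succAbove_eq hij.symm
  simp_rw [ins_same, ins_succ, pdt_ins, mul_pow]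
  have e : ∀ y : Cf n, ∫ a, Ck (a - y j') * (ψ a ^ 2 * pdt ψ y ^ 2) =
      Up (fun a => ψ a ^ 2) (y j') * pdt ψ y ^ 2 := by
    intro y
    simp_rw [← mul_assoc]
    rw [integral_mul_const]
    congr 1
    unfold Up
    congr 1; ext a
    rw [← Ck_neg, neg_sub]
  simp_rw [e]
  rw [int_one h1 j' (Up fun a => ψ a ^ 2)]
  unfold Df
  congr 1; ext a; ring

theorem SC.Dn {ψ : E3 → ℝ} (h : SC ψ) (h1 : ∫ a, ψ a ^ 2 = 1) : Dn fun a => ψ a ^ 2 := by
  have hc : Continuous fun a => ψ a ^ 2 := h.sm.continuous.pow 2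
  have hs : HasCompactSupport fun a => ψ a ^ 2 := sq_cc h.cc
  obtain ⟨C, hC⟩ := hs.exists_bound_of_continuous hc
  exact ⟨hc.measurable, fun a => sq_nonneg _, hc.integrable_of_hasCompactSupport hs,
    ⟨C, fun x => by rw [← Real.norm_eq_abs]; exact hC x⟩, h1⟩

/-- energy of a product state -/
theorem pdt_cen {ψ : E3 → ℝ} (h : SC ψ) (h1 : ∫ a, ψ a ^ 2 = 1) {z : ℝ} (hz : 0 ≤ z) {K : ℕ}
    (R : Fin K → E3) :
    cen z (pdt ψ : Cf (n + 1) → ℝ) R ≤ Ecl z ((n:ℝ) + 1) (fun a => ψ a ^ 2) R := by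
  have hu := pdt_SC (n := n) h
  have hC1 := rep_int (u := (pdt ψ : Cf (n + 1) → ℝ)) (k := Ck) fun i j => Ck_pair_int hu i j
  have hC2 := mix_int (u := (pdt ψ : Cf (n + 1) → ℝ)) (k := Ck) (R := R) fun i j => Ck_one_int hu i (R j)
  have hD := h.Dn h1
  have hDf0 : 0 ≤ Df fun a => ψ a ^ 2 :=
    integral_nonneg fun x => mul_nonneg (sq_nonneg _) (Up_nonneg (fun a => sq_nonneg _) x)
  unfold cen
  have e1 : ∫ x : Cf (n + 1), (rep Ck x - z * mix Ck x R) * pdt ψ x ^ 2 =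
      (∫ x : Cf (n + 1), rep Ck x * pdt ψ x ^ 2) - z * ∫ x : Cf (n + 1), mix Ck x R * pdt ψ x ^ 2 := by
    have e : ∀ x : Cf (n + 1), (rep Ck x - z * mix Ck x R) * pdt ψ x ^ 2 =
      rep Ck x * pdt ψ x ^ 2 - z * (mix Ck x R * pdt ψ x ^ 2) := fun x => by ring
    simp_rw [e]
    rw [integral_sub hC1.1 (hC2.1.const_mul z), integral_const_mul]
  rw [e1, hC1.2, hC2.2]
  have e2 : ∀ (j : Fin K) (i : Fin (n + 1)), ∫ x : Cf (n + 1), Ck (x i - R j) * pdt ψ x ^ 2 =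
      Up (fun a => ψ a ^ 2) (R j) := by
    intro j i
    rw [int_one h1 i fun a => Ck (a - R j)]
    unfold Up
    congr 1; ext a
    rw [← Ck_neg, neg_sub]
  have e3 : ∑ i, ∑ j, ∫ x : Cf (n + 1), Ck (x i - x j) * pdt ψ x ^ 2 ≤
      ((n:ℝ) + 1) ^ 2 * Df fun a => ψ a ^ 2 := by
    have : ∀ i j, ∫ x : Cf (n + 1), Ck (x i - x j) * pdt ψ x ^ 2 ≤ Df fun a => ψ a ^ 2 := by
      intro i j
      by_cases hij : i = j
      · subst hij
        simp only [sub_self, Ck_zero, zero_mul, integral_zero]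
        exact hDf0
      · rw [int_pair h h1 i j hij]
    have h2 := sum_le_const this
    push_cast at h2
    linarith
  simp_rw [e2]
  have e4 : N2 (pdt ψ : Cf (n + 1) → ℝ) = 1 := int_zero h1
  rw [e4]
  unfold Ecl
  simp only [Finset.sum_const, Finset.card_univ, Fintype.card_fin, nsmul_eq_mul]
  rw [← Finset.mul_sum]
  push_cast
  linarith

/-- asymptotic upper bound -/
theorem upper_SC {z : ℝ} (hz : 0 < z) {e : ℝ} (he : e ∈ EV z) {ψ : E3 → ℝ} (h : SC ψ) (h1 : N2 ψ = 1)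
    {lam : ℝ} (hlam : 0 < lam) {ε : ℝ} (hε : 0 < ε) :
    ∃ n₀ : ℕ, ∀ n : ℕ, n₀ ≤ n → ∀ K : ℕ, z * K = (n:ℝ) + 1 →
    ∃ (R : Fin K → E3) (u : Cf (n + 1) → ℝ), Function.Injective R ∧ SC u ∧ N2 u = 1 ∧
      TT u + cen z u R ≤ (lam ^ 2 * K1 ψ + lam * (e * P83 ψ) + ε) * ((n:ℝ) + 1) ^ (5/3:ℝ) := by
  have h1' : ∫ a, ψ a ^ 2 = 1 := h1
  obtain ⟨r, hr, hr0⟩ := cc_ball h.cc
  obtain ⟨n₀, hn₀⟩ := class_upper hz he (h.Dn h1') hr.le (fun x hx => by
    by_contra hc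
    push Not at hc
    exact hx (by rw [hr0 x hc]; norm_num)) (ε := ε / lam) (by positivity)
  refine ⟨n₀, fun n hn K hK => ?_⟩
  obtain ⟨p, hp0, hpN, hp100⟩ := exists_p n
  obtain ⟨R₀, hR₀, hE⟩ := hn₀ n hn K hK p hp0 hpN
  have hP : ∫ x, (ψ x ^ 2) ^ (4/3:ℝ) = P83 ψ := by
    unfold P83
    congr 1; ext x
    rw [← sq_abs, ← Real.rpow_natCast, ← Real.rpow_mul (abs_nonneg _)]
    norm_num
  rw [hP] at hE
  set c : ℝ := lam * p ^ 20 with hc
  have hc0 : 0 < c := by positivity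
  refine ⟨c⁻¹ • R₀, scl c (pdt ψ), ?_, scl_SC hc0 (pdt_SC h), by rw [scl_N2 hc0]; exact int_zero h1', ?_⟩
  · intro a b hab
    rw [Pi.smul_apply, Pi.smul_apply] at hab
    exact hR₀ (smul_right_injective E3 (inv_pos.2 hc0).ne' hab)
  · rw [scl_TT hc0 (pdt_SC h), scl_cen hc0, smul_smul, mul_inv_cancel₀ hc0.ne', one_smul, pdt_TT h h1',
      hp100]
    have h2 := (pdt_cen (n := n) h h1' hz.le R₀).trans hE
    have h3 := mul_le_mul_of_nonneg_left h2 hc0.le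
    have e1 : c ^ 2 * (((n:ℝ) + 1) * K1 ψ) = lam ^ 2 * K1 ψ * p ^ 100 := by rw [← hpN, hc]; ring
    have e2 : c * (p ^ 80 * (e * P83 ψ + ε / lam)) = (lam * (e * P83 ψ) + ε) * p ^ 100 := by
      rw [hc]; field_simp
    rw [e2] at h3
    rw [e1]
    linarith

end Pool.Agent.Helper985.BM
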