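import Pool.Agent.Helper985.BM.E2
import Pool.Agent.Helper985.BM.U10

set_option autoImplicit false

open MeasureTheory Filter Topology Set
open scoped ContDiff

namespace Pool.Agent.Helper985.BM

open VR

/-! ### periodic configurations with negative energy -/

theorem EV_neg {z : ℝ} (hz : 0 < z) : ∃ e ∈ EV z, e < 0 := by
  have h1 := Real.tendsto_pow_mul_exp_neg_atTop_nhds_zero 3
  have h2 : Tendsto (fun x : ℝ => (Real.exp 3 * sZ ^ 3) * (x ^ 3 * Real.exp (-x))) atTop (𝓝 0) := by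
    have := h1.const_mul (Real.exp 3 * sZ ^ 3)
    rwa [mul_zero] at this
  have h3 : ∀ᶠ x : ℝ in atTop, (Real.exp 3 * sZ ^ 3) * (x ^ 3 * Real.exp (-x)) < c3 :=
    h2.eventually_lt_const c3_pos
  obtain ⟨h, hh, hx⟩ := (h3.and (eventually_ge_atTop 3)).exists
  have h0 : 0 < h := by linarith
  have hAdm := adm_of_cube (k := 1) (R := fun _ => (0 : E3)) (h := h) (d := h / 2)
    (fun a b _ => Subsingleton.elim a b) (by linarith) hx (fun a b i => by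
      show |(0:E3) i - (0:E3) i| ≤ _
      rw [sub_self, abs_zero]; linarith)
  refine ⟨_, ⟨1, h, _, _, Nat.one_pos, h0, hAdm, rfl⟩, ?_⟩
  unfold ev
  refine div_neg_of_neg_of_pos ?_ (by positivity)
  have e1 : (∑ a : Fin 1, ∑ b : Fin 1, Yk ((fun _ => (0 : E3)) a - (fun _ => (0 : E3)) b)) = 0 := by
    simp [Yk]
  rw [e1]
  have e2 : tail (h / 2) = Real.exp 3 * sZ ^ 3 * Real.exp (-h) := by
    unfold tail
    rw [show -(2 * (h / 2)) = -h by ring]; ring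
  rw [e2]
  have h4 : Real.exp 3 * sZ ^ 3 * Real.exp (-h) < c3 / h ^ 3 := by
    rw [lt_div_iff₀ (by positivity)]
    calc _ = (Real.exp 3 * sZ ^ 3) * (h ^ 3 * Real.exp (-h)) := by ring
      _ < c3 := hh
  have h5 : z ^ 2 * (Real.exp 3 * sZ ^ 3 * Real.exp (-h)) < z ^ 2 * (c3 / h ^ 3) :=
    mul_lt_mul_of_pos_left h4 (by positivity)
  push_cast
  have e3 : c3 * (z * 1) ^ 2 / h ^ 3 = z ^ 2 * (c3 / h ^ 3) := by ring
  rw [e3]
  linarith

/-! ### one-particle functions -/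

theorem exists_bump : ∃ ψ : E3 → ℝ, SC ψ ∧ N2 ψ = 1 := by
  have f : ContDiffBump (0 : E3) := ⟨1, 2, one_pos, by norm_num⟩
  have hs : ContDiff ℝ ∞ (f : E3 → ℝ) := f.contDiff
  have hc : HasCompactSupport (f : E3 → ℝ) := f.hasCompactSupport
  have h0 : 0 < N2 (f : E3 → ℝ) := by
    unfold N2
    refine Continuous.integral_pos_of_hasCompactSupport_nonneg_nonzero (hs.continuous.pow 2) ?_
      (fun x => sq_nonneg _) (x := 0) ?_
    · exact (hc.comp_left (g := fun r : ℝ => r ^ 2) (by norm_num))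
    · have : f 0 = 1 := f.one_of_mem_closedBall (by simp [f.rIn_pos.le])
      show (f 0) ^ 2 ≠ 0
      rw [this]; norm_num
  refine ⟨fun x => (√(N2 (f : E3 → ℝ)))⁻¹ * f x, ⟨contDiff_const.mul hs, hc.mul_left⟩, ?_⟩
  rw [N2_const_mul, inv_pow, Real.sq_sqrt h0.le]
  exact inv_mul_cancel₀ h0.ne'

theorem SC.P83_int {ψ : E3 → ℝ} (h : SC ψ) : Integrable fun x => |ψ x| ^ (8/3:ℝ) := by
  refine Continuous.integrable_of_hasCompactSupport ?_ ?_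
  · exact (h.sm.continuous.abs).rpow_const fun x => Or.inr (by norm_num)
  · exact h.cc.comp_left (g := fun r : ℝ => |r| ^ (8/3:ℝ)) (by
      rw [abs_zero]; exact Real.zero_rpow (by norm_num))

theorem P83_pos {ψ : E3 → ℝ} (h : SC ψ) (h1 : 0 < N2 ψ) : 0 < P83 ψ := by
  refine lt_of_le_of_ne (P83_nonneg ψ) fun h0 => ?_
  have e1 : (fun x => |ψ x| ^ (8/3:ℝ)) =ᵐ[volume] 0 :=
    (integral_eq_zero_iff_of_nonneg (fun x => Real.rpow_nonneg (abs_nonneg _) _) h.P83_int).1 h0.symm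
  have e2 : N2 ψ = 0 := by
    unfold N2
    rw [← integral_zero (α := E3) (G := ℝ) (μ := volume)]
    refine integral_congr_ae ?_
    filter_upwards [e1] with x hx
    have : |ψ x| = 0 := by
      by_contra hne
      have : 0 < |ψ x| := lt_of_le_of_ne (abs_nonneg _) (Ne.symm hne)
      have := Real.rpow_pos_of_pos this (8/3:ℝ)
      simp only [Pi.zero_apply] at hx
      linarith
    rw [abs_eq_zero] at this
    rw [this]; norm_num
  linarith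

theorem K1_pos {ψ : E3 → ℝ} (h : SC ψ) (h1 : 0 < N2 ψ) : 0 < K1 ψ := by
  obtain ⟨Γ, -, hΓ⟩ := GN_exists
  refine lt_of_le_of_ne (K1_nonneg ψ) fun h0 => ?_
  have h2 := hΓ.2 ψ h
  rw [← h0, mul_zero, zero_mul] at h2
  have := P83_pos h h1
  nlinarith

/-! ### the optimal constant -/

/-- the optimal constant in the interpolation inequality -/
noncomputable def Gst : ℝ := sInf {Γ | GN Γ}

theorem GN_set_ne : {Γ | GN Γ}.Nonempty := let ⟨Γ, _, h⟩ := GN_exists; ⟨Γ, h⟩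

theorem GN_set_bdd : BddBelow {Γ | GN Γ} := ⟨0, fun _ h => h.1⟩

theorem Gst_GN : GN Gst := by
  refine ⟨le_csInf GN_set_ne fun Γ h => h.1, fun ψ hψ => ?_⟩
  have hK := K1_nonneg ψ
  have hN : 0 ≤ N2 ψ ^ (5/3:ℝ) := Real.rpow_nonneg (N2_nonneg ψ) _
  rcases (mul_nonneg hK hN).eq_or_lt with h0 | h0
  · obtain ⟨Γ, -, hΓ⟩ := GN_exists
    have := hΓ.2 ψ hψ
    rw [mul_assoc, ← h0, mul_zero] at this
    rw [mul_assoc, ← h0, mul_zero]
    exact this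
  · rw [mul_assoc, ← div_le_iff₀ h0]
    refine le_csInf GN_set_ne fun Γ h => ?_
    rw [div_le_iff₀ h0, ← mul_assoc]
    exact h.2 ψ hψ

theorem Gst_pos : 0 < Gst := by
  obtain ⟨ψ, h, h1⟩ := exists_bump
  refine lt_of_le_of_ne Gst_GN.1 fun h0 => ?_
  have h2 := Gst_GN.2 ψ h
  rw [← h0, zero_mul, zero_mul] at h2
  have := P83_pos h (by rw [h1]; norm_num)
  nlinarith

theorem P83_smul {c : ℝ} (hc : 0 ≤ c) (ψ : E3 → ℝ) :
    P83 (fun x => c * ψ x) = c ^ (8/3:ℝ) * P83 ψ := by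
  unfold P83
  rw [← integral_const_mul]
  congr 1; ext x
  rw [abs_mul, Real.mul_rpow (abs_nonneg _) (abs_nonneg _), abs_of_nonneg hc]

theorem K1_smul (c : ℝ) {ψ : E3 → ℝ} (h : SC ψ) :
    K1 (fun x => c * ψ x) = c ^ 2 * K1 ψ := by
  unfold K1 Kn N2
  rw [Finset.mul_sum]
  refine Finset.sum_congr rfl fun k _ => ?_
  rw [← integral_const_mul]
  congr 1; ext x
  have : fderiv ℝ (fun x => c * ψ x) x = c • fderiv ℝ ψ x :=
    fderiv_const_mul (h.sm.differentiable (by norm_num) x) c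
  show (fderiv ℝ (fun x => c * ψ x) x (b3 k)) ^ 2 = c ^ 2 * (fderiv ℝ ψ x (b3 k)) ^ 2
  rw [this]
  show (c * fderiv ℝ ψ x (b3 k)) ^ 2 = _
  ring

/-- almost optimal functions -/
theorem exists_opt {G : ℝ} (h0 : 0 ≤ G) (hG : G < Gst) : ∃ ψ : E3 → ℝ, SC ψ ∧ N2 ψ = 1 ∧
    G * K1 ψ < P83 ψ ^ 2 := by
  have h1 : ¬ GN G := fun h => absurd (csInf_le GN_set_bdd h) (not_le.2 hG)
  have h2 : ∃ ψ : E3 → ℝ, SC ψ ∧ G * K1 ψ * N2 ψ ^ (5/3:ℝ) < P83 ψ ^ 2 := by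
    by_contra hcon
    push Not at hcon
    exact h1 ⟨h0, hcon⟩
  obtain ⟨ψ, hψ, hlt⟩ := h2
  have hN : 0 < N2 ψ := by
    refine lt_of_le_of_ne (N2_nonneg ψ) fun h => ?_
    have h3 := Gst_GN.2 ψ hψ
    have e : (N2 ψ) ^ (5/3:ℝ) = 0 := by rw [← h]; exact Real.zero_rpow (by norm_num)
    rw [e, mul_zero] at h3 hlt
    linarith
  obtain ⟨c, hc⟩ : ∃ c : ℝ, c = (√(N2 ψ))⁻¹ := ⟨_, rfl⟩
  have hc0 : 0 < c := by rw [hc]; exact inv_pos.2 (Real.sqrt_pos.2 hN)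
  have hc2 : c ^ 2 * N2 ψ = 1 := by
    rw [hc, inv_pow, Real.sq_sqrt hN.le]; exact inv_mul_cancel₀ hN.ne'
  refine ⟨fun x => c * ψ x, ⟨contDiff_const.mul hψ.sm, hψ.cc.mul_left⟩, ?_, ?_⟩
  · rw [N2_const_mul, hc2]
  · rw [P83_smul hc0.le, K1_smul c hψ]
    have hNe : N2 ψ = (c ^ 2)⁻¹ := eq_inv_of_mul_eq_one_left (by rw [mul_comm]; exact hc2)
    have e1 : (c ^ (8/3:ℝ)) ^ 2 = c ^ 2 * (c ^ 2) ^ (5/3:ℝ) := by
      rw [← Real.rpow_natCast, ← Real.rpow_natCast, ← Real.rpow_mul hc0.le, ← Real.rpow_mul hc0.le,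
        ← Real.rpow_add hc0]
      norm_num
    have e2 : N2 ψ ^ (5/3:ℝ) = ((c ^ 2) ^ (5/3:ℝ))⁻¹ := by
      rw [hNe, Real.inv_rpow (by positivity)]
    rw [e2] at hlt
    obtain ⟨w, hw⟩ : ∃ w : ℝ, w = (c ^ 2) ^ (5/3:ℝ) := ⟨_, rfl⟩
    have hw0 : 0 < w := by rw [hw]; positivity
    rw [mul_pow, e1]
    rw [← hw] at hlt ⊢
    have h3 : G * K1 ψ < P83 ψ ^ 2 * w := by
      rwa [← div_eq_mul_inv, div_lt_iff₀ hw0] at hlt
    calc G * (c ^ 2 * K1 ψ) = c ^ 2 * (G * K1 ψ) := by ring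
      _ < c ^ 2 * (P83 ψ ^ 2 * w) := mul_lt_mul_of_pos_left h3 (by positivity)
      _ = _ := by ring

/-! ### bounds for the energies -/

theorem cbrt5 (n : ℕ) : ∃ q : ℝ, 1 ≤ q ∧ q ^ 3 = (n:ℝ) + 1 ∧ q ^ 5 = ((n:ℝ) + 1) ^ (5/3:ℝ) := by
  have h0 : (0:ℝ) ≤ (n:ℝ) + 1 := by positivity
  refine ⟨((n:ℝ) + 1) ^ (1/3:ℝ), Real.one_le_rpow (by linarith [Nat.cast_nonneg (α := ℝ) n]) (by norm_num),
    cube_cr h0, ?_⟩
  rw [← Real.rpow_natCast, ← Real.rpow_mul h0]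
  norm_num

/-- lower bounds for smooth functions are lower bounds for all energies -/
theorem energies_ge {n₁ : ℕ} {z E : ℝ} (h : ∀ (K : ℕ) (R : Fin K → E3), z * K = (n₁:ℝ) + 1 → Function.Injective R →
    ∀ u : Cf (n₁ + 1) → ℝ, SC u → N2 u = 1 → E ≤ TT u + cen z u R) :
    ∀ e ∈ BCM.energies z (n₁ + 1), E ≤ e := by
  rintro e ⟨K, R, ψ, g, hK, hR, hψ, h1, rfl⟩
  exact energy_lower (h K R (by push_cast at hK; rw [hK, mul_comm]) hR) hψ h1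

/-- the energies are bounded below -/
theorem energies_bdd {z : ℝ} (hz : 0 < z) (n : ℕ) : BddBelow (BCM.energies z (n + 1)) := by
  obtain ⟨C, hC, hap⟩ := apriori hz
  obtain ⟨q, hq1, hq3, hq5⟩ := cbrt5 n
  refine ⟨-(C * q ^ 5), energies_ge fun K R hK hR u hu h1 => ?_⟩
  have h2 := hap n u hu h1 q hq1 hq3 K R hR hK
  have h3 : 0 ≤ TT u := TT_nonneg u
  linarith

/-- existence of energies -/
theorem energies_ne {z : ℝ} {n K : ℕ} (hK : ((n + 1 : ℕ) : ℝ) = K * z) :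
    (BCM.energies z (n + 1)).Nonempty := by
  obtain ⟨ψ, hψ, h1⟩ := exists_bump
  have hu : SC (pdt ψ : Cf (n + 1) → ℝ) := pdt_SC hψ
  have hN : N2 (pdt ψ : Cf (n + 1) → ℝ) = 1 := int_zero h1
  obtain ⟨φ, g, hφ, hφ1, -⟩ := of_SC hu hN z (fun j : Fin K => EuclideanSpace.single (0 : Fin 3) (j.val : ℝ))
  refine ⟨_, K, fun j : Fin K => EuclideanSpace.single (0 : Fin 3) (j.val : ℝ), φ, g, hK, ?_, hφ, hφ1, rfl⟩
  intro a b hab
  have h2 := congrArg (fun v : E3 => v 0) hab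
  simp at h2
  exact Fin.ext h2

/-- upper bounds -/
theorem ground_le {z : ℝ} (hz : 0 < z) {n K : ℕ} (hK : ((n + 1 : ℕ) : ℝ) = K * z) {R : Fin K → E3}
    (hR : Function.Injective R) {u : Cf (n + 1) → ℝ} (hu : SC u) (h1 : N2 u = 1) {E : ℝ}
    (hE : TT u + cen z u R ≤ E) : BCM.groundEnergy z (n + 1) ≤ E := by
  obtain ⟨φ, g, hφ, hφ1, he⟩ := of_SC hu h1 z R
  exact (csInf_le (energies_bdd hz n) ⟨K, R, φ, g, hK, hR, hφ, hφ1, rfl⟩).trans (he.le.trans hE)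

/-- the classical energies are bounded below -/
theorem EV_bdd {z : ℝ} (hz : 0 < z) (hfr : ∃ᶠ N in atTop, BCM.Admissible z N) : BddBelow (EV z) := by
  obtain ⟨ψ, hψ, h1⟩ := exists_bump
  obtain ⟨C, hC, hap⟩ := apriori hz
  have hP : 0 < P83 ψ := P83_pos hψ (by rw [h1]; norm_num)
  refine ⟨-(C + K1 ψ + 1) / P83 ψ, fun e he => ?_⟩
  obtain ⟨n₀, hn₀⟩ := upper_SC hz he hψ h1 one_pos (ε := 1) one_pos
  obtain ⟨N, hN, hadm⟩ := (hfr.and_eventually (eventually_ge_atTop (n₀ + 1))).exists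
  obtain ⟨hN1, K, hK⟩ := hN
  obtain ⟨n, rfl⟩ : ∃ n, N = n + 1 := ⟨N - 1, by omega⟩
  have hK' : z * K = (n:ℝ) + 1 := by rw [mul_comm, ← hK]; push_cast; ring
  obtain ⟨R, u, hR, hu, hu1, hle⟩ := hn₀ n (by omega) K hK'
  obtain ⟨q, hq1, hq3, hq5⟩ := cbrt5 n
  have h2 := hap n u hu hu1 q hq1 hq3 K R hR hK'
  have h3 : 0 ≤ TT u := TT_nonneg u
  rw [← hq5] at hle
  have hq : 0 < q ^ 5 := by positivity
  have h4 : -C * q ^ 5 ≤ (1 ^ 2 * K1 ψ + 1 * (e * P83 ψ) + 1) * q ^ 5 := by linarith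
  have h5 := le_of_mul_le_mul_right h4 hq
  rw [div_le_iff₀ hP]
  linarith

/-- the limit value -/
noncomputable def limE (z : ℝ) : ℝ := -((sInf (EV z)) ^ 2 * Gst / 4)

theorem lower_lim {z : ℝ} (hz : 0 < z) (hfr : ∃ᶠ N in atTop, BCM.Admissible z N) {ε : ℝ} (hε : 0 < ε) :
    ∀ᶠ N : ℕ in atTop ⊓ 𝓟 {N | BCM.Admissible z N},
      (limE z - ε) * (N:ℝ) ^ (5/3:ℝ) ≤ BCM.groundEnergy z N := by
  obtain ⟨e', he', hneg⟩ := EV_neg hz
  have hb := EV_bdd hz hfr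
  have h0 : sInf (EV z) ≤ 0 := (csInf_le hb he').trans hneg.le
  obtain ⟨N₀, hN₀⟩ := lower_SC hz h0 (fun e he => csInf_le hb he) Gst_GN hε
  rw [eventually_inf_principal]
  filter_upwards [eventually_ge_atTop (N₀ + 1)] with N hN hadm
  obtain ⟨hN1, K, hK⟩ := hadm
  obtain ⟨n, rfl⟩ : ∃ n, N = n + 1 := ⟨N - 1, by omega⟩
  unfold BCM.groundEnergy
  refine le_csInf (energies_ne hK) ?_
  refine energies_ge fun K' R hK' hR u hu h1 => ?_
  have := hN₀ n (by omega) u hu h1 K' R hR hK'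
  unfold limE
  push_cast
  refine le_trans (le_of_eq ?_) this
  ring

theorem upper_lim {z : ℝ} (hz : 0 < z) (hfr : ∃ᶠ N in atTop, BCM.Admissible z N) {ε : ℝ} (hε : 0 < ε) :
    ∀ᶠ N : ℕ in atTop ⊓ 𝓟 {N | BCM.Admissible z N},
      BCM.groundEnergy z N ≤ (limE z + ε) * (N:ℝ) ^ (5/3:ℝ) := by
  obtain ⟨e', he', hneg⟩ := EV_neg hz
  have hb := EV_bdd hz hfr
  have h0 : sInf (EV z) < 0 := (csInf_le hb he').trans_lt hneg
  obtain ⟨A, hA⟩ : ∃ A : ℝ, A = -sInf (EV z) := ⟨_, rfl⟩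
  have hA0 : 0 < A := by rw [hA]; linarith
  have hG0 := Gst_pos
  obtain ⟨B, hB⟩ : ∃ B : ℝ, B = A ^ 2 * Gst := ⟨_, rfl⟩
  have hB0 : 0 < B := by rw [hB]; positivity
  -- the small parameter
  obtain ⟨δ, hδ0, hδ1, hδB⟩ : ∃ δ : ℝ, 0 < δ ∧ δ < 1 ∧ 3 * δ * B ≤ 2 * ε := by
    refine ⟨min (1/2) (2 * ε / (3 * B)), lt_min (by norm_num) (by positivity),
      lt_of_le_of_lt (min_le_left _ _) (by norm_num), ?_⟩
    calc 3 * min (1/2) (2 * ε / (3 * B)) * B ≤ 3 * (2 * ε / (3 * B)) * B := by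
          gcongr; exact min_le_right _ _
      _ = 2 * ε := by field_simp
  obtain ⟨e, he, hlt⟩ : ∃ e ∈ EV z, e < -(A * (1 - δ)) := by
    refine exists_lt_of_csInf_lt ⟨e', he'⟩ ?_
    have : sInf (EV z) = -A := by rw [hA]; ring
    rw [this]
    nlinarith
  obtain ⟨ψ, hψ, hψ1, hopt⟩ := exists_opt (G := Gst * (1 - δ))
    (mul_nonneg hG0.le (by linarith)) (by nlinarith)
  have hP : 0 < P83 ψ := P83_pos hψ (by rw [hψ1]; norm_num)
  have hK1 : 0 < K1 ψ := K1_pos hψ (by rw [hψ1]; norm_num)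
  have hAd : 0 < A * (1 - δ) := mul_pos hA0 (by linarith)
  have he0 : 0 < -e := by linarith
  obtain ⟨n₀, hn₀⟩ := upper_SC hz he hψ hψ1 (lam := (-e) * P83 ψ / (2 * K1 ψ)) (by positivity)
    (ε := ε / 2) (by linarith)
  have key : ((-e) * P83 ψ / (2 * K1 ψ)) ^ 2 * K1 ψ + (-e) * P83 ψ / (2 * K1 ψ) * (e * P83 ψ) + ε / 2 ≤
      limE z + ε := by
    have e1 : ((-e) * P83 ψ / (2 * K1 ψ)) ^ 2 * K1 ψ + (-e) * P83 ψ / (2 * K1 ψ) * (e * P83 ψ) =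
        -((-e) ^ 2 * (P83 ψ ^ 2 / K1 ψ) / 4) := by
      field_simp; ring
    have e2 : Gst * (1 - δ) ≤ P83 ψ ^ 2 / K1 ψ := by
      rw [le_div_iff₀ hK1]; exact hopt.le
    have e3 : (A * (1 - δ)) ^ 2 ≤ (-e) ^ 2 := pow_le_pow_left₀ hAd.le (by linarith) 2
    have e4 : (A * (1 - δ)) ^ 2 * (Gst * (1 - δ)) ≤ (-e) ^ 2 * (P83 ψ ^ 2 / K1 ψ) :=
      mul_le_mul e3 e2 (mul_nonneg hG0.le (by linarith)) (sq_nonneg _)
    have e5 : (A * (1 - δ)) ^ 2 * (Gst * (1 - δ)) = B * (1 - δ) ^ 3 := by rw [hB]; ring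
    have e6 : 1 - 3 * δ ≤ (1 - δ) ^ 3 := by nlinarith [mul_pos hδ0 hδ0, sq_nonneg δ]
    have e7 : B * (1 - 3 * δ) ≤ B * (1 - δ) ^ 3 := mul_le_mul_of_nonneg_left e6 hB0.le
    have e8 : limE z = -(B / 4) := by
      unfold limE; rw [hB, hA]; ring
    rw [e1, e8]
    rw [e5] at e4
    linarith
  rw [eventually_inf_principal]
  filter_upwards [eventually_ge_atTop (n₀ + 1)] with N hN hadm
  obtain ⟨hN1, K, hK⟩ := hadm
  obtain ⟨n, rfl⟩ : ∃ n, N = n + 1 := ⟨N - 1, by omega⟩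
  have hK' : z * K = (n:ℝ) + 1 := by rw [mul_comm, ← hK]; push_cast; ring
  obtain ⟨R, u, hR, hu, hu1, hle⟩ := hn₀ n (by omega) K hK'
  refine ground_le hz hK hR hu hu1 (hle.trans ?_)
  push_cast
  exact mul_le_mul_of_nonneg_right key (Real.rpow_nonneg (by positivity) _)

theorem limE_neg {z : ℝ} (hz : 0 < z) (hfr : ∃ᶠ N in atTop, BCM.Admissible z N) : limE z < 0 := by
  obtain ⟨e', he', hneg⟩ := EV_neg hz
  have h0 : sInf (EV z) < 0 := (csInf_le (EV_bdd hz hfr) he').trans_lt hneg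
  have hG0 := Gst_pos
  have : 0 < (sInf (EV z)) ^ 2 := by nlinarith
  unfold limE
  have := mul_pos this hG0
  linarith

/-- **Main theorem** -/
theorem main_lim {z : ℝ} (hz : 0 < z) :
    ∃ ℓ : ℝ, ℓ < 0 ∧ Tendsto (fun N : ℕ => BCM.groundEnergy z N / (N : ℝ) ^ (5/3:ℝ))
      (atTop ⊓ 𝓟 {N | BCM.Admissible z N}) (𝓝 ℓ) := by
  by_cases hfr : ∃ᶠ N in atTop, BCM.Admissible z N
  · refine ⟨limE z, limE_neg hz hfr, ?_⟩
    rw [Metric.tendsto_nhds]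
    intro ε hε
    have hpos : ∀ᶠ N : ℕ in atTop ⊓ 𝓟 {N | BCM.Admissible z N}, 1 ≤ N :=
      (eventually_ge_atTop 1).filter_mono inf_le_left
    filter_upwards [lower_lim hz hfr (half_pos hε), upper_lim hz hfr (half_pos hε), hpos] with N h1 h2 h3
    have hN : (0:ℝ) < (N:ℝ) ^ (5/3:ℝ) := Real.rpow_pos_of_pos (by exact_mod_cast h3) _
    rw [Real.dist_eq, abs_lt]
    have h4 := (le_div_iff₀ hN).2 h1
    have h5 := (div_le_iff₀ hN).2 h2
    constructor <;> linarith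
  · refine ⟨-1, by norm_num, ?_⟩
    have : (atTop ⊓ 𝓟 {N : ℕ | BCM.Admissible z N}) = ⊥ := by
      rw [← not_neBot, ← frequently_mem_iff_neBot]
      exact hfr
    rw [this]
    exact tendsto_bot

end Pool.Agent.Helper985.BM
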