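import Pool.Agent.Helper985.BM.D1

set_option autoImplicit false

open MeasureTheory Filter Topology Set
open scoped ContDiff

namespace Pool.Agent.Helper985.BM

open VR

/-- lattice vectors -/
noncomputable def lv (ℓ : ℝ) (m : Fin 3 → ℤ) : E3 := WithLp.toLp 2 fun i => ℓ * (m i : ℝ)

@[simp] theorem lv_apply (ℓ : ℝ) (m : Fin 3 → ℤ) (i : Fin 3) : lv ℓ m i = ℓ * m i := rfl

theorem lv_zero (ℓ : ℝ) : lv ℓ 0 = 0 := by ext i; simp

/-- periodic configuration with pair energy at most `P` -/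
structure Adm {k : ℕ} (ℓ : ℝ) (R : Fin k → E3) (P : ℝ) : Prop where
  sep : ∀ i j m, R i - R j + lv ℓ m = 0 → i = j ∧ m = 0
  bd : ∀ F : Finset ((Fin k × Fin k) × (Fin 3 → ℤ)),
    ∑ t ∈ F, Yk (R t.1.1 - R t.1.2 + lv ℓ t.2) ≤ P

/-- energy of a periodic configuration relative to the density to the power `4/3` -/
noncomputable def ev (z : ℝ) (k : ℕ) (ℓ P : ℝ) : ℝ :=
  (z ^ 2 * P / 2 - c3 * (z * k) ^ 2 / ℓ ^ 3 / 2) / ((z * k / ℓ ^ 3) ^ (4/3:ℝ) * ℓ ^ 3)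

/-- the set of energies of periodic configurations -/
def EV (z : ℝ) : Set ℝ := {e | ∃ (k : ℕ) (ℓ : ℝ) (R : Fin k → E3) (P : ℝ),
  0 < k ∧ 0 < ℓ ∧ Adm ℓ R P ∧ e = ev z k ℓ P}

/-! ### images -/

theorem expZ_summable : Summable fun m : ℤ => Real.exp (-|(m:ℝ)|) := by
  refine Summable.of_nat_of_neg ?_ ?_
  · simpa using Real.summable_exp_neg_nat
  · simpa using Real.summable_exp_neg_nat

noncomputable def sZ : ℝ := ∑' m : ℤ, Real.exp (-|(m:ℝ)|)

theorem sZ_nonneg : 0 ≤ sZ := tsum_nonneg fun _ => (Real.exp_pos _).le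

/-- total length of an index -/
noncomputable def l1 (m : Fin 3 → ℤ) : ℝ := ∑ i, |(m i : ℝ)|

theorem lattice_sum (F : Finset (Fin 3 → ℤ)) : ∑ m ∈ F, Real.exp (-l1 m) ≤ sZ ^ 3 := by
  classical
  have hsub : F ⊆ Fintype.piFinset fun i : Fin 3 => F.image fun m => m i := by
    intro m hm
    rw [Fintype.mem_piFinset]
    exact fun i => Finset.mem_image_of_mem _ hm
  refine (Finset.sum_le_sum_of_subset_of_nonneg hsub fun _ _ _ => (Real.exp_pos _).le).trans ?_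
  have e : ∀ m : Fin 3 → ℤ, Real.exp (-l1 m) = ∏ i, Real.exp (-|(m i : ℝ)|) := by
    intro m
    rw [← Real.exp_sum, l1, Finset.sum_neg_distrib]
  simp_rw [e]
  rw [← Finset.prod_univ_sum (fun i : Fin 3 => F.image fun m => m i) (fun _ (j : ℤ) => Real.exp (-|(j:ℝ)|))]
  have h : ∀ i : Fin 3, ∑ j ∈ (F.image (fun m => m i) : Finset ℤ), Real.exp (-|(j:ℝ)|) ≤ sZ := fun i =>
    expZ_summable.sum_le_tsum _ fun _ _ => (Real.exp_pos _).le
  calc ∏ i : Fin 3, ∑ j ∈ (F.image (fun m => m i) : Finset ℤ), Real.exp (-|(j:ℝ)|) ≤ ∏ _i : Fin 3, sZ :=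
        Finset.prod_le_prod (fun i _ => Finset.sum_nonneg fun _ _ => (Real.exp_pos _).le) fun i _ => h i
    _ = sZ ^ 3 := by simp

/-- distance of an image -/
theorem image_dist {h d : ℝ} (hd : 0 ≤ d) (hh : 3 ≤ h) {v : E3} (hv : ∀ i, |v i| ≤ h - 2 * d)
    {m : Fin 3 → ℤ} (hm : m ≠ 0) : 2 * d ≤ ‖v + lv h m‖ ∧ 2 * d + l1 m - 3 ≤ ‖v + lv h m‖ := by
  obtain ⟨i, -, hi⟩ := Finset.exists_max_image (Finset.univ : Finset (Fin 3)) (fun i => |(m i : ℝ)|)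
    ⟨0, Finset.mem_univ _⟩
  have hmi : 1 ≤ |(m i : ℝ)| := by
    obtain ⟨j, hj⟩ := Function.ne_iff.1 hm
    have h1 : (1:ℝ) ≤ |(m j : ℝ)| := by
      have : (1:ℤ) ≤ |m j| := Int.one_le_abs hj
      exact_mod_cast this
    exact h1.trans (hi j (Finset.mem_univ _))
  have h1 : |(v + lv h m) i| ≤ ‖v + lv h m‖ := coord_le _ i
  have h2 : h * |(m i : ℝ)| - (h - 2 * d) ≤ |(v + lv h m) i| := by
    have e : (v + lv h m) i = h * (m i : ℝ) + v i := by
      rw [PiLp.add_apply, lv_apply]; ring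
    rw [e]
    have h3 : |h * (m i : ℝ)| - |v i| ≤ |h * (m i : ℝ) + v i| := by
      have := abs_sub_abs_le_abs_sub (h * (m i : ℝ)) (-v i)
      rwa [abs_neg, sub_neg_eq_add] at this
    rw [abs_mul, abs_of_nonneg (by linarith : (0:ℝ) ≤ h)] at h3
    linarith [hv i]
  have h3 : l1 m ≤ 3 * |(m i : ℝ)| := by
    unfold l1
    have := Finset.sum_le_card_nsmul (Finset.univ : Finset (Fin 3)) (fun j => |(m j : ℝ)|) |(m i : ℝ)|
      fun j hj => hi j hj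
    simpa using this
  constructor
  · nlinarith
  · nlinarith

noncomputable def tail (d : ℝ) : ℝ := Real.exp 3 * Real.exp (-(2 * d)) * sZ ^ 3

theorem tail_nonneg (d : ℝ) : 0 ≤ tail d := by
  unfold tail; have := sZ_nonneg; positivity

theorem Yk_image {h d : ℝ} (hd : 1/2 ≤ d) (hh : 3 ≤ h) {v : E3} (hv : ∀ i, |v i| ≤ h - 2 * d)
    {m : Fin 3 → ℤ} (hm : m ≠ 0) :
    Yk (v + lv h m) ≤ Real.exp 3 * Real.exp (-(2 * d)) * Real.exp (-l1 m) := by
  obtain ⟨h1, h2⟩ := image_dist (by linarith) hh hv hm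
  unfold Yk
  have h3 : 1 ≤ ‖v + lv h m‖ := by linarith
  rw [div_le_iff₀ (by linarith)]
  have h4 : Real.exp (-‖v + lv h m‖) ≤ Real.exp 3 * Real.exp (-(2 * d)) * Real.exp (-l1 m) := by
    rw [← Real.exp_add, ← Real.exp_add]
    apply Real.exp_le_exp.2; linarith
  have h5 : 0 ≤ Real.exp 3 * Real.exp (-(2 * d)) * Real.exp (-l1 m) := by positivity
  nlinarith

theorem adm_of_cube {k : ℕ} {R : Fin k → E3} (hR : Function.Injective R) {h d : ℝ} (hd : 1/2 ≤ d)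
    (hh : 3 ≤ h) (hv : ∀ a b i, |R a i - R b i| ≤ h - 2 * d) :
    Adm h R ((∑ a, ∑ b, Yk (R a - R b)) + (k:ℝ) ^ 2 * tail d) := by
  have hv' : ∀ a b i, |(R a - R b) i| ≤ h - 2 * d := fun a b i => by
    rw [PiLp.sub_apply]; exact hv a b i
  refine ⟨fun a b m hm => ?_, fun F => ?_⟩
  · by_cases h0 : m = 0
    · subst h0
      rw [lv_zero, add_zero, sub_eq_zero] at hm
      exact ⟨hR hm, rfl⟩
    · have := (image_dist (by linarith) hh (hv' a b) h0).1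
      rw [hm, norm_zero] at this
      linarith
  · classical
    -- all pairs times finitely many indices
    set F2 : Finset (Fin 3 → ℤ) := insert 0 (F.image fun t => t.2) with hF2
    have hsub : F ⊆ (Finset.univ : Finset (Fin k × Fin k)) ×ˢ F2 := by
      intro t ht
      rw [Finset.mem_product]
      exact ⟨Finset.mem_univ _, Finset.mem_insert_of_mem (Finset.mem_image_of_mem _ ht)⟩
    refine (Finset.sum_le_sum_of_subset_of_nonneg hsub fun _ _ _ => Yk_nonneg _).trans ?_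
    rw [Finset.sum_product]
    have h1 : ∀ p : Fin k × Fin k, ∑ m ∈ F2, Yk (R p.1 - R p.2 + lv h m) ≤
        Yk (R p.1 - R p.2) + tail d := by
      intro p
      rw [hF2, ← Finset.insert_erase (Finset.mem_insert_self 0 (F.image fun t => t.2)),
        Finset.sum_insert (Finset.notMem_erase _ _), lv_zero, add_zero]
      refine add_le_add le_rfl ?_
      refine (Finset.sum_le_sum fun m hm => Yk_image hd hh (hv' p.1 p.2) (Finset.ne_of_mem_erase hm)).trans ?_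
      rw [← Finset.mul_sum]
      unfold tail
      exact mul_le_mul_of_nonneg_left (lattice_sum _) (by positivity)
    refine (Finset.sum_le_sum fun p _ => h1 p).trans (le_of_eq ?_)
    rw [Finset.sum_add_distrib]
    congr 1
    · exact Fintype.sum_prod_type _
    · rw [Finset.sum_const, Finset.card_univ, Fintype.card_prod, Fintype.card_fin, nsmul_eq_mul]
      push_cast; ring

/-! ### one cell -/

/-- Bernoulli: tangent line of the power `4/3` -/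
theorem tangent43 {a x : ℝ} (ha : 0 < a) (hx : 0 ≤ x) :
    a ^ (4/3:ℝ) + (4/3) * a ^ (1/3:ℝ) * (x - a) ≤ x ^ (4/3:ℝ) := by
  have h := one_add_mul_self_le_rpow_one_add (s := x / a - 1) (by
    have : 0 ≤ x / a := by positivity
    linarith) (p := 4/3) (by norm_num)
  have e : 1 + (x / a - 1) = x / a := by ring
  rw [e, Real.div_rpow hx ha.le] at h
  have ha4 : 0 < a ^ (4/3:ℝ) := Real.rpow_pos_of_pos ha _
  rw [le_div_iff₀ ha4] at h
  have e2 : a ^ (4/3:ℝ) = a ^ (1/3:ℝ) * a := by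
    rw [← Real.rpow_add_one ha.ne']; norm_num
  calc a ^ (4/3:ℝ) + (4/3) * a ^ (1/3:ℝ) * (x - a) =
      (1 + 4/3 * (x / a - 1)) * a ^ (4/3:ℝ) := by
        rw [e2]; field_simp
    _ ≤ _ := h

/-- the quadratic term pays for replacing the density -/
theorem cell_alg {e₀ : ℝ} (he : e₀ ≤ 0) {a x : ℝ} (ha : 0 < a) (hx : 0 ≤ x) :
    e₀ * x ^ (4/3:ℝ) - (|e₀| + e₀ ^ 2 * (8/9) / c3) * a ≤ (1/2) * c3 * (x - a) ^ 2 + e₀ * a ^ (4/3:ℝ) := by
  have hc := c3_pos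
  have hx4 : 0 ≤ x ^ (4/3:ℝ) := Real.rpow_nonneg hx _
  have hC0 : 0 ≤ e₀ ^ 2 * (8/9) / c3 := by positivity
  rcases le_total a 1 with h1 | h1
  · -- small density
    have h2 : a ^ (4/3:ℝ) ≤ a := by
      have := Real.rpow_le_rpow_of_exponent_ge ha h1 (show (1:ℝ) ≤ 4/3 by norm_num)
      rwa [Real.rpow_one] at this
    have h3 : e₀ * a ≤ e₀ * a ^ (4/3:ℝ) := by nlinarith
    have h4 : e₀ * x ^ (4/3:ℝ) ≤ 0 := mul_nonpos_of_nonpos_of_nonneg he hx4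
    have h5 : -(|e₀|) * a ≤ e₀ * a := by
      rw [abs_of_nonpos he]; simp
    have h6 : 0 ≤ (1/2) * c3 * (x - a) ^ 2 := by positivity
    nlinarith [mul_nonneg hC0 ha.le]
  · have h2 := tangent43 ha hx
    have hr : 0 ≤ a ^ (1/3:ℝ) := Real.rpow_nonneg ha.le _
    have h3 : (a ^ (1/3:ℝ)) ^ 2 ≤ a := by
      rw [← Real.rpow_natCast, ← Real.rpow_mul ha.le]
      have := Real.rpow_le_rpow_of_exponent_le h1 (show (1/3:ℝ) * ((2:ℕ):ℝ) ≤ 1 by norm_num)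
      rwa [Real.rpow_one] at this
    set r := a ^ (1/3:ℝ) with hrdef
    -- e₀ x^{4/3} ≤ e₀ (a^{4/3} + 4/3 r (x - a))
    have h4 : e₀ * x ^ (4/3:ℝ) ≤ e₀ * (a ^ (4/3:ℝ) + (4/3) * r * (x - a)) :=
      mul_le_mul_of_nonpos_left h2 he
    have h5 : e₀ * ((4/3) * r * (x - a)) ≤ (1/2) * c3 * (x - a) ^ 2 + e₀ ^ 2 * (8/9) / c3 * r ^ 2 := by
      have e : (1/2) * c3 * (x - a) ^ 2 + e₀ ^ 2 * (8/9) / c3 * r ^ 2 - e₀ * ((4/3) * r * (x - a)) =
          (1/2) / c3 * (c3 * (x - a) - (4/3) * e₀ * r) ^ 2 := by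
        field_simp; ring
      have : 0 ≤ (1/2) / c3 * (c3 * (x - a) - (4/3) * e₀ * r) ^ 2 := by positivity
      linarith
    have h6 : e₀ ^ 2 * (8/9) / c3 * r ^ 2 ≤ e₀ ^ 2 * (8/9) / c3 * a := by gcongr
    have h7 : 0 ≤ |e₀| * a := by positivity
    nlinarith

/-- energy of one cell -/
theorem cell_bound {z : ℝ} (hz : 0 < z) {e₀ : ℝ} (he : e₀ ≤ 0) (hE : ∀ e ∈ EV z, e₀ ≤ e)
    {κ : Type*} [DecidableEq κ] {R : κ → E3} (hR : Function.Injective R) (S : Finset κ)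
    {h d : ℝ} (hd : 1/2 ≤ d) (hh : 3 ≤ h) (hv : ∀ a ∈ S, ∀ b ∈ S, ∀ i, |R a i - R b i| ≤ h - 2 * d)
    {x : ℝ} (hx : 0 ≤ x) :
    e₀ * (x ^ (4/3:ℝ) * h ^ 3) - (|e₀| + e₀ ^ 2 * (8/9) / c3) * (z * S.card) -
      z ^ 2 * ((S.card:ℝ) ^ 2 * tail d) / 2 ≤
    (1/2) * c3 * (x ^ 2 * h ^ 3) - c3 * x * (z * S.card) +
      z ^ 2 * ((1/2) * ∑ a ∈ S, ∑ b ∈ S, Yk (R a - R b)) := by
  have hc := c3_pos
  have hh0 : 0 < h := by linarith
  have hx4 : 0 ≤ x ^ (4/3:ℝ) := Real.rpow_nonneg hx _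
  rcases S.eq_empty_or_nonempty with hS | hS
  · subst hS
    have h1 : e₀ * (x ^ (4/3:ℝ) * h ^ 3) ≤ 0 := mul_nonpos_of_nonpos_of_nonneg he (by positivity)
    have h2 : 0 ≤ (1/2) * c3 * (x ^ 2 * h ^ 3) := by positivity
    simp only [Finset.card_empty, Nat.cast_zero, mul_zero, Finset.sum_empty]
    simp only [ne_eq, OfNat.ofNat_ne_zero, not_false_eq_true, zero_pow, zero_mul, mul_zero, zero_div]
    linarith
  set k := S.card with hk
  have hk0 : 0 < k := Finset.card_pos.2 hS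
  have hkR : (0:ℝ) < k := by exact_mod_cast hk0
  let eq : Fin k ≃ S := S.equivFin.symm
  have hinj : Function.Injective fun a : Fin k => R (eq a) :=
    hR.comp (Subtype.val_injective.comp eq.injective)
  have hadm := adm_of_cube hinj hd hh (fun a b i => hv _ (eq a).2 _ (eq b).2 i)
  have esum : ∑ a : Fin k, ∑ b : Fin k, Yk (R (eq a) - R (eq b)) = ∑ a ∈ S, ∑ b ∈ S, Yk (R a - R b) := by
    rw [← Finset.sum_coe_sort S, ← eq.sum_comp]
    refine Finset.sum_congr rfl fun a _ => ?_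
    rw [← Finset.sum_coe_sort S, ← eq.sum_comp]
  rw [esum] at hadm
  have h1 := hE _ ⟨k, h, _, _, hk0, hh0, hadm, rfl⟩
  unfold ev at h1
  set a := z * k / h ^ 3 with ha
  have ha0 : 0 < a := by positivity
  have ha4 : 0 < a ^ (4/3:ℝ) := Real.rpow_pos_of_pos ha0 _
  rw [le_div_iff₀ (by positivity)] at h1
  have h2 := mul_le_mul_of_nonneg_right (cell_alg he ha0 hx) (show 0 ≤ h ^ 3 by positivity)
  have e1 : a * h ^ 3 = z * k := by rw [ha]; field_simp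
  have e2 : c3 * (z * k) ^ 2 / h ^ 3 / 2 = (1/2) * c3 * a ^ 2 * h ^ 3 := by
    rw [ha]; field_simp
  rw [e2] at h1
  have e3 : (1/2) * c3 * (x - a) ^ 2 * h ^ 3 =
      (1/2) * c3 * (x ^ 2 * h ^ 3) - c3 * x * (a * h ^ 3) + (1/2) * c3 * a ^ 2 * h ^ 3 := by ring
  rw [e1] at e3
  have e4 : (|e₀| + e₀ ^ 2 * (8/9) / c3) * a * h ^ 3 = (|e₀| + e₀ ^ 2 * (8/9) / c3) * (z * k) := by
    rw [mul_assoc, e1]
  have e5 : z ^ 2 * ((∑ a ∈ S, ∑ b ∈ S, Yk (R a - R b)) + (k:ℝ) ^ 2 * tail d) / 2 =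
    z ^ 2 * ((1/2) * ∑ a ∈ S, ∑ b ∈ S, Yk (R a - R b)) + z ^ 2 * ((k:ℝ) ^ 2 * tail d) / 2 := by ring
  rw [e5] at h1
  nlinarith [h1, h2, e3, e4]

end Pool.Agent.Helper985.BM
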