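import Pool.Agent.Helper985.BM.C2
import Pool.Agent.Helper985.BM.G1
import Pool.Agent.Helper985.BM.G2
import Pool.Agent.Helper985.BM.R2

set_option autoImplicit false

open MeasureTheory Filter Topology Set
open scoped ContDiff

namespace Pool.Agent.Helper985.BM

open VR

/-- average over a cube -/
noncomputable def av (h s : ℝ) (r : E3 → ℝ) (q : Fin 3 → ℤ) : ℝ := (∫ x in Qc h s q, r x) / h ^ 3

theorem av_nonneg {h s : ℝ} (hh : 0 < h) {r : E3 → ℝ} (h0 : ∀ x, 0 ≤ r x) (q : Fin 3 → ℤ) :
    0 ≤ av h s r q := div_nonneg (integral_nonneg h0) (by positivity)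

theorem av_mul {h s : ℝ} (hh : 0 < h) (r : E3 → ℝ) (q : Fin 3 → ℤ) :
    av h s r q * h ^ 3 = ∫ x in Qc h s q, r x := by unfold av; field_simp

theorem Qc_fin {h s : ℝ} (hh : 0 < h) (q : Fin 3 → ℤ) :
    IsFiniteMeasure ((volume : Measure E3).restrict (Qc h s q)) := by
  constructor
  rw [Measure.restrict_apply_univ, Qc_vol hh]
  exact ENNReal.ofReal_lt_top

theorem Qc_const {h s : ℝ} (hh : 0 < h) (q : Fin 3 → ℤ) (c : ℝ) :
    ∫ _x in Qc h s q, c = c * h ^ 3 := by
  rw [integral_const, Measure.real, Measure.restrict_apply_univ, Qc_vol hh,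
    ENNReal.toReal_ofReal (by positivity), smul_eq_mul, mul_comm]

theorem sum_cubes {h s : ℝ} (hh : 0 < h) {f : E3 → ℝ} (hf : Integrable f) (h0 : ∀ x, 0 ≤ f x)
    (Z : Finset (Fin 3 → ℤ)) : ∑ q ∈ Z, ∫ x in Qc h s q, f x ≤ ∫ x, f x := by
  classical
  have e : ∀ q, ∫ x in Qc h s q, f x = ∫ x, (Qc h s q).indicator f x := fun q =>
    (integral_indicator (Qc_meas hh q)).symm
  simp_rw [e]
  rw [← integral_finsetSum _ fun q _ => hf.indicator (Qc_meas hh q)]
  refine integral_mono (integrable_finsetSum _ fun q _ => hf.indicator (Qc_meas hh q)) hf fun x => ?_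
  have h1 : ∀ q, (Qc h s q).indicator f x = if q = ci h s x then f x else 0 := by
    intro q
    by_cases hq : q = ci h s x
    · rw [if_pos hq, Set.indicator_of_mem]; exact hq.symm
    · rw [if_neg hq, Set.indicator_of_notMem]; exact fun h => hq h.symm
  simp only [h1]
  rw [Finset.sum_ite_eq']
  split_ifs
  · exact le_rfl
  · exact h0 x

/-- potential at a good point -/
theorem pot_good {h s d : ℝ} (hh : 0 < h) {r : E3 → ℝ} (hr : Integrable r)
    (h0 : ∀ x, 0 ≤ r x) {x : E3} (hx : gdc d h s x) :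
    ∫ b, Vk (x - b) * r b ≤ c3 * av h s r (ci h s x) +
      5 * (∫ b in Qc h s (ci h s x), |r b - av h s r (ci h s x)|) + 5 * Real.exp (-d) * ∫ b, r b := by
  set q := ci h s x with hq
  set a := av h s r q with ha
  have ha0 : 0 ≤ a := av_nonneg hh h0 q
  have hQ := Qc_meas (h := h) (s := s) hh q
  haveI := Qc_fin (h := h) (s := s) hh q
  have hi := kr_int Vk_cont.measurable Vk_abs hr x
  have hiV : Integrable fun b => Vk (x - b) := Vk_int.comp_sub_left x
  have hiA : IntegrableOn (fun b => |r b - a|) (Qc h s q) :=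
    (hr.integrableOn.sub (integrable_const a)).abs
  rw [← integral_add_compl hQ hi]
  have h1 : ∫ b in Qc h s q, Vk (x - b) * r b ≤ c3 * a + 5 * ∫ b in Qc h s q, |r b - a| := by
    have h2 : ∫ b in Qc h s q, Vk (x - b) * r b ≤
        ∫ b in Qc h s q, (Vk (x - b) * a + 5 * |r b - a|) := by
      refine integral_mono hi.integrableOn ((hiV.integrableOn.mul_const a).add (hiA.const_mul 5)) fun b => ?_
      have h3 := Vk_nonneg (x - b)
      have h4 := Vk_le5 (x - b)
      have h5 := le_abs_self (r b - a)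
      have h6 := abs_nonneg (r b - a)
      show Vk (x - b) * r b ≤ Vk (x - b) * a + 5 * |r b - a|
      have h7 : Vk (x - b) * (r b - a) ≤ Vk (x - b) * |r b - a| := mul_le_mul_of_nonneg_left h5 h3
      have h8 : Vk (x - b) * |r b - a| ≤ 5 * |r b - a| := mul_le_mul_of_nonneg_right h4 h6
      linarith
    refine h2.trans ?_
    rw [integral_add (hiV.integrableOn.mul_const a) (hiA.const_mul 5), integral_mul_const,
      integral_const_mul]
    have h9 : ∫ b in Qc h s q, Vk (x - b) ≤ c3 := by
      have := setIntegral_le_integral (s := Qc h s q) hiV (Eventually.of_forall fun b => Vk_nonneg (x - b))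
      rwa [int_sub_left', Vk_integral] at this
    have := mul_le_mul_of_nonneg_right h9 ha0
    linarith
  have h2 : ∫ b in (Qc h s q)ᶜ, Vk (x - b) * r b ≤ 5 * Real.exp (-d) * ∫ b, r b := by
    have h3 : ∫ b in (Qc h s q)ᶜ, Vk (x - b) * r b ≤ ∫ b in (Qc h s q)ᶜ, 5 * Real.exp (-d) * r b := by
      refine setIntegral_mono_on hi.integrableOn (hr.integrableOn.const_mul _) hQ.compl fun b hb => ?_
      refine mul_le_mul_of_nonneg_right ((Vk_le _).trans ?_) (h0 b)
      refine mul_le_mul_of_nonneg_left ?_ (by norm_num)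
      have : d ≤ ‖x - b‖ := by
        by_contra hc
        exact hb (good_near hh hx (not_le.1 hc))
      unfold ek
      apply Real.exp_le_exp.2; linarith
    refine h3.trans ?_
    rw [integral_const_mul]
    exact mul_le_mul_of_nonneg_left (setIntegral_le_integral hr (Eventually.of_forall h0)) (by positivity)
  linarith

/-- variance in a cube -/
noncomputable def vr (h s : ℝ) (r : E3 → ℝ) (q : Fin 3 → ℤ) : ℝ :=
  ∫ x in Qc h s q, (r x - av h s r q) ^ 2

theorem vr_nonneg (h s : ℝ) (r : E3 → ℝ) (q : Fin 3 → ℤ) : 0 ≤ vr h s r q :=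
  integral_nonneg fun _ => sq_nonneg _

theorem vr_eq {h s : ℝ} (hh : 0 < h) {r : E3 → ℝ} (hr : Integrable r)
    (hr2 : Integrable fun x => r x ^ 2) (q : Fin 3 → ℤ) :
    vr h s r q = (∫ x in Qc h s q, r x ^ 2) - av h s r q ^ 2 * h ^ 3 := by
  haveI := Qc_fin (h := h) (s := s) hh q
  unfold vr
  set a := av h s r q with ha
  have e : ∀ x, (r x - a) ^ 2 = r x ^ 2 - (2 * a * r x - a ^ 2) := fun x => by ring
  simp_rw [e]
  have i1 : IntegrableOn (fun x => r x ^ 2) (Qc h s q) := hr2.integrableOn
  have i2 : IntegrableOn (fun x => 2 * a * r x) (Qc h s q) := hr.integrableOn.const_mul _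
  have i3 : IntegrableOn (fun x => 2 * a * r x - a ^ 2) (Qc h s q) := i2.sub (integrable_const _)
  rw [integral_sub i1 i3, integral_sub i2 (integrable_const _), integral_const_mul, Qc_const hh,
    ← av_mul hh r q]
  ring

/-- Cauchy-Schwarz in a cube -/
theorem cs_cube {h s : ℝ} (hh : 0 < h) {g : E3 → ℝ} (q : Fin 3 → ℤ)
    (hg : IntegrableOn g (Qc h s q)) (hg2 : IntegrableOn (fun x => g x ^ 2) (Qc h s q)) :
    (∫ x in Qc h s q, g x) ^ 2 ≤ h ^ 3 * ∫ x in Qc h s q, g x ^ 2 := by
  haveI := Qc_fin (h := h) (s := s) hh q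
  set a := (∫ x in Qc h s q, g x) / h ^ 3 with ha
  have hah : a * h ^ 3 = ∫ x in Qc h s q, g x := by rw [ha]; field_simp
  have h1 : 0 ≤ ∫ x in Qc h s q, (g x - a) ^ 2 := integral_nonneg fun _ => sq_nonneg _
  have e : ∀ x, (g x - a) ^ 2 = g x ^ 2 - (2 * a * g x - a ^ 2) := fun x => by ring
  simp_rw [e] at h1
  have i2 : IntegrableOn (fun x => 2 * a * g x) (Qc h s q) := hg.const_mul _
  have i3 : IntegrableOn (fun x => 2 * a * g x - a ^ 2) (Qc h s q) := i2.sub (integrable_const _)
  rw [integral_sub hg2 i3, integral_sub i2 (integrable_const _), integral_const_mul, Qc_const hh,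
    ← hah] at h1
  rw [← hah]
  have h2 : 0 < h ^ 3 := by positivity
  have h3 : h ^ 3 * (a ^ 2 * h ^ 3) ≤ h ^ 3 * ∫ x in Qc h s q, g x ^ 2 :=
    mul_le_mul_of_nonneg_left (by linarith) h2.le
  linarith

theorem abs_dev {h s : ℝ} (hh : 0 < h) {r : E3 → ℝ} (hr : Integrable r)
    (hr2 : Integrable fun x => r x ^ 2) (q : Fin 3 → ℤ) :
    (∫ x in Qc h s q, |r x - av h s r q|) ^ 2 ≤ h ^ 3 * vr h s r q := by
  haveI := Qc_fin (h := h) (s := s) hh q
  have h1 : IntegrableOn (fun x => |r x - av h s r q|) (Qc h s q) :=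
    (hr.integrableOn.sub (integrable_const _)).abs
  have h2 : IntegrableOn (fun x => |r x - av h s r q| ^ 2) (Qc h s q) := by
    have e : (fun x => |r x - av h s r q| ^ 2) =
        fun x => r x ^ 2 - (2 * av h s r q * r x - av h s r q ^ 2) := by
      ext x; rw [sq_abs]; ring
    rw [e]
    exact hr2.integrableOn.sub ((hr.integrableOn.const_mul _).sub (integrable_const _))
  have := cs_cube hh q h1 h2
  unfold vr
  simpa only [sq_abs] using this

theorem cube_diam {h s : ℝ} (hh : 0 < h) {q : Fin 3 → ℤ} {x y : E3} (hx : x ∈ Qc h s q)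
    (hy : y ∈ Qc h s q) : ‖y - x‖ ≤ 2 * h := by
  rw [mem_Qc hh] at hx hy
  have h1 : ∀ i, (y - x) i ^ 2 ≤ h ^ 2 := by
    intro i
    have a1 := hx i
    have a2 := hy i
    rw [PiLp.sub_apply]
    nlinarith
  have h2 : ‖y - x‖ ^ 2 ≤ (2 * h) ^ 2 := by
    rw [← b3_repr_sq]
    simp only [VR.b3_repr]
    refine (Finset.sum_le_sum fun i _ => h1 i).trans ?_
    simp
    nlinarith [sq_nonneg h]
  exact le_of_sq_le_sq h2 (by positivity)

/-- local fluctuation -/
noncomputable def fl (ρ : ℝ) (r : E3 → ℝ) (x : E3) : ℝ :=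
  ∫ w in Metric.closedBall (0:E3) ρ, (r (x + w) - r x) ^ 2

theorem fl_nonneg (ρ : ℝ) (r : E3 → ℝ) (x : E3) : 0 ≤ fl ρ r x := integral_nonneg fun _ => sq_nonneg _

theorem ball_vol {ρ : ℝ} (hρ : 0 ≤ ρ) :
    (volume : Measure E3).real (Metric.closedBall (0:E3) ρ) = ρ ^ 3 * (c3 / 3) := by
  unfold Measure.real c3
  rw [Measure.addHaar_closedBall _ _ hρ, ENNReal.toReal_mul, ENNReal.toReal_ofReal (by positivity)]
  have : Module.finrank ℝ E3 = 3 := by simp
  rw [this]
  have e : ((volume : Measure E3) (Metric.ball 0 1)).toReal = (volume : Measure E3).real (Metric.ball 0 1) := rfl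
  rw [e]; ring

theorem fl_int {ρ : ℝ} (hρ : 0 ≤ ρ) {r : E3 → ℝ} (hrm : Measurable r) (hr : VR.L2 r) {C : ℝ}
    (hC0 : 0 ≤ C) (hC : ∀ w : E3, N2 (fun x => r (x + w) - r x) ≤ C * ‖w‖) :
    Integrable (fl ρ r) ∧ ∫ x, fl ρ r x ≤ C * ρ * (ρ ^ 3 * (c3 / 3)) := by
  set D := Metric.closedBall (0:E3) ρ with hD
  have hm : Measurable fun p : E3 × E3 => (r (p.1 + p.2) - r p.1) ^ 2 :=
    ((hrm.comp (measurable_fst.add measurable_snd)).sub (hrm.comp measurable_fst)).pow_const 2
  haveI hfin : IsFiniteMeasure ((volume : Measure E3).restrict D) := by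
    constructor
    rw [Measure.restrict_apply_univ]
    exact (isCompact_closedBall (0:E3) ρ).measure_lt_top
  have hprod : Integrable (fun p : E3 × E3 => (r (p.1 + p.2) - r p.1) ^ 2)
      ((volume : Measure E3).prod ((volume : Measure E3).restrict D)) := by
    rw [integrable_prod_iff' hm.aestronglyMeasurable]
    refine ⟨Eventually.of_forall fun w => ((hr.translate w).sub hr).2, ?_⟩
    have hb : Integrable (fun _ : E3 => C * ρ) ((volume : Measure E3).restrict D) := integrable_const _
    refine hb.mono' ?_ ?_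
    · exact (hm.norm.stronglyMeasurable.integral_prod_left (μ := (volume : Measure E3))).aestronglyMeasurable
    · refine (ae_restrict_iff' Metric.isClosed_closedBall.measurableSet).2 (Eventually.of_forall fun w hw => ?_)
      have e : ∀ x, ‖(r (x + w) - r x) ^ 2‖ = (r (x + w) - r x) ^ 2 := fun x => by
        rw [Real.norm_eq_abs, abs_of_nonneg (sq_nonneg _)]
      simp_rw [e]
      rw [Real.norm_eq_abs, abs_of_nonneg (integral_nonneg fun x => sq_nonneg _)]
      refine (hC w).trans ?_
      rw [mem_closedBall_zero_iff] at hw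
      gcongr
  constructor
  · exact hprod.integral_prod_left
  · have e : ∫ x, fl ρ r x = ∫ w in D, ∫ x, (r (x + w) - r x) ^ 2 := by
      unfold fl
      exact integral_integral_swap hprod
    rw [e]
    have h1 : ∫ w in D, ∫ x, (r (x + w) - r x) ^ 2 ≤ ∫ _w in D, C * ρ := by
      refine setIntegral_mono_on hprod.integral_prod_right (integrable_const _)
        Metric.isClosed_closedBall.measurableSet fun w hw => ?_
      refine (hC w).trans ?_
      rw [mem_closedBall_zero_iff] at hw
      gcongr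
    refine h1.trans (le_of_eq ?_)
    rw [setIntegral_const, ball_vol hρ, smul_eq_mul]; ring

/-- the variance is controlled by the local fluctuation -/
theorem vr_le {h s : ℝ} (hh : 0 < h) {r : E3 → ℝ} (hrm : Measurable r) (hr : Integrable r)
    (hr2 : Integrable fun x => r x ^ 2) (q : Fin 3 → ℤ)
    (hfi : Integrable (fl (2 * h) r)) :
    2 * h ^ 3 * vr h s r q ≤ ∫ x in Qc h s q, fl (2 * h) r x := by
  haveI := Qc_fin (h := h) (s := s) hh q
  set a := av h s r q with ha
  have i1 : IntegrableOn (fun x => r x ^ 2) (Qc h s q) := hr2.integrableOn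
  have i0 : IntegrableOn r (Qc h s q) := hr.integrableOn
  have hdiff : ∀ x, IntegrableOn (fun y => (r y - r x) ^ 2) (Qc h s q) := by
    intro x
    have e : (fun y => (r y - r x) ^ 2) = fun y => r y ^ 2 - (2 * r x * r y - r x ^ 2) := by
      ext y; ring
    rw [e]
    exact i1.sub ((i0.const_mul _).sub (integrable_const _))
  have hin : ∀ x, ∫ y in Qc h s q, (r y - r x) ^ 2 =
      (∫ y in Qc h s q, r y ^ 2) - 2 * r x * (a * h ^ 3) + r x ^ 2 * h ^ 3 := by
    intro x
    have e : ∀ y, (r y - r x) ^ 2 = r y ^ 2 - (2 * r x * r y - r x ^ 2) := fun y => by ring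
    simp_rw [e]
    have i2 : IntegrableOn (fun y => 2 * r x * r y) (Qc h s q) := i0.const_mul _
    have i3 : IntegrableOn (fun y => 2 * r x * r y - r x ^ 2) (Qc h s q) := i2.sub (integrable_const _)
    rw [integral_sub i1 i3, integral_sub i2 (integrable_const _), integral_const_mul, Qc_const hh,
      ← av_mul hh r q]
    ring
  have hout : ∫ x in Qc h s q, ∫ y in Qc h s q, (r y - r x) ^ 2 = 2 * h ^ 3 * vr h s r q := by
    simp_rw [hin]
    have j1 : IntegrableOn (fun x => (∫ y in Qc h s q, r y ^ 2) - 2 * r x * (a * h ^ 3)) (Qc h s q) := by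
      refine (integrable_const _).sub ?_
      have := i0.const_mul (2 * (a * h ^ 3))
      refine this.congr (Eventually.of_forall fun x => ?_)
      simp only; ring
    have j2 : IntegrableOn (fun x => r x ^ 2 * h ^ 3) (Qc h s q) := i1.mul_const _
    have j3 : IntegrableOn (fun x => 2 * r x * (a * h ^ 3)) (Qc h s q) := by
      have := i0.const_mul (2 * (a * h ^ 3))
      refine this.congr (Eventually.of_forall fun x => ?_)
      simp only; ring
    rw [integral_add j1 j2, integral_sub (integrable_const _) j3, Qc_const hh, integral_mul_const,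
      integral_mul_const, integral_const_mul, ← av_mul hh r q, vr_eq hh hr hr2 q]
    ring
  rw [← hout]
  have hpt : ∀ x ∈ Qc h s q, ∫ y in Qc h s q, (r y - r x) ^ 2 ≤ fl (2 * h) r x := by
    intro x hx
    have e1 : ∫ y in Qc h s q, (r y - r x) ^ 2 =
        ∫ w, (Qc h s q).indicator (fun y => (r y - r x) ^ 2) (x + w) := by
      rw [integral_add_left_eq_self, integral_indicator (Qc_meas hh q)]
    have e2 : fl (2 * h) r x = ∫ w, (Metric.closedBall (0:E3) (2 * h)).indicator
        (fun w => (r (x + w) - r x) ^ 2) w := by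
      rw [integral_indicator Metric.isClosed_closedBall.measurableSet]; rfl
    rw [e1, e2]
    refine integral_mono_of_nonneg (Eventually.of_forall fun w => Set.indicator_nonneg (fun _ _ => sq_nonneg _) _)
      ?_ (Eventually.of_forall fun w => ?_)
    · rw [integrable_indicator_iff Metric.isClosed_closedBall.measurableSet]
      haveI hfin : IsFiniteMeasure ((volume : Measure E3).restrict (Metric.closedBall (0:E3) (2 * h))) := by
        constructor
        rw [Measure.restrict_apply_univ]
        exact (isCompact_closedBall (0:E3) (2 * h)).measure_lt_top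
      have e : (fun w => (r (x + w) - r x) ^ 2) =
          fun w => r (x + w) ^ 2 - (2 * r x * r (x + w) - r x ^ 2) := by
        ext y; ring
      rw [e]
      exact (hr2.comp_add_left x).integrableOn.sub
        (((hr.comp_add_left x).integrableOn.const_mul _).sub (integrable_const _))
    · show (Qc h s q).indicator (fun y => (r y - r x) ^ 2) (x + w) ≤
        (Metric.closedBall (0:E3) (2 * h)).indicator (fun w => (r (x + w) - r x) ^ 2) w
      by_cases hw : x + w ∈ Qc h s q
      · have : w ∈ Metric.closedBall (0:E3) (2 * h) := by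
          rw [mem_closedBall_zero_iff]
          have := cube_diam hh hx hw
          rwa [add_sub_cancel_left] at this
        rw [Set.indicator_of_mem hw, Set.indicator_of_mem this]
      · rw [Set.indicator_of_notMem hw]
        exact Set.indicator_nonneg (fun _ _ => sq_nonneg _) _
  refine setIntegral_mono_on ?_ hfi.integrableOn (Qc_meas hh q) hpt
  simp_rw [hin]
  refine Integrable.add ((integrable_const _).sub ?_) (i1.mul_const _)
  have := i0.const_mul (2 * (a * h ^ 3))
  refine this.congr (Eventually.of_forall fun x => ?_)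
  simp only; ring

/-- Jensen's inequality for the power `4/3` -/
theorem jensen43 {h s : ℝ} (hh : 0 < h) {r : E3 → ℝ} (hr : Integrable r) (h0 : ∀ x, 0 ≤ r x)
    (hr4 : Integrable fun x => r x ^ (4/3:ℝ)) (q : Fin 3 → ℤ) :
    av h s r q ^ (4/3:ℝ) * h ^ 3 ≤ ∫ x in Qc h s q, r x ^ (4/3:ℝ) := by
  haveI := Qc_fin (h := h) (s := s) hh q
  set a := av h s r q with ha
  have ha0 : 0 ≤ a := av_nonneg hh h0 q
  rcases ha0.eq_or_lt with h1 | h1
  · rw [← h1, Real.zero_rpow (by norm_num), zero_mul]
    exact integral_nonneg fun x => Real.rpow_nonneg (h0 x) _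
  have i0 : IntegrableOn r (Qc h s q) := hr.integrableOn
  have i1 : IntegrableOn (fun x => a ^ (4/3:ℝ) + (4/3) * a ^ (1/3:ℝ) * (r x - a)) (Qc h s q) :=
    (integrable_const _).add ((i0.sub (integrable_const _)).const_mul _)
  have h2 : ∫ x in Qc h s q, (a ^ (4/3:ℝ) + (4/3) * a ^ (1/3:ℝ) * (r x - a)) ≤
      ∫ x in Qc h s q, r x ^ (4/3:ℝ) :=
    integral_mono i1 hr4.integrableOn fun x => tangent43 h1 (h0 x)
  refine le_trans (le_of_eq ?_) h2
  have j1 : IntegrableOn (fun x => (4/3) * a ^ (1/3:ℝ) * (r x - a)) (Qc h s q) :=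
    (i0.sub (integrable_const _)).const_mul _
  rw [integral_add (integrable_const _) j1, Qc_const hh, integral_const_mul,
    integral_sub i0 (integrable_const _), Qc_const hh, ← av_mul hh r q]
  ring

noncomputable def c0 : ℝ := ∫ y in Metric.ball (0:E3) 1, ek 4 y

theorem c0_pos : 0 < c0 := by
  unfold c0
  have hi : IntegrableOn (ek 4) (Metric.ball (0:E3) 1) := (ek_radial (by norm_num)).1.integrableOn
  rw [setIntegral_pos_iff_support_of_nonneg_ae (Eventually.of_forall fun x => (ek_pos _ _).le) hi]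
  have : Function.support (ek 4) = Set.univ := by
    ext x; simp [(ek_pos 4 x).ne']
  rw [this, Set.univ_inter]
  exact Metric.measure_ball_pos _ _ one_pos

/-- number of good points in a cube -/
theorem count_le {κ : Type*} {R : κ → E3} {h s d : ℝ} (hh : 0 < h) (hd : 1 ≤ d) (S : Finset κ)
    (S' : Finset κ) (q : Fin 3 → ℤ) (hsub : S' ⊆ S) (hg : ∀ j ∈ S', gdc d h s (R j) ∧ ci h s (R j) = q) :
    c0 * S'.card ≤ ∫ y in Qc h s q, n4 R S y := by
  have hi4 : ∀ j, Integrable fun y => ek 4 (y - R j) := fun j =>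
    (ek_radial (show (0:ℝ) < 4 by norm_num)).1.comp_sub_right (R j)
  have h1 : ∫ y in Qc h s q, n4 R S y = ∑ j ∈ S, ∫ y in Qc h s q, ek 4 (y - R j) := by
    unfold n4
    rw [integral_finsetSum _ fun j _ => (hi4 j).integrableOn]
  rw [h1]
  have h2 : ∑ j ∈ S', ∫ y in Qc h s q, ek 4 (y - R j) ≤ ∑ j ∈ S, ∫ y in Qc h s q, ek 4 (y - R j) :=
    Finset.sum_le_sum_of_subset_of_nonneg hsub fun j _ _ => integral_nonneg fun y => (ek_pos _ _).le
  refine le_trans ?_ h2
  have h3 : ∀ j ∈ S', c0 ≤ ∫ y in Qc h s q, ek 4 (y - R j) := by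
    intro j hj
    obtain ⟨g1, g2⟩ := hg j hj
    have hball : Metric.ball (R j) 1 ⊆ Qc h s q := by
      intro y hy
      rw [← g2]
      refine good_near hh g1 ?_
      rw [Metric.mem_ball, dist_eq_norm] at hy
      rw [norm_sub_rev]; linarith
    have h4 : ∫ y in Metric.ball (R j) 1, ek 4 (y - R j) ≤ ∫ y in Qc h s q, ek 4 (y - R j) :=
      setIntegral_mono_set (hi4 j).integrableOn (Eventually.of_forall fun y => (ek_pos _ _).le)
        hball.eventuallyLE
    refine le_trans (le_of_eq ?_) h4
    unfold c0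
    rw [← integral_indicator Metric.isOpen_ball.measurableSet,
      ← integral_indicator Metric.isOpen_ball.measurableSet,
      ← integral_sub_right_eq_self (fun y => (Metric.ball (0:E3) 1).indicator (ek 4) y) (R j)]
    congr 1; ext y
    by_cases hy : y ∈ Metric.ball (R j) 1
    · have : y - R j ∈ Metric.ball (0:E3) 1 := by
        rw [mem_ball_zero_iff, ← dist_eq_norm]; exact hy
      rw [Set.indicator_of_mem hy, Set.indicator_of_mem this]
    · have : y - R j ∉ Metric.ball (0:E3) 1 := by
        rw [mem_ball_zero_iff, ← dist_eq_norm]; exact hy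
      rw [Set.indicator_of_notMem hy, Set.indicator_of_notMem this]
  have h5 := Finset.card_nsmul_le_sum S' (fun j => ∫ y in Qc h s q, ek 4 (y - R j)) c0 h3
  rw [nsmul_eq_mul] at h5
  linarith

end Pool.Agent.Helper985.BM
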