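import Pool.Agent.Helper985.BM.G3

set_option autoImplicit false

open MeasureTheory Filter Topology Set
open scoped ContDiff

namespace Pool.Agent.Helper985.BM

open VR

variable {n : ℕ}

/-- the classical problem for a fixed set of good nuclei -/
theorem local_bound {z : ℝ} (hz : 0 < z) {e₀ : ℝ} (he : e₀ ≤ 0) (hE : ∀ e ∈ EV z, e₀ ≤ e)
    {κ : Type*} [Fintype κ] [DecidableEq κ] {R : κ → E3} (hR : Function.Injective R)
    (S S' : Finset κ) (hsub : S' ⊆ S) {h s d : ℝ} (hd : 1 ≤ d) (hh : 3 ≤ h)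
    (hg : ∀ j ∈ S', gdc d h s (R j))
    {r : E3 → ℝ} (hrm : Measurable r) (h0 : ∀ x, 0 ≤ r x) (hr : Integrable r)
    (hr2 : Integrable fun x => r x ^ 2) (hn4 : Integrable fun y => n4 R S y ^ 2)
    (hfi : Integrable (fl (2 * h) r)) :
    e₀ * (∫ x, r x ^ (4/3:ℝ)) - (|e₀| + e₀ ^ 2 * (8/9) / c3) * (z * S'.card) -
      z ^ 2 * ((S'.card:ℝ) ^ 2 * tail d) / 2 -
      z * (S'.card * (5 * Real.exp (-d) * ∫ b, r b)) -
      5 * z / c0 * (h ^ 3 * (√(∫ y, n4 R S y ^ 2) * √((∫ x, fl (2 * h) r x) / (2 * h ^ 3)))) ≤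
    (1/2) * c3 * (∫ x, r x ^ 2) - z * (∑ j ∈ S', ∫ b, Vk (R j - b) * r b) +
      z ^ 2 * ((1/2) * ∑ a ∈ S', ∑ b ∈ S', Yk (R a - R b)) := by
  classical
  have hh0 : 0 < h := by linarith
  have hc3 := c3_pos
  have hc0 := c0_pos
  set idx : κ → (Fin 3 → ℤ) := fun j => ci h s (R j) with hidx
  set Z : Finset (Fin 3 → ℤ) := S'.image idx with hZ
  set Sq : (Fin 3 → ℤ) → Finset κ := fun q => S'.filter fun j => idx j = q with hSq
  have hmaps : ∀ j ∈ S', idx j ∈ Z := fun j hj => Finset.mem_image_of_mem _ hj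
  have hfib : ∀ f : κ → ℝ, ∑ j ∈ S', f j = ∑ q ∈ Z, ∑ j ∈ Sq q, f j := fun f =>
    (Finset.sum_fiberwise_of_maps_to hmaps f).symm
  have hcardsum : (S'.card : ℝ) = ∑ q ∈ Z, ((Sq q).card : ℝ) := by
    have := hfib fun _ => (1:ℝ)
    simpa using this
  have hr4 := rpow43_int hrm h0 hr hr2
  -- the cells
  have hcell : ∀ q ∈ Z, e₀ * (av h s r q ^ (4/3:ℝ) * h ^ 3) -
      (|e₀| + e₀ ^ 2 * (8/9) / c3) * (z * (Sq q).card) - z ^ 2 * (((Sq q).card:ℝ) ^ 2 * tail d) / 2 ≤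
      (1/2) * c3 * (av h s r q ^ 2 * h ^ 3) - c3 * av h s r q * (z * (Sq q).card) +
      z ^ 2 * ((1/2) * ∑ a ∈ Sq q, ∑ b ∈ Sq q, Yk (R a - R b)) := by
    intro q _
    refine cell_bound hz he hE hR (Sq q) (by linarith) hh ?_ (av_nonneg hh0 h0 q)
    intro a ha b hb i
    rw [hSq, Finset.mem_filter] at ha hb
    exact good_diff (hg a ha.1) (hg b hb.1) (ha.2.trans hb.2.symm) i
  have hsum := Finset.sum_le_sum hcell
  -- left side
  have hL1 : e₀ * (∫ x, r x ^ (4/3:ℝ)) ≤ ∑ q ∈ Z, e₀ * (av h s r q ^ (4/3:ℝ) * h ^ 3) := by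
    rw [← Finset.mul_sum]
    refine mul_le_mul_of_nonpos_left ?_ he
    refine le_trans ?_ (sum_cubes (s := s) hh0 hr4 (fun x => Real.rpow_nonneg (h0 x) _) Z)
    exact Finset.sum_le_sum fun q _ => jensen43 hh0 hr h0 hr4 q
  have hL2 : ∑ q ∈ Z, ((Sq q).card:ℝ) ^ 2 ≤ (S'.card:ℝ) ^ 2 := by
    rw [hcardsum]
    exact Finset.sum_sq_le_sq_sum_of_nonneg fun q _ => Nat.cast_nonneg _
  -- right side
  have hR1 : ∑ q ∈ Z, av h s r q ^ 2 * h ^ 3 ≤ ∫ x, r x ^ 2 := by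
    refine le_trans ?_ (sum_cubes (s := s) hh0 hr2 (fun x => sq_nonneg _) Z)
    refine Finset.sum_le_sum fun q _ => ?_
    have := vr_eq (s := s) hh0 hr hr2 q
    have := vr_nonneg h s r q
    linarith
  have hR2 : ∑ q ∈ Z, ∑ a ∈ Sq q, ∑ b ∈ Sq q, Yk (R a - R b) ≤ ∑ a ∈ S', ∑ b ∈ S', Yk (R a - R b) := by
    rw [hfib]
    refine Finset.sum_le_sum fun q _ => Finset.sum_le_sum fun a _ => ?_
    exact Finset.sum_le_sum_of_subset_of_nonneg (Finset.filter_subset _ _) fun _ _ _ => Yk_nonneg _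
  -- attraction
  set dv : (Fin 3 → ℤ) → ℝ := fun q => ∫ b in Qc h s q, |r b - av h s r q| with hdv
  have hdv0 : ∀ q, 0 ≤ dv q := fun q => integral_nonneg fun _ => abs_nonneg _
  have hR3 : ∑ j ∈ S', ∫ b, Vk (R j - b) * r b ≤
      ∑ q ∈ Z, (c3 * av h s r q * (Sq q).card + 5 * (dv q * (Sq q).card)) +
        S'.card * (5 * Real.exp (-d) * ∫ b, r b) := by
    have h1 : ∀ j ∈ S', ∫ b, Vk (R j - b) * r b ≤ (c3 * av h s r (idx j) + 5 * dv (idx j)) +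
        5 * Real.exp (-d) * ∫ b, r b := fun j hj => pot_good hh0 hr h0 (hg j hj)
    refine (Finset.sum_le_sum h1).trans (le_of_eq ?_)
    rw [Finset.sum_add_distrib, Finset.sum_const, nsmul_eq_mul, hfib]
    congr 1
    refine Finset.sum_congr rfl fun q _ => ?_
    have h2 : ∀ j ∈ Sq q, c3 * av h s r (idx j) + 5 * dv (idx j) = c3 * av h s r q + 5 * dv q := by
      intro j hj
      rw [hSq, Finset.mem_filter] at hj
      rw [hj.2]
    rw [Finset.sum_congr rfl h2, Finset.sum_const, nsmul_eq_mul]; ring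
  -- fluctuation
  have hR4 : ∑ q ∈ Z, dv q * (Sq q).card ≤
      c0⁻¹ * (h ^ 3 * (√(∫ y, n4 R S y ^ 2) * √((∫ x, fl (2 * h) r x) / (2 * h ^ 3)))) := by
    set I4 : (Fin 3 → ℤ) → ℝ := fun q => ∫ y in Qc h s q, n4 R S y ^ 2 with hI4
    have hI40 : ∀ q, 0 ≤ I4 q := fun q => integral_nonneg fun _ => sq_nonneg _
    have hq : ∀ q ∈ Z, dv q * (Sq q).card ≤ c0⁻¹ * (h ^ 3 * (√(I4 q) * √(vr h s r q))) := by
      intro q _
      haveI := Qc_fin (h := h) (s := s) hh0 q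
      have hi1 : Integrable (n4 R S) := by
        unfold n4
        exact integrable_finsetSum _ fun j _ =>
          (ek_radial (show (0:ℝ) < 4 by norm_num)).1.comp_sub_right (R j)
      have h1 := count_le hh0 hd S (Sq q) q ((Finset.filter_subset _ _).trans hsub) (fun j hj => by
        rw [hSq, Finset.mem_filter] at hj
        exact ⟨hg j hj.1, hj.2⟩)
      have h2 := cs_cube (s := s) hh0 q hi1.integrableOn hn4.integrableOn
      have h3 := abs_dev (s := s) hh0 hr hr2 q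
      have h4 : ∫ y in Qc h s q, n4 R S y ≤ √(h ^ 3 * I4 q) := Real.le_sqrt_of_sq_le h2
      have h5 : dv q ≤ √(h ^ 3 * vr h s r q) := Real.le_sqrt_of_sq_le h3
      have h6 : c0 * (Sq q).card ≤ √(h ^ 3 * I4 q) := h1.trans h4
      have h7 : ((Sq q).card : ℝ) ≤ c0⁻¹ * √(h ^ 3 * I4 q) := by
        rw [inv_mul_eq_div, le_div_iff₀ hc0]; linarith
      have h8 : √(h ^ 3 * I4 q) * √(h ^ 3 * vr h s r q) = h ^ 3 * (√(I4 q) * √(vr h s r q)) := by
        rw [Real.sqrt_mul (by positivity), Real.sqrt_mul (by positivity)]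
        have : √(h ^ 3) * √(h ^ 3) = h ^ 3 := Real.mul_self_sqrt (by positivity)
        calc √(h ^ 3) * √(I4 q) * (√(h ^ 3) * √(vr h s r q)) =
            (√(h ^ 3) * √(h ^ 3)) * (√(I4 q) * √(vr h s r q)) := by ring
          _ = _ := by rw [this]
      calc dv q * (Sq q).card ≤ √(h ^ 3 * vr h s r q) * (c0⁻¹ * √(h ^ 3 * I4 q)) :=
            mul_le_mul h5 h7 (Nat.cast_nonneg _) (Real.sqrt_nonneg _)
        _ = c0⁻¹ * (√(h ^ 3 * I4 q) * √(h ^ 3 * vr h s r q)) := by ring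
        _ = _ := by rw [h8]
    refine (Finset.sum_le_sum hq).trans ?_
    rw [← Finset.mul_sum, ← Finset.mul_sum]
    refine mul_le_mul_of_nonneg_left (mul_le_mul_of_nonneg_left ?_ (by positivity)) (by positivity)
    refine (Real.sum_sqrt_mul_sqrt_le Z hI40 (fun q => vr_nonneg h s r q)).trans ?_
    have h1 : ∑ q ∈ Z, I4 q ≤ ∫ y, n4 R S y ^ 2 := sum_cubes hh0 hn4 (fun _ => sq_nonneg _) Z
    have h2 : ∑ q ∈ Z, vr h s r q ≤ (∫ x, fl (2 * h) r x) / (2 * h ^ 3) := by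
      rw [le_div_iff₀ (by positivity), Finset.sum_mul]
      refine le_trans ?_ (sum_cubes (s := s) hh0 hfi (fl_nonneg _ _) Z)
      refine Finset.sum_le_sum fun q _ => ?_
      have := vr_le (s := s) hh0 hrm hr hr2 q hfi
      linarith
    exact mul_le_mul (Real.sqrt_le_sqrt h1) (Real.sqrt_le_sqrt h2) (Real.sqrt_nonneg _) (Real.sqrt_nonneg _)
  -- conclusion
  have htail := tail_nonneg d
  simp only [Finset.sum_sub_distrib, Finset.sum_add_distrib] at hsum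
  have e1 : ∑ q ∈ Z, (|e₀| + e₀ ^ 2 * (8/9) / c3) * (z * ((Sq q).card:ℝ)) =
      (|e₀| + e₀ ^ 2 * (8/9) / c3) * (z * S'.card) := by
    rw [hcardsum, Finset.mul_sum, Finset.mul_sum]
  have e2 : ∑ q ∈ Z, z ^ 2 * (((Sq q).card:ℝ) ^ 2 * tail d) / 2 ≤
      z ^ 2 * ((S'.card:ℝ) ^ 2 * tail d) / 2 := by
    have : ∑ q ∈ Z, z ^ 2 * (((Sq q).card:ℝ) ^ 2 * tail d) / 2 =
        z ^ 2 * ((∑ q ∈ Z, ((Sq q).card:ℝ) ^ 2) * tail d) / 2 := by
      rw [Finset.sum_mul, Finset.mul_sum, Finset.sum_div]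
    rw [this]
    gcongr
  have e3 : ∑ q ∈ Z, (1/2) * c3 * (av h s r q ^ 2 * h ^ 3) ≤ (1/2) * c3 * ∫ x, r x ^ 2 := by
    rw [← Finset.mul_sum]
    exact mul_le_mul_of_nonneg_left hR1 (by positivity)
  have e4 : ∑ q ∈ Z, z ^ 2 * ((1/2) * ∑ a ∈ Sq q, ∑ b ∈ Sq q, Yk (R a - R b)) ≤
      z ^ 2 * ((1/2) * ∑ a ∈ S', ∑ b ∈ S', Yk (R a - R b)) := by
    rw [← Finset.mul_sum, ← Finset.mul_sum]
    refine mul_le_mul_of_nonneg_left (mul_le_mul_of_nonneg_left hR2 (by norm_num)) (by positivity)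
  have e5 : ∑ q ∈ Z, c3 * av h s r q * (z * ((Sq q).card:ℝ)) =
      z * ∑ q ∈ Z, c3 * av h s r q * (Sq q).card := by
    rw [Finset.mul_sum]; exact Finset.sum_congr rfl fun q _ => by ring
  have e6 : z * (∑ j ∈ S', ∫ b, Vk (R j - b) * r b) ≤ z * (∑ q ∈ Z, c3 * av h s r q * (Sq q).card) +
      5 * z / c0 * (h ^ 3 * (√(∫ y, n4 R S y ^ 2) * √((∫ x, fl (2 * h) r x) / (2 * h ^ 3)))) +
      z * (S'.card * (5 * Real.exp (-d) * ∫ b, r b)) := by
    have h1 := mul_le_mul_of_nonneg_left hR3 hz.le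
    rw [Finset.sum_add_distrib, ← Finset.mul_sum (s := Z) (a := (5:ℝ))] at h1
    have h2 := mul_le_mul_of_nonneg_left hR4 (show (0:ℝ) ≤ 5 * z by positivity)
    have h3 : 5 * z * (c0⁻¹ * (h ^ 3 * (√(∫ y, n4 R S y ^ 2) * √((∫ x, fl (2 * h) r x) / (2 * h ^ 3))))) =
      5 * z / c0 * (h ^ 3 * (√(∫ y, n4 R S y ^ 2) * √((∫ x, fl (2 * h) r x) / (2 * h ^ 3)))) := by ring
    rw [h3] at h2
    linarith
  rw [e1, e5] at hsum
  linarith

end Pool.Agent.Helper985.BM
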