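import Pool.Agent.Helper985.BM.A3
import Pool.Agent.Helper985.BM.C3
import Pool.Agent.Helper985.BM.G4

set_option autoImplicit false

open MeasureTheory Filter Topology Set
open scoped ContDiff

namespace Pool.Agent.Helper985.BM

open VR

variable {n : ℕ}

/-- exponential beats powers -/
theorem exp_floor_le : ∃ C : ℝ, 0 < C ∧ ∀ p : ℝ, 2 ≤ p → ∀ L : ℕ, p ≤ L + 1 →
    Real.exp (-(L:ℝ)) * p ^ 120 ≤ C * p ^ 59 := by
  refine ⟨Real.exp 1 * (Nat.factorial 61), by positivity, fun p hp L hL => ?_⟩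
  have hp0 : 0 < p := by linarith
  have h1 : p ^ 61 / (Nat.factorial 61 : ℝ) ≤ Real.exp p := Real.pow_div_factorial_le_exp p hp0.le 61
  have h2 : Real.exp (-(L:ℝ)) ≤ Real.exp 1 * Real.exp (-p) := by
    rw [← Real.exp_add]; apply Real.exp_le_exp.2; linarith
  have hf : (0:ℝ) < (Nat.factorial 61 : ℝ) := by positivity
  have h3 : Real.exp (-p) * p ^ 61 ≤ (Nat.factorial 61 : ℝ) := by
    rw [div_le_iff₀ hf] at h1
    have h4 : Real.exp (-p) * Real.exp p = 1 := by rw [← Real.exp_add]; simp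
    have h5 := mul_le_mul_of_nonneg_left h1 (Real.exp_pos (-p)).le
    rw [← mul_assoc, h4, one_mul] at h5
    exact h5
  calc Real.exp (-(L:ℝ)) * p ^ 120 ≤ (Real.exp 1 * Real.exp (-p)) * p ^ 120 := by gcongr
    _ = Real.exp 1 * (Real.exp (-p) * p ^ 61) * p ^ 59 := by ring
    _ ≤ Real.exp 1 * (Nat.factorial 61) * p ^ 59 := by gcongr

theorem cube_ge {x : ℝ} (hx : 0 ≤ x) : x ≤ (1 + x) ^ 3 := by
  nlinarith [sq_nonneg x, pow_nonneg hx 3]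

/-- the classical lower bound with mean field electrons -/
theorem classical {z : ℝ} (hz : 0 < z) {e₀ : ℝ} (he : e₀ ≤ 0) (hE : ∀ e ∈ EV z, e₀ ≤ e) :
    ∃ C₁ : ℝ, 0 < C₁ ∧ ∀ B : ℝ, 0 < B → ∃ C₂ : ℝ, 0 < C₂ ∧
    ∀ (n : ℕ) (u : Cf (n + 1) → ℝ), SC u → N2 u = 1 → ∀ p : ℝ, 2 ≤ p → p ^ 60 = (n:ℝ) + 1 →
    TT u ≤ B * p ^ 20 → ∀ (K : ℕ) (R : Fin K → E3), Function.Injective R → z * K = (n:ℝ) + 1 →
    e₀ * (∫ a, rho u a ^ (4/3:ℝ)) - C₁ * p ^ 60 - C₂ * p ^ 59 ≤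
      (1/2) * (∫ a, pot Vk u a * rho u a) - z * (∑ j, pot Yk u (R j)) + z ^ 2 * rep Yk R := by
  have hc3 := c3_pos
  have hc0 := c0_pos
  refine ⟨|e₀| + e₀ ^ 2 * (8/9) / c3 + 1, by positivity, fun B hB => ?_⟩
  obtain ⟨CA, hCA0, hCA⟩ := A_lemma hz hB
  obtain ⟨CR, hCR0, hCR⟩ := rho_trans
  obtain ⟨CM, hCM0, hCM⟩ := mf_local
  obtain ⟨CE, hCE0, hCE⟩ := exp_floor_le
  have hsZ := sZ_nonneg
  obtain ⟨D1, hD1⟩ : ∃ D1 : ℝ, D1 = z * (1 + CA) := ⟨_, rfl⟩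
  obtain ⟨D2, hD2⟩ : ∃ D2 : ℝ, D2 = 6 * z * CA := ⟨_, rfl⟩
  obtain ⟨D3, hD3⟩ : ∃ D3 : ℝ, D3 = (1/2) * (CM * B ^ 2) := ⟨_, rfl⟩
  obtain ⟨D4, hD4⟩ : ∃ D4 : ℝ, D4 = CE * (5 + Real.exp 3 * sZ ^ 3) := ⟨_, rfl⟩
  obtain ⟨D5, hD5⟩ : ∃ D5 : ℝ, D5 = 5 * z / c0 * (8 * (√CA * √(16 * CR * B ^ 2 * c3))) := ⟨_, rfl⟩
  refine ⟨D1 + D2 + D3 + D4 + D5, by rw [hD1, hD2, hD3, hD4, hD5]; positivity, ?_⟩
  intro n u hu hN p hp hpN hT K R hR hzK
  have hp0 : 0 < p := by linarith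
  have hp1 : 1 ≤ p := by linarith
  have hq1 : 1 ≤ p ^ 20 := one_le_pow₀ hp1
  obtain ⟨S, hJ, hopt⟩ := opt hz R (fun j => pot Yk u (R j))
  obtain ⟨hA, hDc, hn4b, hVb0⟩ := hCA n u hu hN (p ^ 20) hq1 (by rw [← hpN]; ring) hT K R hR hzK S hopt
  have hTn := TT_nonneg u
  -- the lattice parameter
  set L : ℕ := ⌊p⌋₊ with hL
  have hL2 : 2 ≤ L := Nat.le_floor (by exact_mod_cast hp)
  have hLp : (L:ℝ) ≤ p := Nat.floor_le hp0.le
  have hpL : p ≤ L + 1 := (Nat.lt_floor_add_one p).le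
  have hLR : (2:ℝ) ≤ L := by exact_mod_cast hL2
  have hLh : p / 2 ≤ L := by linarith
  set d : ℝ := (L:ℝ) with hd
  set h : ℝ := 2 * d * L with hh
  have hd2 : 2 ≤ d := hLR
  have hh8 : 8 ≤ h := by
    calc (8:ℝ) = 2 * 2 * 2 := by norm_num
      _ ≤ 2 * d * L := by gcongr
  have hhp : h ≤ 2 * p ^ 2 := by
    calc h = 2 * (d * L) := by rw [hh]; ring
      _ ≤ 2 * (p * p) := by gcongr
      _ = 2 * p ^ 2 := by ring
  have hh0 : 0 < h := by linarith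
  have hpV0 : ∀ j, 0 ≤ pot Vk u (R j) := fun j => potV_nonneg u _
  classical
  obtain ⟨l, hl⟩ := exists_shift S R hpV0 (show 0 < d by linarith) (show 0 < L by omega)
  set s : ℝ := 2 * d * l with hs
  set S' : Finset (Fin K) := S.filter fun j => gdc d h s (R j) with hS'
  have hsub : S' ⊆ S := Finset.filter_subset _ _
  -- local bound
  have hrm := rho_meas hu
  have hr := rho_int hu
  have hr2 : Integrable fun x => rho u x ^ 2 := (rho_sq_int hu).2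
  have hn4 := (n4_sq hR S).1
  have hfl := fl_int (ρ := 2 * h) (by positivity) hrm (rho_sq_int hu) (C := CR * TT u ^ 2) (by positivity)
    (fun w => by
      have := hCR n u hu w
      linarith)
  have hlb := local_bound (h := h) (s := s) (d := d) hz he hE hR S S' hsub (by linarith) (by linarith)
    (fun j hj => by rw [hS', Finset.mem_filter] at hj; exact hj.2) hrm (rho_nonneg u) hr hr2 hn4 hfl.1
  -- cardinalities
  have hcard : z * S'.card ≤ p ^ 60 := by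
    rw [hpN, ← hzK]
    have h1 := Finset.card_le_univ S'
    rw [Fintype.card_fin] at h1
    have : (S'.card : ℝ) ≤ K := by exact_mod_cast h1
    gcongr
  have hcard0 : (0:ℝ) ≤ S'.card := Nat.cast_nonneg _
  have hmass : ∫ b, rho u b = p ^ 60 := by rw [rho_mass hu, hN, mul_one, hpN]
  have hexp : Real.exp (-d) * p ^ 120 ≤ CE * p ^ 59 := hCE p hp L hpL
  -- error terms
  have hE1 : (|e₀| + e₀ ^ 2 * (8/9) / c3) * (z * S'.card) ≤ (|e₀| + e₀ ^ 2 * (8/9) / c3 + 1) * p ^ 60 := by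
    have : 0 ≤ |e₀| + e₀ ^ 2 * (8/9) / c3 := by positivity
    have h1 := mul_le_mul_of_nonneg_left hcard this
    refine h1.trans ?_
    refine mul_le_mul_of_nonneg_right (by linarith) (by positivity)
  have hE2 : z ^ 2 * ((S'.card:ℝ) ^ 2 * tail d) / 2 ≤ CE * (Real.exp 3 * sZ ^ 3) * p ^ 59 := by
    have h1 : z ^ 2 * ((S'.card:ℝ) ^ 2 * tail d) / 2 = (z * S'.card) ^ 2 * tail d / 2 := by ring
    have h2 : (z * S'.card) ^ 2 ≤ (p ^ 60) ^ 2 := pow_le_pow_left₀ (by positivity) hcard 2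
    have h3 : tail d ≤ Real.exp 3 * sZ ^ 3 * Real.exp (-d) := by
      unfold tail
      have : Real.exp (-(2 * d)) ≤ Real.exp (-d) := Real.exp_le_exp.2 (by linarith)
      calc Real.exp 3 * Real.exp (-(2 * d)) * sZ ^ 3 ≤ Real.exp 3 * Real.exp (-d) * sZ ^ 3 := by gcongr
        _ = _ := by ring
    have h4 := tail_nonneg d
    rw [h1]
    calc (z * S'.card) ^ 2 * tail d / 2 ≤ (p ^ 60) ^ 2 * (Real.exp 3 * sZ ^ 3 * Real.exp (-d)) / 2 := by gcongr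
      _ = (Real.exp 3 * sZ ^ 3) * (Real.exp (-d) * p ^ 120) / 2 := by ring
      _ ≤ (Real.exp 3 * sZ ^ 3) * (CE * p ^ 59) / 2 := by gcongr
      _ = (1/2) * (CE * (Real.exp 3 * sZ ^ 3) * p ^ 59) := by ring
      _ ≤ CE * (Real.exp 3 * sZ ^ 3) * p ^ 59 := half_le (by positivity)
  have hE3 : z * (S'.card * (5 * Real.exp (-d) * ∫ b, rho u b)) ≤ CE * 5 * p ^ 59 := by
    rw [hmass]
    calc z * (S'.card * (5 * Real.exp (-d) * p ^ 60)) = (z * S'.card) * (5 * Real.exp (-d) * p ^ 60) := by ring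
      _ ≤ p ^ 60 * (5 * Real.exp (-d) * p ^ 60) := by gcongr
      _ = 5 * (Real.exp (-d) * p ^ 120) := by ring
      _ ≤ 5 * (CE * p ^ 59) := by gcongr
      _ = _ := by ring
  have hE4 : 5 * z / c0 * (h ^ 3 * (√(∫ y, n4 R S y ^ 2) * √((∫ x, fl (2 * h) (rho u) x) / (2 * h ^ 3)))) ≤
      D5 * p ^ 59 := by
    have h1 : √(∫ y, n4 R S y ^ 2) ≤ √CA * p ^ 30 := by
      refine (Real.sqrt_le_sqrt hn4b).trans ?_
      rw [Real.sqrt_mul hCA0.le]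
      refine mul_le_mul_of_nonneg_left (le_of_eq ?_) (Real.sqrt_nonneg _)
      rw [show (p ^ 20) ^ 3 = (p ^ 30) ^ 2 by ring, Real.sqrt_sq (by positivity)]
    have h2 : (∫ x, fl (2 * h) (rho u) x) / (2 * h ^ 3) ≤ 16 * CR * B ^ 2 * c3 * p ^ 42 := by
      rw [div_le_iff₀ (by positivity)]
      refine hfl.2.trans ?_
      have hT2 : TT u ^ 2 ≤ (B * p ^ 20) ^ 2 := pow_le_pow_left₀ hTn hT 2
      calc CR * TT u ^ 2 * (2 * h) * ((2 * h) ^ 3 * (c3 / 3)) ≤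
          CR * (B * p ^ 20) ^ 2 * (2 * (2 * p ^ 2)) * ((2 * h) ^ 3 * (c3 / 3)) := by gcongr
        _ = (32/3) * (CR * B ^ 2 * c3 * p ^ 42 * h ^ 3) := by ring
        _ ≤ 32 * (CR * B ^ 2 * c3 * p ^ 42 * h ^ 3) :=
          mul_le_mul_of_nonneg_right (by norm_num) (by positivity)
        _ = 16 * CR * B ^ 2 * c3 * p ^ 42 * (2 * h ^ 3) := by ring
    have h3 : √((∫ x, fl (2 * h) (rho u) x) / (2 * h ^ 3)) ≤ √(16 * CR * B ^ 2 * c3) * p ^ 21 := by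
      refine (Real.sqrt_le_sqrt h2).trans ?_
      rw [Real.sqrt_mul (by positivity)]
      refine mul_le_mul_of_nonneg_left (le_of_eq ?_) (Real.sqrt_nonneg _)
      rw [show p ^ 42 = (p ^ 21) ^ 2 by ring, Real.sqrt_sq (by positivity)]
    have h4 : h ^ 3 ≤ 8 * p ^ 6 := by
      calc h ^ 3 ≤ (2 * p ^ 2) ^ 3 := by gcongr
        _ = _ := by ring
    calc 5 * z / c0 * (h ^ 3 * (√(∫ y, n4 R S y ^ 2) * √((∫ x, fl (2 * h) (rho u) x) / (2 * h ^ 3)))) ≤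
        5 * z / c0 * ((8 * p ^ 6) * ((√CA * p ^ 30) * (√(16 * CR * B ^ 2 * c3) * p ^ 21))) := by gcongr
      _ = D5 * p ^ 57 := by rw [hD5]; ring
      _ ≤ D5 * p ^ 59 := by
        have : p ^ 57 ≤ p ^ 59 := pow_le_pow_right₀ hp1 (by norm_num)
        have hD50 : 0 ≤ D5 := by rw [hD5]; positivity
        gcongr
  -- corridor
  set 𝒱 := ∑ j ∈ S, pot Vk u (R j) with h𝒱
  have hVb : 𝒱 ≤ CA * p ^ 60 := by
    have := hVb0
    rwa [show (p ^ 20) ^ 3 = p ^ 60 by ring] at this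
  have hV0 : 0 ≤ 𝒱 := Finset.sum_nonneg fun j _ => hpV0 j
  have hcor : z * (𝒱 - ∑ j ∈ S', pot Vk u (R j)) ≤ D2 * p ^ 59 := by
    have h1 : 𝒱 = (∑ j ∈ S', pot Vk u (R j)) +
        ∑ j ∈ S.filter (fun j => ¬ gdc d h s (R j)), pot Vk u (R j) :=
      (Finset.sum_filter_add_sum_filter_not S _ _).symm
    have h2 : 3 * 𝒱 / L ≤ 6 * CA * p ^ 59 := by
      rw [div_le_iff₀ (by linarith)]
      calc 3 * 𝒱 ≤ 3 * (CA * p ^ 60) := by linarith
        _ = 6 * CA * p ^ 59 * (p / 2) := by ring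
        _ ≤ 6 * CA * p ^ 59 * L := by gcongr
    have h3 : 𝒱 - ∑ j ∈ S', pot Vk u (R j) ≤ 6 * CA * p ^ 59 := by
      rw [h1]; linarith
    calc z * (𝒱 - ∑ j ∈ S', pot Vk u (R j)) ≤ z * (6 * CA * p ^ 59) := by gcongr
      _ = D2 * p ^ 59 := by rw [hD2]; ring
  -- singular part
  set D := ∑ j ∈ S, (pot Yk u (R j) - pot Vk u (R j)) with hDdef
  have hD : z * D ≤ D1 * p ^ 59 := by
    have h1 : D ≤ (1 + CA) * p ^ 47 := by
      by_contra hc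
      push Not at hc
      have h2 : ((1 + CA) * p ^ 47) ^ 3 < D ^ 3 := pow_lt_pow_left₀ hc (by positivity) (by norm_num)
      have h3 : D ^ 3 ≤ CA * p ^ 140 := by
        have := hDc
        rwa [show (p ^ 20) ^ 7 = p ^ 140 by ring] at this
      have h4 : CA * p ^ 140 ≤ ((1 + CA) * p ^ 47) ^ 3 := by
        have h5 : p ^ 140 ≤ p ^ 141 := pow_le_pow_right₀ hp1 (by norm_num)
        have h6 : CA ≤ (1 + CA) ^ 3 := cube_ge hCA0.le
        calc CA * p ^ 140 ≤ (1 + CA) ^ 3 * p ^ 141 := by gcongr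
          _ = _ := by ring
      linarith
    calc z * D ≤ z * ((1 + CA) * p ^ 47) := by gcongr
      _ = D1 * p ^ 47 := by rw [hD1]; ring
      _ ≤ D1 * p ^ 59 := by
        have : p ^ 47 ≤ p ^ 59 := pow_le_pow_right₀ hp1 (by norm_num)
        have hD10 : 0 ≤ D1 := by rw [hD1]; positivity
        gcongr
  have hDe : ∑ j ∈ S, pot Yk u (R j) = D + 𝒱 := by
    rw [hDdef, Finset.sum_sub_distrib]; ring
  -- mean field
  have hM := hCM n u hu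
  have hM2 : (1/2) * (CM * TT u ^ 2) ≤ D3 * p ^ 59 := by
    have hT2 : TT u ^ 2 ≤ (B * p ^ 20) ^ 2 := pow_le_pow_left₀ hTn hT 2
    calc (1/2) * (CM * TT u ^ 2) ≤ (1/2) * (CM * (B * p ^ 20) ^ 2) := by gcongr
      _ = D3 * p ^ 40 := by rw [hD3]; ring
      _ ≤ D3 * p ^ 59 := by
        have : p ^ 40 ≤ p ^ 59 := pow_le_pow_right₀ hp1 (by norm_num)
        have hD30 : 0 ≤ D3 := by rw [hD3]; positivity
        gcongr
  -- repulsion of the nuclei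
  have hrep : z ^ 2 * ((1/2) * ∑ a ∈ S', ∑ b ∈ S', Yk (R a - R b)) ≤
      z ^ 2 * ((1/2) * ∑ a ∈ S, ∑ b ∈ S, Yk (R a - R b)) := by
    refine mul_le_mul_of_nonneg_left (mul_le_mul_of_nonneg_left ?_ (by norm_num)) (by positivity)
    refine (Finset.sum_le_sum fun a _ => Finset.sum_le_sum_of_subset_of_nonneg hsub
      fun _ _ _ => Yk_nonneg _).trans ?_
    exact Finset.sum_le_sum_of_subset_of_nonneg hsub fun _ _ _ => Finset.sum_nonneg fun _ _ => Yk_nonneg _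
  have hJ' : z ^ 2 * ((1/2) * ∑ a ∈ S, ∑ b ∈ S, Yk (R a - R b)) - z * ∑ j ∈ S, pot Yk u (R j) ≤
      z ^ 2 * rep Yk R - z * ∑ j, pot Yk u (R j) := hJ
  have hpe : ∑ j ∈ S', ∫ b, Vk (R j - b) * rho u b = ∑ j ∈ S', pot Vk u (R j) := rfl
  rw [hpe] at hlb
  rw [hDe] at hJ'
  have hD4e : D4 * p ^ 59 = CE * (Real.exp 3 * sZ ^ 3) * p ^ 59 + CE * 5 * p ^ 59 := by rw [hD4]; ring
  have hfin : (D1 + D2 + D3 + D4 + D5) * p ^ 59 = D1 * p ^ 59 + D2 * p ^ 59 + D3 * p ^ 59 + D4 * p ^ 59 +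
    D5 * p ^ 59 := by ring
  rw [hfin, hD4e]
  have hz1 : z * (D + 𝒱) = z * D + z * 𝒱 := by ring
  have hz2 : z * (𝒱 - ∑ j ∈ S', pot Vk u (R j)) = z * 𝒱 - z * ∑ j ∈ S', pot Vk u (R j) := by ring
  rw [hz1] at hJ'
  rw [hz2] at hcor
  linarith

end Pool.Agent.Helper985.BM
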