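import Pool.Agent.Helper985.VR.I

set_option autoImplicit false

open MeasureTheory Filter Topology Set

namespace Pool.Agent.Helper985.BM

open VR

/-- exponential kernel -/
noncomputable def ek (t : ℝ) (x : E3) : ℝ := Real.exp (-(t * ‖x‖))
/-- Yukawa kernel -/
noncomputable def Yk (x : E3) : ℝ := Real.exp (-‖x‖) / ‖x‖
/-- bounded replacement of the Yukawa kernel with the same integral -/
noncomputable def Vk (x : E3) : ℝ := (∫ t in (1:ℝ)..4, ek t x) + 2 * ek 4 x
/-- the difference of the Coulomb and the Yukawa kernel -/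
noncomputable def Wk (x : E3) : ℝ := ∫ t in (0:ℝ)..1, ek t x

theorem ek_pos (t : ℝ) (x : E3) : 0 < ek t x := Real.exp_pos _
theorem ek_le_one {t : ℝ} (ht : 0 ≤ t) (x : E3) : ek t x ≤ 1 := by
  unfold ek
  rw [Real.exp_le_one_iff]
  have : 0 ≤ t * ‖x‖ := by positivity
  linarith

theorem ek_anti {s t : ℝ} (h : s ≤ t) (x : E3) : ek t x ≤ ek s x := by
  unfold ek
  apply Real.exp_le_exp.2
  nlinarith [norm_nonneg x]

theorem ek_neg (t : ℝ) (x : E3) : ek t (-x) = ek t x := by unfold ek; rw [norm_neg]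

theorem ek_add (s t : ℝ) (x : E3) : ek (s + t) x = ek s x * ek t x := by
  unfold ek; rw [← Real.exp_add]; congr 1; ring

theorem ek_cont : Continuous fun p : ℝ × E3 => ek p.1 p.2 := by unfold ek; fun_prop

theorem ek_cont_t (x : E3) : Continuous fun t : ℝ => ek t x := by unfold ek; fun_prop
theorem ek_cont_x (t : ℝ) : Continuous (ek t) := by unfold ek; fun_prop

theorem int_ek_eq {x : E3} (hx : x ≠ 0) (a b : ℝ) :
    ∫ t in a..b, ek t x = (ek a x - ek b x) / ‖x‖ := by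
  have hr : ‖x‖ ≠ 0 := norm_ne_zero_iff.2 hx
  have h : ∀ t ∈ Set.uIcc a b, HasDerivAt (fun t : ℝ => - (ek t x / ‖x‖)) (ek t x) t := by
    intro t _
    unfold ek
    have h1 : HasDerivAt (fun t : ℝ => -(t * ‖x‖)) (-‖x‖) t := by
      have h0 := ((hasDerivAt_id t).mul_const ‖x‖).fun_neg
      simpa using h0
    have h2 := (h1.exp.div_const ‖x‖).neg
    refine h2.congr_deriv ?_
    field_simp
  rw [intervalIntegral.integral_eq_sub_of_hasDerivAt h ((ek_cont_t x).intervalIntegrable _ _)]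
  ring

theorem Wk_eq {x : E3} (hx : x ≠ 0) : Wk x = (1 - Real.exp (-‖x‖)) / ‖x‖ := by
  unfold Wk
  rw [int_ek_eq hx]
  unfold ek
  simp

theorem inv_eq {x : E3} (hx : x ≠ 0) : 1 / ‖x‖ = Yk x + Wk x := by
  have hr : ‖x‖ ≠ 0 := norm_ne_zero_iff.2 hx
  rw [Wk_eq hx]
  unfold Yk
  field_simp
  ring

theorem Yk_nonneg (x : E3) : 0 ≤ Yk x := by unfold Yk; positivity

theorem Vk_eq {x : E3} (hx : x ≠ 0) :
    Vk x = (Real.exp (-‖x‖) - Real.exp (-(4 * ‖x‖))) / ‖x‖ + 2 * Real.exp (-(4 * ‖x‖)) := by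
  unfold Vk
  rw [int_ek_eq hx]
  unfold ek
  simp

theorem Vk_nonneg (x : E3) : 0 ≤ Vk x := by
  unfold Vk
  have h1 : 0 ≤ ∫ t in (1:ℝ)..4, ek t x :=
    intervalIntegral.integral_nonneg (by norm_num) fun t _ => (ek_pos t x).le
  have h2 := (ek_pos 4 x).le
  linarith

theorem Wk_nonneg (x : E3) : 0 ≤ Wk x :=
  intervalIntegral.integral_nonneg (by norm_num) fun t _ => (ek_pos t x).le

theorem Vk_le (x : E3) : Vk x ≤ 5 * ek 1 x := by
  unfold Vk
  have h1 : ∫ t in (1:ℝ)..4, ek t x ≤ ∫ _t in (1:ℝ)..4, ek 1 x := by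
    refine intervalIntegral.integral_mono_on (by norm_num) ((ek_cont_t x).intervalIntegrable _ _)
      (by simp) fun t ht => ek_anti ht.1 x
  rw [intervalIntegral.integral_const, smul_eq_mul] at h1
  have h2 := ek_anti (show (1:ℝ) ≤ 4 by norm_num) x
  linarith

theorem Vk_le5 (x : E3) : Vk x ≤ 5 := by
  have := Vk_le x
  have := ek_le_one (show (0:ℝ) ≤ 1 by norm_num) x
  linarith

theorem Vk_zero : Vk 0 = 5 := by
  unfold Vk ek
  simp
  norm_num

theorem Wk_zero : Wk 0 = 1 := by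
  unfold Wk ek
  simp

theorem Wk_le_one (x : E3) : Wk x ≤ 1 := by
  unfold Wk
  have h1 : ∫ t in (0:ℝ)..1, ek t x ≤ ∫ _t in (0:ℝ)..1, (1:ℝ) := by
    refine intervalIntegral.integral_mono_on (by norm_num) ((ek_cont_t x).intervalIntegrable _ _)
      (by simp) fun t ht => ek_le_one ht.1 x
  simpa using h1

theorem mul_exp_le (r : ℝ) : r * Real.exp (-r) ≤ 1 := by
  have h := Real.add_one_le_exp r
  have h2 : Real.exp r * Real.exp (-r) = 1 := by rw [← Real.exp_add]; simp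
  nlinarith [Real.exp_pos (-r)]

/-- `e^{-2r} ≤ e^{-r}/r` -/
theorem ek2_le_Yk {x : E3} (hx : x ≠ 0) : ek 2 x ≤ Yk x := by
  have hr : 0 < ‖x‖ := norm_pos_iff.2 hx
  unfold ek Yk
  rw [le_div_iff₀ hr]
  have h1 := mul_exp_le ‖x‖
  have h2 : Real.exp (-(2 * ‖x‖)) = Real.exp (-‖x‖) * Real.exp (-‖x‖) := by
    rw [← Real.exp_add]; congr 1; ring
  rw [h2]
  nlinarith [Real.exp_pos (-‖x‖)]

theorem Vk_le_Yk {x : E3} (hx : x ≠ 0) : Vk x ≤ 2 * Yk x := by
  have hr : 0 < ‖x‖ := norm_pos_iff.2 hx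
  rw [Vk_eq hx]
  have h2 : Real.exp (-(4 * ‖x‖)) = Real.exp (-‖x‖) * Real.exp (-(3 * ‖x‖)) := by
    rw [← Real.exp_add]; congr 1; ring
  have h3 := mul_exp_le (3 * ‖x‖)
  unfold Yk
  have h4 : 2 * Real.exp (-(4 * ‖x‖)) ≤ Real.exp (-‖x‖) / ‖x‖ := by
    rw [le_div_iff₀ hr, h2]
    nlinarith [Real.exp_pos (-‖x‖), Real.exp_pos (-(3 * ‖x‖))]
  have h5 : (Real.exp (-‖x‖) - Real.exp (-(4 * ‖x‖))) / ‖x‖ ≤ Real.exp (-‖x‖) / ‖x‖ := by
    gcongr
    linarith [Real.exp_pos (-(4 * ‖x‖))]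
  linarith

/-- the singular part -/
theorem Yk_sub_Vk {x : E3} (hx : x ≠ 0) :
    Yk x - Vk x = Real.exp (-(4 * ‖x‖)) / ‖x‖ - 2 * Real.exp (-(4 * ‖x‖)) := by
  rw [Vk_eq hx]
  unfold Yk
  ring

theorem Yk_meas : Measurable Yk := by
  unfold Yk
  exact (Real.continuous_exp.measurable.comp continuous_norm.measurable.neg).div
    continuous_norm.measurable

theorem Vk_cont : Continuous Vk := by
  unfold Vk
  refine Continuous.add ?_ (continuous_const.mul (ek_cont_x 4))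
  have h : Continuous (Function.uncurry fun (x : E3) (t : ℝ) => ek t x) :=
    ek_cont.comp (continuous_snd.prodMk continuous_fst)
  exact intervalIntegral.continuous_parametric_intervalIntegral_of_continuous' h 1 4

theorem Wk_cont : Continuous Wk := by
  unfold Wk
  have h : Continuous (Function.uncurry fun (x : E3) (t : ℝ) => ek t x) :=
    ek_cont.comp (continuous_snd.prodMk continuous_fst)
  exact intervalIntegral.continuous_parametric_intervalIntegral_of_continuous' h 0 1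

theorem Yk_neg (x : E3) : Yk (-x) = Yk x := by unfold Yk; rw [norm_neg]
theorem Vk_neg (x : E3) : Vk (-x) = Vk x := by unfold Vk; simp_rw [ek_neg]
theorem Wk_neg (x : E3) : Wk (-x) = Wk x := by unfold Wk; simp_rw [ek_neg]

/-! ### radial integrals -/

noncomputable def c3 : ℝ := 3 * (volume : Measure E3).real (Metric.ball 0 1)

theorem c3_pos : 0 < c3 := by
  unfold c3
  have : 0 < (volume : Measure E3).real (Metric.ball 0 1) := by
    refine ENNReal.toReal_pos (Metric.measure_ball_pos _ _ one_pos).ne' ?_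
    exact (measure_ball_lt_top).ne
  positivity

theorem radial (f : ℝ → ℝ) : ∫ x : E3, f ‖x‖ = c3 * ∫ r in Ioi (0:ℝ), r ^ 2 * f r := by
  have := integral_fun_norm_addHaar (volume : Measure E3) f
  rw [this]
  simp only [finrank_euclideanSpace, Fintype.card_fin, nsmul_eq_mul, smul_eq_mul]
  unfold c3
  norm_num
  ring

theorem radial_int {f : ℝ → ℝ} : Integrable (fun x : E3 => f ‖x‖) ↔
    IntegrableOn (fun r => r ^ 2 * f r) (Ioi (0:ℝ)) := by
  rw [integrable_fun_norm_addHaar (volume : Measure E3)]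
  simp only [finrank_euclideanSpace, Fintype.card_fin, smul_eq_mul]

theorem gam (n : ℕ) {t : ℝ} (ht : 0 < t) :
    IntegrableOn (fun r : ℝ => r ^ n * Real.exp (-(t * r))) (Ioi (0:ℝ)) ∧
    ∫ r in Ioi (0:ℝ), r ^ n * Real.exp (-(t * r)) = n.factorial / t ^ (n + 1) := by
  have h1 := Real.integral_rpow_mul_exp_neg_mul_Ioi (a := (n:ℝ) + 1) (r := t) (by positivity) ht
  have e1 : ∀ r ∈ Ioi (0:ℝ), r ^ ((n:ℝ) + 1 - 1) * Real.exp (-(t * r)) = r ^ n * Real.exp (-(t * r)) := by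
    intro r hr
    rw [add_sub_cancel_right, Real.rpow_natCast]
  have e2 : ∫ r in Ioi (0:ℝ), r ^ ((n:ℝ) + 1 - 1) * Real.exp (-(t * r)) =
      ∫ r in Ioi (0:ℝ), r ^ n * Real.exp (-(t * r)) := setIntegral_congr_fun measurableSet_Ioi e1
  rw [e2, Real.Gamma_nat_eq_factorial] at h1
  have h2 : ((1:ℝ) / t) ^ ((n:ℝ) + 1) = 1 / t ^ (n + 1) := by
    rw [show ((n:ℝ) + 1) = ((n + 1 : ℕ) : ℝ) by push_cast; ring, Real.rpow_natCast, div_pow, one_pow]
  rw [h2] at h1
  refine ⟨?_, by rw [h1]; ring⟩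
  by_contra hcon
  have h3 := integral_undef hcon
  rw [h3] at h1
  have : (0:ℝ) < 1 / t ^ (n + 1) * n.factorial := by positivity
  linarith

theorem ek_radial {t : ℝ} (ht : 0 < t) : Integrable (ek t) ∧ ∫ x, ek t x = 2 * c3 / t ^ 3 := by
  have h := gam 2 ht
  refine ⟨radial_int.2 h.1, ?_⟩
  have := radial fun r => Real.exp (-(t * r))
  have e : (fun x : E3 => ek t x) = fun x => Real.exp (-(t * ‖x‖)) := rfl
  rw [e, this, h.2]
  simp [Nat.factorial]
  ring

theorem nek_radial {t : ℝ} (ht : 0 < t) : Integrable (fun x : E3 => ‖x‖ * ek t x) ∧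
    ∫ x : E3, ‖x‖ * ek t x = 6 * c3 / t ^ 4 := by
  have h := gam 3 ht
  have e1 : (fun r : ℝ => r ^ 3 * Real.exp (-(t * r))) = fun r => r ^ 2 * (r * Real.exp (-(t * r))) := by
    ext r; ring
  rw [e1] at h
  refine ⟨radial_int.2 h.1, ?_⟩
  have := radial fun r => r * Real.exp (-(t * r))
  have e : (fun x : E3 => ‖x‖ * ek t x) = fun x => ‖x‖ * Real.exp (-(t * ‖x‖)) := rfl
  rw [e, this, h.2]
  simp [Nat.factorial]
  ring

/-- `∫ exp(-t|x|)/|x|` -/
theorem yuk_radial {t : ℝ} (ht : 0 < t) : Integrable (fun x : E3 => ek t x / ‖x‖) ∧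
    ∫ x : E3, ek t x / ‖x‖ = c3 / t ^ 2 := by
  have h := gam 1 ht
  have e1 : ∀ r ∈ Ioi (0:ℝ), r ^ 1 * Real.exp (-(t * r)) = r ^ 2 * (Real.exp (-(t * r)) / r) := by
    intro r hr
    have : r ≠ 0 := (ne_of_gt hr)
    field_simp
  have h1 : IntegrableOn (fun r : ℝ => r ^ 2 * (Real.exp (-(t * r)) / r)) (Ioi (0:ℝ)) :=
    h.1.congr_fun e1 measurableSet_Ioi
  have h2 : ∫ r in Ioi (0:ℝ), r ^ 2 * (Real.exp (-(t * r)) / r) = 1 / t ^ 2 := by
    rw [← setIntegral_congr_fun measurableSet_Ioi e1, h.2]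
    simp [Nat.factorial]
  refine ⟨radial_int.2 h1, ?_⟩
  have := radial fun r => Real.exp (-(t * r)) / r
  have e : (fun x : E3 => ek t x / ‖x‖) = fun x => Real.exp (-(t * ‖x‖)) / ‖x‖ := rfl
  rw [e, this, h2]
  ring

theorem Yk_eq (x : E3) : Yk x = ek 1 x / ‖x‖ := by unfold Yk ek; rw [one_mul]

theorem Yk_int : Integrable Yk := (yuk_radial one_pos).1.congr (Eventually.of_forall fun x => (Yk_eq x).symm)

theorem Yk_integral : ∫ x, Yk x = c3 := by
  have h := (yuk_radial one_pos).2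
  simp_rw [Yk_eq]
  rw [h]; ring

theorem Vk_int : Integrable Vk :=
  ((ek_radial one_pos).1.const_mul 5).mono' Vk_cont.aestronglyMeasurable
    (Eventually.of_forall fun x => by
      rw [Real.norm_eq_abs, abs_of_nonneg (Vk_nonneg x)]; exact Vk_le x)

theorem ne_ae : ∀ᵐ x : E3, x ≠ 0 := by
  have : (volume : Measure E3) {0} = 0 := by simp
  exact compl_mem_ae_iff.2 this

theorem Vk_integral : ∫ x, Vk x = c3 := by
  have e : ∫ x, Vk x = ∫ x : E3, (ek 1 x / ‖x‖ - ek 4 x / ‖x‖ + 2 * ek 4 x) := by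
    refine integral_congr_ae ?_
    filter_upwards [ne_ae] with x hx
    rw [Vk_eq hx]
    unfold ek
    rw [one_mul]
    ring
  have i1 := (yuk_radial (one_pos)).1
  have i4 := (yuk_radial (show (0:ℝ) < 4 by norm_num)).1
  have j4 := (ek_radial (show (0:ℝ) < 4 by norm_num)).1
  have i14 : Integrable (fun x : E3 => ek 1 x / ‖x‖ - ek 4 x / ‖x‖) := i1.sub i4
  rw [e, integral_add i14 (j4.const_mul 2), integral_sub i1 i4, integral_const_mul,
    (yuk_radial one_pos).2, (yuk_radial (show (0:ℝ) < 4 by norm_num)).2,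
    (ek_radial (show (0:ℝ) < 4 by norm_num)).2]
  ring

theorem nVk_int : Integrable fun x : E3 => ‖x‖ * Vk x :=
  ((nek_radial one_pos).1.const_mul 5).mono' (continuous_norm.mul Vk_cont).aestronglyMeasurable
    (Eventually.of_forall fun x => by
      rw [Real.norm_eq_abs, abs_of_nonneg (mul_nonneg (norm_nonneg x) (Vk_nonneg x))]
      have := Vk_le x
      nlinarith [norm_nonneg x])

theorem nVk_integral_le : ∫ x : E3, ‖x‖ * Vk x ≤ 30 * c3 := by
  have h : ∫ x : E3, ‖x‖ * Vk x ≤ ∫ x : E3, 5 * (‖x‖ * ek 1 x) := by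
    refine integral_mono nVk_int ((nek_radial one_pos).1.const_mul 5) fun x => ?_
    have := Vk_le x
    have h2 := norm_nonneg x
    simp only
    nlinarith
  rw [integral_const_mul, (nek_radial one_pos).2] at h
  linarith

end Pool.Agent.Helper985.BM
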