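import Pool.Agent.Helper985.BM.C3

set_option autoImplicit false

open MeasureTheory Filter Topology Set
open scoped ContDiff

namespace Pool.Agent.Helper985.BM

open VR

variable {n : ℕ}

/-- scaled wave function -/
noncomputable def scl (c : ℝ) (u : Cf n → ℝ) : Cf n → ℝ := fun x => √(c ^ (3 * n)) * u (c • x)

theorem finrank_Cf : Module.finrank ℝ (Cf n) = 3 * n := by
  rw [Module.finrank_pi_fintype]
  simp [mul_comm]

theorem integral_scl {c : ℝ} (hc : 0 < c) (F : Cf n → ℝ) :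
    ∫ x, F (c • x) = (c ^ (3 * n))⁻¹ * ∫ x, F x := by
  rw [Measure.integral_comp_smul, finrank_Cf, abs_of_nonneg (by positivity), smul_eq_mul]

theorem scl_SC {c : ℝ} (hc : 0 < c) {u : Cf n → ℝ} (hu : SC u) : SC (scl c u) := by
  refine ⟨contDiff_const.mul (hu.sm.comp (contDiff_const_smul c)), ?_⟩
  obtain ⟨r, hr, h⟩ := cc_ball hu.cc
  refine cc_of_ball (r / c) fun x hx => ?_
  unfold scl
  rw [h, mul_zero]
  rw [norm_smul, Real.norm_eq_abs, abs_of_pos hc]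
  rw [div_lt_iff₀ hc] at hx
  linarith

theorem scl_sq {c : ℝ} (hc : 0 < c) (u : Cf n → ℝ) (x : Cf n) :
    scl c u x ^ 2 = c ^ (3 * n) * u (c • x) ^ 2 := by
  unfold scl
  rw [mul_pow, Real.sq_sqrt (by positivity)]

theorem scl_N2 {c : ℝ} (hc : 0 < c) (u : Cf n → ℝ) : N2 (scl c u) = N2 u := by
  unfold N2
  simp_rw [scl_sq hc]
  rw [integral_const_mul, integral_scl hc fun x => u x ^ 2]
  have : c ^ (3 * n) ≠ 0 := by positivity
  field_simp

theorem scl_fderiv {c : ℝ} {u : Cf n → ℝ} (hu : ContDiff ℝ ∞ u) (x v : Cf n) :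
    fderiv ℝ (scl c u) x v = √(c ^ (3 * n)) * (c * fderiv ℝ u (c • x) v) := by
  have h1 : HasFDerivAt u (fderiv ℝ u (c • x)) (c • x) :=
    (hu.differentiable (by norm_num) _).hasFDerivAt
  have h2 : HasFDerivAt (fun x : Cf n => c • x) (c • ContinuousLinearMap.id ℝ (Cf n)) x :=
    (hasFDerivAt_id x).const_smul c
  have h3 : HasFDerivAt (scl c u) (√(c ^ (3 * n)) • (fderiv ℝ u (c • x)).comp
      (c • ContinuousLinearMap.id ℝ (Cf n))) x := (h1.comp x h2).const_mul _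
  rw [h3.fderiv]
  simp

theorem scl_Ti {c : ℝ} (hc : 0 < c) {u : Cf n → ℝ} (hu : SC u) (i : Fin n) :
    Ti i (scl c u) = c ^ 2 * Ti i u := by
  unfold Ti
  rw [Finset.mul_sum]
  refine Finset.sum_congr rfl fun k _ => ?_
  unfold N2
  have e : ∀ x, fderiv ℝ (scl c u) x (dir (i, k)) ^ 2 =
      c ^ (3 * n) * c ^ 2 * (fderiv ℝ u (c • x) (dir (i, k))) ^ 2 := by
    intro x
    rw [scl_fderiv hu.sm, mul_pow, Real.sq_sqrt (by positivity)]; ring
  simp_rw [e]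
  rw [integral_const_mul, integral_scl hc fun x => (fderiv ℝ u x (dir (i, k))) ^ 2]
  have : c ^ (3 * n) ≠ 0 := by positivity
  field_simp

theorem scl_TT {c : ℝ} (hc : 0 < c) {u : Cf n → ℝ} (hu : SC u) : TT (scl c u) = c ^ 2 * TT u := by
  unfold TT
  rw [Finset.mul_sum]
  exact Finset.sum_congr rfl fun i _ => scl_Ti hc hu i

theorem rep_smul {ι : Type*} [Fintype ι] {c : ℝ} (hc : 0 < c) (x : ι → E3) :
    rep Ck x = c * rep Ck (c • x) := by
  unfold rep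
  have : ∀ i j, Ck (x i - x j) = c * Ck ((c • x) i - (c • x) j) := by
    intro i j
    rw [Ck_smul hc, Pi.smul_apply, Pi.smul_apply, smul_sub]
  simp_rw [this, ← Finset.mul_sum]
  ring

theorem mix_smul {ι κ : Type*} [Fintype ι] [Fintype κ] {c : ℝ} (hc : 0 < c) (x : ι → E3) (R : κ → E3) :
    mix Ck x R = c * mix Ck (c • x) (c • R) := by
  unfold mix
  have : ∀ i j, Ck (x i - R j) = c * Ck ((c • x) i - (c • R) j) := by
    intro i j
    rw [Ck_smul hc, Pi.smul_apply, Pi.smul_apply, smul_sub]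
  simp_rw [this, ← Finset.mul_sum]

theorem scl_cen {κ : Type*} [Fintype κ] {c : ℝ} (hc : 0 < c) (z : ℝ) (u : Cf n → ℝ) (R : κ → E3) :
    cen z (scl c u) R = c * cen z u (c • R) := by
  unfold cen
  rw [scl_N2 hc, rep_smul hc R]
  have e : ∀ x, (rep Ck x - z * mix Ck x R) * scl c u x ^ 2 =
      (c ^ (3 * n) * c) * ((rep Ck (c • x) - z * mix Ck (c • x) (c • R)) * u (c • x) ^ 2) := by
    intro x
    rw [scl_sq hc, rep_smul hc x, mix_smul hc x R]; ring
  simp_rw [e]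
  rw [integral_const_mul, integral_scl hc fun x => (rep Ck x - z * mix Ck x (c • R)) * u x ^ 2]
  have : c ^ (3 * n) ≠ 0 := by positivity
  field_simp

/-- a priori bound -/
theorem apriori {z : ℝ} (hz : 0 < z) : ∃ C : ℝ, 0 < C ∧ ∀ (n : ℕ) (u : Cf (n + 1) → ℝ), SC u →
    N2 u = 1 → ∀ q : ℝ, 1 ≤ q → q ^ 3 = (n:ℝ) + 1 →
    ∀ (K : ℕ) (R : Fin K → E3), Function.Injective R → z * K = (n:ℝ) + 1 →
    TT u / 2 - C * q ^ 5 ≤ TT u + cen z u R := by
  obtain ⟨CA, hCA0, hCA⟩ := A_lemma hz one_pos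
  set C0 : ℝ := z * CA + (1/2) * (1 + z) with hC0
  have hC00 : 0 < C0 := by positivity
  refine ⟨(1/2) + (1/2) * C0 ^ 2, by positivity, ?_⟩
  intro n u hu hN q hq hqN K R hR hzK
  have hq0 : 0 < q := by linarith
  have hT := TT_nonneg u
  set τ := TT u / q ^ 5 with hτ
  have hτ0 : 0 ≤ τ := by positivity
  have hτT : TT u = τ * q ^ 5 := by rw [hτ]; field_simp
  set m := √(1 + τ) with hm
  have hm2 : m ^ 2 = 1 + τ := Real.sq_sqrt (by positivity)
  have hm0 : 0 < m := Real.sqrt_pos.2 (by positivity)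
  set μ := m * q ^ 2 with hμ
  have hμ0 : 0 < μ := by positivity
  have hμi : 0 < μ⁻¹ := inv_pos.2 hμ0
  have hu' := scl_SC hμi hu
  have hN' : N2 (scl μ⁻¹ u) = 1 := by rw [scl_N2 hμi, hN]
  have hT' : TT (scl μ⁻¹ u) ≤ 1 * q := by
    rw [scl_TT hμi hu, hτT, inv_pow, hμ, mul_pow, hm2]
    rw [one_mul, inv_mul_le_iff₀ (by positivity)]
    have h1 : (1 + τ) * (q ^ 2) ^ 2 * q = (1 + τ) * q ^ 5 := by ring
    rw [h1]
    have : 0 < q ^ 5 := by positivity
    exact mul_le_mul_of_nonneg_right (by linarith) this.le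
  have hR' : Function.Injective (μ • R) := by
    intro a b hab
    rw [Pi.smul_apply, Pi.smul_apply] at hab
    exact hR (smul_right_injective E3 hμ0.ne' hab)
  have hce : cen z u R = μ * cen z (scl μ⁻¹ u) (μ • R) := by
    rw [scl_cen hμi, smul_smul, inv_mul_cancel₀ hμ0.ne', one_smul]
    field_simp
  obtain ⟨S, hJ, hopt⟩ := opt hz (μ • R) (fun j => pot Yk (scl μ⁻¹ u) ((μ • R) j))
  obtain ⟨hA, -⟩ := hCA n _ hu' hN' q hq hqN hT' K (μ • R) hR' hzK S hopt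
  have hO := onsager_avg hu' hN' hR' hz.le
  have hpos : 0 ≤ (1/2) * (∑ i, ∫ x, (∑ j : Fin n, Yk (x i - x (i.succAbove j))) * scl μ⁻¹ u x ^ 2) := by
    refine mul_nonneg (by norm_num) (Finset.sum_nonneg fun i _ => integral_nonneg fun x => ?_)
    exact mul_nonneg (Finset.sum_nonneg fun j _ => Yk_nonneg _) (sq_nonneg _)
  have hJ1 : -(z * (CA * q ^ 3)) ≤ z ^ 2 * rep Yk (μ • R) - z * ∑ j, pot Yk (scl μ⁻¹ u) ((μ • R) j) := by
    refine le_trans ?_ hJ
    unfold JJ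
    have h1 : 0 ≤ z ^ 2 * ((1/2) * ∑ j ∈ S, ∑ k ∈ S, Yk ((μ • R) j - (μ • R) k)) :=
      mul_nonneg (sq_nonneg _) (mul_nonneg (by norm_num)
        (Finset.sum_nonneg fun _ _ => Finset.sum_nonneg fun _ _ => Yk_nonneg _))
    have h2 := mul_le_mul_of_nonneg_left hA hz.le
    linarith
  have hcard : (1/2) * (((n:ℝ) + 1) + z ^ 2 * (Fintype.card (Fin K) : ℝ)) = (1/2) * (1 + z) * q ^ 3 := by
    rw [Fintype.card_fin, hqN, ← hzK]; ring
  rw [hcard] at hO
  have hcl : -(C0 * q ^ 3) ≤ cen z (scl μ⁻¹ u) (μ • R) := by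
    rw [hC0]
    have : (z * CA + (1/2) * (1 + z)) * q ^ 3 = z * (CA * q ^ 3) + (1/2) * (1 + z) * q ^ 3 := by ring
    rw [this]
    linarith
  have h1 : -(μ * (C0 * q ^ 3)) ≤ cen z u R := by
    rw [hce]
    have := mul_le_mul_of_nonneg_left hcl hμ0.le
    linarith
  have h2 : μ * (C0 * q ^ 3) ≤ TT u / 2 + ((1/2) + (1/2) * C0 ^ 2) * q ^ 5 := by
    have e : μ * (C0 * q ^ 3) = (m * C0) * q ^ 5 := by rw [hμ]; ring
    rw [e, hτT]
    have h3 : m * C0 ≤ (1/2) * (m ^ 2 + C0 ^ 2) := by nlinarith [sq_nonneg (m - C0)]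
    rw [hm2] at h3
    have h4 : 0 < q ^ 5 := by positivity
    have h5 := mul_le_mul_of_nonneg_right h3 h4.le
    linarith
  linarith

end Pool.Agent.Helper985.BM
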