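import Pool.Agent.Helper985.BM.G5

set_option autoImplicit false

open MeasureTheory Filter Topology Set
open scoped ContDiff

namespace Pool.Agent.Helper985.BM

open VR

variable {n : ℕ}

/-- lower bound for the Coulomb energy in screened units -/
theorem cen_lower {z : ℝ} (hz : 0 < z) {e₀ : ℝ} (he : e₀ ≤ 0) (hE : ∀ e ∈ EV z, e₀ ≤ e) :
    ∃ C₁ : ℝ, 0 < C₁ ∧ ∀ B : ℝ, 0 < B → ∃ C₂ : ℝ, 0 < C₂ ∧
    ∀ (n : ℕ) (u : Cf (n + 1) → ℝ), SC u → N2 u = 1 → ∀ p : ℝ, 2 ≤ p → p ^ 60 = (n:ℝ) + 1 →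
    TT u ≤ B * p ^ 20 → ∀ (K : ℕ) (R : Fin K → E3), Function.Injective R → z * K = (n:ℝ) + 1 →
    e₀ * (∫ a, rho u a ^ (4/3:ℝ)) - C₁ * p ^ 60 - C₂ * p ^ 59 ≤ cen z u R := by
  obtain ⟨C₁, hC10, hC1⟩ := classical hz he hE
  obtain ⟨CS, hCS0, hCS⟩ := stepA
  refine ⟨C₁ + 5/2 + 1 + (1/2) * (1 + z), by positivity, fun B hB => ?_⟩
  obtain ⟨C₂, hC20, hC2⟩ := hC1 B hB
  -- number of neighbours allowed
  set M : ℝ := (CS * B ^ 2) ^ 3 with hM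
  have hM0 : 0 < M := by positivity
  have hMi : CS * M⁻¹ ^ (1/3:ℝ) * B ^ 2 = 1 := by
    have : M⁻¹ = ((CS * B ^ 2)⁻¹) ^ 3 := by rw [hM, inv_pow]
    rw [this, cube_root (by positivity)]
    field_simp
  refine ⟨C₂ + (1/2) * (1 + M) * √B, by positivity, ?_⟩
  intro n u hu hN p hp hpN hT K R hR hzK
  have hp0 : 0 < p := by linarith
  have hp1 : 1 ≤ p := by linarith
  have hTn := TT_nonneg u
  have h1 := hC2 n u hu hN p hp hpN hT K R hR hzK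
  have h2 := hCS n u hu hN M hM0
  have h3 := onsager_avg hu hN hR hz.le
  have hcard : (1/2) * (((n:ℝ) + 1) + z ^ 2 * (Fintype.card (Fin K) : ℝ)) = (1/2) * (1 + z) * p ^ 60 := by
    rw [Fintype.card_fin, hpN, ← hzK]; ring
  rw [hcard] at h3
  have h4 : (1/2) * (1 + M) * (√((n:ℝ) + 1) * √(TT u)) ≤ (1/2) * (1 + M) * √B * p ^ 59 := by
    have e1 : √((n:ℝ) + 1) = p ^ 30 := by
      rw [← hpN, show p ^ 60 = (p ^ 30) ^ 2 by ring, Real.sqrt_sq (by positivity)]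
    have e2 : √(TT u) ≤ √B * p ^ 10 := by
      refine (Real.sqrt_le_sqrt hT).trans (le_of_eq ?_)
      rw [Real.sqrt_mul hB.le, show p ^ 20 = (p ^ 10) ^ 2 by ring, Real.sqrt_sq (by positivity)]
    rw [e1]
    calc (1/2) * (1 + M) * (p ^ 30 * √(TT u)) ≤ (1/2) * (1 + M) * (p ^ 30 * (√B * p ^ 10)) := by gcongr
      _ = (1/2) * (1 + M) * √B * p ^ 40 := by ring
      _ ≤ (1/2) * (1 + M) * √B * p ^ 59 := by
        have : p ^ 40 ≤ p ^ 59 := pow_le_pow_right₀ hp1 (by norm_num)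
        gcongr
  have h5 : CS * M⁻¹ ^ (1/3:ℝ) * (n:ℝ) ^ (1/3:ℝ) * TT u ^ 2 ≤ p ^ 60 := by
    have e1 : (n:ℝ) ^ (1/3:ℝ) ≤ p ^ 20 := by
      have : (n:ℝ) ≤ (p ^ 20) ^ 3 := by rw [show (p ^ 20) ^ 3 = p ^ 60 by ring, hpN]; linarith
      have h6 := Real.rpow_le_rpow (Nat.cast_nonneg n) this (show (0:ℝ) ≤ 1/3 by norm_num)
      rwa [cube_root (by positivity)] at h6
    have hMr : 0 ≤ M⁻¹ ^ (1/3:ℝ) := Real.rpow_nonneg (inv_nonneg.2 hM0.le) _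
    have hT2 : TT u ^ 2 ≤ (B * p ^ 20) ^ 2 := pow_le_pow_left₀ hTn hT 2
    calc CS * M⁻¹ ^ (1/3:ℝ) * (n:ℝ) ^ (1/3:ℝ) * TT u ^ 2 ≤
        CS * M⁻¹ ^ (1/3:ℝ) * p ^ 20 * (B * p ^ 20) ^ 2 := by gcongr
      _ = (CS * M⁻¹ ^ (1/3:ℝ) * B ^ 2) * p ^ 60 := by ring
      _ = p ^ 60 := by rw [hMi, one_mul]
  have h6 : (5/2) * ((n:ℝ) + 1) = (5/2) * p ^ 60 := by rw [hpN]
  have e1 : (C₁ + 5/2 + 1 + (1/2) * (1 + z)) * p ^ 60 =
    C₁ * p ^ 60 + (5/2) * p ^ 60 + p ^ 60 + (1/2) * (1 + z) * p ^ 60 := by ring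
  have e2 : (C₂ + (1/2) * (1 + M) * √B) * p ^ 59 = C₂ * p ^ 59 + (1/2) * (1 + M) * √B * p ^ 59 := by ring
  rw [e1, e2]
  linarith

/-- power `8/3` of the modulus -/
noncomputable def P83 (f : E3 → ℝ) : ℝ := ∫ x, |f x| ^ (8/3:ℝ)

/-- kinetic energy of one particle -/
noncomputable def K1 (ψ : E3 → ℝ) : ℝ := Kn fun k x => fderiv ℝ ψ x (b3 k)

/-- admissible constants in the interpolation inequality -/
def GN (Γ : ℝ) : Prop := 0 ≤ Γ ∧ ∀ ψ : E3 → ℝ, SC ψ → P83 ψ ^ 2 ≤ Γ * K1 ψ * N2 ψ ^ (5/3:ℝ)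

theorem Kn_nn {ι X : Type*} [Fintype ι] [MeasureSpace X] (g : ι → X → ℝ) : 0 ≤ Kn g :=
  Finset.sum_nonneg fun i _ => N2_nonneg (g i)

theorem K1_nonneg (ψ : E3 → ℝ) : 0 ≤ K1 ψ := Kn_nn _

theorem P83_nonneg (ψ : E3 → ℝ) : 0 ≤ P83 ψ := integral_nonneg fun _ => Real.rpow_nonneg (abs_nonneg _) _

theorem abs83_int {f : E3 → ℝ} (hf : VR.L2 f) (h6 : Integrable fun x => f x ^ 6) :
    Integrable fun x => |f x| ^ (8/3:ℝ) := by
  refine (hf.2.add h6).mono' (hf.1.abs.pow_const _).aestronglyMeasurable (Eventually.of_forall fun x => ?_)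
  rw [Real.norm_eq_abs, abs_of_nonneg (Real.rpow_nonneg (abs_nonneg _) _)]
  show |f x| ^ (8/3:ℝ) ≤ f x ^ 2 + f x ^ 6
  have h0 := abs_nonneg (f x)
  rw [← sq_abs (f x), show f x ^ 6 = |f x| ^ 6 by rw [← abs_pow, abs_of_nonneg (by positivity)]]
  set y := |f x| with hy
  rcases le_total y 1 with h1 | h1
  · rcases h0.eq_or_lt with h2 | h2
    · rw [← h2, Real.zero_rpow (by norm_num)]; norm_num
    · have := Real.rpow_le_rpow_of_exponent_ge h2 h1 (show (2:ℝ) ≤ 8/3 by norm_num)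
      rw [Real.rpow_two] at this
      have : 0 ≤ y ^ 6 := by positivity
      linarith
  · have := Real.rpow_le_rpow_of_exponent_le h1 (show (8/3:ℝ) ≤ (6:ℕ) by norm_num)
    rw [Real.rpow_natCast] at this
    have : 0 ≤ y ^ 2 := by positivity
    linarith

/-- Hölder interpolation -/
theorem interp {f : E3 → ℝ} (hf : VR.L2 f) (h6 : Integrable fun x => f x ^ 6) :
    P83 f ^ 2 ≤ N2 f ^ (5/3:ℝ) * (∫ x, f x ^ 6) ^ (1/3:ℝ) := by
  have hpq : Real.HolderConjugate (6/5) 6 := by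
    rw [Real.holderConjugate_iff]; norm_num
  have hm := hf.1
  have h1 : ∀ x, |f x| ^ (8/3:ℝ) = |f x| ^ (5/3:ℝ) * |f x| := by
    intro x
    rcases (abs_nonneg (f x)).eq_or_lt with h | h
    · rw [← h, Real.zero_rpow (by norm_num), mul_zero]
    · rw [← Real.rpow_add_one h.ne']; norm_num
  have e1 : ∀ x, (|f x| ^ (5/3:ℝ)) ^ (6/5:ℝ) = f x ^ 2 := by
    intro x
    rw [← Real.rpow_mul (abs_nonneg _)]
    norm_num
  have e2 : ∀ x, |f x| ^ (6:ℝ) = f x ^ 6 := by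
    intro x
    rw [show (6:ℝ) = ((6:ℕ):ℝ) by norm_num, Real.rpow_natCast, ← abs_pow, abs_of_nonneg (by positivity)]
  have hm1 : MemLp (fun x => |f x| ^ (5/3:ℝ)) (ENNReal.ofReal (6/5)) volume := by
    have : AEStronglyMeasurable (fun x => |f x| ^ (5/3:ℝ)) volume := (hm.abs.pow_const _).aestronglyMeasurable
    rw [← integrable_norm_rpow_iff this (by norm_num) ENNReal.ofReal_ne_top]
    rw [ENNReal.toReal_ofReal (by norm_num)]
    refine hf.2.congr (Eventually.of_forall fun x => ?_)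
    show f x ^ 2 = ‖|f x| ^ (5/3:ℝ)‖ ^ (6/5:ℝ)
    rw [Real.norm_eq_abs, abs_of_nonneg (Real.rpow_nonneg (abs_nonneg _) _), e1]
  have hm2 : MemLp (fun x => |f x|) (ENNReal.ofReal 6) volume := by
    have : AEStronglyMeasurable (fun x => |f x|) volume := hm.abs.aestronglyMeasurable
    rw [← integrable_norm_rpow_iff this (by norm_num) ENNReal.ofReal_ne_top]
    rw [ENNReal.toReal_ofReal (by norm_num)]
    refine h6.congr (Eventually.of_forall fun x => ?_)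
    show f x ^ 6 = ‖|f x|‖ ^ (6:ℝ)
    rw [Real.norm_eq_abs, abs_abs, e2]
  have h2 := integral_mul_le_Lp_mul_Lq_of_nonneg hpq (Eventually.of_forall fun x =>
    (Real.rpow_nonneg (abs_nonneg (f x)) (5/3:ℝ))) (Eventually.of_forall fun x => abs_nonneg (f x)) hm1 hm2
  simp only [e1, e2] at h2
  have h3 : P83 f ≤ N2 f ^ (1 / (6/5:ℝ)) * (∫ x, f x ^ 6) ^ (1/6:ℝ) := by
    unfold P83 N2
    simp_rw [h1]
    exact h2
  have hN := N2_nonneg f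
  have hI : 0 ≤ ∫ x, f x ^ 6 := integral_nonneg fun x => by positivity
  have h4 := pow_le_pow_left₀ (P83_nonneg f) h3 2
  refine h4.trans (le_of_eq ?_)
  rw [mul_pow, ← Real.rpow_natCast (N2 f ^ (1 / (6/5:ℝ))), ← Real.rpow_mul hN,
    ← Real.rpow_natCast ((∫ x, f x ^ 6) ^ (1/6:ℝ)), ← Real.rpow_mul hI]
  norm_num

theorem GN_exists : ∃ Γ : ℝ, 0 < Γ ∧ GN Γ := by
  obtain ⟨S, hS0, hS⟩ := sob
  refine ⟨S, hS0, hS0.le, fun ψ hψ => ?_⟩
  have hH : H1 b3 ψ fun k x => fderiv ℝ ψ x (b3 k) := H1.of_smooth hψ.sm hψ.cc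
  obtain ⟨h1, h2⟩ := hS ψ _ hH
  refine (interp hH.1 h1).trans ?_
  have hK := K1_nonneg ψ
  have h3 : (∫ x, ψ x ^ 6) ^ (1/3:ℝ) ≤ S * K1 ψ := by
    have h4 := Real.rpow_le_rpow (integral_nonneg fun x => by positivity) h2 (show (0:ℝ) ≤ 1/3 by norm_num)
    rw [cube_root (mul_nonneg hS0.le (Kn_nn _))] at h4
    exact h4
  have hN : 0 ≤ N2 ψ ^ (5/3:ℝ) := Real.rpow_nonneg (N2_nonneg _) _
  nlinarith [mul_le_mul_of_nonneg_left h3 hN]

/-- extension of the interpolation inequality to `H1` -/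
theorem GN.H1 {Γ : ℝ} (h : GN Γ) {f : E3 → ℝ} {g : Fin 3 → E3 → ℝ} (hf : H1 b3 f g) :
    Integrable (fun x => |f x| ^ (8/3:ℝ)) ∧ P83 f ^ 2 ≤ Γ * Kn g * N2 f ^ (5/3:ℝ) := by
  obtain ⟨S, hS0, hS⟩ := sob
  have h6 := (hS f g hf).1
  have hint := abs83_int hf.1 h6
  refine ⟨hint, ?_⟩
  choose w w1 w2 w3 w4 using fun j : ℕ => hf.cc_approx (ε := 1 / ((j:ℝ) + 1)) Nat.one_div_pos_of_nat
  have hH : ∀ j, VR.H1 b3 (w j) fun i x => fderiv ℝ (w j) x (b3 i) := fun j => VR.H1.of_smooth (w1 j) (w2 j)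
  have t1 : Tendsto (fun j => N2 (fun x => w j x - f x)) atTop (𝓝 0) :=
    squeeze_zero (fun j => N2_nonneg _) (fun j => (w3 j).le)
      (tendsto_one_div_add_atTop_nhds_zero_nat (𝕜 := ℝ))
  have t2 : ∀ i, Tendsto (fun j => N2 (fun x => fderiv ℝ (w j) x (b3 i) - g i x)) atTop (𝓝 0) :=
    fun i => squeeze_zero (fun j => N2_nonneg _) (fun j => (w4 j i).le)
      (tendsto_one_div_add_atTop_nhds_zero_nat (𝕜 := ℝ))
  obtain ⟨σ, hσ, hae⟩ := exists_ae_subseq (fun j => (hH j).1) hf.1 t1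
  have t3 : Tendsto (fun j => K1 (w j)) atTop (𝓝 (Kn g)) :=
    tendsto_finsetSum _ fun i _ => tendsto_N2 (fun j => (hH j).2.1 i) (hf.2.1 i) (t2 i)
  have t4 : Tendsto (fun j => N2 (w j)) atTop (𝓝 (N2 f)) := tendsto_N2 (fun j => (hH j).1) hf.1 t1
  have t5 : Tendsto (fun j => √(Γ * K1 (w (σ j)) * N2 (w (σ j)) ^ (5/3:ℝ))) atTop
      (𝓝 (√(Γ * Kn g * N2 f ^ (5/3:ℝ)))) := by
    have a1 := t3.comp hσ.tendsto_atTop
    have a2 := (t4.comp hσ.tendsto_atTop).rpow_const (p := (5/3:ℝ)) (Or.inr (by norm_num))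
    exact (Real.continuous_sqrt.tendsto _).comp ((a1.const_mul Γ).mul a2)
  -- Fatou
  have hP : P83 f ≤ √(Γ * Kn g * N2 f ^ (5/3:ℝ)) := by
    have hwint : ∀ j, Integrable fun x => |w j x| ^ (8/3:ℝ) := fun j =>
      abs83_int (hH j).1 (hS _ _ (hH j)).1
    have hb : ∀ j, P83 (w j) ≤ √(Γ * K1 (w j) * N2 (w j) ^ (5/3:ℝ)) := fun j =>
      Real.le_sqrt_of_sq_le (h.2 (w j) ⟨w1 j, w2 j⟩)
    have hlim : ∀ᵐ x, Tendsto (fun j => |w (σ j) x| ^ (8/3:ℝ)) atTop (𝓝 (|f x| ^ (8/3:ℝ))) := by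
      filter_upwards [hae] with x hx
      exact (hx.abs).rpow_const (Or.inr (by norm_num))
    have hF : ENNReal.ofReal (P83 f) ≤ liminf (fun j => ENNReal.ofReal (P83 (w (σ j)))) atTop := by
      have e1 : ENNReal.ofReal (P83 f) = ∫⁻ x, ENNReal.ofReal (|f x| ^ (8/3:ℝ)) :=
        ofReal_integral_eq_lintegral_ofReal hint (Eventually.of_forall fun x => Real.rpow_nonneg (abs_nonneg _) _)
      have e2 : ∀ j, ENNReal.ofReal (P83 (w j)) = ∫⁻ x, ENNReal.ofReal (|w j x| ^ (8/3:ℝ)) := fun j =>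
        ofReal_integral_eq_lintegral_ofReal (hwint j)
          (Eventually.of_forall fun x => Real.rpow_nonneg (abs_nonneg _) _)
      rw [e1]
      simp_rw [e2]
      have e3 : ∫⁻ x, ENNReal.ofReal (|f x| ^ (8/3:ℝ)) =
          ∫⁻ x, liminf (fun j => ENNReal.ofReal (|w (σ j) x| ^ (8/3:ℝ))) atTop := by
        refine lintegral_congr_ae ?_
        filter_upwards [hlim] with x hx
        exact ((ENNReal.tendsto_ofReal hx).liminf_eq).symm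
      rw [e3]
      exact lintegral_liminf_le fun j => ENNReal.measurable_ofReal.comp ((hH (σ j)).1.1.abs.pow_const _)
    have hF2 : liminf (fun j => ENNReal.ofReal (P83 (w (σ j)))) atTop ≤
        ENNReal.ofReal (√(Γ * Kn g * N2 f ^ (5/3:ℝ))) := by
      rw [← (ENNReal.tendsto_ofReal t5).liminf_eq]
      exact liminf_le_liminf (Eventually.of_forall fun j => ENNReal.ofReal_le_ofReal (hb _))
    exact (ENNReal.ofReal_le_ofReal_iff (Real.sqrt_nonneg _)).1 (hF.trans hF2)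
  have hnn : 0 ≤ Γ * Kn g * N2 f ^ (5/3:ℝ) :=
    mul_nonneg (mul_nonneg h.1 (Kn_nn _)) (Real.rpow_nonneg (N2_nonneg _) _)
  calc P83 f ^ 2 ≤ √(Γ * Kn g * N2 f ^ (5/3:ℝ)) ^ 2 := pow_le_pow_left₀ (P83_nonneg f) hP 2
    _ = _ := Real.sq_sqrt hnn

/-- interpolation inequality for the density -/
theorem GN.rho {Γ : ℝ} (h : GN Γ) {u : Cf (n + 1) → ℝ} (hu : SC u) (hN : N2 u = 1) :
    (∫ a, rho u a ^ (4/3:ℝ)) ^ 2 ≤ Γ * TT u * ((n:ℝ) + 1) ^ (5/3:ℝ) := by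
  obtain ⟨g, hg, hK⟩ := sqrt_rho_H1 hu
  have h1 := (h.H1 hg).2
  have e1 : P83 (fun a => √(BM.rho u a)) = ∫ a, BM.rho u a ^ (4/3:ℝ) := by
    unfold P83
    congr 1; ext a
    rw [abs_of_nonneg (Real.sqrt_nonneg _), Real.sqrt_eq_rpow, ← Real.rpow_mul (rho_nonneg u a)]
    norm_num
  have e2 : N2 (fun a => √(BM.rho u a)) = (n:ℝ) + 1 := by
    unfold N2
    simp_rw [Real.sq_sqrt (rho_nonneg u _)]
    rw [rho_mass hu, hN, mul_one]
  rw [e1, e2] at h1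
  refine h1.trans ?_
  have h2 : 0 ≤ ((n:ℝ) + 1) ^ (5/3:ℝ) := Real.rpow_nonneg (by positivity) _
  have := h.1
  gcongr

end Pool.Agent.Helper985.BM
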