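import Pool.Agent.Helper985.BM.L1
import Pool.Agent.Helper985.BM.L2

set_option autoImplicit false

open MeasureTheory Filter Topology Set
open scoped ContDiff

namespace Pool.Agent.Helper985.BM

open VR

/-- the number `p` with `p ^ 60 = n + 1` -/
theorem exists_p (n : ℕ) : ∃ p : ℝ, 0 < p ∧ p ^ 60 = (n:ℝ) + 1 ∧ ((n:ℝ) + 1) ^ (5/3:ℝ) = p ^ 100 := by
  have h0 : (0:ℝ) < (n:ℝ) + 1 := by positivity
  refine ⟨((n:ℝ) + 1) ^ (1/60:ℝ), Real.rpow_pos_of_pos h0 _, ?_, ?_⟩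
  · rw [← Real.rpow_natCast, ← Real.rpow_mul h0.le]; norm_num
  · rw [← Real.rpow_natCast, ← Real.rpow_mul h0.le]; norm_num

/-- asymptotic lower bound for smooth wave functions -/
theorem lower_SC {z : ℝ} (hz : 0 < z) {e₀ : ℝ} (he : e₀ ≤ 0) (hE : ∀ e ∈ EV z, e₀ ≤ e)
    {Γ : ℝ} (hΓ : GN Γ) {ε : ℝ} (hε : 0 < ε) : ∃ N₀ : ℕ, ∀ n : ℕ, N₀ ≤ n →
    ∀ u : Cf (n + 1) → ℝ, SC u → N2 u = 1 → ∀ (K : ℕ) (R : Fin K → E3), Function.Injective R →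
    z * K = (n:ℝ) + 1 → -(e₀ ^ 2 * Γ / 4 + ε) * ((n:ℝ) + 1) ^ (5/3:ℝ) ≤ TT u + cen z u R := by
  obtain ⟨C, hC0, hC⟩ := apriori hz
  obtain ⟨C₁, hC10, hC1⟩ := cen_lower hz he hE
  set A : ℝ := 2 * C₁ / ε with hA
  have hA0 : 0 < A := by positivity
  obtain ⟨C₂, hC20, hC2⟩ := hC1 (2 * C * A ^ 2) (by positivity)
  set P₀ : ℝ := max 2 (2 * C₂ / (A * ε)) with hP₀
  obtain ⟨N₀, hN₀⟩ := exists_nat_ge (P₀ ^ 60)
  refine ⟨N₀, fun n hn u hu hN K R hR hzK => ?_⟩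
  obtain ⟨p, hp0, hpN, hp100⟩ := exists_p n
  have hP0 : 0 < P₀ := lt_of_lt_of_le (by norm_num) (le_max_left _ _)
  have hpP : P₀ ≤ p := by
    by_contra hc
    push Not at hc
    have h1 : p ^ 60 < P₀ ^ 60 := pow_lt_pow_left₀ hc hp0.le (by norm_num)
    have h2 : (N₀:ℝ) ≤ n := by exact_mod_cast hn
    rw [hpN] at h1
    linarith
  have hp2 : 2 ≤ p := (le_max_left _ _).trans hpP
  have hpC : 2 * C₂ / (A * ε) ≤ p := (le_max_right _ _).trans hpP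
  have hp1 : 1 ≤ p := by linarith
  rw [hp100]
  have hp10 : 0 < p ^ 100 := by positivity
  have hG := hΓ.1
  have hY0 : 0 ≤ e₀ ^ 2 * Γ := by positivity
  by_cases hT : TT u ≤ 2 * C * p ^ 100
  · set μ : ℝ := p ^ 40 / A with hμ
    have hμ0 : 0 < μ := by positivity
    have hμi : 0 < μ⁻¹ := inv_pos.2 hμ0
    have hu' := scl_SC hμi hu
    have hN' : N2 (scl μ⁻¹ u) = 1 := by rw [scl_N2 hμi, hN]
    have hTe : TT u = μ ^ 2 * TT (scl μ⁻¹ u) := by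
      rw [scl_TT hμi hu, inv_pow]; field_simp
    have hT' : TT (scl μ⁻¹ u) ≤ 2 * C * A ^ 2 * p ^ 20 := by
      rw [scl_TT hμi hu, inv_pow, inv_mul_le_iff₀ (by positivity)]
      refine hT.trans (le_of_eq ?_)
      rw [hμ]; field_simp
    have hR' : Function.Injective (μ • R) := by
      intro a b hab
      rw [Pi.smul_apply, Pi.smul_apply] at hab
      exact hR (smul_right_injective E3 hμ0.ne' hab)
    have hce : cen z u R = μ * cen z (scl μ⁻¹ u) (μ • R) := by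
      rw [scl_cen hμi, smul_smul, inv_mul_cancel₀ hμ0.ne', one_smul]
      field_simp
    have h1 := hC2 n _ hu' hN' p hp2 hpN hT' K (μ • R) hR' hzK
    have h2 := hΓ.rho hu' hN'
    rw [hp100] at h2
    set P := ∫ a, rho (scl μ⁻¹ u) a ^ (4/3:ℝ) with hP
    have hTn := TT_nonneg u
    have hT'n := TT_nonneg (scl μ⁻¹ u)
    have h3 : (μ * (e₀ * P)) ^ 2 ≤ (TT u + (e₀ ^ 2 * Γ * p ^ 100) / 4) ^ 2 := by
      have e1 : (μ * (e₀ * P)) ^ 2 = μ ^ 2 * e₀ ^ 2 * P ^ 2 := by ring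
      have e2 : μ ^ 2 * e₀ ^ 2 * P ^ 2 ≤ μ ^ 2 * e₀ ^ 2 * (Γ * TT (scl μ⁻¹ u) * p ^ 100) := by gcongr
      have e3 : μ ^ 2 * e₀ ^ 2 * (Γ * TT (scl μ⁻¹ u) * p ^ 100) = TT u * (e₀ ^ 2 * Γ * p ^ 100) := by
        rw [hTe]; ring
      rw [e1]
      refine e2.trans ?_
      rw [e3]
      have e4 : (TT u + (e₀ ^ 2 * Γ * p ^ 100) / 4) ^ 2 =
        TT u * (e₀ ^ 2 * Γ * p ^ 100) + (TT u - (e₀ ^ 2 * Γ * p ^ 100) / 4) ^ 2 := by ring
      rw [e4]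
      exact le_add_of_nonneg_right (sq_nonneg _)
    have h4 : -(TT u + (e₀ ^ 2 * Γ * p ^ 100) / 4) ≤ μ * (e₀ * P) := by
      have := abs_le_of_sq_le_sq' h3 (by positivity)
      exact this.1
    have h5 : μ * (C₁ * p ^ 60) = (ε / 2) * p ^ 100 := by
      rw [hμ, hA]; field_simp
    have h6 : μ * (C₂ * p ^ 59) ≤ (ε / 2) * p ^ 100 := by
      rw [div_le_iff₀ (by positivity)] at hpC
      have e : μ * (C₂ * p ^ 59) = (C₂ / A) * p ^ 99 := by rw [hμ]; ring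
      have h7 : C₂ / A ≤ ε / 2 * p := by
        rw [div_le_iff₀ hA0]; linarith
      rw [e]
      calc C₂ / A * p ^ 99 ≤ (ε / 2 * p) * p ^ 99 := by gcongr
        _ = _ := by ring
    have h8 := mul_le_mul_of_nonneg_left h1 hμ0.le
    rw [← hce] at h8
    have e : μ * (e₀ * P - C₁ * p ^ 60 - C₂ * p ^ 59) = μ * (e₀ * P) - μ * (C₁ * p ^ 60) - μ * (C₂ * p ^ 59) := by
      ring
    rw [e] at h8
    linarith
  · push Not at hT
    have h1 := hC n u hu hN (p ^ 20) (one_le_pow₀ hp1) (by rw [← hpN]; ring) K R hR hzK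
    rw [show (p ^ 20) ^ 5 = p ^ 100 by ring] at h1
    have h2 : 0 ≤ (e₀ ^ 2 * Γ / 4 + ε) * p ^ 100 := by positivity
    linarith

end Pool.Agent.Helper985.BM
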