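import Pool.Agent.Helper985.BM.D1

set_option autoImplicit false

open MeasureTheory Filter Topology Set
open scoped ContDiff

namespace Pool.Agent.Helper985.BM

open VR

/-- configurations of `n` particles -/
abbrev Cf (n : ℕ) := Fin n → E3

variable {n : ℕ}

/-- insert a particle -/
def ins (i : Fin (n + 1)) (a : E3) (y : Cf n) : Cf (n + 1) := i.insertNth a y

/-- direction of the coordinate `k` of particle `i` -/
noncomputable def dir (p : Fin n × Fin 3) : Cf n := Pi.single p.1 (b3 p.2)

theorem ins_same (i : Fin (n + 1)) (a : E3) (y : Cf n) : ins i a y i = a := by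
  unfold ins; simp
theorem ins_succ (i : Fin (n + 1)) (a : E3) (y : Cf n) (j : Fin n) : ins i a y (i.succAbove j) = y j := by
  unfold ins; simp

theorem ins_eq (i : Fin (n + 1)) (x : Cf (n + 1)) : ins i (x i) (fun j => x (i.succAbove j)) = x := by
  unfold ins
  ext1 j
  rcases Fin.eq_self_or_eq_succAbove i j with h | ⟨k, rfl⟩
  · rw [h]; simp
  · simp

theorem ins_affine (i : Fin (n + 1)) (a : E3) (y : Cf n) :
    ins i a y = ins i 0 y + Pi.single i a := by
  ext1 j
  rcases Fin.eq_self_or_eq_succAbove i j with h | ⟨k, rfl⟩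
  · rw [h, ins_same, Pi.add_apply, ins_same, Pi.single_eq_same, zero_add]
  · rw [ins_succ, Pi.add_apply, ins_succ, Pi.single_eq_of_ne (Fin.succAbove_ne i k), add_zero]

theorem mp_ins (i : Fin (n + 1)) :
    MeasurePreserving (fun p : E3 × Cf n => ins i p.1 p.2)
      ((volume : Measure E3).prod (volume : Measure (Cf n))) (volume : Measure (Cf (n + 1))) :=
  (volume_preserving_piFinSuccAbove (fun _ : Fin (n + 1) => E3) i).symm _

theorem me_ins (i : Fin (n + 1)) : MeasurableEmbedding (fun p : E3 × Cf n => ins i p.1 p.2) :=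
  (MeasurableEquiv.piFinSuccAbove (fun _ : Fin (n + 1) => E3) i).symm.measurableEmbedding

theorem ins_cont (i : Fin (n + 1)) : Continuous (fun p : E3 × Cf n => ins i p.1 p.2) := by
  unfold ins
  refine continuous_pi fun j => ?_
  rcases Fin.eq_self_or_eq_succAbove i j with h | ⟨k, rfl⟩
  · rw [h]; simp only [Fin.insertNth_apply_same]; fun_prop
  · simp only [Fin.insertNth_apply_succAbove]; fun_prop

theorem sl_int {i : Fin (n + 1)} {f : Cf (n + 1) → ℝ} (hf : Integrable f) :
    Integrable (fun p : E3 × Cf n => f (ins i p.1 p.2)) ((volume : Measure E3).prod volume) :=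
  (mp_ins i).integrable_comp_of_integrable hf

theorem int_sl_iff {i : Fin (n + 1)} {f : Cf (n + 1) → ℝ} :
    Integrable (fun p : E3 × Cf n => f (ins i p.1 p.2)) ((volume : Measure E3).prod volume) ↔
      Integrable f := (mp_ins i).integrable_comp_emb (me_ins i)

theorem integral_sl (i : Fin (n + 1)) {f : Cf (n + 1) → ℝ} (hf : Integrable f) :
    ∫ x, f x = ∫ y : Cf n, ∫ a : E3, f (ins i a y) := by
  rw [← (mp_ins i).integral_comp (me_ins i) f]
  exact integral_prod_symm _ (sl_int hf)

theorem integral_sl' (i : Fin (n + 1)) {f : Cf (n + 1) → ℝ} (hf : Integrable f) :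
    ∫ x, f x = ∫ a : E3, ∫ y : Cf n, f (ins i a y) := by
  rw [← (mp_ins i).integral_comp (me_ins i) f]
  exact integral_prod _ (sl_int hf)

theorem sl_int_y {i : Fin (n + 1)} {f : Cf (n + 1) → ℝ} (hf : Integrable f) :
    Integrable fun y : Cf n => ∫ a : E3, f (ins i a y) := (sl_int (i := i) hf).integral_prod_right

theorem sl_int_a {i : Fin (n + 1)} {f : Cf (n + 1) → ℝ} (hf : Integrable f) :
    Integrable fun a : E3 => ∫ y : Cf n, f (ins i a y) := (sl_int (i := i) hf).integral_prod_left

theorem sl_ae {i : Fin (n + 1)} {f : Cf (n + 1) → ℝ} (hf : Integrable f) :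
    ∀ᵐ y : Cf n, Integrable fun a : E3 => f (ins i a y) := (sl_int (i := i) hf).prod_left_ae

/-! ### slices of smooth functions -/

theorem norm_ins_ge (i : Fin (n + 1)) (a : E3) (y : Cf n) : ‖a‖ ≤ ‖ins i a y‖ := by
  have := norm_le_pi_norm (ins i a y) i
  rwa [ins_same] at this

theorem norm_ins_ge' (i : Fin (n + 1)) (a : E3) (y : Cf n) : ‖y‖ ≤ ‖ins i a y‖ := by
  refine (pi_norm_le_iff_of_nonneg (norm_nonneg _)).2 fun j => ?_
  have := norm_le_pi_norm (ins i a y) (i.succAbove j)
  rwa [ins_succ] at this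

/-- support in a ball -/
theorem cc_ball {X : Type*} [NormedAddCommGroup X] {f : X → ℝ} (hc : HasCompactSupport f) :
    ∃ r : ℝ, 0 < r ∧ ∀ x, r < ‖x‖ → f x = 0 := by
  obtain ⟨r, hr⟩ := hc.isCompact.isBounded.subset_closedBall (0:X)
  refine ⟨max r 1, by positivity, fun x hx => ?_⟩
  by_contra h
  have h1 : x ∈ tsupport f := subset_tsupport f h
  have h2 := hr h1
  rw [mem_closedBall_zero_iff] at h2
  have := le_max_left r 1
  linarith

theorem cc_of_ball {X : Type*} [NormedAddCommGroup X] [ProperSpace X] {f : X → ℝ} (r : ℝ)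
    (h : ∀ x, r < ‖x‖ → f x = 0) : HasCompactSupport f := by
  refine HasCompactSupport.intro (isCompact_closedBall (0:X) r) fun x hx => ?_
  refine h x ?_
  simpa using hx

theorem slice_smooth {u : Cf (n + 1) → ℝ} (hu : ContDiff ℝ ∞ u) (i : Fin (n + 1)) (y : Cf n) :
    ContDiff ℝ ∞ fun a => u (ins i a y) := by
  have h : (fun a => u (ins i a y)) = fun a => u (ins i 0 y + Pi.single i a) := by
    ext a; rw [← ins_affine]
  rw [h]
  refine hu.comp (contDiff_const.add ?_)
  exact (ContinuousLinearMap.single ℝ (fun _ : Fin (n + 1) => E3) i).contDiff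

theorem slice_cc {u : Cf (n + 1) → ℝ} (hc : HasCompactSupport u) (i : Fin (n + 1)) (y : Cf n) :
    HasCompactSupport fun a => u (ins i a y) := by
  obtain ⟨r, _, hr⟩ := cc_ball hc
  exact cc_of_ball r fun a ha => hr _ (ha.trans_le (norm_ins_ge i a y))

theorem slice_fderiv {u : Cf (n + 1) → ℝ} (hu : ContDiff ℝ ∞ u) (i : Fin (n + 1)) (y : Cf n)
    (a : E3) (k : Fin 3) :
    fderiv ℝ (fun a => u (ins i a y)) a (b3 k) = fderiv ℝ u (ins i a y) (dir (i, k)) := by
  have h1 : HasFDerivAt (fun a : E3 => ins i a y)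
      (ContinuousLinearMap.single ℝ (fun _ : Fin (n + 1) => E3) i) a := by
    have h : (fun a => ins i a y) = fun a => ins i 0 y + Pi.single i a := by
      ext1 a; rw [← ins_affine]
    rw [h]
    exact ((ContinuousLinearMap.single ℝ (fun _ : Fin (n + 1) => E3) i).hasFDerivAt).const_add _
  have h2 := (hu.differentiable (by norm_num) (ins i a y)).hasFDerivAt.comp a h1
  have h3 : HasFDerivAt (fun a => u (ins i a y)) _ a := h2
  rw [h3.fderiv]
  rfl

/-- smooth compactly supported functions -/
structure SC {X : Type*} [NormedAddCommGroup X] [NormedSpace ℝ X] (u : X → ℝ) : Prop where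
  sm : ContDiff ℝ ∞ u
  cc : HasCompactSupport u

theorem SC.slice {u : Cf (n + 1) → ℝ} (hu : SC u) (i : Fin (n + 1)) (y : Cf n) :
    SC fun a => u (ins i a y) := ⟨slice_smooth hu.sm i y, slice_cc hu.cc i y⟩

/-- length of the gradient in the variable of particle `i` -/
noncomputable def gni (i : Fin n) (u : Cf n → ℝ) (x : Cf n) : ℝ :=
  √(∑ k, (fderiv ℝ u x (dir (i, k))) ^ 2)

theorem gni_slice {u : Cf (n + 1) → ℝ} (hu : SC u) (i : Fin (n + 1)) (y : Cf n) (a : E3) :
    gn (fun a => u (ins i a y)) a = gni i u (ins i a y) := by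
  unfold gn gni
  simp_rw [slice_fderiv hu.sm]

/-- kinetic energy of particle `i` -/
noncomputable def Ti (i : Fin n) (u : Cf n → ℝ) : ℝ := ∑ k, N2 fun x => fderiv ℝ u x (dir (i, k))
/-- kinetic energy -/
noncomputable def TT (u : Cf n → ℝ) : ℝ := ∑ i, Ti i u

theorem Ti_nonneg (i : Fin n) (u : Cf n → ℝ) : 0 ≤ Ti i u :=
  Finset.sum_nonneg fun _ _ => N2_nonneg _

theorem TT_nonneg (u : Cf n → ℝ) : 0 ≤ TT u := Finset.sum_nonneg fun _ _ => Ti_nonneg _ _

theorem gni_nonneg (i : Fin n) (u : Cf n → ℝ) (x : Cf n) : 0 ≤ gni i u x := Real.sqrt_nonneg _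

theorem gni_sq (i : Fin n) (u : Cf n → ℝ) (x : Cf n) :
    gni i u x ^ 2 = ∑ k, (fderiv ℝ u x (dir (i, k))) ^ 2 := Real.sq_sqrt (by positivity)

theorem gni_cont {u : Cf n → ℝ} (hu : SC u) (i : Fin n) : Continuous (gni i u) := by
  unfold gni
  exact (continuous_finsetSum _ fun k _ => (fderiv_cc_continuous hu.sm _).pow 2).sqrt

theorem gni_L2 {u : Cf n → ℝ} (hu : SC u) (i : Fin n) : L2 (gni i u) := by
  refine ⟨(gni_cont hu i).measurable, ?_⟩
  simp_rw [gni_sq]
  refine integrable_finsetSum _ fun k _ => ?_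
  exact (L2_of_cc (fderiv_cc_continuous hu.sm _) (fderiv_cc_support hu.cc _)).2

theorem gni_N2 {u : Cf n → ℝ} (hu : SC u) (i : Fin n) : N2 (gni i u) = Ti i u := by
  unfold N2 Ti
  simp_rw [gni_sq]
  rw [integral_finsetSum]
  · rfl
  intro k _
  exact (L2_of_cc (fderiv_cc_continuous hu.sm _) (fderiv_cc_support hu.cc _)).2

theorem SC.L2 {X : Type*} [NormedAddCommGroup X] [NormedSpace ℝ X] [FiniteDimensional ℝ X]
    [MeasureSpace X] [BorelSpace X] [(volume : Measure X).IsAddHaarMeasure] {u : X → ℝ}
    (hu : SC u) : VR.L2 u := L2_of_cc hu.sm.continuous hu.cc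

/-- integrability of two-body terms -/
theorem two_int {g : E3 → ℝ} (hgm : Measurable g) (hg : Integrable g) (i : Fin (n + 1))
    {c : Cf n → E3} (hc : Measurable c) {f : Cf (n + 1) → ℝ} (hf : Continuous f)
    (hcs : HasCompactSupport f) :
    Integrable fun x : Cf (n + 1) => g (x i - c (fun j => x (i.succAbove j))) * f x := by
  obtain ⟨r, hr0, hr⟩ := cc_ball hcs
  obtain ⟨C, hC⟩ := hcs.exists_bound_of_continuous hf
  have hC0 : 0 ≤ C := (norm_nonneg _).trans (hC 0)
  rw [← int_sl_iff (i := i)]
  have hm : Measurable fun p : E3 × Cf n => g (p.1 - c p.2) :=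
    hgm.comp (measurable_fst.sub (hc.comp measurable_snd))
  -- dominating function
  have hdom : Integrable (fun p : E3 × Cf n => |g (p.1 - c p.2)| *
      (Metric.closedBall (0 : Cf n) r).indicator (fun _ => C) p.2)
      ((volume : Measure E3).prod volume) := by
    rw [integrable_prod_iff']
    · refine ⟨Eventually.of_forall fun y => ?_, ?_⟩
      · exact ((hg.comp_sub_right (c y)).abs).mul_const ((Metric.closedBall (0 : Cf n) r).indicator (fun _ => C) y)
      · have e : (fun y : Cf n => ∫ a : E3, ‖|g (a - c y)| *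
            (Metric.closedBall (0 : Cf n) r).indicator (fun _ => C) y‖) =
            (Metric.closedBall (0 : Cf n) r).indicator (fun _ => (∫ a, |g a|) * C) := by
          ext y
          have h1 : ∀ a, ‖|g (a - c y)| * (Metric.closedBall (0 : Cf n) r).indicator (fun _ => C) y‖ =
              |g (a - c y)| * (Metric.closedBall (0 : Cf n) r).indicator (fun _ => C) y := by
            intro a
            rw [Real.norm_eq_abs, abs_of_nonneg]
            refine mul_nonneg (abs_nonneg _) ?_
            exact Set.indicator_nonneg (fun _ _ => hC0) _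
          simp_rw [h1]
          rw [integral_mul_const, integral_sub_right_eq_self (fun a => |g a|) (c y)]
          by_cases hy : y ∈ Metric.closedBall (0 : Cf n) r
          · rw [Set.indicator_of_mem hy, Set.indicator_of_mem hy]
          · rw [Set.indicator_of_notMem hy, Set.indicator_of_notMem hy, mul_zero]
        rw [e]
        refine (integrable_indicator_iff measurableSet_closedBall).2 ?_
        exact integrableOn_const measure_closedBall_lt_top.ne
    · refine (hm.abs.mul ?_).aestronglyMeasurable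
      exact (measurable_const.indicator measurableSet_closedBall).comp measurable_snd
  refine hdom.mono' ?_ (Eventually.of_forall fun p => ?_)
  · have hmx : Measurable fun x : Cf (n + 1) => g (x i - c (fun j => x (i.succAbove j))) * f x := by
      refine (hgm.comp ((measurable_pi_apply i).sub (hc.comp ?_))).mul hf.measurable
      exact measurable_pi_lambda _ fun j => measurable_pi_apply _
    exact (hmx.comp (me_ins i).measurable).aestronglyMeasurable
  · simp only [ins_same, ins_succ]
    rw [Real.norm_eq_abs, abs_mul]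
    refine mul_le_mul_of_nonneg_left ?_ (abs_nonneg _)
    by_cases hy : p.2 ∈ Metric.closedBall (0 : Cf n) r
    · rw [Set.indicator_of_mem hy]; exact hC _
    · rw [Set.indicator_of_notMem hy]
      rw [mem_closedBall_zero_iff, not_le] at hy
      rw [hr _ (hy.trans_le (norm_ins_ge' i p.1 p.2)), abs_zero]

/-- two-body terms for a pair of particles -/
theorem pair_int {g : E3 → ℝ} (hgm : Measurable g) (hg : Integrable g) {i j : Fin (n + 1)}
    (hij : i ≠ j) {f : Cf (n + 1) → ℝ} (hf : Continuous f) (hcs : HasCompactSupport f) :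
    Integrable fun x : Cf (n + 1) => g (x i - x j) * f x := by
  obtain ⟨k, rfl⟩ := Fin.exists_succAbove_eq hij.symm
  exact two_int hgm hg i (c := fun y => y k) (measurable_pi_apply k) hf hcs

/-- one-body terms -/
theorem one_int {g : E3 → ℝ} (hgm : Measurable g) (hg : Integrable g) (i : Fin (n + 1)) (a : E3)
    {f : Cf (n + 1) → ℝ} (hf : Continuous f) (hcs : HasCompactSupport f) :
    Integrable fun x : Cf (n + 1) => g (x i - a) * f x :=
  two_int hgm hg i (c := fun _ => a) measurable_const hf hcs

end Pool.Agent.Helper985.BM
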