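import Pool.Agent.Helper985.VR.S

set_option autoImplicit false

open MeasureTheory Filter Topology Set
open scoped ContDiff

namespace Pool.Agent.Helper985.BM

open VR

/-- Sobolev inequality in terms of integrals -/
theorem sob : ∃ S : ℝ, 0 < S ∧ ∀ f (g : Fin 3 → E3 → ℝ), H1 b3 f g →
    Integrable (fun x => f x ^ 6) ∧ ∫ x, f x ^ 6 ≤ (S * Kn g) ^ 3 := by
  obtain ⟨S, hS⟩ := sobolev
  refine ⟨(S:ℝ) ^ 2 + 1, by positivity, fun f g h => ?_⟩
  have h1 := hS f g h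
  have hm : MemLp f 6 (volume : Measure E3) := by
    refine ⟨h.1.1.aestronglyMeasurable, h1.trans_lt ?_⟩
    exact ENNReal.mul_lt_top ENNReal.coe_lt_top ENNReal.ofReal_lt_top
  have h2 : Integrable fun x => f x ^ 6 := by
    have := hm.integrable_norm_pow (p := 6) (by norm_num)
    refine this.congr (Eventually.of_forall fun x => ?_)
    simp only [Real.norm_eq_abs]
    exact Even.pow_abs (by decide) _
  refine ⟨h2, ?_⟩
  have h3 := hm.eLpNorm_eq_integral_rpow_norm (by norm_num) (by norm_num)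
  have h4 : ∫ x, ‖f x‖ ^ (6:ENNReal).toReal = ∫ x, f x ^ 6 := by
    refine integral_congr_ae (Eventually.of_forall fun x => ?_)
    simp only
    rw [show (6:ENNReal).toReal = ((6:ℕ):ℝ) by norm_num, Real.rpow_natCast, Real.norm_eq_abs]
    exact Even.pow_abs (by decide) _
  rw [h4] at h3
  rw [h3] at h1
  have hI : 0 ≤ ∫ x, f x ^ 6 := integral_nonneg fun x => by positivity
  have h5 : (∫ x, f x ^ 6) ^ ((6:ENNReal).toReal)⁻¹ ≤ (S:ℝ) * √(Kn g) := by
    have h6 : (S:ENNReal) * ENNReal.ofReal (√(Kn g)) = ENNReal.ofReal ((S:ℝ) * √(Kn g)) := by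
      rw [ENNReal.ofReal_mul NNReal.zero_le_coe, ENNReal.ofReal_coe_nnreal]
    rw [h6] at h1
    exact (ENNReal.ofReal_le_ofReal_iff (by positivity)).1 h1
  have h7 : ∫ x, f x ^ 6 ≤ ((S:ℝ) * √(Kn g)) ^ 6 := by
    have h8 := pow_le_pow_left₀ (Real.rpow_nonneg hI _) h5 6
    rw [← Real.rpow_natCast ((∫ x, f x ^ 6) ^ _) 6, ← Real.rpow_mul hI] at h8
    norm_num at h8
    exact h8
  refine h7.trans ?_
  have hk := Kn_nonneg g
  have h9 : ((S:ℝ) * √(Kn g)) ^ 6 = ((S:ℝ) ^ 2 * Kn g) ^ 3 := by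
    have := Real.sq_sqrt hk
    calc ((S:ℝ) * √(Kn g)) ^ 6 = ((S:ℝ) ^ 2 * (√(Kn g)) ^ 2) ^ 3 := by ring
      _ = _ := by rw [this]
  rw [h9]
  refine pow_le_pow_left₀ (by positivity) ?_ 3
  nlinarith

/-- Hölder inequality with three factors -/
theorem holder3 {f g h : E3 → ℝ} (hf : Measurable f) (hg : Measurable g) (hh : Measurable h)
    (hf0 : ∀ x, 0 ≤ f x) (hg0 : ∀ x, 0 ≤ g x) (hh0 : ∀ x, 0 ≤ h x) (fi : Integrable f)
    (gi : Integrable g) (hi : Integrable h) :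
    Integrable (fun x => f x ^ (1/3:ℝ) * g x ^ (1/3:ℝ) * h x ^ (1/3:ℝ)) ∧
    ∫ x, f x ^ (1/3:ℝ) * g x ^ (1/3:ℝ) * h x ^ (1/3:ℝ) ≤
      (∫ x, f x) ^ (1/3:ℝ) * (∫ x, g x) ^ (1/3:ℝ) * (∫ x, h x) ^ (1/3:ℝ) := by
  have key := ENNReal.lintegral_prod_norm_pow_le (μ := (volume : Measure E3)) (Finset.univ : Finset (Fin 3))
    (f := ![fun x => ENNReal.ofReal (f x), fun x => ENNReal.ofReal (g x), fun x => ENNReal.ofReal (h x)])
    (p := fun _ => (1/3:ℝ)) (by
      intro i _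
      fin_cases i
      · exact hf.ennreal_ofReal.aemeasurable
      · exact hg.ennreal_ofReal.aemeasurable
      · exact hh.ennreal_ofReal.aemeasurable) (by simp) (by intro i _; norm_num)
  simp only [Fin.prod_univ_three, Matrix.cons_val_zero, Matrix.cons_val_one, Matrix.cons_val] at key
  have e1 : ∀ x, ENNReal.ofReal (f x) ^ (1/3:ℝ) * ENNReal.ofReal (g x) ^ (1/3:ℝ) *
      ENNReal.ofReal (h x) ^ (1/3:ℝ) =
      ENNReal.ofReal (f x ^ (1/3:ℝ) * g x ^ (1/3:ℝ) * h x ^ (1/3:ℝ)) := by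
    intro x
    rw [ENNReal.ofReal_rpow_of_nonneg (hf0 x) (by norm_num),
      ENNReal.ofReal_rpow_of_nonneg (hg0 x) (by norm_num),
      ENNReal.ofReal_rpow_of_nonneg (hh0 x) (by norm_num), ← ENNReal.ofReal_mul (by
        have := hf0 x; positivity), ← ENNReal.ofReal_mul (by
        have := hf0 x; have := hg0 x; positivity)]
  have e2 : ∀ {k : E3 → ℝ}, Integrable k → (∀ x, 0 ≤ k x) →
      (∫⁻ x, ENNReal.ofReal (k x)) ^ (1/3:ℝ) = ENNReal.ofReal ((∫ x, k x) ^ (1/3:ℝ)) := by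
    intro k hk hk0
    rw [← ofReal_integral_eq_lintegral_ofReal hk (Eventually.of_forall hk0),
      ENNReal.ofReal_rpow_of_nonneg (integral_nonneg hk0) (by norm_num)]
  simp_rw [e1] at key
  have p1 := Real.rpow_nonneg (integral_nonneg (μ := (volume : Measure E3)) hf0) (1/3:ℝ)
  have p2 := Real.rpow_nonneg (integral_nonneg (μ := (volume : Measure E3)) hg0) (1/3:ℝ)
  rw [e2 fi hf0, e2 gi hg0, e2 hi hh0, ← ENNReal.ofReal_mul p1, ← ENNReal.ofReal_mul (by positivity)] at key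
  have hm : Measurable fun x => f x ^ (1/3:ℝ) * g x ^ (1/3:ℝ) * h x ^ (1/3:ℝ) :=
    ((hf.pow_const _).mul (hg.pow_const _)).mul (hh.pow_const _)
  have h0 : ∀ x, 0 ≤ f x ^ (1/3:ℝ) * g x ^ (1/3:ℝ) * h x ^ (1/3:ℝ) := fun x => by
    have := hf0 x; have := hg0 x; have := hh0 x; positivity
  have hint : Integrable (fun x => f x ^ (1/3:ℝ) * g x ^ (1/3:ℝ) * h x ^ (1/3:ℝ)) := by
    refine ⟨hm.aestronglyMeasurable, ?_⟩
    rw [hasFiniteIntegral_iff_ofReal (Eventually.of_forall h0)]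
    exact key.trans_lt ENNReal.ofReal_lt_top
  refine ⟨hint, ?_⟩
  rw [← ofReal_integral_eq_lintegral_ofReal hint (Eventually.of_forall h0)] at key
  have p3 := Real.rpow_nonneg (integral_nonneg (μ := (volume : Measure E3)) hh0) (1/3:ℝ)
  exact (ENNReal.ofReal_le_ofReal_iff (by positivity)).1 key

theorem cube_root {x : ℝ} (hx : 0 ≤ x) : (x ^ 3) ^ (1/3:ℝ) = x := by
  rw [← Real.rpow_natCast, ← Real.rpow_mul hx]; norm_num

theorem six_root (x : ℝ) : (x ^ 6) ^ (1/3:ℝ) = x ^ 2 := by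
  have : x ^ 6 = (x ^ 2) ^ 3 := by ring
  rw [this, cube_root (sq_nonneg x)]

end Pool.Agent.Helper985.BM
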