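import Pool.Agent.Helper985.BM.N1
import Pool.Agent.Helper985.BM.S1

set_option autoImplicit false

open MeasureTheory Filter Topology Set
open scoped ContDiff

namespace Pool.Agent.Helper985.BM

open VR

section gen

variable {X : Type*} [NormedAddCommGroup X] [NormedSpace ℝ X] [FiniteDimensional ℝ X]
  [MeasureSpace X] [BorelSpace X] [(volume : Measure X).IsAddHaarMeasure]

theorem WD.of_bdd {e : X} {f : X → ℝ} (hf : L2 f) {C : ℝ} (hC : 0 ≤ C)
    (h : ∀ t : ℝ, N2 (fun x => f (x + t • e) - f x) ≤ t ^ 2 * C) :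
    ∃ g, L2 g ∧ WD e f g ∧ N2 g ≤ C := by
  set t : ℕ → ℝ := fun k => 1 / ((k:ℝ) + 1) with ht
  have htp : ∀ k, 0 < t k := fun k => Nat.one_div_pos_of_nat
  set q : ℕ → X → ℝ := fun k x => (t k)⁻¹ * (f (x + t k • e) - f x) with hq
  have hqL : ∀ k, L2 (q k) := fun k => ((hf.translate _).sub hf).const_mul _
  have hqN : ∀ k, N2 (q k) ≤ C := by
    intro k
    rw [hq]
    simp only
    rw [N2_const_mul]
    have h1 := h (t k)
    have h2 : 0 < (t k) ^ 2 := pow_pos (htp k) 2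
    rw [inv_pow, inv_mul_le_iff₀ h2]
    exact h1
  obtain ⟨σ, hσ, g, hg, hlim⟩ := exists_weak_subseq hqL C hqN
  refine ⟨g, hg, ?_, ?_⟩
  · refine WD.of_dq hf hg (t := fun k => t (σ k)) ?_ ?_
    · exact seq_pos.comp hσ.tendsto_atTop
    · intro φ hφ hc
      exact hlim φ (L2_of_cc hφ.continuous hc)
  · have h1 := hlim g hg
    have h2 : ∀ k, ∫ x, q (σ k) x * g x ≤ √C * √(N2 g) := fun k => by
      refine ((le_abs_self _).trans (cs (hqL _) hg)).trans ?_
      gcongr
      exact hqN _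
    have h3 : ∫ x, g x * g x ≤ √C * √(N2 g) := le_of_tendsto' h1 h2
    have h4 : ∫ x, g x * g x = N2 g := by unfold N2; congr 1; ext x; ring
    rw [h4] at h3
    have h5 := N2_nonneg g
    have h6 := Real.sq_sqrt h5
    have h7 := Real.sq_sqrt hC
    have h8 := Real.sqrt_nonneg (N2 g)
    have h9 := Real.sqrt_nonneg C
    rcases h8.eq_or_lt with h10 | h10
    · rw [← h10] at h6
      rw [← h6]; nlinarith
    · have h11 : √(N2 g) ≤ √C := by
        by_contra hcon
        push Not at hcon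
        nlinarith
      calc N2 g = √(N2 g) ^ 2 := h6.symm
        _ ≤ √C ^ 2 := pow_le_pow_left₀ h8 h11 2
        _ = C := h7

theorem H1.of_bdd {ι : Type*} [Fintype ι] {b : ι → X} {f : X → ℝ} (hf : L2 f) {C : ι → ℝ}
    (hC : ∀ i, 0 ≤ C i) (h : ∀ i, ∀ t : ℝ, N2 (fun x => f (x + t • b i) - f x) ≤ t ^ 2 * C i) :
    ∃ g, H1 b f g ∧ ∀ i, N2 (g i) ≤ C i := by
  choose g h1 h2 h3 using fun i => WD.of_bdd hf (hC i) (h i)
  exact ⟨g, ⟨hf, h1, h2⟩, h3⟩

end gen

variable {n : ℕ}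

/-- density of particle `i` -/
noncomputable def rhoi (u : Cf (n + 1) → ℝ) (i : Fin (n + 1)) (a : E3) : ℝ :=
  ∫ y : Cf n, u (ins i a y) ^ 2

/-- one-body density -/
noncomputable def rho (u : Cf (n + 1) → ℝ) (a : E3) : ℝ := ∑ i, rhoi u i a

theorem rhoi_nonneg (u : Cf (n + 1) → ℝ) (i : Fin (n + 1)) (a : E3) : 0 ≤ rhoi u i a :=
  integral_nonneg fun _ => sq_nonneg _

theorem rho_nonneg (u : Cf (n + 1) → ℝ) (a : E3) : 0 ≤ rho u a :=
  Finset.sum_nonneg fun i _ => rhoi_nonneg u i a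

theorem SC.sq_int {u : Cf n → ℝ} (hu : SC u) : Integrable fun x => u x ^ 2 := hu.L2.2

theorem rhoi_meas {u : Cf (n + 1) → ℝ} (hu : SC u) (i : Fin (n + 1)) : Measurable (rhoi u i) := by
  have h : Measurable fun p : E3 × Cf n => u (ins i p.1 p.2) ^ 2 :=
    (hu.sm.continuous.measurable.comp (ins_cont i).measurable).pow_const 2
  exact h.stronglyMeasurable.integral_prod_right.measurable

theorem rho_meas {u : Cf (n + 1) → ℝ} (hu : SC u) : Measurable (rho u) :=
  Finset.measurable_sum _ fun i _ => rhoi_meas hu i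

theorem rhoi_int {u : Cf (n + 1) → ℝ} (hu : SC u) (i : Fin (n + 1)) : Integrable (rhoi u i) :=
  sl_int_a hu.sq_int

theorem rho_int {u : Cf (n + 1) → ℝ} (hu : SC u) : Integrable (rho u) :=
  integrable_finsetSum _ fun i _ => rhoi_int hu i

/-- one-body expectation values -/
theorem rhoi_avg {u : Cf (n + 1) → ℝ} {i : Fin (n + 1)} {f : E3 → ℝ}
    (hf : Integrable fun x : Cf (n + 1) => f (x i) * u x ^ 2) :
    Integrable (fun a => f a * rhoi u i a) ∧ ∫ x, f (x i) * u x ^ 2 = ∫ a, f a * rhoi u i a := by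
  have e : ∀ a : E3, ∫ y : Cf n, f (ins i a y i) * u (ins i a y) ^ 2 = f a * rhoi u i a := by
    intro a
    unfold rhoi
    rw [← integral_const_mul]
    simp_rw [ins_same]
  constructor
  · have := sl_int_a (i := i) hf
    simpa only [e] using this
  · rw [integral_sl' i hf]
    simp_rw [e]

theorem rho_avg {u : Cf (n + 1) → ℝ} {f : E3 → ℝ}
    (hf : ∀ i, Integrable fun x : Cf (n + 1) => f (x i) * u x ^ 2) :
    Integrable (fun a => f a * rho u a) ∧
      ∑ i, ∫ x, f (x i) * u x ^ 2 = ∫ a, f a * rho u a := by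
  have e : (fun a => f a * rho u a) = fun a => ∑ i, f a * rhoi u i a := by
    ext a; unfold rho; rw [Finset.mul_sum]
  rw [e]
  refine ⟨integrable_finsetSum _ fun i _ => (rhoi_avg (hf i)).1, ?_⟩
  rw [integral_finsetSum _ fun i _ => (rhoi_avg (hf i)).1]
  exact Finset.sum_congr rfl fun i _ => (rhoi_avg (hf i)).2

theorem bdd_one_int {u : Cf (n + 1) → ℝ} (hu : SC u) {f : E3 → ℝ} (hf : Measurable f) {C : ℝ}
    (hC : ∀ x, |f x| ≤ C) (i : Fin (n + 1)) : Integrable fun x : Cf (n + 1) => f (x i) * u x ^ 2 :=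
  hu.sq_int.bdd_mul (c := C) (hf.comp (measurable_pi_apply i)).aestronglyMeasurable
    (Eventually.of_forall fun x => hC _)

theorem rho_mass {u : Cf (n + 1) → ℝ} (hu : SC u) : ∫ a, rho u a = (n + 1) * N2 u := by
  have h := (rho_avg (u := u) (f := fun _ => (1:ℝ)) (fun i => by simpa using hu.sq_int)).2
  simp only [one_mul] at h
  rw [← h]
  simp [N2]

/-- pointwise triangle inequality for the square root of the density -/
theorem sqrt_rho_diff {u : Cf (n + 1) → ℝ} (hu : SC u) (a h : E3) :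
    (√(rho u (a + h)) - √(rho u a)) ^ 2 ≤
      ∑ i, ∫ y : Cf n, (u (ins i (a + h) y) - u (ins i a y)) ^ 2 := by
  have hL : ∀ i (a : E3), L2 fun y : Cf n => u (ins i a y) := by
    intro i a
    have hc : Continuous fun y : Cf n => u (ins i a y) :=
      hu.sm.continuous.comp ((ins_cont i).comp (continuous_const.prodMk continuous_id))
    refine L2_of_cc hc ?_
    obtain ⟨r, _, hr⟩ := cc_ball hu.cc
    exact cc_of_ball r fun y hy => hr _ (hy.trans_le (norm_ins_ge' i a y))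
  set A : Fin (n + 1) → ℝ := fun i => √(rhoi u i (a + h)) with hA
  set B : Fin (n + 1) → ℝ := fun i => √(rhoi u i a) with hB
  have h1 : √(rho u (a + h)) = ‖(WithLp.toLp 2 A : EuclideanSpace ℝ (Fin (n + 1)))‖ := by
    rw [EuclideanSpace.norm_eq]
    congr 1
    unfold rho
    refine Finset.sum_congr rfl fun i _ => ?_
    simp only [hA, Real.norm_eq_abs, sq_abs]
    rw [Real.sq_sqrt (rhoi_nonneg _ _ _)]
  have h2 : √(rho u a) = ‖(WithLp.toLp 2 B : EuclideanSpace ℝ (Fin (n + 1)))‖ := by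
    rw [EuclideanSpace.norm_eq]
    congr 1
    unfold rho
    refine Finset.sum_congr rfl fun i _ => ?_
    simp only [hB, Real.norm_eq_abs, sq_abs]
    rw [Real.sq_sqrt (rhoi_nonneg _ _ _)]
  have h3 := abs_norm_sub_norm_le (WithLp.toLp 2 A : EuclideanSpace ℝ (Fin (n + 1))) (WithLp.toLp 2 B)
  rw [h1, h2, ← sq_abs]
  refine (pow_le_pow_left₀ (abs_nonneg _) h3 2).trans ?_
  rw [EuclideanSpace.norm_sq_eq]
  refine Finset.sum_le_sum fun i _ => ?_
  show ‖A i - B i‖ ^ 2 ≤ _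
  rw [Real.norm_eq_abs]
  have hd := (hL i (a + h)).sub (hL i a)
  have t1 := sqrt_N2_add_le hd (hL i a)
  have t2 := sqrt_N2_add_le hd.neg (hL i (a + h))
  rw [N2_neg] at t2
  have e1 : (fun y : Cf n => u (ins i (a + h) y) - u (ins i a y) + u (ins i a y)) =
      fun y => u (ins i (a + h) y) := by ext y; ring
  have e2 : (fun y : Cf n => -(u (ins i (a + h) y) - u (ins i a y)) + u (ins i (a + h) y)) =
      fun y => u (ins i a y) := by ext y; ring
  rw [e1] at t1
  rw [e2] at t2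
  have h4 : |A i - B i| ≤ √(N2 fun y : Cf n => u (ins i (a + h) y) - u (ins i a y)) := by
    rw [abs_le]
    constructor
    · show _ ≤ √(N2 fun y : Cf n => u (ins i (a + h) y)) - √(N2 fun y : Cf n => u (ins i a y))
      linarith
    · show √(N2 fun y : Cf n => u (ins i (a + h) y)) - √(N2 fun y : Cf n => u (ins i a y)) ≤ _
      linarith
  have h5 := pow_le_pow_left₀ (abs_nonneg _) h4 2
  rw [Real.sq_sqrt (N2_nonneg _)] at h5
  exact h5

theorem ins_add (i : Fin (n + 1)) (a : E3) (y : Cf n) (t : ℝ) (k : Fin 3) :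
    ins i (a + t • b3 k) y = ins i a y + t • dir (i, k) := by
  rw [ins_affine, ins_affine i a, add_assoc]
  congr 1
  ext1 j
  simp only [Pi.add_apply, Pi.smul_apply, dir]
  rcases eq_or_ne j i with h | h
  · subst h; simp
  · simp [h]

theorem sqrt_rho_L2 {u : Cf (n + 1) → ℝ} (hu : SC u) : L2 fun a => √(rho u a) :=
  ⟨(rho_meas hu).sqrt, (rho_int hu).congr (Eventually.of_forall fun a =>
    (Real.sq_sqrt (rho_nonneg u a)).symm)⟩

theorem sqrt_rho_H1 {u : Cf (n + 1) → ℝ} (hu : SC u) :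
    ∃ g : Fin 3 → E3 → ℝ, H1 b3 (fun a => √(rho u a)) g ∧ Kn g ≤ TT u := by
  have hL := sqrt_rho_L2 hu
  have hb : ∀ k : Fin 3, ∀ t : ℝ, N2 (fun a => √(rho u (a + t • b3 k)) - √(rho u a)) ≤
      t ^ 2 * ∑ i : Fin (n + 1), N2 fun x => fderiv ℝ u x (dir (i, k)) := by
    intro k t
    have hw : ∀ i : Fin (n + 1), N2 (fun x => u (x + t • dir (i, k)) - u x) ≤
        t ^ 2 * N2 fun x => fderiv ℝ u x (dir (i, k)) := fun i =>
      (WD.of_smooth hu.sm hu.cc (dir (i, k))).trans_le hu.L2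
        (L2_of_cc (fderiv_cc_continuous hu.sm _) (fderiv_cc_support hu.cc _)) t
    have hD : ∀ i : Fin (n + 1), Integrable fun x => (u (x + t • dir (i, k)) - u x) ^ 2 := fun i =>
      ((hu.L2.translate _).sub hu.L2).2
    have hsl : ∀ i : Fin (n + 1), ∫ x, (u (x + t • dir (i, k)) - u x) ^ 2 =
        ∫ a : E3, ∫ y : Cf n, (u (ins i (a + t • b3 k) y) - u (ins i a y)) ^ 2 := by
      intro i
      rw [integral_sl' i (hD i)]
      simp_rw [ins_add]
    have hsi : ∀ i : Fin (n + 1), Integrable fun a : E3 =>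
        ∫ y : Cf n, (u (ins i (a + t • b3 k) y) - u (ins i a y)) ^ 2 := by
      intro i
      have := sl_int_a (i := i) (hD i)
      simpa only [ins_add] using this
    calc N2 (fun a => √(rho u (a + t • b3 k)) - √(rho u a))
        ≤ ∫ a : E3, ∑ i, ∫ y : Cf n, (u (ins i (a + t • b3 k) y) - u (ins i a y)) ^ 2 := by
          unfold N2
          exact integral_mono ((hL.translate _).sub hL).2 (integrable_finsetSum _ fun i _ => hsi i)
            fun a => sqrt_rho_diff hu a _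
      _ = ∑ i, ∫ x, (u (x + t • dir (i, k)) - u x) ^ 2 := by
          rw [integral_finsetSum _ fun i _ => hsi i]
          exact Finset.sum_congr rfl fun i _ => (hsl i).symm
      _ ≤ ∑ i : Fin (n + 1), t ^ 2 * N2 fun x => fderiv ℝ u x (dir (i, k)) :=
          Finset.sum_le_sum fun i _ => hw i
      _ = _ := by rw [Finset.mul_sum]
  obtain ⟨g, hg, hgN⟩ := H1.of_bdd (b := (b3 : Fin 3 → E3)) hL
    (C := fun k => ∑ i : Fin (n + 1), N2 fun x => fderiv ℝ u x (dir (i, k)))
    (fun k => Finset.sum_nonneg fun i _ => N2_nonneg _) hb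
  refine ⟨g, hg, ?_⟩
  unfold Kn TT Ti
  rw [Finset.sum_comm]
  exact Finset.sum_le_sum fun k _ => hgN k

/-- Sobolev inequality for the density -/
theorem rho_cube : ∃ S : ℝ, 0 < S ∧ ∀ (n : ℕ) (u : Cf (n + 1) → ℝ), SC u →
    Integrable (fun a => rho u a ^ 3) ∧ ∫ a, rho u a ^ 3 ≤ (S * TT u) ^ 3 := by
  obtain ⟨S, hS0, hS⟩ := sob
  refine ⟨S, hS0, fun n u hu => ?_⟩
  obtain ⟨g, hg, hgN⟩ := sqrt_rho_H1 hu
  have h := hS _ g hg
  have e : ∀ a, √(rho u a) ^ 6 = rho u a ^ 3 := fun a => by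
    have := Real.sq_sqrt (rho_nonneg u a)
    calc √(rho u a) ^ 6 = (√(rho u a) ^ 2) ^ 3 := by ring
      _ = _ := by rw [this]
  simp_rw [e] at h
  refine ⟨h.1, h.2.trans ?_⟩
  have := Kn_nonneg g
  gcongr

end Pool.Agent.Helper985.BM
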