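import Pool.Agent.Helper985.BM.U2

set_option autoImplicit false

open MeasureTheory Filter Topology Set

namespace Pool.Agent.Helper985.BM

open VR

/-- averages over the random planes converge -/
theorem tess {α : Type*} [MeasurableSpace α] {μ : Measure α} [SFinite μ] {G : α → ℝ}
    (hG : Integrable G μ) {x y : α → E3} (hx : Measurable x) (hy : Measurable y) {t : ℝ} (ht : 0 < t) :
    (∀ M : ℕ, Integrable (fun w : Fin (M + 1) → Pl => ∫ a, G a * SM w (x a) (y a) ∂μ)
      (PMM (M + 1) (RM t (M + 1)))) ∧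
    Tendsto (fun M : ℕ => ∫ w, ∫ a, G a * SM w (x a) (y a) ∂μ ∂(PMM (M + 1) (RM t (M + 1)))) atTop
      (𝓝 (∫ a, G a * ek t (x a - y a) ∂μ)) := by
  have hprob : ∀ M : ℕ, IsProbabilityMeasure (PMM (M + 1) (RM t (M + 1))) := fun M =>
    PMM_prob (RM_pos ht (Nat.succ_pos M))
  have hprod : ∀ M : ℕ, Integrable (fun p : (Fin (M + 1) → Pl) × α => G p.2 * SM p.1 (x p.2) (y p.2))
      ((PMM (M + 1) (RM t (M + 1))).prod μ) := by
    intro M
    haveI := hprob M
    have h1 : Integrable (fun p : (Fin (M + 1) → Pl) × α => G p.2) ((PMM (M + 1) (RM t (M + 1))).prod μ) :=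
      hG.comp_snd _
    have h2 : Measurable fun p : (Fin (M + 1) → Pl) × α => SM p.1 (x p.2) (y p.2) :=
      SM_meas.comp (measurable_fst.prodMk ((hx.comp measurable_snd).prodMk (hy.comp measurable_snd)))
    refine h1.mul_bdd (c := 1) h2.aestronglyMeasurable (Eventually.of_forall fun p => ?_)
    rw [Real.norm_eq_abs, abs_of_nonneg (SM_bd _ _ _).1]
    exact (SM_bd _ _ _).2
  constructor
  · intro M
    haveI := hprob M
    exact (hprod M).integral_prod_left
  · have e : ∀ M : ℕ, ∫ w, ∫ a, G a * SM w (x a) (y a) ∂μ ∂(PMM (M + 1) (RM t (M + 1))) =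
        ∫ a, G a * (∫ w, SM w (x a) (y a) ∂(PMM (M + 1) (RM t (M + 1)))) ∂μ := by
      intro M
      haveI := hprob M
      rw [integral_integral_swap (hprod M)]
      simp_rw [integral_const_mul]
    simp_rw [e]
    have hb : ∀ (M : ℕ) (u v : E3), |∫ w, SM w u v ∂(PMM (M + 1) (RM t (M + 1)))| ≤ 1 := by
      intro M u v
      haveI := hprob M
      have h1 := norm_integral_le_of_norm_le_const (μ := PMM (M + 1) (RM t (M + 1))) (C := 1)
        (f := fun w => SM w u v) (Eventually.of_forall fun w => by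
          rw [Real.norm_eq_abs, abs_of_nonneg (SM_bd _ _ _).1]; exact (SM_bd _ _ _).2)
      simpa using h1
    refine tendsto_integral_of_dominated_convergence (fun a => |G a|) (fun M => ?_) hG.abs
      (fun M => Eventually.of_forall fun a => ?_) (Eventually.of_forall fun a => ?_)
    · haveI := hprob M
      refine hG.aestronglyMeasurable.mul ?_
      have h2 : Measurable fun p : α × (Fin (M + 1) → Pl) => SM p.2 (x p.1) (y p.1) :=
        SM_meas.comp (measurable_snd.prodMk ((hx.comp measurable_fst).prodMk (hy.comp measurable_fst)))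
      exact h2.stronglyMeasurable.integral_prod_right.aestronglyMeasurable
    · rw [norm_mul, Real.norm_eq_abs, Real.norm_eq_abs]
      exact mul_le_of_le_one_right (abs_nonneg _) (hb M _ _)
    · exact (SM_avg_tendsto ht (x a) (y a)).const_mul (G a)

/-- Yukawa kernel with parameter `t` -/
noncomputable def Ym (t : ℝ) (x : E3) : ℝ := ek t x * Ck x

theorem Ym_nonneg (t : ℝ) (x : E3) : 0 ≤ Ym t x := mul_nonneg (ek_pos _ _).le (Ck_nonneg x)

theorem Ym_int {t : ℝ} (ht : 0 < t) : Integrable (Ym t) := by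
  refine (yuk_radial ht).1.congr (Eventually.of_forall fun x => ?_)
  unfold Ym Ck
  ring

theorem Ym_meas (t : ℝ) : Measurable (Ym t) := (ek_cont_x t).measurable.mul Ck_meas

theorem Ym_scale {t : ℝ} (ht : 0 < t) (x : E3) : Ym t (t⁻¹ • x) = t * Yk x := by
  unfold Ym ek Ck Yk
  rw [norm_smul, Real.norm_eq_abs, abs_of_pos (inv_pos.2 ht)]
  have : t * (t⁻¹ * ‖x‖) = ‖x‖ := by field_simp
  rw [this]
  by_cases h : ‖x‖ = 0
  · rw [h]; simp
  · field_simp

/-- the scaled Yukawa kernels form an approximate identity -/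
theorem approx_id {g : E3 → ℝ} (hL : VR.L2 g) (hg0 : ∀ x, 0 ≤ g x) :
    Tendsto (fun t : ℝ => t ^ 2 * ∫ x, g x * ∫ y, Ym t (x - y) * g y) atTop (𝓝 (c3 * ∫ x, g x ^ 2)) := by
  set A : E3 → ℝ := fun w => ∫ x, g (x + w) * g x with hA
  have hAe : ∀ w, A w = N2 g - (1/2) * N2 (fun x => g (x + w) - g x) := by
    intro w
    have h2 := N2_sub (hL.translate w) hL
    rw [N2_translate] at h2
    rw [h2]; ring
  have hAb : ∀ w, 0 ≤ A w ∧ A w ≤ N2 g := by
    intro w
    refine ⟨integral_nonneg fun x => mul_nonneg (hg0 _) (hg0 _), ?_⟩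
    rw [hAe]
    have := N2_nonneg (fun x => g (x + w) - g x)
    linarith
  have hA0 : Tendsto A (𝓝 0) (𝓝 (N2 g)) := by
    have h1 := tendsto_translate hL
    have h2 : Tendsto (fun w => N2 g - (1/2) * N2 (fun x => g (x + w) - g x)) (𝓝 0) (𝓝 (N2 g - (1/2) * 0)) :=
      tendsto_const_nhds.sub (h1.const_mul _)
    rw [mul_zero, sub_zero] at h2
    exact h2.congr fun w => (hAe w).symm
  have hAm : Measurable A := by
    have : Measurable fun p : E3 × E3 => g (p.2 + p.1) * g p.2 :=
      (hL.1.comp (measurable_snd.add measurable_fst)).mul (hL.1.comp measurable_snd)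
    exact this.stronglyMeasurable.integral_prod_right.measurable
  have hform : ∀ t : ℝ, 0 < t → t ^ 2 * ∫ x, g x * ∫ y, Ym t (x - y) * g y = ∫ v, Yk v * A (t⁻¹ • v) := by
    intro t ht
    have hpot : ∀ a, ∫ y, Ym t (a - y) * g y = ∫ h, Ym t h * g (a + h) := by
      intro a
      rw [← integral_add_left_eq_self (fun b => Ym t (a - b) * g b) a]
      congr 1; ext h
      have : Ym t (a - (a + h)) = Ym t h := by
        rw [show a - (a + h) = -h by abel]
        unfold Ym
        rw [ek_neg, Ck_neg]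
      rw [this]
    have hprod : Integrable (fun p : E3 × E3 => Ym t p.2 * (g (p.1 + p.2) * g p.1))
        ((volume : Measure E3).prod (volume : Measure E3)) := by
      have hm : Measurable fun p : E3 × E3 => Ym t p.2 * (g (p.1 + p.2) * g p.1) :=
        ((Ym_meas t).comp measurable_snd).mul
          ((hL.1.comp (measurable_fst.add measurable_snd)).mul (hL.1.comp measurable_fst))
      rw [integrable_prod_iff' hm.aestronglyMeasurable]
      refine ⟨Eventually.of_forall fun h => ((hL.translate h).mul hL).const_mul (Ym t h), ?_⟩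
      refine ((Ym_int ht).mul_const (N2 g)).mono' ?_ (Eventually.of_forall fun h => ?_)
      · exact (hm.norm.stronglyMeasurable.integral_prod_left (μ := (volume : Measure E3))).aestronglyMeasurable
      · have e : ∀ a, ‖Ym t h * (g (a + h) * g a)‖ = Ym t h * (g (a + h) * g a) := by
          intro a
          rw [Real.norm_eq_abs, abs_of_nonneg]
          exact mul_nonneg (Ym_nonneg _ _) (mul_nonneg (hg0 _) (hg0 _))
        simp_rw [e]
        rw [integral_const_mul, Real.norm_eq_abs, abs_of_nonneg (mul_nonneg (Ym_nonneg _ _) (hAb h).1)]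
        exact mul_le_mul_of_nonneg_left (hAb h).2 (Ym_nonneg _ _)
    have e1 : ∫ x, g x * ∫ y, Ym t (x - y) * g y = ∫ h, Ym t h * A h := by
      have e2 : ∀ a, g a * ∫ y, Ym t (a - y) * g y = ∫ h, Ym t h * (g (a + h) * g a) := by
        intro a
        rw [hpot, ← integral_const_mul]
        congr 1; ext h; ring
      simp_rw [e2]
      rw [integral_integral_swap hprod]
      simp_rw [integral_const_mul]
      rfl
    rw [e1]
    have e3 : ∫ v, (fun h => Ym t h * A h) (t⁻¹ • v) = t ^ 3 * ∫ h, Ym t h * A h := by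
      rw [Measure.integral_comp_smul volume (fun h => Ym t h * A h) t⁻¹]
      simp [abs_of_pos ht]
    have e4 : ∀ v, (fun h => Ym t h * A h) (t⁻¹ • v) = t * (Yk v * A (t⁻¹ • v)) := by
      intro v
      show Ym t (t⁻¹ • v) * A (t⁻¹ • v) = _
      rw [Ym_scale ht]; ring
    simp_rw [e4] at e3
    rw [integral_const_mul] at e3
    have : t * (t ^ 2 * ∫ h, Ym t h * A h) = t * ∫ v, Yk v * A (t⁻¹ • v) := by rw [e3]; ring
    exact mul_left_cancel₀ ht.ne' this
  have hlim : Tendsto (fun t : ℝ => ∫ v, Yk v * A (t⁻¹ • v)) atTop (𝓝 (∫ v, Yk v * N2 g)) := by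
    refine tendsto_integral_filter_of_dominated_convergence (fun v => Yk v * N2 g) ?_ ?_
      (Yk_int.mul_const _) ?_
    · exact Eventually.of_forall fun t =>
        (Yk_meas.mul (hAm.comp (measurable_id.const_smul t⁻¹))).aestronglyMeasurable
    · refine Eventually.of_forall fun t => Eventually.of_forall fun v => ?_
      rw [norm_mul, Real.norm_eq_abs, Real.norm_eq_abs, abs_of_nonneg (Yk_nonneg v),
        abs_of_nonneg (hAb _).1]
      exact mul_le_mul_of_nonneg_left (hAb _).2 (Yk_nonneg v)
    · refine Eventually.of_forall fun v => (hA0.comp ?_).const_mul (Yk v)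
      have : Tendsto (fun t : ℝ => t⁻¹ • v) atTop (𝓝 ((0:ℝ) • v)) := tendsto_inv_atTop_zero.smul_const v
      rwa [zero_smul] at this
  rw [integral_mul_const, Yk_integral] at hlim
  refine hlim.congr' ?_
  filter_upwards [eventually_gt_atTop 0] with t ht
  exact (hform t ht).symm

end Pool.Agent.Helper985.BM
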