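import Pool.Agent.Helper985.BM.U3

set_option autoImplicit false

open MeasureTheory Filter Topology Set

namespace Pool.Agent.Helper985.BM

open VR

/-- admissible weights -/
structure Wg (q : E3 → ℝ) : Prop where
  meas : Measurable q
  nn : ∀ x, 0 ≤ q x
  le : ∀ x, q x ≤ 1
  int : Integrable q

theorem Wg.abs {q : E3 → ℝ} (h : Wg q) (x : E3) : |q x| ≤ 1 := by
  rw [abs_of_nonneg (h.nn x)]; exact h.le x

theorem Wg.cut {q : E3 → ℝ} (h : Wg q) {S : Set E3} (hS : MeasurableSet S) :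
    Wg fun x => q x * S.indicator (fun _ => (1:ℝ)) x := by
  have hm : Measurable fun x => q x * S.indicator (fun _ => (1:ℝ)) x :=
    h.meas.mul (measurable_const.indicator hS)
  have hb : ∀ x, 0 ≤ S.indicator (fun _ => (1:ℝ)) x ∧ S.indicator (fun _ => (1:ℝ)) x ≤ 1 := fun x => by
    by_cases hx : x ∈ S
    · rw [Set.indicator_of_mem hx]; norm_num
    · rw [Set.indicator_of_notMem hx]; norm_num
  refine ⟨hm, fun x => mul_nonneg (h.nn x) (hb x).1, fun x => mul_le_one₀ (h.le x) (hb x).1 (hb x).2, ?_⟩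
  refine h.int.mono' hm.aestronglyMeasurable (Eventually.of_forall fun x => ?_)
  rw [Real.norm_eq_abs, abs_of_nonneg (mul_nonneg (h.nn x) (hb x).1)]
  exact mul_le_of_le_one_right (h.nn x) (hb x).2

theorem pairprod {q q' : E3 → ℝ} (h : Wg q) (h' : Wg q') {η : ℝ} (hη : 0 ≤ η) :
    Integrable (fun p : E3 × E3 => q p.1 * q' p.2 * Kη η (p.1 - p.2)) (volume.prod volume) ∧
    ∫ p, q p.1 * q' p.2 * Kη η (p.1 - p.2) ∂((volume : Measure E3).prod (volume : Measure E3)) =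
      ∫ x, q x * ∫ y, Kη η (x - y) * q' y := by
  have hm : Measurable fun p : E3 × E3 => q p.1 * q' p.2 * Kη η (p.1 - p.2) :=
    ((h.meas.comp measurable_fst).mul (h'.meas.comp measurable_snd)).mul
      ((Kη_meas η).comp (measurable_fst.sub measurable_snd))
  have hin : ∀ x, ∫ y, q x * q' y * Kη η (x - y) = q x * ∫ y, Kη η (x - y) * q' y := by
    intro x
    rw [← integral_const_mul]
    congr 1; ext y; ring
  have hΨm : Measurable fun x => ∫ y, Kη η (x - y) * q' y := by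
    have : Measurable fun p : E3 × E3 => Kη η (p.1 - p.2) * q' p.2 :=
      ((Kη_meas η).comp (measurable_fst.sub measurable_snd)).mul (h'.meas.comp measurable_snd)
    exact this.stronglyMeasurable.integral_prod_right.measurable
  have hΨ0 : ∀ x, 0 ≤ ∫ y, Kη η (x - y) * q' y := fun x =>
    integral_nonneg fun y => mul_nonneg (Kη_nonneg hη _) (h'.nn y)
  have hi : Integrable (fun p : E3 × E3 => q p.1 * q' p.2 * Kη η (p.1 - p.2)) (volume.prod volume) := by
    rw [integrable_prod_iff hm.aestronglyMeasurable]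
    constructor
    · refine Eventually.of_forall fun x => ?_
      refine ((Kη_conv h'.int h'.meas h'.abs η x).1.const_mul (q x)).congr (Eventually.of_forall fun y => ?_)
      simp only; ring
    · have e : ∀ x, ∫ y, ‖q x * q' y * Kη η (x - y)‖ = q x * ∫ y, Kη η (x - y) * q' y := by
        intro x
        rw [← hin]
        congr 1; ext y
        rw [Real.norm_eq_abs, abs_of_nonneg]
        exact mul_nonneg (mul_nonneg (h.nn _) (h'.nn _)) (Kη_nonneg hη _)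
      simp_rw [e]
      refine h.int.mul_bdd (c := 3 * 1 * c3 + (∫ y, |q' y|) + η * ∫ y, q' y) hΨm.aestronglyMeasurable
        (Eventually.of_forall fun x => ?_)
      rw [Real.norm_eq_abs, abs_of_nonneg (hΨ0 x), (Kη_conv h'.int h'.meas h'.abs η x).2]
      have := (le_abs_self _).trans (Ck_conv h'.int h'.meas h'.abs x).2
      linarith
  refine ⟨hi, ?_⟩
  rw [integral_prod _ hi]
  simp_rw [hin]

variable {ν : ℕ}

/-- energy within a piece -/
noncomputable def selfE (z η ℓ s : ℝ) (Rc : Fin ν → E3) (B : Finset (Fin 3 → ℤ)) (q : E3 → ℝ) : ℝ :=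
  (1/2) * z ^ 2 * ∑ a : Fin ν × B, ∑ b ∈ Finset.univ.erase a, ∫ θ, q (pos Rc ℓ s θ a) *
    q (pos Rc ℓ s θ b) * Kη η (pos Rc ℓ s θ a - pos Rc ℓ s θ b) ∂PT

/-- energy of the smeared piece -/
noncomputable def mutE (η c : ℝ) (q : E3 → ℝ) : ℝ :=
  (1/2) * c ^ 2 * ∫ x, q x * ∫ y, Kη η (x - y) * q y

theorem pos_sub (Rc : Fin ν → E3) (ℓ s : ℝ) {B : Finset (Fin 3 → ℤ)} (θ : E3) (a b : Fin ν × B) :
    pos Rc ℓ s θ a - pos Rc ℓ s θ b =
      s • (Rc a.1 - Rc b.1 + lv ℓ ((a.2 : Fin 3 → ℤ) - (b.2 : Fin 3 → ℤ))) := by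
  unfold pos
  rw [← smul_sub]
  congr 1
  ext i
  simp only [PiLp.sub_apply, PiLp.add_apply, PiLp.smul_apply, lv_apply, smul_eq_mul, one_mul,
    Pi.sub_apply, Int.cast_sub]
  ring

theorem ek_smul {s : ℝ} (hs : 0 < s) (v : E3) : ek s⁻¹ (s • v) = ek 1 v := by
  unfold ek
  rw [norm_smul, Real.norm_eq_abs, abs_of_pos hs]
  congr 2; field_simp

theorem Yk_eCk (v : E3) : Yk v = ek 1 v * Ck v := by
  unfold Yk ek Ck
  rw [one_mul, mul_one_div]

theorem kern_eq {s : ℝ} (hs : 0 < s) (η : ℝ) (v : E3) :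
    Kη η (s • v) * ek s⁻¹ (s • v) = Yk v / s + η * ek 1 v := by
  unfold Kη
  rw [ek_smul hs, Yk_eCk, Ck_smul hs v]
  field_simp

/-- choice of the planes for one level -/
theorem level {z : ℝ} {η ℓ s c P W₁ : ℝ} (hη : 0 ≤ η) (hℓ : 0 < ℓ) (hs : 0 < s)
    {Rc : Fin ν → E3} (hAdm : Adm ℓ Rc P)
    (hW : ∀ F : Finset ((Fin ν × Fin ν) × (Fin 3 → ℤ)),
      ∑ t ∈ F, ek 1 (Rc t.1.1 - Rc t.1.2 + lv ℓ t.2) ≤ W₁) {B : Finset (Fin 3 → ℤ)}
    {p : E3 → ℝ} (hp : Wg p) (hB : ∀ j y, p (s • Rc j + (s * ℓ) • y) ≠ 0 → ci 1 0 y ∈ B)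
    {ε : ℝ} (hε : 0 < ε) : ∀ᶠ M : ℕ in atTop, ∃ w : Fin (M + 1) → Pl,
      ∑ l : Fin (M + 1) → Bool,
        (selfE z η ℓ s Rc B (fun x => p x * (cell w l).indicator (fun _ => (1:ℝ)) x) -
          mutE η c (fun x => p x * (cell w l).indicator (fun _ => (1:ℝ)) x)) ≤
      (1/2) * z ^ 2 * (((s * ℓ) ^ 3)⁻¹ * (∫ x, p x) * (P / s + η * W₁)) -
        (1/2) * c ^ 2 * (∫ x, p x * ∫ y, Ym s⁻¹ (x - y) * p y) + ε := by
  haveI := PT_prob
  have ht : 0 < s⁻¹ := inv_pos.2 hs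
  -- the two parts
  set G : Fin ν × B → Fin ν × B → E3 → ℝ := fun a b θ =>
    p (pos Rc ℓ s θ a) * p (pos Rc ℓ s θ b) * Kη η (pos Rc ℓ s θ a - pos Rc ℓ s θ b) with hG
  have hpm : ∀ a : Fin ν × B, Measurable fun θ => pos Rc ℓ s θ a := fun a => (pos_cont Rc ℓ s a).measurable
  have hGi : ∀ a b, Integrable (G a b) PT := by
    intro a b
    have e : G a b = fun θ => (p (pos Rc ℓ s θ a) * p (pos Rc ℓ s θ b)) *
        Kη η (s • (Rc a.1 - Rc b.1 + lv ℓ ((a.2 : Fin 3 → ℤ) - (b.2 : Fin 3 → ℤ)))) := by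
      ext θ; rw [hG]; simp only; rw [pos_sub]
    rw [e]
    refine Integrable.mul_const ?_ _
    refine Integrable.of_bound ((hp.meas.comp (hpm a)).mul (hp.meas.comp (hpm b))).aestronglyMeasurable 1
      (Eventually.of_forall fun θ => ?_)
    rw [Real.norm_eq_abs, abs_mul]
    exact mul_le_one₀ (hp.abs _) (abs_nonneg _) (hp.abs _)
  set G2 : E3 × E3 → ℝ := fun q => p q.1 * p q.2 * Kη η (q.1 - q.2) with hG2
  have hG2i : Integrable G2 (volume.prod volume) := (pairprod hp hp hη).1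
  -- functional of the planes
  have hF : ∀ (M : ℕ) (w : Fin (M + 1) → Pl), ∑ l : Fin (M + 1) → Bool,
        (selfE z η ℓ s Rc B (fun x => p x * (cell w l).indicator (fun _ => (1:ℝ)) x) -
          mutE η c (fun x => p x * (cell w l).indicator (fun _ => (1:ℝ)) x)) =
      (1/2) * z ^ 2 * (∑ a : Fin ν × B, ∑ b ∈ Finset.univ.erase a,
        ∫ θ, G a b θ * SM w (pos Rc ℓ s θ a) (pos Rc ℓ s θ b) ∂PT) -
      (1/2) * c ^ 2 * ∫ q, G2 q * SM w q.1 q.2 ∂(volume.prod volume) := by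
    intro M w
    rw [Finset.sum_sub_distrib]
    congr 1
    · unfold selfE
      rw [← Finset.mul_sum]
      congr 1
      rw [Finset.sum_comm]
      refine Finset.sum_congr rfl fun a _ => ?_
      rw [Finset.sum_comm]
      refine Finset.sum_congr rfl fun b _ => ?_
      have e : ∀ θ, G a b θ * SM w (pos Rc ℓ s θ a) (pos Rc ℓ s θ b) =
          ∑ l : Fin (M + 1) → Bool, (p (pos Rc ℓ s θ a) * (cell w l).indicator (fun _ => (1:ℝ)) (pos Rc ℓ s θ a)) *
          (p (pos Rc ℓ s θ b) * (cell w l).indicator (fun _ => (1:ℝ)) (pos Rc ℓ s θ b)) *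
          Kη η (pos Rc ℓ s θ a - pos Rc ℓ s θ b) := by
        intro θ
        rw [SM_sum, Finset.mul_sum]
        refine Finset.sum_congr rfl fun l _ => ?_
        rw [hG]; simp only; ring
      simp_rw [e]
      rw [integral_finsetSum]
      intro l _
      have hc := hp.cut (cell_meas w l)
      have e' : (fun θ => (p (pos Rc ℓ s θ a) * (cell w l).indicator (fun _ => (1:ℝ)) (pos Rc ℓ s θ a)) *
          (p (pos Rc ℓ s θ b) * (cell w l).indicator (fun _ => (1:ℝ)) (pos Rc ℓ s θ b)) *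
          Kη η (pos Rc ℓ s θ a - pos Rc ℓ s θ b)) = fun θ =>
          ((fun x => p x * (cell w l).indicator (fun _ => (1:ℝ)) x) (pos Rc ℓ s θ a) *
          (fun x => p x * (cell w l).indicator (fun _ => (1:ℝ)) x) (pos Rc ℓ s θ b)) *
          Kη η (s • (Rc a.1 - Rc b.1 + lv ℓ ((a.2 : Fin 3 → ℤ) - (b.2 : Fin 3 → ℤ)))) := by
        ext θ; rw [pos_sub]
      rw [e']
      refine Integrable.mul_const ?_ _
      refine Integrable.of_bound ((hc.meas.comp (hpm a)).mul (hc.meas.comp (hpm b))).aestronglyMeasurable 1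
        (Eventually.of_forall fun θ => ?_)
      rw [Real.norm_eq_abs, abs_mul]
      exact mul_le_one₀ (hc.abs _) (abs_nonneg _) (hc.abs _)
    · unfold mutE
      rw [← Finset.mul_sum]
      congr 1
      have e : ∀ q : E3 × E3, G2 q * SM w q.1 q.2 =
          ∑ l : Fin (M + 1) → Bool, (fun x => p x * (cell w l).indicator (fun _ => (1:ℝ)) x) q.1 *
          (fun x => p x * (cell w l).indicator (fun _ => (1:ℝ)) x) q.2 * Kη η (q.1 - q.2) := by
        intro q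
        rw [SM_sum, Finset.mul_sum]
        refine Finset.sum_congr rfl fun l _ => ?_
        rw [hG2]; simp only; ring
      simp_rw [e]
      rw [integral_finsetSum _ fun l _ => (pairprod (hp.cut (cell_meas w l)) (hp.cut (cell_meas w l)) hη).1]
      exact Finset.sum_congr rfl fun l _ =>
        (pairprod (hp.cut (cell_meas w l)) (hp.cut (cell_meas w l)) hη).2.symm
  simp_rw [hF]
  -- averages
  have t1 : ∀ a b, (∀ M : ℕ, Integrable (fun w : Fin (M + 1) → Pl =>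
      ∫ θ, G a b θ * SM w (pos Rc ℓ s θ a) (pos Rc ℓ s θ b) ∂PT) (PMM (M + 1) (RM s⁻¹ (M + 1)))) ∧
      Tendsto (fun M : ℕ => ∫ w, ∫ θ, G a b θ * SM w (pos Rc ℓ s θ a) (pos Rc ℓ s θ b) ∂PT
        ∂(PMM (M + 1) (RM s⁻¹ (M + 1)))) atTop
      (𝓝 (∫ θ, G a b θ * ek s⁻¹ (pos Rc ℓ s θ a - pos Rc ℓ s θ b) ∂PT)) := fun a b =>
    tess (hGi a b) (hpm a) (hpm b) ht
  have t2 := tess (μ := (volume : Measure E3).prod (volume : Measure E3)) hG2i measurable_fst measurable_snd ht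
  set Fm : (M : ℕ) → (Fin (M + 1) → Pl) → ℝ := fun M w =>
      (1/2) * z ^ 2 * (∑ a : Fin ν × B, ∑ b ∈ Finset.univ.erase a,
        ∫ θ, G a b θ * SM w (pos Rc ℓ s θ a) (pos Rc ℓ s θ b) ∂PT) -
      (1/2) * c ^ 2 * ∫ q, G2 q * SM w q.1 q.2 ∂(volume.prod volume) with hFm
  have hI1 : ∀ M : ℕ, Integrable (fun w : Fin (M + 1) → Pl => (1/2) * z ^ 2 * (∑ a : Fin ν × B,
      ∑ b ∈ Finset.univ.erase a, ∫ θ, G a b θ * SM w (pos Rc ℓ s θ a) (pos Rc ℓ s θ b) ∂PT))
      (PMM (M + 1) (RM s⁻¹ (M + 1))) := fun M =>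
    (integrable_finsetSum _ fun a _ => integrable_finsetSum _ fun b _ => (t1 a b).1 M).const_mul _
  have hI2 : ∀ M : ℕ, Integrable (fun w : Fin (M + 1) → Pl => (1/2) * c ^ 2 *
      ∫ q, G2 q * SM w q.1 q.2 ∂(volume.prod volume)) (PMM (M + 1) (RM s⁻¹ (M + 1))) := fun M =>
    (t2.1 M).const_mul _
  have hFi : ∀ M : ℕ, Integrable (Fm M) (PMM (M + 1) (RM s⁻¹ (M + 1))) := fun M => (hI1 M).sub (hI2 M)
  have hFe : ∀ M : ℕ, ∫ w, Fm M w ∂(PMM (M + 1) (RM s⁻¹ (M + 1))) =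
      (1/2) * z ^ 2 * (∑ a : Fin ν × B, ∑ b ∈ Finset.univ.erase a,
        ∫ w, ∫ θ, G a b θ * SM w (pos Rc ℓ s θ a) (pos Rc ℓ s θ b) ∂PT ∂(PMM (M + 1) (RM s⁻¹ (M + 1)))) -
      (1/2) * c ^ 2 * ∫ w, ∫ q, G2 q * SM w q.1 q.2 ∂(volume.prod volume) ∂(PMM (M + 1) (RM s⁻¹ (M + 1))) := by
    intro M
    rw [hFm]
    simp only
    rw [integral_sub (hI1 M) (hI2 M), integral_const_mul, integral_const_mul,
      integral_finsetSum _ fun a _ => integrable_finsetSum _ fun b _ => (t1 a b).1 M]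
    congr 2
    refine Finset.sum_congr rfl fun a _ => ?_
    rw [integral_finsetSum _ fun b _ => (t1 a b).1 M]
  set L₀ : ℝ := (1/2) * z ^ 2 * (∑ a : Fin ν × B, ∑ b ∈ Finset.univ.erase a,
      ∫ θ, G a b θ * ek s⁻¹ (pos Rc ℓ s θ a - pos Rc ℓ s θ b) ∂PT) -
      (1/2) * c ^ 2 * ∫ q, G2 q * ek s⁻¹ (q.1 - q.2) ∂(volume.prod volume) with hL₀
  have hlim : Tendsto (fun M : ℕ => ∫ w, Fm M w ∂(PMM (M + 1) (RM s⁻¹ (M + 1)))) atTop (𝓝 L₀) := by
    simp_rw [hFe]
    refine Tendsto.sub (Tendsto.const_mul _ ?_) (t2.2.const_mul _)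
    exact tendsto_finsetSum _ fun a _ => tendsto_finsetSum _ fun b _ => (t1 a b).2
  -- bound of the limit
  have hbound : L₀ ≤ (1/2) * z ^ 2 * (((s * ℓ) ^ 3)⁻¹ * (∫ x, p x) * (P / s + η * W₁)) -
        (1/2) * c ^ 2 * (∫ x, p x * ∫ y, Ym s⁻¹ (x - y) * p y) := by
    have hpa : ∀ a : Fin ν × B, Integrable (fun θ => p (pos Rc ℓ s θ a)) PT := fun a => mean_one hℓ hs hp.int a
    have b1 : ∑ a : Fin ν × B, ∑ b ∈ Finset.univ.erase a,
        ∫ θ, G a b θ * ek s⁻¹ (pos Rc ℓ s θ a - pos Rc ℓ s θ b) ∂PT ≤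
        ((s * ℓ) ^ 3)⁻¹ * (∫ x, p x) * (P / s + η * W₁) := by
      classical
      set κ : E3 → ℝ := fun v => Yk v / s + η * ek 1 v with hκ
      have hκ0 : ∀ v, 0 ≤ κ v := fun v => add_nonneg (div_nonneg (Yk_nonneg v) hs.le)
        (mul_nonneg hη (ek_pos _ _).le)
      set D : Finset (Fin 3 → ℤ) := (B ×ˢ B).image fun q => q.1 - q.2 with hD
      have h1 : ∀ a b, ∫ θ, G a b θ * ek s⁻¹ (pos Rc ℓ s θ a - pos Rc ℓ s θ b) ∂PT ≤
          (∫ θ, p (pos Rc ℓ s θ a) ∂PT) * κ (Rc a.1 - Rc b.1 + lv ℓ ((a.2 : Fin 3 → ℤ) - (b.2 : Fin 3 → ℤ))) := by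
        intro a b
        rw [← integral_mul_const]
        refine integral_mono_of_nonneg (Eventually.of_forall fun θ => ?_) ((hpa a).mul_const _)
          (Eventually.of_forall fun θ => ?_)
        · exact mul_nonneg (mul_nonneg (mul_nonneg (hp.nn _) (hp.nn _)) (Kη_nonneg hη _)) (ek_pos _ _).le
        · show p (pos Rc ℓ s θ a) * p (pos Rc ℓ s θ b) * Kη η (pos Rc ℓ s θ a - pos Rc ℓ s θ b) *
            ek s⁻¹ (pos Rc ℓ s θ a - pos Rc ℓ s θ b) ≤ _
          rw [pos_sub, mul_assoc, kern_eq hs]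
          refine mul_le_mul_of_nonneg_right ?_ (hκ0 _)
          exact mul_le_of_le_one_right (hp.nn _) (hp.le _)
      have h2 : ∀ a : Fin ν × B, ∑ b ∈ Finset.univ.erase a,
          ∫ θ, G a b θ * ek s⁻¹ (pos Rc ℓ s θ a - pos Rc ℓ s θ b) ∂PT ≤
          (∫ θ, p (pos Rc ℓ s θ a) ∂PT) * ∑ j, ∑ m ∈ D, κ (Rc a.1 - Rc j + lv ℓ m) := by
        intro a
        have hpa0 : 0 ≤ ∫ θ, p (pos Rc ℓ s θ a) ∂PT := integral_nonneg fun θ => hp.nn _
        refine (Finset.sum_le_sum fun b _ => h1 a b).trans ?_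
        rw [← Finset.mul_sum]
        refine mul_le_mul_of_nonneg_left ?_ hpa0
        refine (Finset.sum_le_sum_of_subset_of_nonneg (Finset.erase_subset _ _) fun _ _ _ => hκ0 _).trans ?_
        rw [Fintype.sum_prod_type]
        refine Finset.sum_le_sum fun j _ => ?_
        rw [Finset.sum_coe_sort B (fun m => κ (Rc a.1 - Rc j + lv ℓ ((a.2 : Fin 3 → ℤ) - m)))]
        have hinj : Set.InjOn (fun m : Fin 3 → ℤ => (a.2 : Fin 3 → ℤ) - m) B := fun x _ y _ h => sub_right_injective h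
        rw [← Finset.sum_image (f := fun m => κ (Rc a.1 - Rc j + lv ℓ m)) hinj]
        refine Finset.sum_le_sum_of_subset_of_nonneg ?_ fun _ _ _ => hκ0 _
        intro x hx
        obtain ⟨m, hm, rfl⟩ := Finset.mem_image.1 hx
        exact Finset.mem_image.2 ⟨((a.2 : Fin 3 → ℤ), m), Finset.mem_product.2 ⟨a.2.2, hm⟩, rfl⟩
      refine (Finset.sum_le_sum fun a _ => h2 a).trans ?_
      rw [Fintype.sum_prod_type]
      simp only
      have h3 := (mean_lin (Rc := Rc) (B := B) hℓ hs hp.int hB).1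
      have h4 : ∀ i, ∑ m : B, (∫ θ, p (pos Rc ℓ s θ (i, m)) ∂PT) * ∑ j, ∑ m ∈ D, κ (Rc i - Rc j + lv ℓ m) =
          ((s * ℓ) ^ 3)⁻¹ * (∫ x, p x) * ∑ j, ∑ m ∈ D, κ (Rc i - Rc j + lv ℓ m) := by
        intro i
        rw [← Finset.sum_mul, h3]
      simp_rw [h4]
      rw [← Finset.mul_sum]
      refine mul_le_mul_of_nonneg_left ?_ (mul_nonneg (by positivity) (integral_nonneg hp.nn))
      have h5 : ∑ i, ∑ j, ∑ m ∈ D, κ (Rc i - Rc j + lv ℓ m) =
          (∑ t ∈ (Finset.univ : Finset (Fin ν × Fin ν)) ×ˢ D, Yk (Rc t.1.1 - Rc t.1.2 + lv ℓ t.2)) / s +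
          η * ∑ t ∈ (Finset.univ : Finset (Fin ν × Fin ν)) ×ˢ D, ek 1 (Rc t.1.1 - Rc t.1.2 + lv ℓ t.2) := by
        rw [Finset.sum_div, Finset.mul_sum, ← Finset.sum_add_distrib, Finset.sum_product,
          Fintype.sum_prod_type]
      rw [h5]
      refine add_le_add ?_ ?_
      · exact div_le_div_of_nonneg_right (hAdm.bd _) hs.le
      · exact mul_le_mul_of_nonneg_left (hW _) hη
    have b2 : ∫ x, p x * ∫ y, Ym s⁻¹ (x - y) * p y ≤
        ∫ q, G2 q * ek s⁻¹ (q.1 - q.2) ∂((volume : Measure E3).prod (volume : Measure E3)) := by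
      have hGe : Integrable (fun q : E3 × E3 => G2 q * ek s⁻¹ (q.1 - q.2)) (volume.prod volume) := by
        refine hG2i.mul_bdd (c := 1) ((ek_cont_x s⁻¹).measurable.comp
          (measurable_fst.sub measurable_snd)).aestronglyMeasurable (Eventually.of_forall fun q => ?_)
        rw [Real.norm_eq_abs, abs_of_pos (ek_pos _ _)]; exact ek_le_one ht.le _
      have hYi : ∀ x, Integrable fun y => Ym s⁻¹ (x - y) * p y := fun x => by
        refine ((Ym_int ht).comp_sub_left x).mul_bdd (c := 1) hp.meas.aestronglyMeasurable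
          (Eventually.of_forall fun y => ?_)
        rw [Real.norm_eq_abs]; exact hp.abs y
      rw [integral_prod _ hGe]
      refine integral_mono_of_nonneg (Eventually.of_forall fun x => mul_nonneg (hp.nn x)
        (integral_nonneg fun y => mul_nonneg (Ym_nonneg _ _) (hp.nn y))) hGe.integral_prod_left ?_
      filter_upwards [hGe.prod_right_ae] with x hx
      rw [← integral_const_mul]
      refine integral_mono ((hYi x).const_mul _) hx fun y => ?_
      show p x * (Ym s⁻¹ (x - y) * p y) ≤ p x * p y * Kη η (x - y) * ek s⁻¹ (x - y)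
      unfold Ym Kη
      have h1 := hp.nn x
      have h2 := hp.nn y
      have h3 := (ek_pos s⁻¹ (x - y)).le
      have : p x * p y * (Ck (x - y) + η) * ek s⁻¹ (x - y) =
        p x * (ek s⁻¹ (x - y) * Ck (x - y) * p y) + p x * p y * η * ek s⁻¹ (x - y) := by ring
      rw [this]
      have h4 : 0 ≤ p x * p y * η * ek s⁻¹ (x - y) := by positivity
      linarith
    have c1 : (1/2) * z ^ 2 * (∑ a : Fin ν × B, ∑ b ∈ Finset.univ.erase a,
        ∫ θ, G a b θ * ek s⁻¹ (pos Rc ℓ s θ a - pos Rc ℓ s θ b) ∂PT) ≤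
        (1/2) * z ^ 2 * (((s * ℓ) ^ 3)⁻¹ * (∫ x, p x) * (P / s + η * W₁)) :=
      mul_le_mul_of_nonneg_left b1 (by positivity)
    have c2 : (1/2) * c ^ 2 * (∫ x, p x * ∫ y, Ym s⁻¹ (x - y) * p y) ≤
        (1/2) * c ^ 2 * ∫ q, G2 q * ek s⁻¹ (q.1 - q.2) ∂((volume : Measure E3).prod (volume : Measure E3)) :=
      mul_le_mul_of_nonneg_left b2 (by positivity)
    rw [hL₀]
    linarith
  filter_upwards [hlim.eventually_le_const (show L₀ < L₀ + ε by linarith)] with M hM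
  haveI := PMM_prob (M := M + 1) (RM_pos ht (Nat.succ_pos M))
  obtain ⟨w, hw⟩ := exists_le_integral (hFi M)
  refine ⟨w, ?_⟩
  have h1 : Fm M w ≤ L₀ + ε := hw.trans hM
  have h2 : Fm M w = (1/2) * z ^ 2 * (∑ a : Fin ν × B, ∑ b ∈ Finset.univ.erase a,
        ∫ θ, G a b θ * SM w (pos Rc ℓ s θ a) (pos Rc ℓ s θ b) ∂PT) -
      (1/2) * c ^ 2 * ∫ q, G2 q * SM w q.1 q.2 ∂(volume.prod volume) := rfl
  rw [← h2]
  linarith

end Pool.Agent.Helper985.BM
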