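import Pool.Agent.Helper985.BM.U4

set_option autoImplicit false

open MeasureTheory Filter Topology Set

namespace Pool.Agent.Helper985.BM

open VR

variable {ν : ℕ}

/-- self energy of a density -/
noncomputable def Df (f : E3 → ℝ) : ℝ := ∫ x, f x * Up f x

/-- bounded nonnegative densities with mass one -/
structure Dn (f : E3 → ℝ) : Prop where
  meas : Measurable f
  nn : ∀ x, 0 ≤ f x
  int : Integrable f
  bd : ∃ C : ℝ, ∀ x, |f x| ≤ C
  one : ∫ x, f x = 1

theorem Dn.Up_bd {f : E3 → ℝ} (h : Dn f) : ∃ C : ℝ, 0 ≤ C ∧ ∀ x, |Up f x| ≤ C := by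
  obtain ⟨C, hC⟩ := h.bd
  have hC0 : 0 ≤ C := (abs_nonneg _).trans (hC 0)
  have := c3_pos
  exact ⟨3 * C * c3 + ∫ y, |f y|, add_nonneg (by positivity) (integral_nonneg fun _ => abs_nonneg _),
    fun x => (Ck_conv h.int h.meas hC x).2⟩

theorem Up_nonneg {f : E3 → ℝ} (h : ∀ x, 0 ≤ f x) (x : E3) : 0 ≤ Up f x :=
  integral_nonneg fun y => mul_nonneg (Ck_nonneg _) (h y)

/-- energy of electrons with density `N f` and nuclei -/
noncomputable def Ecl (z N : ℝ) (f : E3 → ℝ) {κ : Type*} [Fintype κ] (R : κ → E3) : ℝ :=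
  (1/2) * N ^ 2 * Df f - z * N * (∑ j, Up f (R j)) + z ^ 2 * rep Ck R

/-- random construction of nuclei -/
theorem assemble {ι : Type} [Fintype ι] [DecidableEq ι] {z ℓ η : ℝ} (hz : 0 < z) (hℓ : 0 < ℓ) (hη : 0 ≤ η)
    {s c : ι → ℝ} (hs : ∀ i, 0 < s i) {Rc : Fin ν → E3} {P : ℝ} (hAdm : Adm ℓ Rc P)
    {B : Finset (Fin 3 → ℤ)} {q : ι → E3 → ℝ} (hq : ∀ i, Wg (q i))
    (hdisj : ∀ i j x, i ≠ j → q i x = 0 ∨ q j x = 0)
    (hB : ∀ i j y, q i (s i • Rc j + (s i * ℓ) • y) ≠ 0 → ci 1 0 y ∈ B)
    (hc : ∀ i, z * (ν * ((s i * ℓ) ^ 3)⁻¹) = c i) {f : E3 → ℝ} (hf : Dn f) {m : ℝ}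
    (hm : ∀ x, ∑ i, c i * q i x = m * f x) (N : ℝ) :
    ∃ (k : ℕ) (R : Fin k → E3), Function.Injective R ∧
      Ecl z N f R + (η / 2) * (z * k - m) ^ 2 ≤
        (1/2) * (N - m) ^ 2 * Df f + (η / 2) * z * m +
          ∑ i, (selfE z η ℓ (s i) Rc B (q i) - mutE η (c i) (q i)) := by
  haveI := PT_prob
  obtain ⟨CU, hCU0, hCU⟩ := hf.Up_bd
  have hUm := Up_meas hf.meas
  set α : E3 → ℝ := fun x => -(z * N) * Up f x + ((η / 2) * z ^ 2 - η * m * z) with hα
  have hαm : Measurable α := (hUm.const_mul _).add_const _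
  have hαb : ∀ x, ‖α x‖ ≤ |z * N| * CU + |(η / 2) * z ^ 2 - η * m * z| := by
    intro x
    refine (norm_add_le _ _).trans ?_
    rw [Real.norm_eq_abs, Real.norm_eq_abs, abs_mul, abs_neg]
    have := mul_le_mul_of_nonneg_left (hCU x) (abs_nonneg (z * N))
    linarith
  have hqα : ∀ i, Integrable fun x => q i x * α x := fun i =>
    (hq i).int.mul_bdd hαm.aestronglyMeasurable (Eventually.of_forall hαb)
  have hpm : ∀ i, ∀ a : Fin ν × B, Measurable fun θ => pos Rc ℓ (s i) θ a := fun i a =>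
    (pos_cont Rc ℓ (s i) a).measurable
  set A1 : ι → E3 → ℝ := fun i θ => ∑ a : Fin ν × B, q i (pos Rc ℓ (s i) θ a) * α (pos Rc ℓ (s i) θ a) with hA1
  set A2 : ι → E3 → ℝ := fun i θ => (1/2) * z ^ 2 * ∑ a : Fin ν × B, ∑ b ∈ Finset.univ.erase a,
    q i (pos Rc ℓ (s i) θ a) * q i (pos Rc ℓ (s i) θ b) *
      Kη η (pos Rc ℓ (s i) θ a - pos Rc ℓ (s i) θ b) with hA2
  set BB : ι → ι → E3 × E3 → ℝ := fun i j p => (1/2) * z ^ 2 * ∑ a : Fin ν × B, ∑ b : Fin ν × B,
    q i (pos Rc ℓ (s i) p.1 a) * q j (pos Rc ℓ (s j) p.2 b) *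
      Kη η (pos Rc ℓ (s i) p.1 a - pos Rc ℓ (s j) p.2 b) with hBB
  -- integrals
  have iA1 : ∀ i, Integrable (A1 i) PT ∧ ∫ θ, A1 i θ ∂PT = (c i / z) * ∫ x, q i x * α x := by
    intro i
    have h1 : ∀ a : Fin ν × B, Integrable (fun θ => q i (pos Rc ℓ (s i) θ a) * α (pos Rc ℓ (s i) θ a)) PT :=
      fun a => mean_one (F := fun x => q i x * α x) hℓ (hs i) (hqα i) a
    refine ⟨integrable_finsetSum _ fun a _ => h1 a, ?_⟩
    rw [hA1]
    simp only
    rw [integral_finsetSum _ fun a _ => h1 a, (mean_lin (F := fun x => q i x * α x) hℓ (hs i) (hqα i)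
      (fun j y hy => hB i j y (left_ne_zero_of_mul hy))).2, ← hc i]
    field_simp
  have iG : ∀ i, ∀ a b : Fin ν × B, Integrable (fun θ => q i (pos Rc ℓ (s i) θ a) * q i (pos Rc ℓ (s i) θ b) *
      Kη η (pos Rc ℓ (s i) θ a - pos Rc ℓ (s i) θ b)) PT := by
    intro i a b
    simp_rw [pos_sub]
    refine Integrable.mul_const ?_ _
    refine Integrable.of_bound (((hq i).meas.comp (hpm i a)).mul ((hq i).meas.comp (hpm i b))).aestronglyMeasurable 1
      (Eventually.of_forall fun θ => ?_)
    rw [Real.norm_eq_abs, abs_mul]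
    exact mul_le_one₀ ((hq i).abs _) (abs_nonneg _) ((hq i).abs _)
  have iA2 : ∀ i, Integrable (A2 i) PT ∧ ∫ θ, A2 i θ ∂PT = selfE z η ℓ (s i) Rc B (q i) := by
    intro i
    refine ⟨(integrable_finsetSum _ fun a _ => integrable_finsetSum _ fun b _ => iG i a b).const_mul _, ?_⟩
    rw [hA2]
    simp only
    rw [integral_const_mul, integral_finsetSum _ fun a _ => integrable_finsetSum _ fun b _ => iG i a b]
    unfold selfE
    congr 1
    exact Finset.sum_congr rfl fun a _ => integral_finsetSum _ fun b _ => iG i a b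
  have iB : ∀ i j, Integrable (BB i j) (PT.prod PT) ∧ ∫ p, BB i j p ∂(PT.prod PT) =
      (1/2) * (c i * c j * ∫ x, q i x * ∫ y, Kη η (x - y) * q j y) := by
    intro i j
    obtain ⟨h1, h2⟩ := mean_pair (Rc := Rc) hℓ (hs i) (hs j) (hq i).meas (hq i).int (hq i).nn (hq j).meas
      (hq j).int (hq j).nn (hq j).le (hB i) (hB j) hη
    refine ⟨h1.const_mul _, ?_⟩
    rw [hBB]
    simp only
    rw [integral_const_mul, h2, ← hc i, ← hc j]
    ring
  obtain ⟨θ, hθ⟩ := select PT (fun i x => A1 i x + A2 i x) (fun i => (iA1 i).1.add (iA2 i).1) BB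
    (fun i j _ => (iB i j).1)
  -- evaluation of the mean
  have hmean : (1/2) * N ^ 2 * Df f + (η / 2) * m ^ 2 + (∑ i, ∫ x, (A1 i x + A2 i x) ∂PT +
      ∑ i, ∑ j ∈ Finset.univ.erase i, ∫ p, BB i j p ∂(PT.prod PT)) =
      (1/2) * (N - m) ^ 2 * Df f + (η / 2) * z * m +
          ∑ i, (selfE z η ℓ (s i) Rc B (q i) - mutE η (c i) (q i)) := by
    have e1 : ∑ i, ∫ x, (A1 i x + A2 i x) ∂PT = (∑ i, (c i / z) * ∫ x, q i x * α x) +
        ∑ i, selfE z η ℓ (s i) Rc B (q i) := by
      rw [← Finset.sum_add_distrib]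
      refine Finset.sum_congr rfl fun i _ => ?_
      rw [integral_add (iA1 i).1 (iA2 i).1, (iA1 i).2, (iA2 i).2]
    have hfα : Integrable fun x => f x * α x := hf.int.mul_bdd hαm.aestronglyMeasurable
      (Eventually.of_forall hαb)
    have hfU : Integrable fun x => f x * Up f x := hf.int.mul_bdd hUm.aestronglyMeasurable
      (Eventually.of_forall fun x => by rw [Real.norm_eq_abs]; exact hCU x)
    have e2 : ∑ i, (c i / z) * ∫ x, q i x * α x = -(m * N * Df f) + (η / 2) * z * m - η * m ^ 2 := by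
      have h1 : ∑ i, (c i / z) * ∫ x, q i x * α x = z⁻¹ * ∫ x, (∑ i, c i * q i x) * α x := by
        simp_rw [Finset.sum_mul]
        rw [integral_finsetSum _ fun i _ => by
          have := (hqα i).const_mul (c i)
          refine this.congr (Eventually.of_forall fun x => ?_)
          simp only; ring]
        rw [Finset.mul_sum]
        refine Finset.sum_congr rfl fun i _ => ?_
        simp_rw [mul_assoc (c i)]
        rw [integral_const_mul]; ring
      rw [h1]
      simp_rw [hm, mul_assoc m]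
      rw [integral_const_mul]
      have h2 : ∫ x, f x * α x = -(z * N) * Df f + ((η / 2) * z ^ 2 - η * m * z) := by
        have h3 : ∀ x, f x * α x = -(z * N) * (f x * Up f x) + ((η / 2) * z ^ 2 - η * m * z) * f x := by
          intro x; rw [hα]; ring
        simp_rw [h3]
        rw [integral_add (hfU.const_mul _) (hf.int.const_mul _), integral_const_mul, integral_const_mul,
          hf.one, mul_one]
        rfl
      rw [h2]; field_simp; ring
    have e3 : ∑ i, ∑ j ∈ Finset.univ.erase i, ∫ p, BB i j p ∂(PT.prod PT) =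
        (1/2) * (m ^ 2 * (Df f + η)) - ∑ i, mutE η (c i) (q i) := by
      have h1 : ∀ i, ∑ j ∈ Finset.univ.erase i, ∫ p, BB i j p ∂(PT.prod PT) =
          (1/2) * ∑ j, c i * c j * (∫ x, q i x * ∫ y, Kη η (x - y) * q j y) - mutE η (c i) (q i) := by
        intro i
        rw [← Finset.add_sum_erase Finset.univ (fun j => c i * c j * (∫ x, q i x * ∫ y, Kη η (x - y) * q j y))
          (Finset.mem_univ i), mul_add, Finset.mul_sum, Finset.sum_congr rfl fun j _ => (iB i j).2]
        unfold mutE; ring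
      simp_rw [h1]
      rw [Finset.sum_sub_distrib, ← Finset.mul_sum]
      congr 2
      -- sum over all pairs
      have hKi : ∀ j x, Integrable fun y => Kη η (x - y) * q j y := fun j x =>
        (Kη_conv (hq j).int (hq j).meas (hq j).abs η x).1
      have hKm : ∀ j, Measurable fun x => ∫ y, Kη η (x - y) * q j y := fun j => by
        have : Measurable fun p : E3 × E3 => Kη η (p.1 - p.2) * q j p.2 :=
          ((Kη_meas η).comp (measurable_fst.sub measurable_snd)).mul ((hq j).meas.comp measurable_snd)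
        exact this.stronglyMeasurable.integral_prod_right.measurable
      have hqK : ∀ i j, Integrable fun x => q i x * ∫ y, Kη η (x - y) * q j y := fun i j => by
        refine (hq i).int.mul_bdd (c := 3 * 1 * c3 + (∫ y, |q j y|) + η * ∫ y, q j y)
          (hKm j).aestronglyMeasurable (Eventually.of_forall fun x => ?_)
        rw [Real.norm_eq_abs, abs_of_nonneg (integral_nonneg fun y => mul_nonneg (Kη_nonneg hη _) ((hq j).nn y)),
          (Kη_conv (hq j).int (hq j).meas (hq j).abs η x).2]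
        have := (le_abs_self _).trans (Ck_conv (hq j).int (hq j).meas (hq j).abs x).2
        linarith
      have h2 : ∀ i j, c i * c j * (∫ x, q i x * ∫ y, Kη η (x - y) * q j y) =
          ∫ x, (c i * q i x) * (c j * ∫ y, Kη η (x - y) * q j y) := by
        intro i j
        rw [← integral_const_mul]; congr 1; ext x; ring
      simp_rw [h2]
      have h3 : ∀ i, ∑ j, ∫ x, (c i * q i x) * (c j * ∫ y, Kη η (x - y) * q j y) =
          ∫ x, (c i * q i x) * (m * ∫ y, Kη η (x - y) * f y) := by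
        intro i
        rw [← integral_finsetSum _ fun j _ => by
          refine ((hqK i j).const_mul (c i * c j)).congr (Eventually.of_forall fun x => ?_)
          simp only; ring]
        congr 1; ext x
        rw [← Finset.mul_sum]
        congr 1
        have h4 : ∀ j, c j * ∫ y, Kη η (x - y) * q j y = ∫ y, Kη η (x - y) * (c j * q j y) := by
          intro j
          rw [← integral_const_mul]; congr 1; ext y; ring
        simp_rw [h4]
        rw [← integral_finsetSum _ fun j _ => by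
          refine ((hKi j x).const_mul (c j)).congr (Eventually.of_forall fun y => ?_)
          simp only; ring]
        rw [← integral_const_mul]
        congr 1; ext y
        rw [← Finset.mul_sum, hm]; ring
      simp_rw [h3]
      obtain ⟨Cf, hCf⟩ := hf.bd
      have hKf : ∀ x, ∫ y, Kη η (x - y) * f y = Up f x + η := by
        intro x
        rw [(Kη_conv hf.int hf.meas hCf η x).2, hf.one, mul_one]; rfl
      simp_rw [hKf]
      have h5 : ∀ i, Integrable fun x => (c i * q i x) * (m * (Up f x + η)) := by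
        intro i
        have h6 : Integrable fun x => q i x * (Up f x + η) :=
          (hq i).int.mul_bdd (c := CU + |η|) (hUm.add_const η).aestronglyMeasurable
            (Eventually.of_forall fun x => (norm_add_le _ _).trans (by
              rw [Real.norm_eq_abs, Real.norm_eq_abs]; have := hCU x; linarith))
        refine (h6.const_mul (c i * m)).congr (Eventually.of_forall fun x => ?_)
        simp only; ring
      rw [← integral_finsetSum _ fun i _ => h5 i]
      simp_rw [← Finset.sum_mul, hm]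
      have h7 : ∀ x, m * f x * (m * (Up f x + η)) = m ^ 2 * (f x * Up f x) + (m ^ 2 * η) * f x := fun x => by ring
      simp_rw [h7]
      rw [integral_add (hfU.const_mul _) (hf.int.const_mul _), integral_const_mul, integral_const_mul,
        hf.one, mul_one]
      unfold Df
      ring
    rw [e1, e2, e3, Finset.sum_sub_distrib]
    ring
  -- weights and rounding
  classical
  set X : ι × (Fin ν × B) → E3 := fun t => pos Rc ℓ (s t.1) (θ t.1) t.2 with hX
  set w : ι × (Fin ν × B) → ℝ := fun t => q t.1 (X t) with hw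
  set γ : ι × (Fin ν × B) → ι × (Fin ν × B) → ℝ := fun t t' =>
    if t = t' then 0 else z ^ 2 * Kη η (X t - X t') with hγ
  obtain ⟨S, hS1, hS2⟩ := rounding (fun t => α (X t)) (γ := γ) (fun t => by simp [hγ])
    (w := w) (fun t => ⟨(hq t.1).nn _, (hq t.1).le _⟩)
  have hGq : Gq (fun t => α (X t)) γ w = ∑ i, (A1 i (θ i) + A2 i (θ i)) +
      ∑ i, ∑ j ∈ Finset.univ.erase i, BB i j (θ i, θ j) := by
    unfold Gq
    rw [Finset.sum_add_distrib, add_assoc]
    congr 1
    · rw [Fintype.sum_prod_type]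
    · rw [Fintype.sum_prod_type]
      simp_rw [Fintype.sum_prod_type (f := fun t : ι × (Fin ν × B) => w (_, _) * w t * γ (_, _) t)]
      rw [← Finset.sum_add_distrib, Finset.mul_sum]
      refine Finset.sum_congr rfl fun i _ => ?_
      rw [Finset.sum_comm, ← Finset.add_sum_erase Finset.univ _ (Finset.mem_univ i), mul_add]
      congr 1
      · rw [hA2]
        simp only
        rw [mul_assoc]
        congr 1
        rw [Finset.mul_sum]
        refine Finset.sum_congr rfl fun a _ => ?_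
        rw [Finset.mul_sum, ← Finset.add_sum_erase Finset.univ _ (Finset.mem_univ a)]
        have e0 : w (i, a) * w (i, a) * γ (i, a) (i, a) = 0 := by simp [hγ]
        rw [e0, zero_add]
        refine Finset.sum_congr rfl fun b hb => ?_
        have hne : (i, a) ≠ (i, b) := fun h => (Finset.ne_of_mem_erase hb) (Prod.ext_iff.1 h).2.symm
        simp only [hγ, if_neg hne, hw, hX]
        ring
      · rw [Finset.mul_sum]
        refine Finset.sum_congr rfl fun j hj => ?_
        rw [hBB]
        simp only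
        rw [mul_assoc]
        congr 1
        rw [Finset.mul_sum]
        refine Finset.sum_congr rfl fun a _ => ?_
        rw [Finset.mul_sum]
        refine Finset.sum_congr rfl fun b _ => ?_
        have hne : (i, a) ≠ (j, b) := fun h => (Finset.ne_of_mem_erase hj) (Prod.ext_iff.1 h).1.symm
        simp only [hγ, if_neg hne, hw, hX]
        ring
  -- the nuclei
  have hXinj : ∀ t ∈ S, ∀ t' ∈ S, X t = X t' → t = t' := by
    intro t ht t' ht' hXX
    have h1 := hS1 t ht
    have h2 := hS1 t' ht'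
    have hi : t.1 = t'.1 := by
      by_contra hne
      rcases hdisj t.1 t'.1 (X t) hne with h | h
      · exact h1 h
      · apply h2
        show q t'.1 (X t') = 0
        rw [← hXX]; exact h
    obtain ⟨i, a⟩ := t
    obtain ⟨i', b⟩ := t'
    simp only at hi
    subst hi
    have h3 : s i • (Rc a.1 - Rc b.1 + lv ℓ ((a.2 : Fin 3 → ℤ) - (b.2 : Fin 3 → ℤ))) = 0 := by
      rw [← pos_sub Rc ℓ (s i) (θ i) a b, sub_eq_zero]; exact hXX
    have h4 := (smul_eq_zero.1 h3).resolve_left (hs i).ne'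
    obtain ⟨h5, h6⟩ := hAdm.sep _ _ _ h4
    have h7 : a.2 = b.2 := Subtype.ext (sub_eq_zero.1 h6)
    rw [Prod.mk.injEq]
    exact ⟨rfl, Prod.ext h5 h7⟩
  let eq : Fin S.card ≃ S := S.equivFin.symm
  refine ⟨S.card, fun k => X (eq k), fun k k' h => eq.injective (Subtype.ext (hXinj _ (eq k).2 _ (eq k').2 h)), ?_⟩
  have s1 : ∀ F : ι × (Fin ν × B) → ℝ, ∑ k, F (eq k) = ∑ t ∈ S, F t := by
    intro F
    rw [← Finset.sum_coe_sort S, ← eq.sum_comp]
  unfold Ecl rep
  have s2 : ∑ k, ∑ k', Ck (X (eq k) - X (eq k')) = ∑ t ∈ S, ∑ t' ∈ S, Ck (X t - X t') := by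
    rw [s1 (fun t => ∑ k', Ck (X t - X (eq k')))]
    exact Finset.sum_congr rfl fun t _ => s1 (fun t' => Ck (X t - X t'))
  rw [s2, s1 (fun t => Up f (X t))]
  have s3 : ∑ t ∈ S, α (X t) = -(z * N) * (∑ t ∈ S, Up f (X t)) + S.card * ((η / 2) * z ^ 2 - η * m * z) := by
    rw [hα]
    simp only
    rw [Finset.sum_add_distrib, ← Finset.mul_sum, Finset.sum_const, nsmul_eq_mul]
  have s4 : ∑ t ∈ S, ∑ t' ∈ S, γ t t' = z ^ 2 * (∑ t ∈ S, ∑ t' ∈ S, Ck (X t - X t')) +
      z ^ 2 * η * ((S.card:ℝ) ^ 2 - S.card) := by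
    have h1 : ∀ t t', γ t t' = z ^ 2 * Ck (X t - X t') + z ^ 2 * η * (1 - if t = t' then 1 else 0) := by
      intro t t'
      by_cases h : t = t'
      · subst h
        simp [hγ, Ck_zero]
      · simp only [hγ, if_neg h, sub_zero, mul_one]
        unfold Kη; ring
    simp_rw [h1, Finset.sum_add_distrib, ← Finset.mul_sum, Finset.sum_sub_distrib]
    have h2 : ∑ t ∈ S, ∑ t' ∈ S, (if t = t' then (1:ℝ) else 0) = S.card := by
      have h3 : ∀ t ∈ S, ∑ t' ∈ S, (if t = t' then (1:ℝ) else 0) = 1 := by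
        intro t ht
        rw [Finset.sum_ite_eq, if_pos ht]
      rw [Finset.sum_congr rfl h3]
      simp
    rw [h2]
    simp only [Finset.sum_const, nsmul_eq_mul, mul_one]
    ring
  rw [s3, s4] at hS2
  rw [hGq] at hS2
  have hfinal := hS2.trans hθ
  rw [← hmean]
  have hsq : (1/2) * N ^ 2 * Df f - z * N * (∑ t ∈ S, Up f (X t)) +
      z ^ 2 * ((1/2) * ∑ t ∈ S, ∑ t' ∈ S, Ck (X t - X t')) + (η / 2) * (z * S.card - m) ^ 2 =
      (1/2) * N ^ 2 * Df f + (η / 2) * m ^ 2 + (-(z * N) * (∑ t ∈ S, Up f (X t)) +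
      S.card * ((η / 2) * z ^ 2 - η * m * z) + (1/2) * (z ^ 2 * (∑ t ∈ S, ∑ t' ∈ S, Ck (X t - X t')) +
      z ^ 2 * η * ((S.card:ℝ) ^ 2 - S.card))) := by ring
  rw [hsq]
  linarith

end Pool.Agent.Helper985.BM
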