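import Pool.Agent.Helper985.BM.U5

set_option autoImplicit false

open MeasureTheory Filter Topology Set

namespace Pool.Agent.Helper985.BM

open VR

variable {ν : ℕ}

/-! ### exponential lattice sums -/

theorem expZ_summable' {c : ℝ} (hc : 0 < c) : Summable fun m : ℤ => Real.exp (-(c * |(m:ℝ)|)) := by
  have h : Summable fun n : ℕ => Real.exp ((n:ℝ) * (-c)) := Real.summable_exp_nat_mul_iff.2 (by linarith)
  refine Summable.of_nat_of_neg ?_ ?_
  · refine h.congr fun n => ?_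
    congr 1
    push_cast
    rw [abs_of_nonneg (Nat.cast_nonneg n)]; ring
  · refine h.congr fun n => ?_
    congr 1
    push_cast
    rw [abs_neg, abs_of_nonneg (Nat.cast_nonneg n)]; ring

theorem lattice_sum' {c : ℝ} (hc : 0 < c) : ∃ C : ℝ, 0 ≤ C ∧ ∀ F : Finset (Fin 3 → ℤ),
    ∑ m ∈ F, Real.exp (-(c * l1 m)) ≤ C := by
  classical
  set T : ℝ := ∑' m : ℤ, Real.exp (-(c * |(m:ℝ)|)) with hT
  have hT0 : 0 ≤ T := tsum_nonneg fun _ => (Real.exp_pos _).le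
  refine ⟨T ^ 3, by positivity, fun F => ?_⟩
  have hsub : F ⊆ Fintype.piFinset fun i : Fin 3 => F.image fun m => m i := by
    intro m hm
    rw [Fintype.mem_piFinset]
    exact fun i => Finset.mem_image_of_mem _ hm
  refine (Finset.sum_le_sum_of_subset_of_nonneg hsub fun _ _ _ => (Real.exp_pos _).le).trans ?_
  have e : ∀ m : Fin 3 → ℤ, Real.exp (-(c * l1 m)) = ∏ i, Real.exp (-(c * |(m i : ℝ)|)) := by
    intro m
    rw [← Real.exp_sum, l1, Finset.sum_neg_distrib, Finset.mul_sum]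
  simp_rw [e]
  rw [← Finset.prod_univ_sum (fun i : Fin 3 => F.image fun m => m i)
    (fun _ (j : ℤ) => Real.exp (-(c * |(j:ℝ)|)))]
  have h : ∀ i : Fin 3, ∑ j ∈ (F.image (fun m => m i) : Finset ℤ), Real.exp (-(c * |(j:ℝ)|)) ≤ T := fun i =>
    (expZ_summable' hc).sum_le_tsum _ fun _ _ => (Real.exp_pos _).le
  calc ∏ i : Fin 3, ∑ j ∈ (F.image (fun m => m i) : Finset ℤ), Real.exp (-(c * |(j:ℝ)|)) ≤ ∏ _i : Fin 3, T :=
        Finset.prod_le_prod (fun i _ => Finset.sum_nonneg fun _ _ => (Real.exp_pos _).le) fun i _ => h i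
    _ = T ^ 3 := by simp

theorem l1_le (ℓ : ℝ) (hℓ : 0 < ℓ) (m : Fin 3 → ℤ) : ℓ / 3 * l1 m ≤ ‖lv ℓ m‖ := by
  have h : ∀ i, ℓ * |(m i : ℝ)| ≤ ‖lv ℓ m‖ := by
    intro i
    have := coord_le (lv ℓ m) i
    rwa [lv_apply, abs_mul, abs_of_pos hℓ] at this
  unfold l1
  have h2 := Finset.sum_le_card_nsmul (Finset.univ : Finset (Fin 3)) (fun i => ℓ * |(m i : ℝ)|) ‖lv ℓ m‖
    fun i _ => h i
  rw [← Finset.mul_sum] at h2
  simp at h2
  linarith

theorem exists_W (Rc : Fin ν → E3) {ℓ : ℝ} (hℓ : 0 < ℓ) : ∃ W₁ : ℝ, 0 ≤ W₁ ∧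
    ∀ F : Finset ((Fin ν × Fin ν) × (Fin 3 → ℤ)),
      ∑ t ∈ F, ek 1 (Rc t.1.1 - Rc t.1.2 + lv ℓ t.2) ≤ W₁ := by
  classical
  obtain ⟨C, hC0, hC⟩ := lattice_sum' (c := ℓ / 3) (by positivity)
  refine ⟨∑ p : Fin ν × Fin ν, Real.exp ‖Rc p.1 - Rc p.2‖ * C, Finset.sum_nonneg fun _ _ => by positivity,
    fun F => ?_⟩
  have hsub : F ⊆ (Finset.univ : Finset (Fin ν × Fin ν)) ×ˢ (F.image fun t => t.2) := by
    intro t ht
    rw [Finset.mem_product]
    exact ⟨Finset.mem_univ _, Finset.mem_image_of_mem _ ht⟩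
  refine (Finset.sum_le_sum_of_subset_of_nonneg hsub fun _ _ _ => (ek_pos _ _).le).trans ?_
  rw [Finset.sum_product]
  refine Finset.sum_le_sum fun p _ => ?_
  have h1 : ∀ m : Fin 3 → ℤ, ek 1 (Rc p.1 - Rc p.2 + lv ℓ m) ≤
      Real.exp ‖Rc p.1 - Rc p.2‖ * Real.exp (-(ℓ / 3 * l1 m)) := by
    intro m
    unfold ek
    rw [← Real.exp_add]
    apply Real.exp_le_exp.2
    have h2 := l1_le ℓ hℓ m
    have h3 : ‖lv ℓ m‖ ≤ ‖Rc p.1 - Rc p.2 + lv ℓ m‖ + ‖Rc p.1 - Rc p.2‖ := by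
      have : lv ℓ m = (Rc p.1 - Rc p.2 + lv ℓ m) - (Rc p.1 - Rc p.2) := by abel
      calc ‖lv ℓ m‖ = ‖(Rc p.1 - Rc p.2 + lv ℓ m) - (Rc p.1 - Rc p.2)‖ := by rw [← this]
        _ ≤ _ := norm_sub_le _ _
    linarith
  refine (Finset.sum_le_sum fun m _ => h1 m).trans ?_
  rw [← Finset.mul_sum]
  exact mul_le_mul_of_nonneg_left (hC _) (Real.exp_pos _).le

/-- finite set of lattice indices meeting a bounded set -/
theorem exists_B {ι : Type*} [Fintype ι] (Rc : Fin ν → E3) {ℓ r : ℝ} (hℓ : 0 < ℓ) (hr : 0 ≤ r)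
    {s : ι → ℝ} (hs : ∀ i, 0 < s i) : ∃ B : Finset (Fin 3 → ℤ), ∀ i j y,
      ‖s i • Rc j + (s i * ℓ) • y‖ ≤ r → ci 1 0 y ∈ B := by
  set Z : ℝ := ∑ i, ∑ j, (r + s i * ‖Rc j‖) / (s i * ℓ) with hZ
  refine ⟨Fintype.piFinset fun _ => Finset.Icc (-(⌈Z⌉ + 1)) (⌈Z⌉ + 1), fun i j y hy => ?_⟩
  have hsℓ : 0 < s i * ℓ := mul_pos (hs i) hℓ
  have h1 : ‖y‖ ≤ (r + s i * ‖Rc j‖) / (s i * ℓ) := by
    rw [le_div_iff₀ hsℓ]
    have h2 : ‖(s i * ℓ) • y‖ ≤ r + s i * ‖Rc j‖ := by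
      have h3 : (s i * ℓ) • y = (s i • Rc j + (s i * ℓ) • y) - s i • Rc j := by abel
      rw [h3]
      refine (norm_sub_le _ _).trans ?_
      rw [norm_smul (s i), Real.norm_eq_abs, abs_of_pos (hs i)]
      linarith
    rw [norm_smul, Real.norm_eq_abs, abs_of_pos hsℓ] at h2
    linarith
  have hnn : ∀ i j, 0 ≤ (r + s i * ‖Rc j‖) / (s i * ℓ) := fun i j => by
    have := hs i
    positivity
  have h2 : ‖y‖ ≤ Z := by
    refine h1.trans ?_
    refine (Finset.single_le_sum (f := fun j => (r + s i * ‖Rc j‖) / (s i * ℓ)) (fun j _ => hnn i j)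
      (Finset.mem_univ j)).trans ?_
    exact Finset.single_le_sum (f := fun i => ∑ j, (r + s i * ‖Rc j‖) / (s i * ℓ))
      (fun i _ => Finset.sum_nonneg fun j _ => hnn i j) (Finset.mem_univ i)
  rw [Fintype.mem_piFinset]
  intro k
  rw [Finset.mem_Icc]
  have h3 := (coord_le y k).trans h2
  rw [abs_le] at h3
  have h4 : Z ≤ ⌈Z⌉ := Int.le_ceil Z
  show -(⌈Z⌉ + 1) ≤ ⌊(y k - 0) / 1⌋ ∧ ⌊(y k - 0) / 1⌋ ≤ ⌈Z⌉ + 1
  rw [sub_zero, div_one]
  constructor
  · rw [Int.le_floor]; push_cast; linarith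
  · have : (⌊y k⌋ : ℝ) ≤ y k := Int.floor_le _
    have h5 : (⌊y k⌋ : ℝ) ≤ (⌈Z⌉ : ℝ) + 1 := by linarith
    exact_mod_cast h5

/-! ### level sets -/

/-- pointwise comparison with the power `4/3` -/
theorem level_point {α β a b d : ℝ} (hα : 0 ≤ α) (hβ : 0 ≤ β) (ha : 0 ≤ a) (hab : a ≤ b)
    (hb : 0 < b) (hbd : b ≤ a + d) :
    α * (b * a ^ 3) - β * (a ^ 6 / b ^ 2) ≤ (α - β) * a ^ 4 + (α + 2 * β) * d * a ^ 3 := by
  have h1 : α * (b * a ^ 3) ≤ α * ((a + d) * a ^ 3) := by gcongr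
  have hd : 0 ≤ d := by linarith
  have h2 : a ^ 4 - a ^ 6 / b ^ 2 ≤ 2 * d * a ^ 3 := by
    have hb2 : 0 < b ^ 2 := by positivity
    have e : a ^ 4 - a ^ 6 / b ^ 2 = a ^ 3 * (a * ((b - a) * (b + a)) / b ^ 2) := by
      field_simp; ring
    rw [e]
    have h3 : a * ((b - a) * (b + a)) / b ^ 2 ≤ 2 * d := by
      rw [div_le_iff₀ hb2]
      have h4 : b - a ≤ d := by linarith
      have h5 : 0 ≤ b - a := by linarith
      calc a * ((b - a) * (b + a)) ≤ b * (d * (b + b)) := by gcongr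
        _ = 2 * d * b ^ 2 := by ring
    calc a ^ 3 * (a * ((b - a) * (b + a)) / b ^ 2) ≤ a ^ 3 * (2 * d) := by gcongr
      _ = _ := by ring
  have h3 := mul_le_mul_of_nonneg_left h2 hβ
  nlinarith

/-- index of the level -/
noncomputable def li (L : ℕ) (Fm : ℝ) (f : E3 → ℝ) (x : E3) : ℕ := min ⌊f x * L / Fm⌋₊ (L - 1)
/-- upper end of the level -/
noncomputable def Fl (L : ℕ) (Fm : ℝ) (k : ℕ) : ℝ := (k + 1) * Fm / L
/-- part of the density in the level -/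
noncomputable def gl (L : ℕ) (Fm : ℝ) (f : E3 → ℝ) (k : ℕ) (x : E3) : ℝ :=
  if li L Fm f x = k then f x else 0

theorem li_lt {L : ℕ} (hL : 0 < L) (Fm : ℝ) (f : E3 → ℝ) (x : E3) : li L Fm f x < L := by
  unfold li; omega

theorem li_meas {L : ℕ} {Fm : ℝ} {f : E3 → ℝ} (hf : Measurable f) (k : ℕ) :
    MeasurableSet {x | li L Fm f x = k} := by
  have h1 : Measurable fun x => ⌊f x * L / Fm⌋₊ := Nat.measurable_floor.comp ((hf.mul_const _).div_const _)
  have h2 : Measurable fun x => li L Fm f x := (measurable_from_top (f := fun a : ℕ => min a (L - 1))).comp h1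
  exact h2 (measurableSet_singleton k)

theorem Fl_pos {L : ℕ} (hL : 0 < L) {Fm : ℝ} (hF : 0 < Fm) (k : ℕ) : 0 < Fl L Fm k := by
  unfold Fl
  have : (0:ℝ) < L := by exact_mod_cast hL
  positivity

theorem li_bd {L : ℕ} (hL : 0 < L) {Fm : ℝ} (hF : 0 < Fm) {f : E3 → ℝ} (h0 : ∀ x, 0 ≤ f x)
    (h1 : ∀ x, f x ≤ Fm) (x : E3) : f x ≤ Fl L Fm (li L Fm f x) ∧ Fl L Fm (li L Fm f x) ≤ f x + Fm / L := by
  have hLR : (0:ℝ) < L := by exact_mod_cast hL
  set t : ℝ := f x * L / Fm with ht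
  have ht0 : 0 ≤ t := div_nonneg (mul_nonneg (h0 x) hLR.le) hF.le
  have hft : f x = t * Fm / L := by rw [ht]; field_simp
  have htL : t ≤ L := by
    rw [ht, div_le_iff₀ hF]
    have := h1 x
    nlinarith
  have e1 : t ≤ (li L Fm f x : ℝ) + 1 := by
    unfold li
    rw [← ht]
    rcases le_total ⌊t⌋₊ (L - 1) with h | h
    · rw [min_eq_left h]
      exact (Nat.lt_floor_add_one t).le
    · rw [min_eq_right h]
      have : ((L - 1 : ℕ) : ℝ) + 1 = L := by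
        have : L - 1 + 1 = L := Nat.sub_add_cancel hL
        exact_mod_cast this
      linarith
  have e2 : (li L Fm f x : ℝ) ≤ t := by
    unfold li
    rw [← ht]
    have h2 : ((min ⌊t⌋₊ (L - 1) : ℕ) : ℝ) ≤ (⌊t⌋₊ : ℝ) := by exact_mod_cast min_le_left _ _
    exact h2.trans (Nat.floor_le ht0)
  unfold Fl
  constructor
  · rw [hft]
    have : t * Fm ≤ ((li L Fm f x : ℝ) + 1) * Fm := by gcongr
    exact div_le_div_of_nonneg_right this hLR.le
  · rw [hft, ← add_div]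
    refine div_le_div_of_nonneg_right ?_ hLR.le
    nlinarith

theorem gl_sum {L : ℕ} (hL : 0 < L) (Fm : ℝ) (f : E3 → ℝ) (x : E3) :
    ∑ k : Fin L, gl L Fm f k x = f x := by
  unfold gl
  rw [Finset.sum_eq_single (⟨li L Fm f x, li_lt hL Fm f x⟩ : Fin L)]
  · simp
  · intro b _ hb
    rw [if_neg]
    intro h
    exact hb (Fin.ext h.symm)
  · intro h; exact absurd (Finset.mem_univ _) h

theorem gl_eq (L : ℕ) (Fm : ℝ) (f : E3 → ℝ) (k : ℕ) :
    gl L Fm f k = {x | li L Fm f x = k}.indicator f := by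
  ext x
  unfold gl
  by_cases h : li L Fm f x = k
  · rw [if_pos h, Set.indicator_of_mem]; exact h
  · rw [if_neg h, Set.indicator_of_notMem]; exact h

theorem gl_nn {L : ℕ} {Fm : ℝ} {f : E3 → ℝ} (h0 : ∀ x, 0 ≤ f x) (k : ℕ) (x : E3) :
    0 ≤ gl L Fm f k x := by
  unfold gl; split_ifs
  · exact h0 x
  · exact le_rfl

theorem gl_le {L : ℕ} (hL : 0 < L) {Fm : ℝ} (hF : 0 < Fm) {f : E3 → ℝ} (h0 : ∀ x, 0 ≤ f x)
    (h1 : ∀ x, f x ≤ Fm) (k : ℕ) (x : E3) : gl L Fm f k x ≤ Fl L Fm k := by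
  unfold gl; split_ifs with h
  · rw [← h]; exact (li_bd hL hF h0 h1 x).1
  · exact (Fl_pos hL hF k).le

theorem gl_Wg {L : ℕ} (hL : 0 < L) {Fm : ℝ} (hF : 0 < Fm) {f : E3 → ℝ} (hf : Dn f)
    (h1 : ∀ x, f x ≤ Fm) (k : ℕ) : Wg fun x => gl L Fm f k x / Fl L Fm k := by
  have hFl := Fl_pos hL hF k
  have hi : Integrable (gl L Fm f k) := by rw [gl_eq]; exact hf.int.indicator (li_meas hf.meas k)
  have hm : Measurable (gl L Fm f k) := by rw [gl_eq]; exact hf.meas.indicator (li_meas hf.meas k)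
  exact ⟨hm.div_const _, fun x => div_nonneg (gl_nn hf.nn k x) hFl.le,
    fun x => (div_le_one hFl).2 (gl_le hL hF hf.nn h1 k x), hi.div_const _⟩

theorem gl_disj (L : ℕ) (Fm : ℝ) (f : E3 → ℝ) {k k' : ℕ} (h : k ≠ k') (x : E3) :
    gl L Fm f k x = 0 ∨ gl L Fm f k' x = 0 := by
  unfold gl
  by_cases hk : li L Fm f x = k
  · right; rw [if_neg]; intro h'; exact h (hk.symm.trans h')
  · left; rw [if_neg hk]

/-- sum over the levels -/
theorem level_sum {L : ℕ} (hL : 0 < L) {Fm : ℝ} (hF : 0 < Fm) {f : E3 → ℝ} (hf : Dn f)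
    (h1 : ∀ x, f x ≤ Fm) {α β : ℝ} (hα : 0 ≤ α) (hβ : 0 ≤ β) :
    ∑ k : Fin L, (α * (Fl L Fm k ^ (1/3:ℝ) * ∫ x, gl L Fm f k x) -
      β * ((∫ x, gl L Fm f k x ^ 2) / (Fl L Fm k ^ (1/3:ℝ)) ^ 2)) ≤
      (α - β) * (∫ x, f x ^ (4/3:ℝ)) + (α + 2 * β) * (Fm / L) ^ (1/3:ℝ) := by
  have hLR : (0:ℝ) < L := by exact_mod_cast hL
  have hgi : ∀ k, Integrable (gl L Fm f k) := fun k => by rw [gl_eq]; exact hf.int.indicator (li_meas hf.meas k)
  have hf2 : Integrable fun x => f x ^ 2 := by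
    obtain ⟨C, hC⟩ := hf.bd
    refine (hf.int.bdd_mul (c := C) hf.meas.aestronglyMeasurable (Eventually.of_forall fun x => ?_)).congr
      (Eventually.of_forall fun x => ?_)
    · rw [Real.norm_eq_abs]; exact hC x
    · simp only; ring
  have hg2 : ∀ k, Integrable fun x => gl L Fm f k x ^ 2 := fun k => by
    have e : (fun x => gl L Fm f k x ^ 2) = {x | li L Fm f x = k}.indicator fun x => f x ^ 2 := by
      ext x
      unfold gl
      by_cases h : li L Fm f x = k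
      · rw [if_pos h, Set.indicator_of_mem]; exact h
      · rw [if_neg h, Set.indicator_of_notMem]
        · norm_num
        · exact h
    rw [e]; exact hf2.indicator (li_meas hf.meas k)
  have hf4 := rpow43_int hf.meas hf.nn hf.int hf2
  have e1 : ∀ k : Fin L, α * (Fl L Fm k ^ (1/3:ℝ) * ∫ x, gl L Fm f k x) -
      β * ((∫ x, gl L Fm f k x ^ 2) / (Fl L Fm k ^ (1/3:ℝ)) ^ 2) =
      ∫ x, (α * (Fl L Fm k ^ (1/3:ℝ) * gl L Fm f k x) - β * (gl L Fm f k x ^ 2 / (Fl L Fm k ^ (1/3:ℝ)) ^ 2)) := by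
    intro k
    rw [integral_sub (((hgi k).const_mul _).const_mul _) (((hg2 k).div_const _).const_mul _),
      integral_const_mul, integral_const_mul, integral_const_mul, integral_div]
  simp_rw [e1]
  have hii : ∀ k : Fin L, Integrable fun x => α * (Fl L Fm k ^ (1/3:ℝ) * gl L Fm f k x) -
      β * (gl L Fm f k x ^ 2 / (Fl L Fm k ^ (1/3:ℝ)) ^ 2) := fun k =>
    (((hgi k).const_mul _).const_mul _).sub (((hg2 k).div_const _).const_mul _)
  rw [← integral_finsetSum _ fun k _ => hii k]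
  have e2 : (α - β) * (∫ x, f x ^ (4/3:ℝ)) + (α + 2 * β) * (Fm / L) ^ (1/3:ℝ) =
      ∫ x, ((α - β) * f x ^ (4/3:ℝ) + (α + 2 * β) * (Fm / L) ^ (1/3:ℝ) * f x) := by
    rw [integral_add (hf4.const_mul _) (hf.int.const_mul _), integral_const_mul, integral_const_mul,
      hf.one, mul_one]
  rw [e2]
  refine integral_mono (integrable_finsetSum _ fun k _ => hii k)
    ((hf4.const_mul _).add (hf.int.const_mul _)) fun x => ?_
  show ∑ k : Fin L, (α * (Fl L Fm k ^ (1/3:ℝ) * gl L Fm f k x) -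
      β * (gl L Fm f k x ^ 2 / (Fl L Fm k ^ (1/3:ℝ)) ^ 2)) ≤ _
  rw [Finset.sum_eq_single (⟨li L Fm f x, li_lt hL Fm f x⟩ : Fin L)]
  · have hg : gl L Fm f (li L Fm f x) x = f x := by unfold gl; simp
    simp only [hg]
    obtain ⟨b1, b2⟩ := li_bd hL hF hf.nn h1 x
    set F := Fl L Fm (li L Fm f x) with hFdef
    have hF0 : 0 < F := Fl_pos hL hF _
    set a := f x ^ (1/3:ℝ) with ha
    set b := F ^ (1/3:ℝ) with hb
    set d := (Fm / L) ^ (1/3:ℝ) with hd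
    have hx0 := hf.nn x
    have hd0 : 0 ≤ Fm / L := by positivity
    have ha3 : a ^ 3 = f x := by rw [ha, ← Real.rpow_natCast, ← Real.rpow_mul hx0]; norm_num
    have hb3 : b ^ 3 = F := by rw [hb, ← Real.rpow_natCast, ← Real.rpow_mul hF0.le]; norm_num
    have hd3 : d ^ 3 = Fm / L := by rw [hd, ← Real.rpow_natCast, ← Real.rpow_mul hd0]; norm_num
    have ha4 : f x ^ (4/3:ℝ) = a ^ 4 := by rw [ha, ← Real.rpow_natCast, ← Real.rpow_mul hx0]; norm_num
    have ha0 : 0 ≤ a := Real.rpow_nonneg hx0 _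
    have hb0 : 0 < b := Real.rpow_pos_of_pos hF0 _
    have hdd0 : 0 ≤ d := Real.rpow_nonneg hd0 _
    have hab : a ≤ b := Real.rpow_le_rpow hx0 b1 (by norm_num)
    have hbd : b ≤ a + d := by
      by_contra hc
      push Not at hc
      have h3 : (a + d) ^ 3 < b ^ 3 := pow_lt_pow_left₀ hc (by positivity) (by norm_num)
      have h4 : a ^ 3 + d ^ 3 ≤ (a + d) ^ 3 := by
        have : (a + d) ^ 3 = a ^ 3 + d ^ 3 + 3 * (a * d * (a + d)) := by ring
        rw [this]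
        have : 0 ≤ a * d * (a + d) := by positivity
        linarith
      rw [ha3, hd3] at h4
      rw [hb3] at h3
      linarith
    have := level_point hα hβ ha0 hab hb0 hbd
    rw [ha4]
    have e3 : a ^ 6 = (f x) ^ 2 := by rw [← ha3]; ring
    rw [e3, ha3] at this
    exact this
  · intro k _ hk
    have : gl L Fm f k x = 0 := by
      unfold gl
      rw [if_neg]
      intro h
      exact hk (Fin.ext h.symm)
    rw [this]; simp
  · intro h; exact absurd (Finset.mem_univ _) h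

end Pool.Agent.Helper985.BM
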