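import Pool.Agent.Helper985.BM.U6

set_option autoImplicit false

open MeasureTheory Filter Topology Set

namespace Pool.Agent.Helper985.BM

open VR

variable {ν : ℕ}

theorem Adm.nonneg {ℓ P : ℝ} {Rc : Fin ν → E3} (h : Adm ℓ Rc P) : 0 ≤ P := by
  simpa using h.bd ∅

theorem cube_cr {x : ℝ} (hx : 0 ≤ x) : (x ^ (1/3:ℝ)) ^ 3 = x := by
  rw [← Real.rpow_natCast, ← Real.rpow_mul hx]; norm_num

theorem cr4 {x : ℝ} (hx : 0 ≤ x) : x ^ (4/3:ℝ) = (x ^ (1/3:ℝ)) ^ 4 := by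
  rw [← Real.rpow_natCast, ← Real.rpow_mul hx]; norm_num

/-- energy of a configuration in terms of cube roots -/
theorem ev_eq {z : ℝ} (hz : 0 < z) (hν : 0 < ν) {ℓ : ℝ} (hℓ : 0 < ℓ) (P : ℝ) {ρ3 : ℝ}
    (hρ : 0 < ρ3) (hρ3 : ρ3 ^ 3 = z * ν / ℓ ^ 3) :
    ev z ν ℓ P = z * P / (2 * ν * ρ3) - (1/2) * c3 * ρ3 ^ 2 := by
  have hνR : (0:ℝ) < ν := by exact_mod_cast hν
  have h0 : (0:ℝ) ≤ z * ν / ℓ ^ 3 := by positivity
  have h1 : (z * ν / ℓ ^ 3) ^ (4/3:ℝ) = ρ3 ^ 4 := by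
    rw [← hρ3, ← Real.rpow_natCast, ← Real.rpow_mul hρ.le, ← Real.rpow_natCast]
    norm_num
  have h2 : z * ν = ρ3 ^ 3 * ℓ ^ 3 := by rw [hρ3]; field_simp
  unfold ev
  rw [h1]
  have h3 : (z * ν) ^ 2 = ρ3 ^ 6 * ℓ ^ 6 := by rw [h2]; ring
  rw [h3, sub_div]
  congr 1
  · rw [div_eq_div_iff (by positivity) (by positivity)]
    have : z ^ 2 * P / 2 * (2 * ν * ρ3) = z * P * ρ3 * (z * ν) := by ring
    rw [this, h2]; ring
  · field_simp

theorem cell_sum_one {M : ℕ} (w : Fin M → Pl) (x : E3) :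
    ∑ l : Fin M → Bool, (cell w l).indicator (fun _ => (1:ℝ)) x = 1 := by
  rw [Finset.sum_eq_single (lab w x)]
  · rw [Set.indicator_of_mem]; rfl
  · intro l _ hl
    rw [Set.indicator_of_notMem]
    intro h; exact hl (show l = lab w x from (show lab w x = l from h).symm)
  · intro h; exact absurd (Finset.mem_univ _) h

/-- construction of nuclei for a given density -/
theorem density_upper {z : ℝ} (hz : 0 < z) (hν : 0 < ν) {ℓ : ℝ} (hℓ : 0 < ℓ) {Rc : Fin ν → E3} {P : ℝ}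
    (hAdm : Adm ℓ Rc P) {f : E3 → ℝ} (hf : Dn f) {r : ℝ} (hr : 0 ≤ r) (hsupp : ∀ x, f x ≠ 0 → ‖x‖ ≤ r)
    {ε : ℝ} (hε : 0 < ε) : ∃ CW m₀ : ℝ, 0 ≤ CW ∧ 0 < m₀ ∧ ∀ m : ℝ, m₀ ≤ m → ∀ N η : ℝ, 0 ≤ η →
    ∃ (k : ℕ) (R : Fin k → E3), Function.Injective R ∧
      Ecl z N f R + (η / 2) * (z * k - m) ^ 2 ≤
        (1/2) * (N - m) ^ 2 * Df f + (η / 2) * z * m + CW * η * m +
          m ^ (4/3:ℝ) * (ev z ν ℓ P * (∫ x, f x ^ (4/3:ℝ)) + ε) := by
  have hνR : (0:ℝ) < ν := by exact_mod_cast hν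
  have hc3 := c3_pos
  have hP := hAdm.nonneg
  obtain ⟨C, hC⟩ := hf.bd
  have hC0 : 0 ≤ C := (abs_nonneg _).trans (hC 0)
  obtain ⟨Fm, hFm⟩ : ∃ Fm : ℝ, Fm = C + 1 := ⟨_, rfl⟩
  have hF : 0 < Fm := by rw [hFm]; positivity
  have hfF : ∀ x, f x ≤ Fm := fun x => by have := (le_abs_self _).trans (hC x); linarith
  obtain ⟨ρ3, hρ0, hρc⟩ : ∃ ρ3 : ℝ, 0 < ρ3 ∧ ρ3 ^ 3 = z * ν / ℓ ^ 3 :=
    ⟨(z * ν / ℓ ^ 3) ^ (1/3:ℝ), Real.rpow_pos_of_pos (by positivity) _, cube_cr (by positivity)⟩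
  obtain ⟨α, hα⟩ : ∃ α : ℝ, α = z * P / (2 * ν * ρ3) := ⟨_, rfl⟩
  obtain ⟨β, hβ⟩ : ∃ β : ℝ, β = (1/2) * c3 * ρ3 ^ 2 := ⟨_, rfl⟩
  have hα0 : 0 ≤ α := by rw [hα]; positivity
  have hβ0 : 0 < β := by rw [hβ]; positivity
  have hev : ev z ν ℓ P = α - β := by rw [hα, hβ]; exact ev_eq hz hν hℓ P hρ0 hρc
  obtain ⟨W₁, hW0, hW⟩ := exists_W Rc hℓ
  -- number of levels
  obtain ⟨L, hLpos, hLb⟩ : ∃ L : ℕ, 0 < L ∧ (α + 2 * β) * (Fm / L) ^ (1/3:ℝ) ≤ ε / 3 := by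
    obtain ⟨δ, hδ⟩ : ∃ δ : ℝ, δ = ε / 3 / (α + 2 * β) := ⟨_, rfl⟩
    have hδ0 : 0 < δ := by rw [hδ]; positivity
    obtain ⟨L, hL⟩ := exists_nat_gt (Fm / δ ^ 3)
    have hLp : (0:ℝ) < L := lt_of_le_of_lt (by positivity) hL
    refine ⟨L, by exact_mod_cast hLp, ?_⟩
    have h1 : Fm / L ≤ δ ^ 3 := by
      rw [div_lt_iff₀ (by positivity)] at hL
      rw [div_le_iff₀ hLp]; linarith
    have h2 : (Fm / L) ^ (1/3:ℝ) ≤ δ := by
      have := Real.rpow_le_rpow (by positivity) h1 (show (0:ℝ) ≤ 1/3 by norm_num)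
      rwa [cube_root hδ0.le] at this
    calc (α + 2 * β) * (Fm / L) ^ (1/3:ℝ) ≤ (α + 2 * β) * δ := by gcongr
      _ = ε / 3 := by rw [hδ]; field_simp
  have hLR : (0:ℝ) < L := by exact_mod_cast hLpos
  have hFl : ∀ k : Fin L, 0 < Fl L Fm k := fun k => Fl_pos hLpos hF k
  set F3 : Fin L → ℝ := fun k => Fl L Fm k ^ (1/3:ℝ) with hF3
  have hF30 : ∀ k, 0 < F3 k := fun k => Real.rpow_pos_of_pos (hFl k) _
  have hF3c : ∀ k, F3 k ^ 3 = Fl L Fm k := fun k => cube_cr (hFl k).le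
  set g : Fin L → E3 → ℝ := fun k => gl L Fm f k with hg
  have hgm : ∀ k, Measurable (g k) := fun k => by
    rw [hg]; simp only; rw [gl_eq]; exact hf.meas.indicator (li_meas hf.meas k)
  have hgi : ∀ k, Integrable (g k) := fun k => by
    rw [hg]; simp only; rw [gl_eq]; exact hf.int.indicator (li_meas hf.meas k)
  have hgn : ∀ k x, 0 ≤ g k x := fun k x => gl_nn hf.nn k x
  have hgL : ∀ k, VR.L2 (g k) := fun k => by
    refine ⟨hgm k, ?_⟩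
    refine ((hgi k).bdd_mul (c := Fl L Fm k) (hgm k).aestronglyMeasurable (Eventually.of_forall fun x => ?_)).congr
      (Eventually.of_forall fun x => ?_)
    · rw [Real.norm_eq_abs, abs_of_nonneg (hgn k x)]; exact gl_le hLpos hF hf.nn hfF k x
    · simp only; ring
  set p : Fin L → E3 → ℝ := fun k x => gl L Fm f k x / Fl L Fm k with hp
  have hpW : ∀ k, Wg (p k) := fun k => gl_Wg hLpos hF hf hfF k
  have hpg : ∀ k x, p k x = g k x / F3 k ^ 3 := fun k x => by rw [hF3c]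
  -- errors
  obtain ⟨ε₂, hε₂⟩ : ∃ ε₂ : ℝ, ε₂ = (ε / 3) / (1 + ∑ k, (1/2) * ρ3 ^ 2 / F3 k ^ 2) := ⟨_, rfl⟩
  have hSum0 : 0 ≤ ∑ k, (1/2) * ρ3 ^ 2 / F3 k ^ 2 := Finset.sum_nonneg fun k _ => by
    have := hF30 k; positivity
  have hε₂0 : 0 < ε₂ := by rw [hε₂]; positivity
  have happ : ∀ k, ∃ T : ℝ, ∀ t : ℝ, T ≤ t → c3 * (∫ x, g k x ^ 2) - ε₂ ≤
      t ^ 2 * ∫ x, g k x * ∫ y, Ym t (x - y) * g k y := by
    intro k
    have h1 := (approx_id (hgL k) (hgn k)).eventually_const_le (show c3 * (∫ x, g k x ^ 2) - ε₂ <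
      c3 * (∫ x, g k x ^ 2) by linarith)
    exact eventually_atTop.1 h1
  choose T hT using happ
  obtain ⟨m₁, hm₁⟩ : ∃ m₁ : ℝ, m₁ = ∑ k, (|T k| * ρ3 / F3 k) ^ 3 := ⟨_, rfl⟩
  have hm₁0 : 0 ≤ m₁ := by
    rw [hm₁]; exact Finset.sum_nonneg fun k _ => by have := hF30 k; positivity
  obtain ⟨m₀, hm₀⟩ : ∃ m₀ : ℝ, m₀ = 1 + m₁ + 3 / ε := ⟨_, rfl⟩
  refine ⟨z * W₁ / (2 * ν), m₀, by positivity, by rw [hm₀]; positivity, ?_⟩
  intro m hm N η hη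
  have hm1 : 1 ≤ m := by
    have : 0 < 3 / ε := by positivity
    linarith
  have hm0 : 0 < m := by linarith
  obtain ⟨M3, hM30, hM3c, hM34, hM31⟩ : ∃ M3 : ℝ, 0 < M3 ∧ M3 ^ 3 = m ∧ m ^ (4/3:ℝ) = M3 ^ 4 ∧ 1 ≤ M3 :=
    ⟨m ^ (1/3:ℝ), Real.rpow_pos_of_pos hm0 _, cube_cr hm0.le, cr4 hm0.le,
      Real.one_le_rpow hm1 (by norm_num)⟩
  -- scales
  set s : Fin L → ℝ := fun k => ρ3 / (M3 * F3 k) with hs
  have hs0 : ∀ k, 0 < s k := fun k => by have := hF30 k; positivity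
  set c : Fin L → ℝ := fun k => m * F3 k ^ 3 with hc
  have hsinv : ∀ k, (s k)⁻¹ = M3 * F3 k / ρ3 := fun k => by rw [hs]; simp only; rw [inv_div]
  have hsc : ∀ k, z * (ν * ((s k * ℓ) ^ 3)⁻¹) = c k := by
    intro k
    have h1 := hF30 k
    have h2 : (s k * ℓ) ^ 3 = z * ν / (m * F3 k ^ 3) := by
      rw [hs]; simp only
      rw [mul_pow, div_pow, mul_pow, hρc, hM3c]; field_simp
    rw [h2, hc]; field_simp
  -- lattice indices
  obtain ⟨B, hB⟩ := exists_B Rc hℓ hr hs0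
  have hBp : ∀ k j y, p k (s k • Rc j + (s k * ℓ) • y) ≠ 0 → ci 1 0 y ∈ B := by
    intro k j y hy
    refine hB k j y (hsupp _ fun h0 => hy ?_)
    rw [hp]
    simp only
    unfold gl
    split_ifs
    · rw [h0, zero_div]
    · rw [zero_div]
  -- planes
  have hlev : ∀ k, ∀ᶠ M : ℕ in atTop, ∃ w : Fin (M + 1) → Pl,
      ∑ l : Fin (M + 1) → Bool,
        (selfE z η ℓ (s k) Rc B (fun x => p k x * (cell w l).indicator (fun _ => (1:ℝ)) x) -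
          mutE η (c k) (fun x => p k x * (cell w l).indicator (fun _ => (1:ℝ)) x)) ≤
      (1/2) * z ^ 2 * (((s k * ℓ) ^ 3)⁻¹ * (∫ x, p k x) * (P / s k + η * W₁)) -
        (1/2) * c k ^ 2 * (∫ x, p k x * ∫ y, Ym (s k)⁻¹ (x - y) * p k y) + 1 / L := fun k =>
    level hη hℓ (hs0 k) hAdm hW (hpW k) (hBp k) (by positivity)
  obtain ⟨M, hM⟩ := (eventually_all.2 hlev).exists
  choose w hw using hM
  -- pieces
  set q : Fin L × (Fin (M + 1) → Bool) → E3 → ℝ := fun i x =>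
    p i.1 x * (cell (w i.1) i.2).indicator (fun _ => (1:ℝ)) x with hq
  obtain ⟨K, R, hR, hE⟩ := assemble (ι := Fin L × (Fin (M + 1) → Bool)) hz hℓ hη
    (s := fun i => s i.1) (c := fun i => c i.1) (fun i => hs0 i.1) hAdm (B := B) (q := q)
    (fun i => (hpW i.1).cut (cell_meas _ _)) (by
      rintro ⟨k, l⟩ ⟨k', l'⟩ x hne
      by_cases hk : k = k'
      · subst hk
        have hl : l ≠ l' := fun h => hne (by rw [h])
        by_cases hx : lab (w k) x = l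
        · right
          rw [hq]; simp only
          rw [Set.indicator_of_notMem, mul_zero]
          intro h; exact hl (hx.symm.trans h)
        · left
          rw [hq]; simp only
          rw [Set.indicator_of_notMem, mul_zero]
          exact hx
      · rcases gl_disj L Fm f (fun h => hk (Fin.ext h)) x with h | h
        · left; rw [hq]; simp only; rw [hp]; simp only; rw [h, zero_div, zero_mul]
        · right; rw [hq]; simp only; rw [hp]; simp only; rw [h, zero_div, zero_mul]) (by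
      rintro ⟨k, l⟩ j y hy
      exact hBp k j y (left_ne_zero_of_mul hy)) (fun i => hsc i.1) hf (m := m) (by
      intro x
      rw [Fintype.sum_prod_type]
      simp only [hq]
      simp_rw [← mul_assoc, ← Finset.mul_sum, cell_sum_one, mul_one]
      rw [← gl_sum hLpos Fm f x, Finset.mul_sum]
      refine Finset.sum_congr rfl fun k _ => ?_
      rw [hc, hp]; simp only
      rw [hF3c]
      have := (hFl k).ne'
      field_simp) N
  refine ⟨K, R, hR, hE.trans ?_⟩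
  -- estimate of the sum
  have hsum : ∑ i : Fin L × (Fin (M + 1) → Bool), (selfE z η ℓ (s i.1) Rc B (q i) - mutE η (c i.1) (q i)) ≤
      ∑ k, ((1/2) * z ^ 2 * (((s k * ℓ) ^ 3)⁻¹ * (∫ x, p k x) * (P / s k + η * W₁)) -
        (1/2) * c k ^ 2 * (∫ x, p k x * ∫ y, Ym (s k)⁻¹ (x - y) * p k y) + 1 / L) := by
    rw [Fintype.sum_prod_type]
    exact Finset.sum_le_sum fun k _ => hw k
  -- first term
  have hpint : ∀ k, c k * ∫ x, p k x = m * ∫ x, g k x := by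
    intro k
    rw [← integral_const_mul, ← integral_const_mul]
    congr 1; ext x
    rw [hpg, hc]
    have := hF30 k
    field_simp
  have hone : ∀ k, (1/2) * z ^ 2 * (((s k * ℓ) ^ 3)⁻¹ * (∫ x, p k x) * (P / s k + η * W₁)) =
      M3 ^ 4 * (α * (F3 k * ∫ x, g k x)) + z * W₁ / (2 * ν) * η * (m * ∫ x, g k x) := by
    intro k
    have h1 : z * ((s k * ℓ) ^ 3)⁻¹ = c k / ν := by rw [← hsc k]; field_simp
    have h2 : P / s k = P * (M3 * F3 k / ρ3) := by rw [div_eq_mul_inv, hsinv]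
    calc (1/2) * z ^ 2 * (((s k * ℓ) ^ 3)⁻¹ * (∫ x, p k x) * (P / s k + η * W₁)) =
        (1/2) * z * (z * ((s k * ℓ) ^ 3)⁻¹) * (∫ x, p k x) * (P / s k + η * W₁) := by ring
      _ = (1/2) * z / ν * (c k * ∫ x, p k x) * (P / s k + η * W₁) := by rw [h1]; ring
      _ = (1/2) * z / ν * (M3 ^ 3 * ∫ x, g k x) * (P * (M3 * F3 k / ρ3)) +
          (1/2) * z / ν * (m * ∫ x, g k x) * (η * W₁) := by rw [hpint, h2, hM3c]; ring
      _ = _ := by rw [hα]; field_simp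
  -- second term
  have htwo : ∀ k, -((1/2) * c k ^ 2 * (∫ x, p k x * ∫ y, Ym (s k)⁻¹ (x - y) * p k y)) ≤
      M3 ^ 4 * (-(β * ((∫ x, g k x ^ 2) / F3 k ^ 2)) + ((1/2) * ρ3 ^ 2 / F3 k ^ 2) * ε₂) := by
    intro k
    have hF := hF30 k
    have h1 : c k ^ 2 * (∫ x, p k x * ∫ y, Ym (s k)⁻¹ (x - y) * p k y) =
        m ^ 2 * (∫ x, g k x * ∫ y, Ym (s k)⁻¹ (x - y) * g k y) := by
      rw [← integral_const_mul, ← integral_const_mul]
      congr 1; ext x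
      have h2 : ∫ y, Ym (s k)⁻¹ (x - y) * p k y = (∫ y, Ym (s k)⁻¹ (x - y) * g k y) / F3 k ^ 3 := by
        rw [← integral_div]; congr 1; ext y; rw [hpg]; ring
      rw [h2, hpg, hc]
      field_simp
    have h3 : c3 * (∫ x, g k x ^ 2) - ε₂ ≤ (M3 * F3 k / ρ3) ^ 2 *
        ∫ x, g k x * ∫ y, Ym (s k)⁻¹ (x - y) * g k y := by
      have h4 : T k ≤ (s k)⁻¹ := by
        rw [hsinv, le_div_iff₀ hρ0]
        have h5 : (|T k| * ρ3 / F3 k) ^ 3 ≤ M3 ^ 3 := by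
          rw [hM3c]
          have h6 : (|T k| * ρ3 / F3 k) ^ 3 ≤ m₁ := by
            rw [hm₁]
            exact Finset.single_le_sum (f := fun k => (|T k| * ρ3 / F3 k) ^ 3)
              (fun k _ => by have := hF30 k; positivity) (Finset.mem_univ k)
          have : 0 < 3 / ε := by positivity
          linarith
        have h7 : |T k| * ρ3 / F3 k ≤ M3 := by
          by_contra hc
          push Not at hc
          have := pow_lt_pow_left₀ hc hM30.le (show (3:ℕ) ≠ 0 by norm_num)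
          linarith
        rw [div_le_iff₀ hF] at h7
        have h8 : T k * ρ3 ≤ |T k| * ρ3 := mul_le_mul_of_nonneg_right (le_abs_self _) hρ0.le
        linarith
      have := hT k _ h4
      rw [hsinv] at this ⊢
      exact this
    set J := ∫ x, g k x * ∫ y, Ym (s k)⁻¹ (x - y) * g k y with hJ
    have h9 : M3 ^ 4 * (ρ3 ^ 2 / F3 k ^ 2) * (c3 * (∫ x, g k x ^ 2) - ε₂) ≤ m ^ 2 * J := by
      have h10 := mul_le_mul_of_nonneg_left h3 (show 0 ≤ M3 ^ 4 * (ρ3 ^ 2 / F3 k ^ 2) by positivity)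
      refine h10.trans (le_of_eq ?_)
      rw [← hM3c]; field_simp
    have h11 : -((1/2) * c k ^ 2 * (∫ x, p k x * ∫ y, Ym (s k)⁻¹ (x - y) * p k y)) = -((1/2) * (m ^ 2 * J)) := by
      rw [mul_assoc, h1]
    rw [h11]
    have h12 : M3 ^ 4 * (-(β * ((∫ x, g k x ^ 2) / F3 k ^ 2)) + ((1/2) * ρ3 ^ 2 / F3 k ^ 2) * ε₂) =
        -((1/2) * (M3 ^ 4 * (ρ3 ^ 2 / F3 k ^ 2) * (c3 * (∫ x, g k x ^ 2) - ε₂))) := by
      rw [hβ]; ring
    rw [h12]
    linarith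
  have hgsum : ∑ k, ∫ x, g k x = 1 := by
    rw [← integral_finsetSum _ fun k _ => hgi k]
    have : ∀ x, ∑ k, g k x = f x := fun x => gl_sum hLpos Fm f x
    simp_rw [this]
    exact hf.one
  have hls := level_sum hLpos hF hf hfF hα0 hβ0.le
  have htot : ∑ k, ((1/2) * z ^ 2 * (((s k * ℓ) ^ 3)⁻¹ * (∫ x, p k x) * (P / s k + η * W₁)) -
        (1/2) * c k ^ 2 * (∫ x, p k x * ∫ y, Ym (s k)⁻¹ (x - y) * p k y) + 1 / L) ≤
      z * W₁ / (2 * ν) * η * m + M3 ^ 4 * (ev z ν ℓ P * (∫ x, f x ^ (4/3:ℝ)) + ε) := by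
    have h1 : ∀ k, (1/2) * z ^ 2 * (((s k * ℓ) ^ 3)⁻¹ * (∫ x, p k x) * (P / s k + η * W₁)) -
        (1/2) * c k ^ 2 * (∫ x, p k x * ∫ y, Ym (s k)⁻¹ (x - y) * p k y) + 1 / L ≤
        M3 ^ 4 * (α * (F3 k * ∫ x, g k x) - β * ((∫ x, g k x ^ 2) / F3 k ^ 2)) +
        z * W₁ / (2 * ν) * η * m * (∫ x, g k x) + M3 ^ 4 * (((1/2) * ρ3 ^ 2 / F3 k ^ 2) * ε₂) + 1 / L := by
      intro k
      have a1 := htwo k
      rw [hone k]
      have e : M3 ^ 4 * (-(β * ((∫ x, g k x ^ 2) / F3 k ^ 2)) + ((1/2) * ρ3 ^ 2 / F3 k ^ 2) * ε₂) =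
        M3 ^ 4 * (- (β * ((∫ x, g k x ^ 2) / F3 k ^ 2))) + M3 ^ 4 * (((1/2) * ρ3 ^ 2 / F3 k ^ 2) * ε₂) := by ring
      rw [e] at a1
      have e2 : M3 ^ 4 * (α * (F3 k * ∫ x, g k x) - β * ((∫ x, g k x ^ 2) / F3 k ^ 2)) =
        M3 ^ 4 * (α * (F3 k * ∫ x, g k x)) + M3 ^ 4 * (- (β * ((∫ x, g k x ^ 2) / F3 k ^ 2))) := by ring
      rw [e2]
      linarith
    refine (Finset.sum_le_sum fun k _ => h1 k).trans ?_
    simp_rw [Finset.sum_add_distrib, ← Finset.mul_sum, ← Finset.sum_mul]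
    rw [hgsum, mul_one]
    have h2 : M3 ^ 4 * ∑ k, (α * (F3 k * ∫ x, g k x) - β * ((∫ x, g k x ^ 2) / F3 k ^ 2)) ≤
        M3 ^ 4 * (ev z ν ℓ P * (∫ x, f x ^ (4/3:ℝ)) + ε / 3) := by
      refine mul_le_mul_of_nonneg_left ?_ (by positivity)
      rw [hev]
      exact hls.trans (by linarith)
    have h3 : (∑ k, (1/2) * ρ3 ^ 2 / F3 k ^ 2) * ε₂ ≤ ε / 3 := by
      rw [hε₂, mul_div_assoc', div_le_iff₀ (by positivity)]
      linarith
    have h4 : M3 ^ 4 * ((∑ k, (1/2) * ρ3 ^ 2 / F3 k ^ 2) * ε₂) ≤ M3 ^ 4 * (ε / 3) :=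
      mul_le_mul_of_nonneg_left h3 (by positivity)
    have h5 : ∑ _k : Fin L, (1:ℝ) / L = 1 := by
      rw [Finset.sum_const, Finset.card_univ, Fintype.card_fin, nsmul_eq_mul]; field_simp
    have h6 : (1:ℝ) ≤ M3 ^ 4 * (ε / 3) := by
      have h7 : 3 / ε ≤ m := by linarith
      have h8 : m ≤ M3 ^ 4 := by
        rw [← hM3c]; exact pow_le_pow_right₀ hM31 (by norm_num)
      rw [div_le_iff₀ hε] at h7
      calc (1:ℝ) ≤ m * ε / 3 := by linarith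
        _ ≤ M3 ^ 4 * ε / 3 := by gcongr
        _ = _ := by ring
    rw [h5]
    have e : M3 ^ 4 * (ev z ν ℓ P * (∫ x, f x ^ (4/3:ℝ)) + ε) =
      M3 ^ 4 * (ev z ν ℓ P * (∫ x, f x ^ (4/3:ℝ)) + ε / 3) + M3 ^ 4 * (ε / 3) + M3 ^ 4 * (ε / 3) := by ring
    rw [e]
    linarith
  rw [hM34]
  linarith

end Pool.Agent.Helper985.BM
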